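import Pool.Agent.EXS.Num

/-!
# Bounds for the jump factor `W`, and the contraction
-/

open MeasureTheory Set Filter Topology

namespace EXS.Num

open EXS

/-- imaginary parts of products -/
theorem im_mul {z w : ℂ} {a b : ℝ} (ha : 0 ≤ a) (hz : |z.im| ≤ a * ‖z‖) (hw : |w.im| ≤ b * ‖w‖) :
    |(z * w).im| ≤ (a + b) * ‖z * w‖ := by
  rw [Complex.mul_im, norm_mul]
  have h1 := Complex.abs_re_le_norm z
  have h2 := Complex.abs_re_le_norm w
  calc |z.re * w.im + z.im * w.re| ≤ |z.re * w.im| + |z.im * w.re| := abs_add_le _ _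
    _ = |z.re| * |w.im| + |z.im| * |w.re| := by rw [abs_mul, abs_mul]
    _ ≤ ‖z‖ * (b * ‖w‖) + (a * ‖z‖) * ‖w‖ := by gcongr
    _ = _ := by ring

theorem im_prod {ι : Type*} (s : Finset ι) {z : ι → ℂ} {a : ι → ℝ} (ha : ∀ i, 0 ≤ a i)
    (h : ∀ i ∈ s, |(z i).im| ≤ a i * ‖z i‖) : |(∏ i ∈ s, z i).im| ≤ (∑ i ∈ s, a i) * ‖∏ i ∈ s, z i‖ := by
  classical
  induction s using Finset.induction_on with
  | empty => simp
  | insert i s hi ih =>
    rw [Finset.prod_insert hi, Finset.sum_insert hi]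
    exact im_mul (ha i) (h i (Finset.mem_insert_self _ _))
      (ih fun j hj => h j (Finset.mem_insert_of_mem hj))

theorem im_real_mul {r : ℝ} {z : ℂ} {a : ℝ} (h : |z.im| ≤ a * ‖z‖) :
    |((r : ℂ) * z).im| ≤ a * ‖(r : ℂ) * z‖ := by
  rw [Complex.im_ofReal_mul, abs_mul, norm_mul, Complex.norm_real, Real.norm_eq_abs]
  nlinarith [abs_nonneg r]

theorem im_div {z w : ℂ} (hw : w ≠ 0) {a : ℝ} (ha : 0 ≤ a)
    (h : (z.im * w.re - z.re * w.im) ^ 2 ≤ a ^ 2 * (Complex.normSq z * Complex.normSq w)) :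
    |(z / w).im| ≤ a * ‖z / w‖ := by
  have hn : 0 < Complex.normSq w := Complex.normSq_pos.2 hw
  refine abs_le_of_sq_le_sq ?_ (by positivity)
  rw [mul_pow, Complex.sq_norm, Complex.normSq_div, Complex.div_im, ← sub_div, div_pow,
    div_le_iff₀ (by positivity)]
  refine h.trans (le_of_eq ?_)
  field_simp

/-- `|T_2 + t|^2`, with sign -/
theorem nsq {X : ℝ} (hX : 1 ≤ X) (t : ℝ) :
    Complex.normSq (T2 X + (t : ℂ)) = X ^ 2 - 3 / 4 + t ^ 2 + t * X := by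
  rw [Complex.normSq_apply]
  have h := T2_normSq hX
  rw [nT_sq hX, T2_re] at h
  simp only [Complex.add_re, Complex.ofReal_re, Complex.add_im, Complex.ofReal_im, add_zero, T2_re]
  nlinarith

theorem nsq' {X : ℝ} (hX : 1 ≤ X) (t : ℝ) :
    Complex.normSq (T2 X - (t : ℂ)) = X ^ 2 - 3 / 4 + t ^ 2 - t * X := by
  have h := nsq hX (-t)
  rw [Complex.ofReal_neg, ← sub_eq_add_neg] at h
  rw [h]
  ring

/-- `(1 - x) / (1 + x) ≤ exp (-2x)` -/
theorem ratio_le {a b : ℝ} (ha : 0 < a) (hb : 0 ≤ b) (hba : b ≤ a) :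
    (a - b) / (a + b) ≤ Real.exp (-(2 * (b / a))) := by
  rcases hba.eq_or_lt with h | h
  · rw [h, sub_self, zero_div]
    exact (Real.exp_pos _).le
  · have h1 : 0 ≤ 2 * b / (a - b) := div_nonneg (by linarith) (by linarith)
    have h2 := Real.le_log_one_add_of_nonneg h1
    have h0 : 0 < a - b := by linarith
    have h3 : 1 + 2 * b / (a - b) = (a + b) / (a - b) := by
      field_simp
      ring
    have h4 : 2 * (2 * b / (a - b)) / (2 * b / (a - b) + 2) = 2 * (b / a) := by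
      have : 2 * b / (a - b) + 2 = 2 * a / (a - b) := by
        field_simp
        ring
      rw [this]
      field_simp
    rw [h3, h4] at h2
    have h5 : 0 < (a + b) / (a - b) := by positivity
    have h6 : (a - b) / (a + b) = Real.exp (-Real.log ((a + b) / (a - b))) := by
      rw [Real.exp_neg, Real.exp_log h5, inv_div]
    rw [h6]
    exact Real.exp_le_exp.2 (by linarith)

theorem ta_sq : ta ^ 2 = 3 / 4 := by
  unfold ta
  rw [div_pow, Real.sq_sqrt (by norm_num)]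
  norm_num

theorem ta_lo : (0.866 : ℝ) < ta := by
  unfold ta
  have := s3_lo
  linarith

theorem ta_hi : ta < (0.8661 : ℝ) := by
  unfold ta
  have := s3_hi
  linarith

theorem T2_add_ne {X t : ℝ} (hX : 1 ≤ X) (ht : 0 ≤ t) : T2 X + (t : ℂ) ≠ 0 := by
  intro h
  have h' := congrArg Complex.re h
  rw [Complex.add_re, Complex.ofReal_re, T2_re, Complex.zero_re] at h'
  linarith

theorem node_im {X t : ℝ} (hX : 1 < X) (ht : ta ≤ t) :
    |((T2 X - (t : ℂ)) / (T2 X + (t : ℂ))).im| ≤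
      √3 * t / X * ‖(T2 X - (t : ℂ)) / (T2 X + (t : ℂ))‖ := by
  have ht0 : 0 < t := lt_of_lt_of_le (by have := ta_lo; linarith) ht
  have hX0 : 0 < X := by linarith
  refine im_div (T2_add_ne hX.le ht0.le) (by positivity) ?_
  rw [nsq hX.le, nsq' hX.le]
  simp only [Complex.add_re, Complex.ofReal_re, Complex.add_im, Complex.ofReal_im, add_zero, T2_re,
    Complex.sub_re, Complex.sub_im, sub_zero]
  have h3 : √3 ^ 2 = (3 : ℝ) := Real.sq_sqrt (by norm_num)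
  have h1 : √(X ^ 2 - 1) ^ 2 = X ^ 2 - 1 := Real.sq_sqrt (by nlinarith)
  have hb : (T2 X).im ^ 2 = 3 / 4 * (X ^ 2 - 1) := by
    rw [T2_im, mul_pow, neg_sq, h1, div_pow √3, h3]
    ring
  have e : ((T2 X).im * (X / 2 + t) - (X / 2 - t) * (T2 X).im) ^ 2 = 3 * t ^ 2 * (X ^ 2 - 1) := by
    have : ((T2 X).im * (X / 2 + t) - (X / 2 - t) * (T2 X).im) ^ 2 = 4 * t ^ 2 * (T2 X).im ^ 2 := by
      ring
    rw [this, hb]
    ring
  rw [e, div_pow, mul_pow, h3, div_mul_eq_mul_div, le_div_iff₀ (by positivity)]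
  have h4 : X ^ 2 * (X ^ 2 - 1) ≤ (X ^ 2 - 3 / 4 + t ^ 2 - t * X) * (X ^ 2 - 3 / 4 + t ^ 2 + t * X) := by
    have h5 : 0 ≤ t ^ 2 - 3 / 4 := by
      rw [← ta_sq]
      nlinarith [ta_lo]
    nlinarith [mul_nonneg h5 (sq_nonneg X), sq_nonneg (t ^ 2 - 3 / 4), sq_nonneg X]
  nlinarith [mul_le_mul_of_nonneg_left h4 (by positivity : 0 ≤ 3 * t ^ 2)]

theorem node_norm {X t : ℝ} (hX : 1 < X) (ht : ta ≤ t) (ht1 : t ≤ 1) :
    ‖(T2 X - (t : ℂ)) / (T2 X + (t : ℂ))‖ ≤ Real.exp (-(0.8 * t / X)) := by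
  have ht0 : 0 < t := lt_of_lt_of_le (by have := ta_lo; linarith) ht
  have hX0 : 0 < X := by linarith
  have h5 : 0 ≤ t ^ 2 - 3 / 4 := by
    rw [← ta_sq]
    nlinarith [ta_lo]
  have hY : 0 < X ^ 2 - 3 / 4 + t ^ 2 := by nlinarith
  refine le_of_sq_le_sq ?_ (Real.exp_pos _).le
  rw [Complex.sq_norm, Complex.normSq_div, nsq hX.le, nsq' hX.le]
  refine (ratio_le hY (by positivity) (by nlinarith)).trans ?_
  rw [← Real.exp_nat_mul]
  refine Real.exp_le_exp.2 ?_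
  have h6 : 0.8 * t / X ≤ t * X / (X ^ 2 - 3 / 4 + t ^ 2) := by
    rw [div_le_div_iff₀ hX0 hY]
    have : 0.8 * (X ^ 2 - 3 / 4 + t ^ 2) ≤ X * X := by nlinarith
    nlinarith
  push_cast
  linarith

/-- one node factor -/
theorem node {X t : ℝ} (hX : 1 < X) (ht : ta ≤ t) (ht1 : t ≤ 1) :
    ‖((X : ℂ) - (t : ℂ)) * (T2 X - (t : ℂ)) / (((X : ℂ) + (t : ℂ)) * (T2 X + (t : ℂ)))‖ ≤
      Real.exp (-(2.8 * t / X)) ∧
    |(((X : ℂ) - (t : ℂ)) * (T2 X - (t : ℂ)) / (((X : ℂ) + (t : ℂ)) * (T2 X + (t : ℂ)))).im| ≤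
      √3 * t / X *
        ‖((X : ℂ) - (t : ℂ)) * (T2 X - (t : ℂ)) / (((X : ℂ) + (t : ℂ)) * (T2 X + (t : ℂ)))‖ := by
  have ht0 : 0 < t := lt_of_lt_of_le (by have := ta_lo; linarith) ht
  have hX0 : 0 < X := by linarith
  have e : ((X : ℂ) - (t : ℂ)) * (T2 X - (t : ℂ)) / (((X : ℂ) + (t : ℂ)) * (T2 X + (t : ℂ))) =
      (((X - t) / (X + t) : ℝ) : ℂ) * ((T2 X - (t : ℂ)) / (T2 X + (t : ℂ))) := by
    push_cast
    rw [mul_div_mul_comm]
  rw [e]
  refine ⟨?_, im_real_mul (node_im hX ht)⟩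
  rw [norm_mul, Complex.norm_real, Real.norm_eq_abs,
    abs_of_nonneg (div_nonneg (by linarith) (by linarith))]
  have h1 := ratio_le hX0 ht0.le (by linarith)
  have h2 := node_norm hX ht ht1
  refine (mul_le_mul h1 h2 (norm_nonneg _) (Real.exp_pos _).le).trans ?_
  rw [← Real.exp_add]
  refine Real.exp_le_exp.2 (le_of_eq ?_)
  ring

/-- the prefactor -/
theorem pre {X : ℝ} (hX : 1 < X) :
    ‖(((X : ℂ) - 1 / 2) / ((X : ℂ) + (ta : ℂ))) * ((T2 X - (ta : ℂ)) / (T2 X + 1 / 2))‖ ≤ 1 ∧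
    |((((X : ℂ) - 1 / 2) / ((X : ℂ) + (ta : ℂ))) * ((T2 X - (ta : ℂ)) / (T2 X + 1 / 2))).im| ≤
      1.68 / X *
        ‖(((X : ℂ) - 1 / 2) / ((X : ℂ) + (ta : ℂ))) * ((T2 X - (ta : ℂ)) / (T2 X + 1 / 2))‖ := by
  have hX0 : 0 < X := by linarith
  have l1 := ta_lo
  have l2 := ta_hi
  have e : (((X : ℂ) - 1 / 2) / ((X : ℂ) + (ta : ℂ))) = (((X - 1 / 2) / (X + ta) : ℝ) : ℂ) := by
    push_cast
    ring
  have e2 : (T2 X + 1 / 2 : ℂ) = T2 X + ((1 / 2 : ℝ) : ℂ) := by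
    push_cast
    ring
  rw [e, e2]
  constructor
  · rw [norm_mul, Complex.norm_real, Real.norm_eq_abs,
      abs_of_nonneg (div_nonneg (by linarith) (by linarith))]
    refine mul_le_one₀ ?_ (norm_nonneg _) ?_
    · rw [div_le_one (by linarith)]
      linarith
    · refine le_of_sq_le_sq ?_ zero_le_one
      rw [Complex.sq_norm, Complex.normSq_div, nsq hX.le, nsq' hX.le, ta_sq, one_pow,
        div_le_one (by nlinarith)]
      nlinarith
  · refine im_real_mul (im_div (T2_add_ne hX.le (by norm_num)) (by positivity) ?_)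
    rw [nsq hX.le, nsq' hX.le]
    simp only [Complex.add_re, Complex.ofReal_re, Complex.add_im, Complex.ofReal_im, add_zero, T2_re,
      Complex.sub_re, Complex.sub_im, sub_zero]
    have h3 : √3 ^ 2 = (3 : ℝ) := Real.sq_sqrt (by norm_num)
    have h1 : √(X ^ 2 - 1) ^ 2 = X ^ 2 - 1 := Real.sq_sqrt (by nlinarith)
    have hb : (T2 X).im ^ 2 = 3 / 4 * (X ^ 2 - 1) := by
      rw [T2_im, mul_pow, neg_sq, h1, div_pow √3, h3]
      ring
    have e3 : ((T2 X).im * (X / 2 + 1 / 2) - (X / 2 - ta) * (T2 X).im) ^ 2 =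
        3 / 4 * (X ^ 2 - 1) * (1 / 2 + ta) ^ 2 := by
      rw [← hb]
      ring
    rw [e3, div_pow, ta_sq, div_mul_eq_mul_div ((1.68 : ℝ) ^ 2) (X ^ 2) _,
      le_div_iff₀ (by positivity : (0:ℝ) < X ^ 2)]
    have h4 : (1 / 2 + ta) ^ 2 ≤ 1.3662 ^ 2 := by nlinarith
    have h5 : X ^ 2 - 3 / 4 + 3 / 4 - ta * X = X * (X - ta) := by ring
    have h6 : X ^ 2 - 3 / 4 + (1 / 2) ^ 2 + 1 / 2 * X = (X + 1) * (X - 1 / 2) := by ring
    rw [h5, h6]
    have h7 : (X - 1) * X ≤ 2 * ((X - ta) * (X - 1 / 2)) := by nlinarith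
    have h8 : 0 ≤ (X + 1) * X := by positivity
    have h9 : (X - 1) * X * ((X + 1) * X) ≤ 2 * ((X - ta) * (X - 1 / 2)) * ((X + 1) * X) :=
      mul_le_mul_of_nonneg_right h7 h8
    have h10 : 0 ≤ (X - 1) * X * ((X + 1) * X) := by
      have : 0 ≤ X - 1 := by linarith
      positivity
    have h11 := mul_le_mul_of_nonneg_left h4 h10
    have h12 : 3 / 4 * (X ^ 2 - 1) * (1 / 2 + ta) ^ 2 * X ^ 2 =
        3 / 4 * ((X - 1) * X * ((X + 1) * X) * (1 / 2 + ta) ^ 2) := by ring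
    rw [h12]
    have h13 : 1.68 ^ 2 * (X * (X - ta) * ((X + 1) * (X - 1 / 2))) =
        1.68 ^ 2 / 2 * (2 * ((X - ta) * (X - 1 / 2)) * ((X + 1) * X)) := by ring
    rw [h13]
    have h14 : 3 / 4 * (1.3662:ℝ) ^ 2 ≤ 1.68 ^ 2 / 2 := by norm_num
    nlinarith

/-- **modulus and imaginary part of the jump factor** -/
theorem Wf_bd {N : ℕ} {τ : Fin N → ℝ} (hτ : ∀ k, ta ≤ τ k ∧ τ k ≤ 1) {X : ℝ} (hX : 1 < X) :
    ‖Wf τ X‖ ≤ Real.exp (-(2.8 * (∑ k, τ k) / X)) ∧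
      |(Wf τ X).im| ≤ (1.68 + √3 * ∑ k, τ k) / X * ‖Wf τ X‖ := by
  have hX0 : 0 < X := by linarith
  have hn : ∀ k, 0 < τ k := fun k => lt_of_lt_of_le (by have := ta_lo; linarith) (hτ k).1
  obtain ⟨p1, p2⟩ := pre hX
  constructor
  · unfold Wf
    rw [norm_mul, norm_prod]
    have h : ∏ k, ‖((X : ℂ) - (τ k : ℂ)) * (T2 X - (τ k : ℂ)) /
        (((X : ℂ) + (τ k : ℂ)) * (T2 X + (τ k : ℂ)))‖ ≤ ∏ k, Real.exp (-(2.8 * τ k / X)) :=
      Finset.prod_le_prod (fun k _ => norm_nonneg _) fun k _ => (node hX (hτ k).1 (hτ k).2).1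
    rw [← Real.exp_sum] at h
    refine (mul_le_mul p1 h (Finset.prod_nonneg fun k _ => norm_nonneg _) zero_le_one).trans
      (le_of_eq ?_)
    rw [one_mul, Finset.sum_neg_distrib, ← Finset.sum_div, ← Finset.mul_sum]
  · have h := im_prod Finset.univ (z := fun k => ((X : ℂ) - (τ k : ℂ)) * (T2 X - (τ k : ℂ)) /
      (((X : ℂ) + (τ k : ℂ)) * (T2 X + (τ k : ℂ)))) (a := fun k => √3 * τ k / X)
      (fun k => by have := hn k; positivity) fun k _ => (node hX (hτ k).1 (hτ k).2).2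
    have h2 := im_mul (by positivity) p2 h
    unfold Wf
    refine h2.trans (le_of_eq ?_)
    rw [← Finset.sum_div, ← Finset.mul_sum]
    ring

/-- `N ≥ 20` nodes: the imaginary part of `W` is at most `1/4` -/
theorem Wf_im {N : ℕ} (hN : 20 ≤ N) {τ : Fin N → ℝ} (hτ : ∀ k, ta ≤ τ k ∧ τ k ≤ 1) {X : ℝ}
    (hX : 1 < X) : |(Wf τ X).im| ≤ 1 / 4 := by
  have hX0 : 0 < X := by linarith
  obtain ⟨h1, h2⟩ := Wf_bd hτ hX
  set s := ∑ k, τ k with hs
  have hs1 : 17.32 ≤ s := by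
    have h3 : ∑ _k : Fin N, (0.866 : ℝ) ≤ s :=
      Finset.sum_le_sum fun k _ => ta_lo.le.trans (hτ k).1
    rw [Finset.sum_const, Finset.card_univ, Fintype.card_fin, nsmul_eq_mul] at h3
    have h4 : (20 : ℝ) ≤ N := by exact_mod_cast hN
    linarith
  set y := 2.8 * s / X with hy
  have hy0 : 0 < y := by positivity
  have h5 : y * Real.exp (-y) ≤ 0.3679 := by
    have h6 := Real.add_one_le_exp (y - 1)
    have h7 : y ≤ Real.exp (y - 1) := by linarith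
    have h8 : y * Real.exp (-y) ≤ Real.exp (y - 1) * Real.exp (-y) :=
      mul_le_mul_of_nonneg_right h7 (Real.exp_pos _).le
    rw [← Real.exp_add, show y - 1 + -y = -1 by ring] at h8
    have h9 := Real.exp_neg_one_lt_d9
    linarith
  have h10 : (1.68 + √3 * s) / X ≤ 1.8291 * s / X := by
    refine div_le_div_of_nonneg_right ?_ hX0.le
    have := s3_hi
    nlinarith
  have h11 : 1.8291 * s / X = 1.8291 / 2.8 * y := by
    rw [hy]
    ring
  calc |(Wf τ X).im| ≤ (1.68 + √3 * s) / X * ‖Wf τ X‖ := h2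
    _ ≤ (1.8291 / 2.8 * y) * Real.exp (-y) := by
        rw [← h11]
        exact mul_le_mul h10 h1 (norm_nonneg _) (by positivity)
    _ = 1.8291 / 2.8 * (y * Real.exp (-y)) := by ring
    _ ≤ 1.8291 / 2.8 * 0.3679 := by gcongr
    _ ≤ 1 / 4 := by norm_num

theorem Wf_le_one {N : ℕ} {τ : Fin N → ℝ} (hτ : ∀ k, ta ≤ τ k ∧ τ k ≤ 1) {X : ℝ} (hX : 1 < X) :
    ‖Wf τ X‖ ≤ 1 := by
  refine (Wf_bd hτ hX).1.trans (Real.exp_le_one_iff.2 ?_)
  have : 0 ≤ ∑ k, τ k := Finset.sum_nonneg fun k _ => by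
    have := ta_lo
    linarith [(hτ k).1]
  have hX0 : 0 < X := by linarith
  have : 0 ≤ 2.8 * (∑ k, τ k) / X := by positivity
  linarith

theorem contraction : ∃ N0 : ℕ, ∀ N : ℕ, N0 ≤ N → ∀ τ : Fin N → ℝ, (∀ k, ta ≤ τ k ∧ τ k ≤ 1) →
    ∀ (f : ℝ → ℝ) (M : ℝ), 0 ≤ M → Measurable f → Bd f M → Bd (KW (Wf τ) f) (4 / 5 * M) := by
  refine ⟨20, fun N hN τ hτ f M _ hf hM X hX => ?_⟩
  have h := contr (W := Wf τ X) ((Complex.abs_re_le_norm _).trans (Wf_le_one hτ hX))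
    (Wf_im hN hτ hX) hX.le hf.aestronglyMeasurable hM
  refine le_trans (le_of_eq ?_) h
  unfold KW Wt Cf
  congr 2
  ring

/-- the modulus -/
theorem Wf_norm {N : ℕ} {τ : Fin N → ℝ} (hτ : ∀ k, ta ≤ τ k ∧ τ k ≤ 1) {X : ℝ} (hX : 1 < X) :
    ‖Wf τ X‖ ≤ Real.exp (-((N : ℝ) / X)) := by
  refine (Wf_bd hτ hX).1.trans (Real.exp_le_exp.2 (neg_le_neg ?_))
  refine div_le_div_of_nonneg_right ?_ (by linarith)
  have h3 : ∑ _k : Fin N, (0.866 : ℝ) ≤ ∑ k, τ k :=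
    Finset.sum_le_sum fun k _ => ta_lo.le.trans (hτ k).1
  rw [Finset.sum_const, Finset.card_univ, Fintype.card_fin, nsmul_eq_mul] at h3
  have h4 : (0 : ℝ) ≤ N := Nat.cast_nonneg N
  linarith

end EXS.Num
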