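import Pool.Agent.EXS.Disp

/-!
# Dispersion relation in the variable `X = cosh η`

`f` even, real, analytic in `|Re w| < π`, continuous on the closed strip, exponentially decaying:
`f(w0) = (1/π) ∫_1^∞ F(X) dX/(X + cos w0)`, `F(cosh η) = Im f(π + i η)`.
-/

open Complex Set MeasureTheory Filter Topology

namespace EXS

noncomputable section

lemma cosh_inj : InjOn Real.cosh (Ioi (0:ℝ)) := by
  intro x hx y hy h
  have hx' : (0:ℝ) < x := hx
  have hy' : (0:ℝ) < y := hy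
  rcases lt_trichotomy x y with h1 | h1 | h1
  · have := Real.cosh_lt_cosh.2 (by rwa [abs_of_pos hx', abs_of_pos hy'] : |x| < |y|)
    linarith
  · exact h1
  · have := Real.cosh_lt_cosh.2 (by rwa [abs_of_pos hx', abs_of_pos hy'] : |y| < |x|)
    linarith

lemma cosh_image : Real.cosh '' (Ioi (0:ℝ)) = Ioi 1 := by
  ext X
  constructor
  · rintro ⟨η, hη, rfl⟩
    exact Real.one_lt_cosh.2 (ne_of_gt hη)
  · intro hX
    have hX' : (1:ℝ) < X := hX
    refine ⟨Real.arcosh X, ?_, Real.cosh_arcosh hX'.le⟩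
    exact Real.arcosh_pos hX'

/-- change of variables `X = cosh η` (complex valued). -/
lemma integral_cosh (g : ℝ → ℂ) :
    ∫ X in Ioi (1:ℝ), g X = ∫ η in Ioi (0:ℝ), (Real.sinh η : ℂ) * g (Real.cosh η) := by
  have h := integral_image_eq_integral_abs_deriv_smul (f := Real.cosh) (f' := Real.sinh)
    measurableSet_Ioi (fun x _ => (Real.hasDerivAt_cosh x).hasDerivWithinAt) cosh_inj g
  rw [cosh_image] at h
  rw [h]
  refine setIntegral_congr_fun measurableSet_Ioi fun η hη => ?_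
  rw [abs_of_pos (Real.sinh_pos_iff.2 hη), Complex.real_smul]

lemma integrable_cosh (g : ℝ → ℂ) :
    IntegrableOn g (Ioi (1:ℝ)) ↔
      IntegrableOn (fun η => (Real.sinh η : ℂ) * g (Real.cosh η)) (Ioi (0:ℝ)) := by
  have h := integrableOn_image_iff_integrableOn_abs_deriv_smul (f := Real.cosh) (f' := Real.sinh)
    measurableSet_Ioi (fun x _ => (Real.hasDerivAt_cosh x).hasDerivWithinAt) cosh_inj g
  rw [cosh_image] at h
  rw [h]
  refine integrableOn_congr_fun (fun η hη => ?_) measurableSet_Ioi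
  rw [abs_of_pos (Real.sinh_pos_iff.2 hη), Complex.real_smul]

/-- dispersion relation in the strip `|Re w| < π`, variable `η`. -/
theorem disp_w {b C : ℝ} (hb : 0 < b) {f : ℂ → ℂ}
    (hc : ContinuousOn f {z : ℂ | |z.re| ≤ Real.pi}) {S : Set ℂ} (hS : S.Countable)
    (hd : ∀ z : ℂ, |z.re| < Real.pi → z ∉ S → DifferentiableAt ℂ f z) {w0 : ℂ}
    (hx : |w0.re| < Real.pi) (hd0 : DifferentiableAt ℂ f w0)
    (hf : ∀ z : ℂ, |z.re| ≤ Real.pi → ‖f z‖ ≤ C * Real.exp (-b * |z.im|))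
    (heven : ∀ z : ℂ, |z.re| = Real.pi → f (-z) = f z)
    (hreal : ∀ z : ℂ, |z.re| = Real.pi → f (starRingEnd ℂ z) = starRingEnd ℂ (f z)) :
    IntegrableOn (fun η : ℝ => ((f (Real.pi + η * I)).im : ℂ) * (Complex.sinh η /
      (Complex.cosh η + Complex.cos w0))) (Ioi 0) ∧
    f w0 = (1 / (Real.pi : ℂ)) * ∫ η in Ioi (0:ℝ), ((f (Real.pi + η * I)).im : ℂ) *
      (Complex.sinh η / (Complex.cosh η + Complex.cos w0)) := by
  have hpi := Real.pi_pos
  have hκ : (1/2 : ℝ) = Real.pi / (2 * Real.pi) := by field_simp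
  have h := disp_even hpi hb hκ hc hS hd hx hd0 hf heven hreal
  have e : ∀ u : ℂ, 2 * ((1/2 : ℝ) : ℂ) * u = u := by intro u; push_cast; ring
  simp only [e] at h
  refine ⟨h.1, ?_⟩
  rw [h.2]
  have : (Real.pi : ℂ) ≠ 0 := by exact_mod_cast hpi.ne'
  field_simp

/-- dispersion relation in the strip `|Re w| < π`, variable `X = cosh η`. -/
theorem disp_X {b C : ℝ} (hb : 0 < b) {f : ℂ → ℂ}
    (hc : ContinuousOn f {z : ℂ | |z.re| ≤ Real.pi}) {S : Set ℂ} (hS : S.Countable)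
    (hd : ∀ z : ℂ, |z.re| < Real.pi → z ∉ S → DifferentiableAt ℂ f z) {w0 : ℂ}
    (hx : |w0.re| < Real.pi) (hd0 : DifferentiableAt ℂ f w0)
    (hf : ∀ z : ℂ, |z.re| ≤ Real.pi → ‖f z‖ ≤ C * Real.exp (-b * |z.im|))
    (heven : ∀ z : ℂ, |z.re| = Real.pi → f (-z) = f z)
    (hreal : ∀ z : ℂ, |z.re| = Real.pi → f (starRingEnd ℂ z) = starRingEnd ℂ (f z))
    {F : ℝ → ℝ} (hF : ∀ η : ℝ, 0 < η → F (Real.cosh η) = (f (Real.pi + η * I)).im) :
    IntegrableOn (fun X : ℝ => (F X : ℂ) / (X + Complex.cos w0)) (Ioi 1) ∧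
    f w0 = (1 / (Real.pi : ℂ)) * ∫ X in Ioi (1:ℝ), (F X : ℂ) / (X + Complex.cos w0) := by
  obtain ⟨h1, h2⟩ := disp_w hb hc hS hd hx hd0 hf heven hreal
  constructor
  · rw [integrable_cosh]
    refine IntegrableOn.congr_fun h1 (fun η hη => ?_) measurableSet_Ioi
    rw [hF η hη]
    push_cast
    ring
  · rw [h2, integral_cosh]
    congr 1
    refine setIntegral_congr_fun measurableSet_Ioi fun η hη => ?_
    rw [hF η hη]
    push_cast
    ring

end

end EXS
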