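import Pool.Agent.EXS.WDefs
import Pool.Agent.EXS.DispX

/-! SHARP S5: from the analytic function to the integral equation. -/

set_option autoImplicit false

namespace EXS

open MeasureTheory Filter Topology

/-- dispersion lemma in the strip |Re w| ≤ π -/
theorem dispersion {f : ℂ → ℂ} (cont : ContinuousOn f {w | |w.re| ≤ Real.pi})
    (diff : DifferentiableOn ℂ f {w | |w.re| < Real.pi}) (even : ∀ w, f (-w) = f w)
    (real : ∀ w, f (starRingEnd ℂ w) = starRingEnd ℂ (f w)) {C a : ℝ} (ha : 0 < a)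
    (bd : ∀ w : ℂ, |w.re| ≤ Real.pi → ‖f w‖ ≤ C * Real.exp (-(a * |w.im|))) {w : ℂ} (h0 : 0 < w.re)
    (h1 : w.re < Real.pi) {F : ℝ → ℝ}
    (hF : ∀ η : ℝ, 0 < η → F (Real.cosh η) = (f ((Real.pi : ℂ) + Complex.I * (η : ℂ))).im) :
    f w = Cf F (Complex.cos w) := by
  have hopen : IsOpen {w : ℂ | |w.re| < Real.pi} := isOpen_lt (by fun_prop) continuous_const
  have hd : ∀ z : ℂ, |z.re| < Real.pi → DifferentiableAt ℂ f z := fun z hz =>
    (diff z hz).differentiableAt (hopen.mem_nhds hz)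
  have hw : |w.re| < Real.pi := by rw [abs_of_pos h0]; exact h1
  obtain ⟨-, h2⟩ := disp_X (b := a) (C := C) ha cont (S := ∅) Set.countable_empty (fun z hz _ => hd z hz) hw (hd w hw)
    (fun z hz => by rw [neg_mul]; exact bd z hz) (fun z _ => even z) (fun z _ => real z) (F := F)
    (fun η hη => by rw [hF η hη, mul_comm])
  rw [h2]
  unfold Cf
  push_cast
  rfl

theorem T2_cosh5 {η : ℝ} (hη : 0 ≤ η) :
    Complex.cos (((Real.pi / 3 : ℝ) : ℂ) + Complex.I * (η : ℂ)) = T2 (Real.cosh η) := by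
  have h1 : Real.sqrt (Real.cosh η ^ 2 - 1) = Real.sinh η := by
    rw [Real.cosh_sq, add_sub_cancel_right, Real.sqrt_sq (Real.sinh_nonneg_iff.2 hη)]
  rw [mul_comm Complex.I, Complex.cos_add_mul_I, ← Complex.ofReal_cos, ← Complex.ofReal_cosh, ← Complex.ofReal_sin,
    ← Complex.ofReal_sinh]
  unfold T2 ta
  rw [h1, Real.cos_pi_div_three, Real.sin_pi_div_three]
  apply Complex.ext
  · simp only [Complex.sub_re, Complex.mul_re, Complex.mul_im, Complex.ofReal_re, Complex.ofReal_im, Complex.I_re,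
      Complex.I_im]
    ring
  · simp only [Complex.sub_im, Complex.mul_re, Complex.mul_im, Complex.ofReal_re, Complex.ofReal_im, Complex.I_re,
      Complex.I_im]
    ring

/-- cos (w/4) -/
noncomputable def CC (w : ℂ) : ℂ := Complex.cos (w / 4)

/-- the base function (c - cst)/T as a rational function of C = cos (w/4) -/
noncomputable def eE (w : ℂ) : ℂ :=
  (4 * (CC w ^ 2 + CC w * (Real.cos (Real.pi / 8) : ℂ) + (Real.cos (Real.pi / 8) : ℂ) ^ 2) - 3) /
    (8 * (CC w + (Real.cos (Real.pi / 8) : ℂ)) * (CC w ^ 2 - (Real.sin (Real.pi / 8) : ℂ) ^ 2))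

lemma cos_w (w : ℂ) : Complex.cos w = 8 * CC w ^ 4 - 8 * CC w ^ 2 + 1 := by
  have h : w = 2 * (2 * (w / 4)) := by ring
  unfold CC
  conv_lhs => rw [h, Complex.cos_two_mul, Complex.cos_two_mul]
  ring

lemma cos_3w (w : ℂ) : Complex.cos (3 * w / 4) = 4 * CC w ^ 3 - 3 * CC w := by
  have h : 3 * w / 4 = 3 * (w / 4) := by ring
  rw [h, Complex.cos_three_mul]
  rfl

lemma cst_eq : cst = Real.sin (Real.pi / 8) := by
  unfold cst
  rw [← Real.cos_pi_div_two_sub]
  congr 1
  ring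

lemma cst_cos : cst = 4 * Real.cos (Real.pi / 8) ^ 3 - 3 * Real.cos (Real.pi / 8) := by
  unfold cst
  rw [← Real.cos_three_mul]
  congr 1
  ring

lemma c0_s0 : Real.cos (Real.pi / 8) ^ 2 + Real.sin (Real.pi / 8) ^ 2 = 1 := by
  have := Real.sin_sq_add_cos_sq (Real.pi / 8)
  linarith

lemma c0s0 : 8 * Real.cos (Real.pi / 8) ^ 2 * Real.sin (Real.pi / 8) ^ 2 = 1 := by
  have h := Real.sin_two_mul (Real.pi / 8)
  have h2 : 2 * (Real.pi / 8) = Real.pi / 4 := by ring
  rw [h2, Real.sin_pi_div_four] at h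
  have h3 : (2 * Real.sin (Real.pi / 8) * Real.cos (Real.pi / 8)) ^ 2 = (Real.sqrt 2 / 2) ^ 2 := by rw [← h]
  have h4 : (Real.sqrt 2 / 2) ^ 2 = 1 / 2 := by
    rw [div_pow, Real.sq_sqrt (by norm_num : (0:ℝ) ≤ 2)]
    norm_num
  rw [h4] at h3
  nlinarith [h3]

lemma CC_re {w : ℂ} (hw : |w.re| ≤ Real.pi) : Real.cos (Real.pi / 4) ≤ (CC w).re := by
  have h1 : (CC w).re = Real.cos (w.re / 4) * Real.cosh (w.im / 4) := by
    unfold CC
    have h : w / 4 = ((w.re / 4 : ℝ) : ℂ) + ((w.im / 4 : ℝ) : ℂ) * Complex.I := by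
      apply Complex.ext <;> simp
    rw [h, Complex.cos_add_mul_I, ← Complex.ofReal_cos, ← Complex.ofReal_cosh, ← Complex.ofReal_sin,
      ← Complex.ofReal_sinh]
    simp only [Complex.sub_re, Complex.mul_re, Complex.mul_im, Complex.ofReal_re, Complex.ofReal_im, Complex.I_re,
      Complex.I_im]
    ring
  rw [h1]
  have h2 : Real.cos (Real.pi / 4) ≤ Real.cos (w.re / 4) := by
    rw [← Real.cos_abs (w.re / 4)]
    apply Real.cos_le_cos_of_nonneg_of_le_pi (abs_nonneg _) (by linarith [Real.pi_pos])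
    rw [abs_div]
    have : |(4:ℝ)| = 4 := by norm_num
    rw [this]
    linarith
  have h3 : 0 < Real.cos (Real.pi / 4) := by
    rw [Real.cos_pi_div_four]
    positivity
  nlinarith [Real.one_le_cosh (w.im / 4)]

lemma CC_re_pos {w : ℂ} (hw : |w.re| ≤ Real.pi) : 0 < (CC w).re := by
  have h := CC_re hw
  rw [Real.cos_pi_div_four] at h
  have : 0 < Real.sqrt 2 / 2 := by positivity
  linarith

lemma c0_pos : 0 < Real.cos (Real.pi / 8) := by
  apply Real.cos_pos_of_mem_Ioo
  constructor <;> linarith [Real.pi_pos]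

lemma s0_lt : Real.sin (Real.pi / 8) < Real.cos (Real.pi / 4) := by
  rw [← Real.cos_pi_div_two_sub]
  apply Real.cos_lt_cos_of_nonneg_of_le_pi <;> linarith [Real.pi_pos]

lemma s0_pos : 0 < Real.sin (Real.pi / 8) := by
  apply Real.sin_pos_of_pos_of_lt_pi <;> linarith [Real.pi_pos]

lemma den1 {w : ℂ} (hw : |w.re| ≤ Real.pi) : CC w + (Real.cos (Real.pi / 8) : ℂ) ≠ 0 := by
  intro h
  have h1 := congrArg Complex.re h
  rw [Complex.add_re, Complex.ofReal_re, Complex.zero_re] at h1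
  linarith [CC_re_pos hw, c0_pos]

lemma den2 {w : ℂ} (hw : |w.re| ≤ Real.pi) : CC w ^ 2 - (Real.sin (Real.pi / 8) : ℂ) ^ 2 ≠ 0 := by
  intro h
  have h1 : (CC w - (Real.sin (Real.pi / 8) : ℂ)) * (CC w + (Real.sin (Real.pi / 8) : ℂ)) = 0 := by
    linear_combination h
  rcases mul_eq_zero.1 h1 with h2 | h2
  · have h3 := congrArg Complex.re h2
    rw [Complex.sub_re, Complex.ofReal_re, Complex.zero_re] at h3
    linarith [CC_re hw, s0_lt]
  · have h3 := congrArg Complex.re h2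
    rw [Complex.add_re, Complex.ofReal_re, Complex.zero_re] at h3
    linarith [CC_re_pos hw, s0_pos]

lemma CC_diff : Differentiable ℂ CC := by
  unfold CC
  fun_prop

lemma eE_diff {w : ℂ} (hw : |w.re| ≤ Real.pi) : DifferentiableAt ℂ eE w := by
  unfold eE
  have h := CC_diff w
  refine DifferentiableAt.div (by fun_prop) (by fun_prop) ?_
  exact mul_ne_zero (mul_ne_zero (by norm_num) (den1 hw)) (den2 hw)

lemma CC_neg (w : ℂ) : CC (-w) = CC w := by
  unfold CC
  rw [neg_div, Complex.cos_neg]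

lemma CC_conj (w : ℂ) : CC (starRingEnd ℂ w) = starRingEnd ℂ (CC w) := by
  unfold CC
  rw [← Complex.cos_conj, map_div₀, map_ofNat]

lemma eE_neg (w : ℂ) : eE (-w) = eE w := by
  unfold eE
  rw [CC_neg]

lemma eE_conj (w : ℂ) : eE (starRingEnd ℂ w) = starRingEnd ℂ (eE w) := by
  unfold eE
  rw [CC_conj]
  simp only [map_div₀, map_sub, map_mul, map_add, map_pow, Complex.conj_ofReal, map_ofNat]

/-- away from the zeros of the cosine -/
lemma eE_eq {w : ℂ} (hw : |w.re| ≤ Real.pi) (hc : Complex.cos w ≠ 0) :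
    eE w = (Complex.cos (3 * w / 4) - (cst : ℂ)) / Complex.cos w := by
  have h1 := den1 hw
  have h2 := den2 hw
  have e1 : (cst : ℂ) = 4 * (Real.cos (Real.pi / 8) : ℂ) ^ 3 - 3 * (Real.cos (Real.pi / 8) : ℂ) := by
    rw [cst_cos]
    push_cast
    ring
  have e2 : ((Real.cos (Real.pi / 8) : ℝ) : ℂ) ^ 2 + ((Real.sin (Real.pi / 8) : ℝ) : ℂ) ^ 2 = 1 := by
    have := congrArg (fun x : ℝ => (x : ℂ)) c0_s0
    push_cast at this
    push_cast
    exact this
  have e3 : 8 * ((Real.cos (Real.pi / 8) : ℝ) : ℂ) ^ 2 * ((Real.sin (Real.pi / 8) : ℝ) : ℂ) ^ 2 = 1 := by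
    have := congrArg (fun x : ℝ => (x : ℂ)) c0s0
    push_cast at this
    push_cast
    exact this
  rw [eq_div_iff hc, cos_w, cos_3w, e1]
  unfold eE
  rw [div_mul_eq_mul_div, div_eq_iff (mul_ne_zero (mul_ne_zero (by norm_num) h1) h2)]
  generalize CC w = c
  generalize ((Real.cos (Real.pi / 8) : ℝ) : ℂ) = a at *
  generalize ((Real.sin (Real.pi / 8) : ℝ) : ℂ) = b at *
  have key : 8 * c ^ 4 - 8 * c ^ 2 + 1 = 8 * (c ^ 2 - a ^ 2) * (c ^ 2 - b ^ 2) := by
    linear_combination (8 * c ^ 2) * e2 - e3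
  rw [key]
  ring

lemma arcosh_pos' {X : ℝ} (hX : 1 < X) : 0 < Real.arcosh X := by
  have h1 := Real.cosh_arcosh hX.le
  have h0 : 0 ≤ Real.arcosh X := Real.arcosh_nonneg hX.le
  rcases h0.lt_or_eq with h | h
  · exact h
  · rw [← h, Real.cosh_zero] at h1
    linarith

lemma cos_zero_re {w : ℂ} (hc : Complex.cos w = 0) : w.im = 0 := by
  rw [Complex.cos_eq_zero_iff] at hc
  obtain ⟨k, hk⟩ := hc
  rw [hk]
  have : (2 * (k : ℂ) + 1) * (Real.pi : ℂ) / 2 = (((2 * (k : ℝ) + 1) * Real.pi / 2 : ℝ) : ℂ) := by push_cast; ring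
  rw [this, Complex.ofReal_im]

lemma im_eE {η : ℝ} (hη : 0 < η) :
    (eE ((Real.pi : ℂ) + Complex.I * (η : ℂ))).im = sh (Real.cosh η) := by
  have hre : |((Real.pi : ℂ) + Complex.I * (η : ℂ)).re| ≤ Real.pi := by
    simp [abs_of_pos Real.pi_pos]
  have hcos : Complex.cos ((Real.pi : ℂ) + Complex.I * (η : ℂ)) = ((-Real.cosh η : ℝ) : ℂ) := by
    rw [mul_comm, add_comm, Complex.cos_add_pi, Complex.cos_mul_I]
    push_cast
    rfl
  have hne : Complex.cos ((Real.pi : ℂ) + Complex.I * (η : ℂ)) ≠ 0 := by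
    rw [hcos, Complex.ofReal_ne_zero]
    have := Real.cosh_pos η
    linarith
  rw [eE_eq hre hne, hcos]
  have h3 : (3 * ((Real.pi : ℂ) + Complex.I * (η : ℂ)) / 4) =
      ((3 * Real.pi / 4 : ℝ) : ℂ) + ((3 / 4 * η : ℝ) : ℂ) * Complex.I := by
    push_cast
    ring
  rw [h3, Complex.cos_add_mul_I, ← Complex.ofReal_cos, ← Complex.ofReal_cosh, ← Complex.ofReal_sin,
      ← Complex.ofReal_sinh]
  have h4 : Real.sin (3 * Real.pi / 4) = Real.sqrt 2 / 2 := by
    have : 3 * Real.pi / 4 = Real.pi - Real.pi / 4 := by ring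
    rw [this, Real.sin_pi_sub, Real.sin_pi_div_four]
  rw [Complex.div_ofReal_im]
  simp only [Complex.sub_im, Complex.mul_re, Complex.mul_im, Complex.ofReal_re, Complex.ofReal_im, Complex.I_re,
      Complex.I_im]
  rw [h4]
  unfold sh
  rw [Real.arcosh_cosh hη.le]
  have h5 : Real.sqrt 2 ≠ 0 := by positivity
  have h6 := (Real.cosh_pos η).ne'
  have h7 : Real.sqrt 2 * Real.sqrt 2 = 2 := Real.mul_self_sqrt (by norm_num)
  field_simp
  linear_combination (Real.sinh (3 * η / 4)) * h7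

lemma eE_c2 {X : ℝ} (hX : 1 < X) : eE (((Real.pi / 3 : ℝ) : ℂ) + Complex.I * (Real.arcosh X : ℂ)) =
    (c2 X - (cst : ℂ)) / T2 X := by
  have hre : |(((Real.pi / 3 : ℝ) : ℂ) + Complex.I * (Real.arcosh X : ℂ)).re| ≤ Real.pi := by
    simp only [Complex.add_re, Complex.ofReal_re, Complex.mul_re, Complex.I_re, Complex.I_im, Complex.ofReal_im]
    rw [abs_of_pos (by simp [Real.pi_pos])]
    simp
    linarith [Real.pi_pos]
  have hcos := T2_cosh5 (arcosh_pos' hX).le
  rw [Real.cosh_arcosh hX.le] at hcos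
  have hne : T2 X ≠ 0 := by
    intro h
    have := congrArg Complex.re h
    unfold T2 at this
    simp at this
    linarith
  rw [eE_eq hre (by rw [hcos]; exact hne), hcos]
  congr 2
  unfold c2
  congr 1
  push_cast
  ring

lemma re_pi (η : ℝ) : ((Real.pi : ℂ) + Complex.I * (η : ℂ)).re = Real.pi := by simp

lemma im_pi (η : ℝ) : ((Real.pi : ℂ) + Complex.I * (η : ℂ)).im = η := by simp

/-- apply dispersion to U and to V = U - (c - cst)/T (removable point π/2) -/
theorem integral_eq {N : ℕ} {τ : Fin N → ℝ} {U : ℂ → ℂ} (hU : UF τ U) :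
    ∃ v : ℝ → ℝ, Measurable v ∧ (∃ M : ℝ, Bd v M) ∧ (∀ X : ℝ, 1 < X → v X = src (Wf τ) X + KW (Wf τ) v X) ∧
      U ((Real.pi / 2 : ℝ) : ℂ) = (((1 / Real.pi) * ∫ X in Set.Ioi (1 : ℝ), (v X + sh X) / X : ℝ) : ℂ) := by
  classical
  obtain ⟨CU, hCU⟩ := hU.bd
  obtain ⟨CV, hCV⟩ := hU.asy
  -- V
  set V : ℂ → ℂ := fun w => U w - eE w with hV
  have Vcont : ContinuousOn V {w | |w.re| ≤ Real.pi} :=
    hU.cont.sub fun w hw => (eE_diff hw).continuousAt.continuousWithinAt
  have Vdiff : DifferentiableOn ℂ V {w | |w.re| < Real.pi} :=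
    hU.diff.sub fun w hw => (eE_diff (le_of_lt hw)).differentiableWithinAt
  have Veven : ∀ w, V (-w) = V w := fun w => by
    simp only [hV]
    rw [hU.even, eE_neg]
  have Vreal : ∀ w, V (starRingEnd ℂ w) = starRingEnd ℂ (V w) := fun w => by
    simp only [hV]
    rw [hU.real, eE_conj, map_sub]
  -- the bound of V, also at the zeros of the cosine
  have hK : IsCompact ((fun x : ℝ => (x : ℂ)) '' Set.Icc (-Real.pi) Real.pi) :=
    isCompact_Icc.image Complex.continuous_ofReal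
  have hKs : ((fun x : ℝ => (x : ℂ)) '' Set.Icc (-Real.pi) Real.pi) ⊆ {w : ℂ | |w.re| ≤ Real.pi} := by
    rintro w ⟨x, hx, rfl⟩
    show |((x : ℝ) : ℂ).re| ≤ Real.pi
    rw [Complex.ofReal_re]
    exact abs_le.2 hx
  obtain ⟨C0, hC0⟩ := hK.exists_bound_of_continuousOn (Vcont.mono hKs)
  have Vbd : ∀ w : ℂ, |w.re| ≤ Real.pi → ‖V w‖ ≤ (|CV| + |C0|) * Real.exp (-(1 * |w.im|)) := by
    intro w hw
    rw [one_mul]
    by_cases hc : Complex.cos w = 0
    · have him := cos_zero_re hc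
      have hwr : w = ((w.re : ℝ) : ℂ) := by
        apply Complex.ext
        · simp
        · simpa using him
      have h1 := hC0 w ⟨w.re, abs_le.1 hw, hwr.symm⟩
      rw [him, abs_zero, neg_zero, Real.exp_zero, mul_one]
      linarith [le_abs_self C0, abs_nonneg CV]
    · have h1 := hCV w hw
      rw [← eE_eq hw hc] at h1
      have h2 := Real.exp_pos (-|w.im|)
      calc ‖V w‖ ≤ CV * Real.exp (-|w.im|) := h1
        _ ≤ (|CV| + |C0|) * Real.exp (-|w.im|) := by
          apply mul_le_mul_of_nonneg_right _ h2.le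
          linarith [le_abs_self CV, abs_nonneg C0]
  -- the boundary function
  set g : ℝ → ℝ := fun X => (V ((Real.pi : ℂ) + Complex.I * (Real.arcosh X : ℂ))).im with hg
  have gcont : ContinuousOn g (Set.Ioi 1) := by
    have h1 : ContinuousOn (fun X : ℝ => (Real.pi : ℂ) + Complex.I * (Real.arcosh X : ℂ)) (Set.Ioi 1) := by
      have h2 : ContinuousOn Real.arcosh (Set.Ioi 1) := Real.continuousOn_arcosh.mono fun X hX => Set.mem_Ici.2 (le_of_lt (Set.mem_Ioi.1 hX))
      exact continuousOn_const.add (continuousOn_const.mul (Complex.continuous_ofReal.comp_continuousOn h2))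
    have h3 : ContinuousOn (fun X : ℝ => V ((Real.pi : ℂ) + Complex.I * (Real.arcosh X : ℂ))) (Set.Ioi 1) :=
      Vcont.comp h1 fun X _ => by
        show |((Real.pi : ℂ) + Complex.I * (Real.arcosh X : ℂ)).re| ≤ Real.pi
        rw [re_pi, abs_of_pos Real.pi_pos]
    exact Complex.continuous_im.comp_continuousOn h3
  set v : ℝ → ℝ := (Set.Ioi (1:ℝ)).piecewise g (fun _ => 0) with hv
  have vm : Measurable v := gcont.measurable_piecewise continuousOn_const measurableSet_Ioi
  have vX : ∀ X : ℝ, 1 < X → v X = g X := fun X hX => Set.piecewise_eq_of_mem _ _ _ (Set.mem_Ioi.2 hX)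
  have vη : ∀ η : ℝ, 0 < η → v (Real.cosh η) = (V ((Real.pi : ℂ) + Complex.I * (η : ℂ))).im := by
    intro η hη
    rw [vX _ (Real.one_lt_cosh.2 hη.ne'), hg]
    simp only
    rw [Real.arcosh_cosh hη.le]
  -- the values of U on the boundary
  have uη : ∀ η : ℝ, 0 < η → v (Real.cosh η) + sh (Real.cosh η) = (U ((Real.pi : ℂ) + Complex.I * (η : ℂ))).im := by
    intro η hη
    rw [vη η hη, ← im_eE hη, hV]
    simp only [Complex.sub_im]
    ring
  have hpi := Real.pi_pos
  refine ⟨v, vm, ⟨|CV| + |C0|, ?_⟩, ?_, ?_⟩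
  · intro X hX
    rw [vX X hX, hg]
    simp only
    set η := Real.arcosh X with hη
    have hη0 : 0 < η := arcosh_pos' hX
    have h1 := Vbd ((Real.pi : ℂ) + Complex.I * (η : ℂ)) (by rw [re_pi, abs_of_pos hpi])
    rw [im_pi, abs_of_pos hη0, one_mul] at h1
    have h2 : Real.exp (-η) ≤ X ^ (-(3 / 4) : ℝ) := by
      have h3 : X ≤ Real.exp η := by
        rw [← Real.cosh_arcosh hX.le, ← hη]
        rw [Real.cosh_eq]
        have : Real.exp (-η) ≤ Real.exp η := Real.exp_le_exp.2 (by linarith)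
        linarith
      have h4 : Real.exp (-η) ≤ X⁻¹ := by
        rw [Real.exp_neg]
        exact inv_anti₀ (by linarith) h3
      have h5 : X⁻¹ ≤ X ^ (-(3 / 4) : ℝ) := by
        rw [← Real.rpow_neg_one]
        exact Real.rpow_le_rpow_of_exponent_le hX.le (by norm_num)
      exact h4.trans h5
    calc |(V ((Real.pi : ℂ) + Complex.I * (η : ℂ))).im| ≤ ‖V ((Real.pi : ℂ) + Complex.I * (η : ℂ))‖ :=
          Complex.abs_im_le_norm _
      _ ≤ (|CV| + |C0|) * Real.exp (-η) := h1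
      _ ≤ (|CV| + |C0|) * X ^ (-(3 / 4) : ℝ) := by
          apply mul_le_mul_of_nonneg_left h2
          positivity
  · intro X hX
    set η := Real.arcosh X with hη
    have hη0 : 0 < η := arcosh_pos' hX
    have hXc : Real.cosh η = X := Real.cosh_arcosh hX.le
    have h1 := uη η hη0
    rw [hU.jump η hη0, hXc] at h1
    -- V at π/3 + i η
    have h2 := dispersion Vcont Vdiff Veven Vreal one_pos Vbd (w := ((Real.pi / 3 : ℝ) : ℂ) + Complex.I * (η : ℂ))
      (by simp [hpi]) (by simp; linarith) (F := v) vη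
    rw [T2_cosh5 hη0.le, hXc] at h2
    have h3 : U (((Real.pi / 3 : ℝ) : ℂ) + Complex.I * (η : ℂ)) = (c2 X - (cst : ℂ)) / T2 X + Cf v (T2 X) := by
      rw [← h2, ← eE_c2 hX, hV]
      simp only
      rw [← hη]
      ring
    rw [h3, mul_add, Complex.add_im] at h1
    unfold src KW
    linarith
  · have h2 := dispersion hU.cont hU.diff hU.even hU.real (a := 1 / 4) (C := CU) (by norm_num)
      (fun w hw => by
        have := hCU w hw
        rwa [show |w.im| / 4 = 1 / 4 * |w.im| by ring] at this) (w := ((Real.pi / 2 : ℝ) : ℂ))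
      (by rw [Complex.ofReal_re]; linarith) (by rw [Complex.ofReal_re]; linarith)
      (F := fun X => v X + sh X) uη
    rw [h2, ← Complex.ofReal_cos, Real.cos_pi_div_two]
    unfold Cf
    push_cast
    congr 1
    rw [← integral_complex_ofReal]
    apply setIntegral_congr_fun measurableSet_Ioi
    intro X _
    push_cast
    simp

end EXS
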