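import Pool.Agent.EXS.WDefs

/-! SHARP S6: measurability; `c2`, `sh`. -/

set_option autoImplicit false

namespace EXS

open MeasureTheory Filter Topology Set

theorem arcosh_meas : Measurable Real.arcosh := by
  have : Real.arcosh = fun x => Real.log (x + √(x ^ 2 - 1)) := rfl
  rw [this]
  fun_prop

theorem T2_meas : Measurable T2 := by
  have h1 : T2 = fun X : ℝ => ((X / 2 : ℝ) : ℂ) + ((-(ta * √(X ^ 2 - 1)) : ℝ) : ℂ) * Complex.I := by
    funext X
    apply Complex.ext <;> simp [T2]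
  rw [h1]
  fun_prop

theorem c2_meas : Measurable c2 := by
  unfold c2
  have := arcosh_meas
  fun_prop

theorem sh_meas : Measurable sh := by
  unfold sh
  have := arcosh_meas
  fun_prop

theorem Wf_meas {N : ℕ} (τ : Fin N → ℝ) : Measurable (Wf τ) := by
  unfold Wf
  have := T2_meas
  fun_prop

theorem Wt_meas {W : ℝ → ℂ} (hW : Measurable W) : Measurable (Wt W) := by
  unfold Wt
  have := T2_meas
  fun_prop

theorem src_meas {W : ℝ → ℂ} (hW : Measurable W) : Measurable (src W) := by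
  unfold src
  have h1 := T2_meas
  have h2 := c2_meas
  have h3 := sh_meas
  have h4 := Wt_meas hW
  fun_prop

theorem Cf_meas {f : ℝ → ℝ} (hf : Measurable f) : Measurable (fun X => Cf f (T2 X)) := by
  have h1 : StronglyMeasurable (Function.uncurry fun (X x : ℝ) => (f x : ℂ) / ((x : ℂ) + T2 X)) := by
    have h0 := T2_meas
    apply Measurable.stronglyMeasurable
    have h00 : Measurable (fun p : ℝ × ℝ => T2 p.1) := h0.comp measurable_fst
    simp only [Function.uncurry_def]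
    fun_prop
  have h2 := (StronglyMeasurable.integral_prod_right (ν := volume.restrict (Ioi (1:ℝ))) h1).measurable
  unfold Cf
  exact h2.const_mul _

theorem KW_meas {W : ℝ → ℂ} (hW : Measurable W) {f : ℝ → ℝ} (hf : Measurable f) :
    Measurable (KW W f) := by
  unfold KW
  have h4 := Wt_meas hW
  have h5 := Cf_meas hf
  exact Complex.measurable_im.comp (h4.mul h5)

theorem exp_arcosh' {X : ℝ} (hX : 1 ≤ X) : Real.exp (Real.arcosh X) = X + √(X ^ 2 - 1) := by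
  rw [Real.arcosh, Real.exp_log]
  have := Real.sqrt_nonneg (X ^ 2 - 1)
  linarith

theorem exp_34_arcosh {X : ℝ} (hX : 1 ≤ X) :
    Real.exp (3 / 4 * Real.arcosh X) = (X + √(X ^ 2 - 1)) ^ (3 / 4 : ℝ) := by
  rw [← exp_arcosh' hX, ← Real.exp_mul, mul_comm]

theorem arcosh_pow_le {X : ℝ} (hX : 1 ≤ X) :
    Real.exp (3 / 4 * Real.arcosh X) ≤ 2 * X ^ (3 / 4 : ℝ) := by
  rw [exp_34_arcosh hX]
  have h1 : √(X ^ 2 - 1) ≤ X := by
    rw [Real.sqrt_le_left (by linarith)]; linarith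
  have h2 : (X + √(X ^ 2 - 1)) ^ (3 / 4 : ℝ) ≤ (2 * X) ^ (3 / 4 : ℝ) := by
    apply Real.rpow_le_rpow _ (by linarith) (by norm_num)
    have := Real.sqrt_nonneg (X ^ 2 - 1)
    linarith
  refine h2.trans ?_
  rw [Real.mul_rpow (by norm_num) (by linarith)]
  have h3 : (2:ℝ) ^ (3 / 4 : ℝ) ≤ 2 := by
    calc (2:ℝ) ^ (3 / 4 : ℝ) ≤ 2 ^ (1:ℝ) := Real.rpow_le_rpow_of_exponent_le (by norm_num) (by norm_num)
      _ = 2 := Real.rpow_one _
  exact mul_le_mul_of_nonneg_right h3 (by positivity)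

/-- `|cos(a + i y)| ≤ cosh y`. -/
theorem norm_cos_add_le (a y : ℝ) : ‖Complex.cos (a + Complex.I * (y : ℂ))‖ ≤ Real.cosh y := by
  rw [Complex.cos, norm_div, Complex.norm_ofNat, Real.cosh_eq]
  have h1 : ‖Complex.exp ((a + Complex.I * (y : ℂ)) * Complex.I)‖ = Real.exp (-y) := by
    rw [Complex.norm_exp]
    congr 1
    simp
  have h2 : ‖Complex.exp (-(a + Complex.I * (y : ℂ)) * Complex.I)‖ = Real.exp y := by
    rw [Complex.norm_exp]
    congr 1
    simp
  have h3 := norm_add_le (Complex.exp ((a + Complex.I * (y : ℂ)) * Complex.I))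
    (Complex.exp (-(a + Complex.I * (y : ℂ)) * Complex.I))
  rw [h1, h2] at h3
  linarith

theorem c2_norm_le {X : ℝ} (hX : 1 ≤ X) : ‖c2 X‖ ≤ 2 * X ^ (3 / 4 : ℝ) := by
  have h0 := Real.arcosh_nonneg hX
  have h1 := norm_cos_add_le (Real.pi / 4) (3 / 4 * Real.arcosh X)
  have h2 : Real.cosh (3 / 4 * Real.arcosh X) ≤ Real.exp (3 / 4 * Real.arcosh X) := by
    rw [Real.cosh_eq]
    have : Real.exp (-(3 / 4 * Real.arcosh X)) ≤ Real.exp (3 / 4 * Real.arcosh X) :=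
      Real.exp_le_exp.2 (by linarith)
    linarith
  unfold c2
  push_cast at h1 ⊢
  exact h1.trans (h2.trans (arcosh_pow_le hX))

/-- scaling limit of `exp(3η/4)` -/
theorem exp_lim {s : ℝ} (hs : 0 < s) :
    Tendsto (fun N : ℕ => Real.exp (3 / 4 * Real.arcosh (N * s)) / (N * s) ^ (3 / 4 : ℝ)) atTop
      (𝓝 ((2:ℝ) ^ (3 / 4 : ℝ))) := by
  have hX : Tendsto (fun N : ℕ => (N : ℝ) * s) atTop atTop :=
    tendsto_natCast_atTop_atTop.atTop_mul_const hs
  have h1 : Tendsto (fun X : ℝ => (1 + √(1 - 1 / X ^ 2)) ^ (3 / 4 : ℝ)) atTop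
      (𝓝 ((1 + √(1 - 0)) ^ (3 / 4 : ℝ))) := by
    have a1 : Tendsto (fun X : ℝ => 1 / X ^ 2) atTop (𝓝 0) := by
      have := (tendsto_pow_atTop (α := ℝ) (n := 2) (by norm_num)).inv_tendsto_atTop
      refine this.congr fun X => ?_
      simp [one_div]
    have a2 : Tendsto (fun X : ℝ => 1 + √(1 - 1 / X ^ 2)) atTop (𝓝 (1 + √(1 - 0))) :=
      ((a1.const_sub 1).sqrt).const_add 1
    exact a2.rpow_const (Or.inr (by norm_num))
  have h2 : (1 + √(1 - 0) : ℝ) = 2 := by norm_num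
  rw [h2] at h1
  refine (h1.comp hX).congr' ?_
  filter_upwards [hX.eventually_ge_atTop 1] with N hN
  have hp : 0 < (N : ℝ) * s := by linarith
  simp only [Function.comp_apply]
  rw [exp_34_arcosh hN, ← Real.div_rpow (by positivity) hp.le]
  congr 1
  rw [add_div, div_self hp.ne']
  congr 1
  have e : ((N : ℝ) * s) ^ 2 - 1 = (1 - 1 / ((N : ℝ) * s) ^ 2) * ((N : ℝ) * s) ^ 2 := by
    have : ((N : ℝ) * s) ^ 2 ≠ 0 := by positivity
    rw [sub_mul, one_mul, one_div, inv_mul_cancel₀ this]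
  rw [e, Real.sqrt_mul' _ (sq_nonneg _), Real.sqrt_sq hp.le, mul_div_assoc, div_self hp.ne', mul_one]

theorem exp_neg_lim {s : ℝ} (hs : 0 < s) :
    Tendsto (fun N : ℕ => Real.exp (-(3 / 4 * Real.arcosh (N * s))) / (N * s) ^ (3 / 4 : ℝ)) atTop
      (𝓝 0) := by
  have hX : Tendsto (fun N : ℕ => (N : ℝ) * s) atTop atTop :=
    tendsto_natCast_atTop_atTop.atTop_mul_const hs
  have h1 : Tendsto (fun N : ℕ => ((N * s) ^ (3 / 4 : ℝ))⁻¹) atTop (𝓝 0) :=
    ((tendsto_rpow_atTop (by norm_num)).comp hX).inv_tendsto_atTop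
  refine squeeze_zero' (Eventually.of_forall fun N => by positivity) ?_ h1
  filter_upwards [hX.eventually_ge_atTop 1] with N hN
  have h0 := Real.arcosh_nonneg hN
  rw [div_eq_mul_inv]
  have : Real.exp (-(3 / 4 * Real.arcosh (N * s))) ≤ 1 := by
    rw [Real.exp_le_one_iff]; linarith
  calc _ ≤ 1 * ((N * s) ^ (3 / 4 : ℝ))⁻¹ := mul_le_mul_of_nonneg_right this (by positivity)
    _ = _ := one_mul _

theorem sh_lim {s : ℝ} (hs : 0 < s) :
    Tendsto (fun N : ℕ => (N : ℝ) ^ (1 / 4 : ℝ) * sh (N * s)) atTop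
      (𝓝 (((2:ℝ) ^ (3 / 4 : ℝ) - 0) / 2 / √2 * s ^ (-(1 / 4) : ℝ))) := by
  have h := ((((exp_lim hs).sub (exp_neg_lim hs)).div_const 2).div_const (√2)).mul_const
    (s ^ (-(1 / 4) : ℝ))
  refine h.congr' ?_
  filter_upwards [eventually_gt_atTop 0] with N hN
  have hN0 : (0:ℝ) < N := by exact_mod_cast hN
  have hp : 0 < (N : ℝ) * s := by positivity
  rw [sh, Real.sinh_eq]
  have e1 : (N : ℝ) ^ (1 / 4 : ℝ) = (N * s) ^ (1 / 4 : ℝ) * s ^ (-(1 / 4) : ℝ) := by
    rw [Real.mul_rpow hN0.le hs.le, mul_assoc, ← Real.rpow_add hs]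
    simp
  have e2 : (N * s : ℝ) = (N * s) ^ (1 / 4 : ℝ) * (N * s) ^ (3 / 4 : ℝ) := by
    rw [← Real.rpow_add hp]
    norm_num
  have e3 : (0:ℝ) < (N * s) ^ (3 / 4 : ℝ) := by positivity
  have e4 : (0:ℝ) < (N * s) ^ (1 / 4 : ℝ) := by positivity
  have e5 : √2 ≠ 0 := by positivity
  set E1 := Real.exp (3 / 4 * Real.arcosh (N * s)) with hE1
  set E2 := Real.exp (-(3 / 4 * Real.arcosh (N * s))) with hE2
  set P := ((N : ℝ) * s) ^ (3 / 4 : ℝ) with hP
  set Q := ((N : ℝ) * s) ^ (1 / 4 : ℝ) with hQ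
  rw [e1, e2]
  field_simp

end EXS
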