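import Mathlib

/-! Elementary integrability facts on `(0,∞)` (module S6). -/

open MeasureTheory Set Filter Topology

namespace EXS

/-- `t^(-a)/(s+t)` is integrable on `(0,∞)` for `0 < a < 1`, `s > 0`. -/
theorem integrableOn_rpow_div {a s : ℝ} (ha0 : 0 < a) (ha1 : a < 1) (hs : 0 < s) :
    IntegrableOn (fun t : ℝ => t ^ (-a) / (s + t)) (Ioi 0) := by
  have hmeas : Measurable (fun t : ℝ => t ^ (-a) / (s + t)) := by fun_prop
  rw [← Ioc_union_Ioi_eq_Ioi (zero_le_one' ℝ), integrableOn_union]
  constructor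
  · -- near zero
    have h1 : IntegrableOn (fun t : ℝ => t ^ (-a) * (1 / s)) (Ioc 0 1) := by
      have := (intervalIntegral.intervalIntegrable_rpow' (a := 0) (b := 1)
        (show -1 < -a by linarith)).1
      exact this.mul_const _
    refine h1.mono' hmeas.aestronglyMeasurable ?_
    refine (ae_restrict_iff' measurableSet_Ioc).2 (ae_of_all _ fun t ht => ?_)
    have ht0 : 0 < t := ht.1
    rw [Real.norm_of_nonneg (by positivity), div_eq_mul_one_div]
    gcongr
    linarith
  · have h1 : IntegrableOn (fun t : ℝ => t ^ (-a - 1)) (Ioi 1) :=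
      integrableOn_Ioi_rpow_of_lt (by linarith) one_pos
    refine h1.mono' hmeas.aestronglyMeasurable ?_
    refine (ae_restrict_iff' measurableSet_Ioi).2 (ae_of_all _ fun t ht => ?_)
    have ht0 : (0:ℝ) < t := lt_trans one_pos ht
    rw [Real.norm_of_nonneg (by positivity), Real.rpow_sub_one ht0.ne']
    gcongr
    linarith

/-- `exp(-c/s) s^(-1-b)` is integrable on `(0,∞)` for `b, c > 0`. -/
theorem integrableOn_exp_rpow {b c : ℝ} (hb : 0 < b) (hc : 0 < c) :
    IntegrableOn (fun s : ℝ => Real.exp (-c / s) * s ^ (-1 - b)) (Ioi 0) := by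
  have hmeas : Measurable (fun s : ℝ => Real.exp (-c / s) * s ^ (-1 - b)) := by fun_prop
  rw [← Ioc_union_Ioi_eq_Ioi (zero_le_one' ℝ), integrableOn_union]
  constructor
  · -- near zero: `exp(-c/s) ≤ n! (s/c)^n`
    obtain ⟨n, hn⟩ := exists_nat_gt (1 + b)
    have h1 : IntegrableOn (fun _ : ℝ => (n.factorial : ℝ) / c ^ n) (Ioc 0 1) := by
      refine integrableOn_const ?_ ?_
      · simp
      · simp
    refine h1.mono' hmeas.aestronglyMeasurable ?_
    refine (ae_restrict_iff' measurableSet_Ioc).2 (ae_of_all _ fun s hs => ?_)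
    have hs0 : 0 < s := hs.1
    have hs1 : s ≤ 1 := hs.2
    rw [Real.norm_of_nonneg (by positivity)]
    have e1 : Real.exp (-c / s) ≤ n.factorial / (c / s) ^ n := by
      have := Real.pow_div_factorial_le_exp (c / s) (by positivity) n
      rw [neg_div, Real.exp_neg]
      rw [inv_le_comm₀ (Real.exp_pos _) (by positivity)]
      calc (n.factorial / (c / s) ^ n : ℝ)⁻¹ = (c / s) ^ n / n.factorial := by
            rw [inv_div]
        _ ≤ _ := this
    have e2 : (s : ℝ) ^ n * s ^ (-1 - b) ≤ 1 := by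
      rw [← Real.rpow_natCast, ← Real.rpow_add hs0]
      exact Real.rpow_le_one hs0.le hs1 (by linarith)
    calc Real.exp (-c / s) * s ^ (-1 - b) ≤ n.factorial / (c / s) ^ n * s ^ (-1 - b) := by
          gcongr
      _ = n.factorial / c ^ n * (s ^ n * s ^ (-1 - b)) := by
          rw [div_pow]
          field_simp
      _ ≤ n.factorial / c ^ n * 1 := by gcongr
      _ = _ := mul_one _
  · have h1 : IntegrableOn (fun t : ℝ => t ^ (-1 - b)) (Ioi 1) :=
      integrableOn_Ioi_rpow_of_lt (by linarith) one_pos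
    refine h1.mono' hmeas.aestronglyMeasurable ?_
    refine (ae_restrict_iff' measurableSet_Ioi).2 (ae_of_all _ fun s hs => ?_)
    have hs0 : (0:ℝ) < s := lt_trans one_pos hs
    rw [Real.norm_of_nonneg (by positivity)]
    have e1 : Real.exp (-c / s) ≤ 1 := by
      rw [Real.exp_le_one_iff]
      have : 0 < c / s := by positivity
      rw [neg_div]; linarith
    calc Real.exp (-c / s) * s ^ (-1 - b) ≤ 1 * s ^ (-1 - b) := by gcongr
      _ = _ := one_mul _

end EXS
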