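import Pool.Agent.EXS.S6a
import Pool.Agent.EXS.C2
import Pool.Agent.EXS.Integr

/-! SHARP S6: the limit. -/

set_option autoImplicit false

namespace EXS

open MeasureTheory Filter Topology Set

/-- scaling of integrals -/
theorem scale_int {E : Type*} [NormedAddCommGroup E] [NormedSpace ℝ E] (F : ℝ → E) {N : ℕ}
    (hN : 0 < N) : ∫ x in Ioi (1 : ℝ), F x =
      ∫ t in Ioi (0 : ℝ), (Ioi ((1 : ℝ) / N)).indicator (fun t => (N : ℝ) • F (N * t)) t := by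
  have hN0 : (0 : ℝ) < N := by exact_mod_cast hN
  rw [setIntegral_indicator measurableSet_Ioi, Ioi_inter_Ioi, sup_eq_right.2 (by positivity),
    integral_smul, integral_comp_mul_left_Ioi _ _ hN0, mul_one_div_cancel hN0.ne', smul_smul,
    mul_inv_cancel₀ hN0.ne', one_smul]

theorem T2_scale (s : ℝ) :
    Tendsto (fun N : ℕ => T2 (N * s) / (N : ℂ)) atTop
      (𝓝 (((s / 2 : ℝ) : ℂ) + ((-(ta * √(s ^ 2 - 0)) : ℝ) : ℂ) * Complex.I)) := by
  have h1 : Tendsto (fun N : ℕ => (1:ℝ) / (N : ℝ) ^ 2) atTop (𝓝 0) := by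
    have := ((tendsto_pow_atTop (α := ℝ) (n := 2) (by norm_num)).comp
      (tendsto_natCast_atTop_atTop (R := ℝ))).inv_tendsto_atTop
    refine this.congr fun X => ?_
    simp [one_div]
  have h2 : Tendsto (fun N : ℕ => -(ta * √(s ^ 2 - 1 / (N : ℝ) ^ 2))) atTop
      (𝓝 (-(ta * √(s ^ 2 - 0)))) := (((h1.const_sub _).sqrt).const_mul _).neg
  have h3 : Tendsto (fun N : ℕ => ((s / 2 : ℝ) : ℂ) + ((-(ta * √(s ^ 2 - 1 / (N : ℝ) ^ 2)) : ℝ) : ℂ)
      * Complex.I) atTop (𝓝 (((s / 2 : ℝ) : ℂ) + ((-(ta * √(s ^ 2 - 0)) : ℝ) : ℂ) * Complex.I)) :=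
    ((Complex.continuous_ofReal.tendsto _).comp h2 |>.mul_const _).const_add _
  refine h3.congr' ?_
  filter_upwards [eventually_gt_atTop 0] with N hN
  have hN0 : (0 : ℝ) < N := by exact_mod_cast hN
  have e : √(((N : ℝ) * s) ^ 2 - 1) = N * √(s ^ 2 - 1 / (N : ℝ) ^ 2) := by
    have : ((N : ℝ) * s) ^ 2 - 1 = (s ^ 2 - 1 / (N : ℝ) ^ 2) * (N : ℝ) ^ 2 := by
      field_simp
    rw [this, Real.sqrt_mul' _ (sq_nonneg _), Real.sqrt_sq hN0.le, mul_comm]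
  have hNc : (N : ℂ) ≠ 0 := by exact_mod_cast hN0.ne'
  have e2 : T2 (N * s) = (N : ℂ) * (((s / 2 : ℝ) : ℂ) +
      ((-(ta * √(s ^ 2 - 1 / (N : ℝ) ^ 2)) : ℝ) : ℂ) * Complex.I) := by
    apply Complex.ext
    · simp [T2]; ring
    · simp only [T2, e, Complex.mul_im, Complex.add_im, Complex.ofReal_im, Complex.ofReal_re,
        Complex.I_im, Complex.I_re, Complex.natCast_re, Complex.natCast_im, Complex.add_re,
        Complex.mul_re]
      ring
  rw [e2, mul_div_cancel_left₀ _ hNc]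

/-- the denominators in the scaled Cauchy transform -/
theorem norm_den {s t : ℝ} (_hs : 0 < s) (ht : 0 < t) {N : ℕ} (hN : 0 < N) :
    s / 2 + t ≤ ‖(t : ℂ) + T2 (N * s) / (N : ℂ)‖ := by
  have hN0 : (0 : ℝ) < N := by exact_mod_cast hN
  have h1 := Complex.abs_re_le_norm ((t : ℂ) + T2 (N * s) / (N : ℂ))
  have h2 : ((t : ℂ) + T2 (N * s) / (N : ℂ)).re = t + s / 2 := by
    rw [Complex.add_re, Complex.ofReal_re, Complex.div_natCast_re]
    simp only [T2]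
    field_simp
  rw [h2] at h1
  linarith [le_abs_self (t + s / 2)]

/-- bound of the scaled function -/
theorem Bd_scale {f : ℝ → ℝ} {C : ℝ} (hC : 0 ≤ C) {N : ℕ} (hN : 0 < N)
    (hb : Bd f (C * √(N + 1))) {t : ℝ} (ht : 0 < t) (h1 : 1 / (N : ℝ) < t) :
    |(N : ℝ) ^ (1 / 4 : ℝ) * f (N * t)| ≤ 2 * C * t ^ (-(3 / 4) : ℝ) := by
  have hN0 : (0 : ℝ) < N := by exact_mod_cast hN
  have hN1 : (1 : ℝ) ≤ N := by exact_mod_cast hN
  have h2 : 1 < (N : ℝ) * t := by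
    rw [div_lt_iff₀ hN0] at h1
    linarith
  have h3 := hb _ h2
  rw [abs_mul, abs_of_nonneg (by positivity)]
  have h4 : √((N : ℝ) + 1) ≤ 2 * (N : ℝ) ^ (1 / 2 : ℝ) := by
    rw [← Real.sqrt_eq_rpow]
    have : 2 * √(N : ℝ) = √(4 * N) := by
      rw [Real.sqrt_mul (by norm_num), show (4:ℝ) = 2 ^ 2 by norm_num,
        Real.sqrt_sq (by norm_num)]
    rw [this]
    exact Real.sqrt_le_sqrt (by linarith)
  calc (N : ℝ) ^ (1 / 4 : ℝ) * |f (N * t)|
      ≤ (N : ℝ) ^ (1 / 4 : ℝ) * (C * √(N + 1) * (N * t) ^ (-(3 / 4) : ℝ)) := by gcongr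
    _ ≤ (N : ℝ) ^ (1 / 4 : ℝ) * (C * (2 * (N : ℝ) ^ (1 / 2 : ℝ)) * (N * t) ^ (-(3 / 4) : ℝ)) := by
        gcongr
    _ = 2 * C * ((N : ℝ) ^ (1 / 4 : ℝ) * (N : ℝ) ^ (1 / 2 : ℝ) * (N : ℝ) ^ (-(3 / 4) : ℝ)) *
        t ^ (-(3 / 4) : ℝ) := by
        rw [Real.mul_rpow hN0.le ht.le]; ring
    _ = 2 * C * t ^ (-(3 / 4) : ℝ) := by
        rw [← Real.rpow_add hN0, ← Real.rpow_add hN0]
        norm_num

/-- the scaled Cauchy transform converges -/
theorem Cf_lim {f : ℕ → ℝ → ℝ} (hf : ∀ N, Measurable (f N)) {C : ℝ} (hC : 0 ≤ C)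
    (hb : ∀ᶠ N in atTop, Bd (f N) (C * √(N + 1))) {g : ℝ → ℝ}
    (hg : ∀ s : ℝ, 0 < s → Tendsto (fun N : ℕ => (N : ℝ) ^ (1 / 4 : ℝ) * f N (N * s)) atTop
      (𝓝 (g s))) {s : ℝ} (hs : 0 < s) :
    ∃ L : ℂ, Tendsto (fun N : ℕ => (((N : ℝ) ^ (1 / 4 : ℝ) : ℝ) : ℂ) * Cf (f N) (T2 (N * s))) atTop
      (𝓝 L) := by
  set z : ℂ := (((s / 2 : ℝ) : ℂ) + ((-(ta * √(s ^ 2 - 0)) : ℝ) : ℂ) * Complex.I) with hz
  have hzre : z.re = s / 2 := by simp [hz]
  set F : ℕ → ℝ → ℂ := fun N => (Ioi ((1 : ℝ) / N)).indicator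
    (fun t => (((N : ℝ) ^ (1 / 4 : ℝ) * f N (N * t) : ℝ) : ℂ) / ((t : ℂ) + T2 (N * s) / (N : ℂ)))
    with hF
  have hmeas : ∀ N, AEStronglyMeasurable (F N) (volume.restrict (Ioi (0:ℝ))) := by
    intro N
    have := hf N
    apply Measurable.aestronglyMeasurable
    apply Measurable.indicator _ measurableSet_Ioi
    fun_prop
  have hlim : Tendsto (fun N => ∫ t in Ioi (0:ℝ), F N t) atTop
      (𝓝 (∫ t in Ioi (0:ℝ), (g t : ℂ) / ((t : ℂ) + z))) := by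
    refine tendsto_integral_filter_of_dominated_convergence
      (fun t => 2 * C * (t ^ (-(3 / 4) : ℝ) / (s / 2 + t)))
      (Eventually.of_forall hmeas) ?_ ?_ ?_
    · filter_upwards [hb, eventually_gt_atTop 0] with N hbN hN
      refine (ae_restrict_iff' measurableSet_Ioi).2 (ae_of_all _ fun t ht => ?_)
      have ht0 : 0 < t := ht
      have hden := norm_den hs ht0 hN
      have hnn : 0 ≤ 2 * C * (t ^ (-(3 / 4) : ℝ) / (s / 2 + t)) := by positivity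
      simp only [hF, indicator]
      split_ifs with h1
      · rw [norm_div, Complex.norm_real, Real.norm_eq_abs]
        have h2 := Bd_scale hC hN hbN ht0 h1
        have h3 : 0 < s / 2 + t := by positivity
        calc _ ≤ (2 * C * t ^ (-(3 / 4) : ℝ)) / (s / 2 + t) :=
              div_le_div₀ (by positivity) h2 h3 hden
          _ = _ := by ring
      · rw [norm_zero]; exact hnn
    · exact (integrableOn_rpow_div (by norm_num) (by norm_num) (by positivity)).const_mul _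
    · refine (ae_restrict_iff' measurableSet_Ioi).2 (ae_of_all _ fun t ht => ?_)
      have ht0 : 0 < t := ht
      have h1 : Tendsto (fun N : ℕ => (((N : ℝ) ^ (1 / 4 : ℝ) * f N (N * t) : ℝ) : ℂ) /
          ((t : ℂ) + T2 (N * s) / (N : ℂ))) atTop (𝓝 ((g t : ℂ) / ((t : ℂ) + z))) := by
        refine Tendsto.div ((Complex.continuous_ofReal.tendsto _).comp (hg t ht0))
          ((T2_scale s).const_add _) ?_
        intro h0
        have := congrArg Complex.re h0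
        rw [Complex.add_re, Complex.ofReal_re, Complex.zero_re] at this
        rw [hzre] at this
        linarith
      refine h1.congr' ?_
      have h2 : ∀ᶠ N : ℕ in atTop, 1 / (N : ℝ) < t := by
        have : Tendsto (fun N : ℕ => 1 / (N : ℝ)) atTop (𝓝 0) := tendsto_one_div_atTop_nhds_zero_nat
        exact this.eventually (gt_mem_nhds ht0)
      filter_upwards [h2] with N hN
      simp only [hF, indicator, mem_Ioi, hN, if_true]
  refine ⟨((1 / Real.pi : ℝ) : ℂ) * ∫ t in Ioi (0:ℝ), (g t : ℂ) / ((t : ℂ) + z), ?_⟩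
  refine (hlim.const_mul _).congr' ?_
  filter_upwards [eventually_gt_atTop 0] with N hN
  have hN0 : (0 : ℝ) < N := by exact_mod_cast hN
  have hNc : (N : ℂ) ≠ 0 := by exact_mod_cast hN0.ne'
  unfold Cf
  rw [scale_int _ hN, mul_left_comm]
  congr 1
  rw [← integral_const_mul]
  refine integral_congr_ae (ae_of_all _ fun t => ?_)
  simp only [hF, indicator]
  split_ifs with h1
  · rw [Complex.real_smul]
    push_cast
    have e : (N : ℂ) * (t : ℂ) + T2 (N * s) = N * ((t : ℂ) + T2 (N * s) / N) := by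
      field_simp
    have e3 : (N : ℂ) * ((f N (N * t) : ℂ) / (N * ((t : ℂ) + T2 (N * s) / N)))
        = (f N (N * t) : ℂ) / ((t : ℂ) + T2 (N * s) / N) := by
      rw [mul_div_assoc', mul_div_mul_left _ _ hNc]
    rw [e, e3, mul_div_assoc]
  · simp

/-- the multiplier converges -/
theorem Wt_lim {τ : (N : ℕ) → Fin N → ℝ} (hτ : ∀ N k, ta ≤ τ N k ∧ τ N k ≤ 1)
    (hδ : ∀ ε : ℝ, 0 < ε → ∀ᶠ N in atTop, ∀ k, |τ N k - ta| ≤ ε) {s : ℝ} (hs : 0 < s) :
    ∃ L : ℂ, Tendsto (fun N : ℕ => Wt (Wf (τ N)) (N * s)) atTop (𝓝 L) := by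
  have h1 := Wf_lim hτ hδ hs
  have h2 := ((T2_scale s).div_const (s : ℂ)).neg.mul h1
  refine ⟨_, h2.congr' ?_⟩
  filter_upwards [eventually_gt_atTop 0] with N hN
  have hN0 : (0 : ℝ) < N := by exact_mod_cast hN
  have hNc : (N : ℂ) ≠ 0 := by exact_mod_cast hN0.ne'
  have hsc : (s : ℂ) ≠ 0 := by exact_mod_cast hs.ne'
  unfold Wt
  push_cast
  rw [div_div]

/-- pointwise convergence is preserved by the operator, version with eventual bounds -/
theorem KW_lim' {τ : (N : ℕ) → Fin N → ℝ} (hτ : ∀ N k, ta ≤ τ N k ∧ τ N k ≤ 1)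
    (hδ : ∀ ε : ℝ, 0 < ε → ∀ᶠ N in atTop, ∀ k, |τ N k - ta| ≤ ε) {f : ℕ → ℝ → ℝ}
    (hf : ∀ N, Measurable (f N)) {C : ℝ} (hC : 0 ≤ C)
    (hb : ∀ᶠ N in atTop, Bd (f N) (C * √(N + 1))) {g : ℝ → ℝ}
    (hg : ∀ s : ℝ, 0 < s → Tendsto (fun N : ℕ => (N : ℝ) ^ (1 / 4 : ℝ) * f N (N * s)) atTop (𝓝 (g s))) :
    ∃ g' : ℝ → ℝ, ∀ s : ℝ, 0 < s →
      Tendsto (fun N : ℕ => (N : ℝ) ^ (1 / 4 : ℝ) * KW (Wf (τ N)) (f N) (N * s)) atTop (𝓝 (g' s)) := by
  have key : ∀ s : ℝ, ∃ L : ℝ, 0 < s →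
      Tendsto (fun N : ℕ => (N : ℝ) ^ (1 / 4 : ℝ) * KW (Wf (τ N)) (f N) (N * s)) atTop (𝓝 L) := by
    intro s
    by_cases hs : 0 < s
    · obtain ⟨L1, h1⟩ := Wt_lim hτ hδ hs
      obtain ⟨L2, h2⟩ := Cf_lim hf hC hb hg hs
      refine ⟨(L1 * L2).im, fun _ => ?_⟩
      refine ((Complex.continuous_im.tendsto _).comp (h1.mul h2)).congr fun N => ?_
      simp only [Function.comp_apply]
      rw [mul_left_comm, Complex.im_ofReal_mul, KW]
    · exact ⟨0, fun h => absurd h hs⟩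
  choose g' hg' using key
  exact ⟨g', hg'⟩

theorem KW_lim {τ : (N : ℕ) → Fin N → ℝ} (hτ : ∀ N k, ta ≤ τ N k ∧ τ N k ≤ 1)
    (hδ : ∀ ε : ℝ, 0 < ε → ∀ᶠ N in atTop, ∀ k, |τ N k - ta| ≤ ε) {f : ℕ → ℝ → ℝ} (hf : ∀ N, Measurable (f N)) {C : ℝ}
    (hb : ∀ N, Bd (f N) (C * Real.sqrt (N + 1))) {g : ℝ → ℝ}
    (hg : ∀ s : ℝ, 0 < s → Tendsto (fun N : ℕ => (N : ℝ) ^ (1 / 4 : ℝ) * f N (N * s)) atTop (𝓝 (g s))) :
    ∃ g' : ℝ → ℝ, ∀ s : ℝ, 0 < s →
      Tendsto (fun N : ℕ => (N : ℝ) ^ (1 / 4 : ℝ) * KW (Wf (τ N)) (f N) (N * s)) atTop (𝓝 (g' s)) := by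
  refine KW_lim' hτ hδ hf (C := |C|) (abs_nonneg _) (Eventually.of_forall fun N X hX => ?_) hg
  refine (hb N X hX).trans ?_
  have hX0 : 0 < X := by linarith
  have := le_abs_self C
  gcongr

/-! ### the iteration -/

/-- `Bd` facts -/
theorem Bd_mono {f : ℝ → ℝ} {M M' : ℝ} (h : Bd f M) (hM : M ≤ M') : Bd f M' := by
  intro X hX
  have hX0 : 0 < X := by linarith
  refine (h X hX).trans ?_
  gcongr

theorem Bd_add {f g : ℝ → ℝ} {M M' : ℝ} (h : Bd f M) (h' : Bd g M') :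
    Bd (fun X => f X + g X) (M + M') := by
  intro X hX
  have := h X hX
  have := h' X hX
  calc |f X + g X| ≤ |f X| + |g X| := abs_add_le _ _
    _ ≤ _ := by rw [add_mul]; linarith

theorem KW_sub {W : ℝ → ℂ} {f g : ℝ → ℝ} {M M' : ℝ} (hf : Measurable f) (hg : Measurable g)
    (h : Bd f M) (h' : Bd g M') {X : ℝ} (hX : 1 < X) :
    KW W f X - KW W g X = KW W (fun x => f x - g x) X := by
  unfold KW
  rw [← Complex.sub_im, ← mul_sub]
  congr 2
  unfold Cf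
  rw [← mul_sub, ← integral_sub (Cf_int hf h hX) (Cf_int hg h' hX)]
  congr 1
  refine integral_congr_ae (ae_of_all _ fun x => ?_)
  simp only
  push_cast
  ring

/-- the iterates -/
noncomputable def itv (W : ℝ → ℂ) : ℕ → ℝ → ℝ
  | 0 => fun _ => 0
  | n + 1 => fun X => src W X + KW W (itv W n) X

theorem itv_meas {W : ℝ → ℂ} (hW : Measurable W) (n : ℕ) : Measurable (itv W n) := by
  induction n with
  | zero => exact measurable_const
  | succ n ih => exact (src_meas hW).add (KW_meas hW ih)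

theorem itv_Bd {W : ℝ → ℂ} (hW : Measurable W) {S : ℝ} (hS0 : 0 ≤ S) (hS : Bd (src W) S)
    (hK : ∀ (f : ℝ → ℝ) (M : ℝ), 0 ≤ M → Measurable f → Bd f M → Bd (KW W f) (4 / 5 * M)) (n : ℕ) :
    Bd (itv W n) (5 * S) := by
  induction n with
  | zero =>
    intro X hX
    have hX0 : 0 < X := by linarith
    simp only [itv, abs_zero]
    positivity
  | succ n ih =>
    have := Bd_add hS (hK _ _ (by positivity) (itv_meas hW n) ih)
    exact Bd_mono this (by linarith)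

/-- a priori bound of the solution -/
theorem sol_Bd {W : ℝ → ℂ} {v : ℝ → ℝ} (hm : Measurable v) {S M : ℝ}
    (hS0 : 0 ≤ S) (hS : Bd (src W) S)
    (hK : ∀ (f : ℝ → ℝ) (M : ℝ), 0 ≤ M → Measurable f → Bd f M → Bd (KW W f) (4 / 5 * M))
    (hM : Bd v M) (heq : ∀ X : ℝ, 1 < X → v X = src W X + KW W v X) : Bd v (5 * S) := by
  have h1 : ∀ n : ℕ, Bd v ((4 / 5) ^ n * |M| + 5 * S) := by
    intro n
    induction n with
    | zero => exact Bd_mono hM (by have := le_abs_self M; simp; linarith)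
    | succ n ih =>
      have h2 := Bd_add hS (hK _ _ (by positivity) hm ih)
      have h3 : S + 4 / 5 * ((4 / 5) ^ n * |M| + 5 * S) = (4 / 5) ^ (n + 1) * |M| + 5 * S := by
        ring
      rw [h3] at h2
      intro X hX
      rw [heq X hX]
      exact h2 X hX
  intro X hX
  have h4 : Tendsto (fun n : ℕ => ((4 / 5 : ℝ) ^ n * |M| + 5 * S) * X ^ (-(3 / 4) : ℝ)) atTop
      (𝓝 ((0 * |M| + 5 * S) * X ^ (-(3 / 4) : ℝ))) :=
    (((tendsto_pow_atTop_nhds_zero_of_lt_one (by norm_num) (by norm_num)).mul_const _).add_const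
      _).mul_const _
  rw [zero_mul, zero_add] at h4
  exact ge_of_tendsto' h4 fun n => h1 n X hX

/-- the iterates approximate the solution -/
theorem sol_itv {W : ℝ → ℂ} (hW : Measurable W) {v : ℝ → ℝ} (hm : Measurable v) {S : ℝ}
    (hS0 : 0 ≤ S) (hS : Bd (src W) S)
    (hK : ∀ (f : ℝ → ℝ) (M : ℝ), 0 ≤ M → Measurable f → Bd f M → Bd (KW W f) (4 / 5 * M))
    (hM : Bd v (5 * S)) (heq : ∀ X : ℝ, 1 < X → v X = src W X + KW W v X) (n : ℕ) :
    Bd (fun X => v X - itv W n X) ((4 / 5) ^ n * (5 * S)) := by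
  induction n with
  | zero => simpa [itv] using hM
  | succ n ih =>
    have h2 := hK _ _ (by positivity) (hm.sub (itv_meas hW n)) ih
    intro X hX
    have h3 : |KW W (fun x => v x - itv W n x) X| ≤
      4 / 5 * ((4 / 5) ^ n * (5 * S)) * X ^ (-(3 / 4) : ℝ) := h2 X hX
    have h4 : v X - itv W (n + 1) X = KW W (fun x => v x - itv W n x) X := by
      rw [← KW_sub hm (itv_meas hW n) hM (itv_Bd hW hS0 hS hK n) hX]
      have h5 := heq X hX
      simp only [itv]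
      linarith
    simp only [h4]
    calc _ ≤ _ := h3
      _ = _ := by ring

/-- approximation by convergent sequences -/
theorem tendsto_of_approx {a : ℕ → ℝ} (h : ∀ ε : ℝ, 0 < ε → ∃ b : ℕ → ℝ, ∃ L : ℝ,
    Tendsto b atTop (𝓝 L) ∧ ∀ᶠ N in atTop, |a N - b N| ≤ ε) : ∃ L : ℝ, Tendsto a atTop (𝓝 L) := by
  apply cauchySeq_tendsto_of_complete
  rw [Metric.cauchySeq_iff']
  intro ε hε
  obtain ⟨b, L, hb, hab⟩ := h (ε / 5) (by positivity)
  rw [Metric.tendsto_atTop] at hb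
  obtain ⟨N1, h1⟩ := hb (ε / 5) (by positivity)
  obtain ⟨N2, h2⟩ := hab.exists_forall_of_atTop
  refine ⟨max N1 N2, fun N hN => ?_⟩
  have c1 := h1 N (le_trans (le_max_left _ _) hN)
  have c2 := h1 (max N1 N2) (le_max_left _ _)
  have c3 := h2 N (le_trans (le_max_right _ _) hN)
  have c4 := h2 (max N1 N2) (le_max_right _ _)
  rw [Real.dist_eq] at c1 c2 ⊢
  rw [abs_lt] at c1 c2 ⊢
  rw [abs_le] at c3 c4
  constructor <;> linarith [c1.1, c1.2, c2.1, c2.2, c3.1, c3.2, c4.1, c4.2]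

/-- pointwise convergence of the iterates -/
theorem itv_lim {τ : (N : ℕ) → Fin N → ℝ} (hτ : ∀ N k, ta ≤ τ N k ∧ τ N k ≤ 1)
    (hδ : ∀ ε : ℝ, 0 < ε → ∀ᶠ N in atTop, ∀ k, |τ N k - ta| ≤ ε) {C : ℝ} (hC : 0 ≤ C)
    (hB : ∀ n : ℕ, ∀ᶠ N in atTop, Bd (itv (Wf (τ N)) n) (C * √(N + 1))) (n : ℕ) :
    ∃ g : ℝ → ℝ, ∀ s : ℝ, 0 < s →
      Tendsto (fun N : ℕ => (N : ℝ) ^ (1 / 4 : ℝ) * itv (Wf (τ N)) n (N * s)) atTop (𝓝 (g s)) := by
  induction n with
  | zero => exact ⟨fun _ => 0, fun s _ => by simp [itv]⟩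
  | succ n ih =>
    obtain ⟨g, hg⟩ := ih
    obtain ⟨g1, h1⟩ := src_lim hτ hδ
    obtain ⟨g2, h2⟩ := KW_lim' hτ hδ (fun N => itv_meas (Wf_meas (τ N)) n) hC (hB n) hg
    refine ⟨fun s => g1 s + g2 s, fun s hs => ?_⟩
    refine ((h1 s hs).add (h2 s hs)).congr fun N => ?_
    simp only [itv]
    ring

/-- bound of `u = v + sh` -/
theorem u_le {N : ℕ} {τ : Fin N → ℝ} (hτ : ∀ k, ta ≤ τ k ∧ τ k ≤ 1) {v : ℝ → ℝ} {X C A : ℝ}
    (hX : 1 < X) (hv : v X = src (Wf τ) X + KW (Wf τ) v X)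
    (hC : ‖Cf v (T2 X)‖ ≤ C * A * X ^ (-(3 / 4) : ℝ)) :
    |v X + sh X| ≤ Real.exp (-((N : ℝ) / X)) *
      (6 * X ^ (-(1 / 4) : ℝ) + C * A * X ^ (-(3 / 4) : ℝ)) := by
  have hX0 : 0 < X := by linarith
  have h1 : v X + sh X = (Wt (Wf τ) X * ((c2 X - (cst : ℂ)) / T2 X + Cf v (T2 X))).im := by
    rw [hv, src, KW, mul_add, Complex.add_im]
    ring
  rw [h1]
  refine (Complex.abs_im_le_norm _).trans ?_
  rw [norm_mul]
  have hT := T2_normSq hX.le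
  have hT1 : ‖T2 X‖ ^ 2 = X ^ 2 - 3 / 4 := by rw [← Complex.normSq_eq_norm_sq, hT]
  have hT2 : ‖T2 X‖ ≤ X := by
    apply le_of_abs_le
    apply abs_le_of_sq_le_sq _ hX0.le
    rw [hT1]; linarith
  have hT3 : X / 2 ≤ ‖T2 X‖ := by
    apply le_of_abs_le
    apply abs_le_of_sq_le_sq _ (norm_nonneg _)
    rw [hT1]; nlinarith
  have h2 : ‖Wt (Wf τ) X‖ ≤ Real.exp (-((N : ℝ) / X)) := by
    rw [Wt, norm_mul, norm_neg, norm_div, Complex.norm_real, Real.norm_of_nonneg hX0.le]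
    have : ‖T2 X‖ / X ≤ 1 := (div_le_one hX0).2 hT2
    calc ‖T2 X‖ / X * ‖Wf τ X‖ ≤ 1 * Real.exp (-((N : ℝ) / X)) :=
          mul_le_mul this (Wf_norm hτ hX) (norm_nonneg _) zero_le_one
      _ = _ := one_mul _
  have h3 : ‖(c2 X - (cst : ℂ)) / T2 X‖ ≤ 6 * X ^ (-(1 / 4) : ℝ) := by
    rw [norm_div]
    have a1 : ‖c2 X - (cst : ℂ)‖ ≤ 3 * X ^ (3 / 4 : ℝ) := by
      have b1 := c2_norm_le hX.le
      have b2 : ‖(cst : ℂ)‖ ≤ 1 := by
        rw [Complex.norm_real, Real.norm_eq_abs]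
        exact Real.abs_cos_le_one _
      have b3 : (1:ℝ) ≤ X ^ (3 / 4 : ℝ) := Real.one_le_rpow hX.le (by norm_num)
      calc ‖c2 X - (cst : ℂ)‖ ≤ ‖c2 X‖ + ‖(cst : ℂ)‖ := norm_sub_le _ _
        _ ≤ _ := by linarith
    calc ‖c2 X - (cst : ℂ)‖ / ‖T2 X‖ ≤ 3 * X ^ (3 / 4 : ℝ) / (X / 2) := by gcongr
      _ = 6 * (X ^ (3 / 4 : ℝ) / X) := by ring
      _ = _ := by
        rw [← Real.rpow_sub_one hX0.ne']
        norm_num
  calc ‖Wt (Wf τ) X‖ * ‖(c2 X - (cst : ℂ)) / T2 X + Cf v (T2 X)‖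
      ≤ Real.exp (-((N : ℝ) / X)) * (‖(c2 X - (cst : ℂ)) / T2 X‖ + ‖Cf v (T2 X)‖) :=
        mul_le_mul h2 (norm_add_le _ _) (norm_nonneg _) (Real.exp_pos _).le
    _ ≤ _ := by gcongr

/-- v_N = partial Neumann sum + O((4/5)^K), each partial sum converges pointwise, so v_N is pointwise Cauchy; then
u = v + sh = Im(Wt ((c2 - cst)/T2 + Cf v)) is dominated by C exp(-1/s) (s^(-1/4) + s^(-3/4)). -/
theorem sharp_lim {τ : (N : ℕ) → Fin N → ℝ} (hτ : ∀ N k, ta ≤ τ N k ∧ τ N k ≤ 1)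
    (hδ : ∀ ε : ℝ, 0 < ε → ∀ᶠ N in atTop, ∀ k, |τ N k - ta| ≤ ε) {v : ℕ → ℝ → ℝ} (hm : ∀ N, Measurable (v N))
    (hb : ∀ N, ∃ M : ℝ, Bd (v N) M)
    (heq : ∀ N, ∀ X : ℝ, 1 < X → v N X = src (Wf (τ N)) X + KW (Wf (τ N)) (v N) X) :
    ∃ b : ℝ, Tendsto (fun N : ℕ => (N : ℝ) ^ (1 / 4 : ℝ) * ((1 / Real.pi) * ∫ X in Set.Ioi (1 : ℝ), (v N X + sh X) / X))
      atTop (𝓝 b) := by
  obtain ⟨C1', hC1'⟩ := src_Bd
  set C1 := |C1'| with hC1def
  have hC10 : 0 ≤ C1 := abs_nonneg _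
  have hS : ∀ N, Bd (src (Wf (τ N))) (C1 * √(N + 1)) := fun N =>
    Bd_mono (hC1' N (τ N) (hτ N)) (mul_le_mul_of_nonneg_right (le_abs_self _) (Real.sqrt_nonneg _))
  have hS0 : ∀ N : ℕ, 0 ≤ C1 * √((N : ℝ) + 1) := fun N => by positivity
  obtain ⟨N0, hN0⟩ := contraction
  obtain ⟨C2', hC2'⟩ := Cf_le
  set C2 := |C2'| with hC2def
  have hC20 : 0 ≤ C2 := abs_nonneg _
  have hK : ∀ N, N0 ≤ N → ∀ (f : ℝ → ℝ) (M : ℝ), 0 ≤ M → Measurable f → Bd f M →
      Bd (KW (Wf (τ N)) f) (4 / 5 * M) := fun N hN => hN0 N hN (τ N) (hτ N)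
  -- a priori bound
  have hv : ∀ N, N0 ≤ N → Bd (v N) (5 * (C1 * √(N + 1))) := by
    intro N hN
    obtain ⟨M, hM⟩ := hb N
    exact sol_Bd (hm N) (hS0 N) (hS N) (hK N hN) hM (heq N)
  -- the iterates
  have hI : ∀ n : ℕ, ∀ᶠ N in atTop, Bd (itv (Wf (τ N)) n) (5 * C1 * √(N + 1)) := by
    intro n
    filter_upwards [eventually_ge_atTop N0] with N hN
    have := itv_Bd (Wf_meas (τ N)) (hS0 N) (hS N) (hK N hN) n
    rwa [← mul_assoc] at this
  have hIl := itv_lim hτ hδ (C := 5 * C1) (by positivity) hI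
  -- pointwise limit of `v`
  have hV : ∀ s : ℝ, ∃ L : ℝ, 0 < s →
      Tendsto (fun N : ℕ => (N : ℝ) ^ (1 / 4 : ℝ) * v N (N * s)) atTop (𝓝 L) := by
    intro s
    by_cases hs : 0 < s
    swap
    · exact ⟨0, fun h => absurd h hs⟩
    have : ∃ L : ℝ, Tendsto (fun N : ℕ => (N : ℝ) ^ (1 / 4 : ℝ) * v N (N * s)) atTop (𝓝 L) := by
      apply tendsto_of_approx
      intro ε hε
      have h1 : Tendsto (fun n : ℕ => 2 * ((4 / 5 : ℝ) ^ n * (5 * C1)) * s ^ (-(3 / 4) : ℝ)) atTop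
          (𝓝 (2 * (0 * (5 * C1)) * s ^ (-(3 / 4) : ℝ))) :=
        (((tendsto_pow_atTop_nhds_zero_of_lt_one (by norm_num) (by norm_num)).mul_const
          _).const_mul _).mul_const _
      rw [zero_mul, mul_zero, zero_mul] at h1
      obtain ⟨n, hn⟩ := (h1.eventually (gt_mem_nhds hε)).exists
      obtain ⟨g, hg⟩ := hIl n
      refine ⟨_, _, hg s hs, ?_⟩
      have h2 : ∀ᶠ N : ℕ in atTop, 1 / (N : ℝ) < s := by
        have : Tendsto (fun N : ℕ => 1 / (N : ℝ)) atTop (𝓝 0) := tendsto_one_div_atTop_nhds_zero_nat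
        exact this.eventually (gt_mem_nhds hs)
      filter_upwards [h2, eventually_gt_atTop 0, eventually_ge_atTop N0] with N h3 h4 h5
      have h6 := sol_itv (Wf_meas (τ N)) (hm N) (hS0 N) (hS N) (hK N h5) (hv N h5) (heq N) n
      have h7 : (4 / 5 : ℝ) ^ n * (5 * (C1 * √((N : ℝ) + 1)))
          = (4 / 5) ^ n * (5 * C1) * √((N : ℝ) + 1) := by ring
      rw [h7] at h6
      have h8 := Bd_scale (by positivity) h4 h6 hs h3
      rw [mul_sub] at h8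
      exact h8.trans hn.le
    obtain ⟨L, hL⟩ := this
    exact ⟨L, fun _ => hL⟩
  choose V hV' using hV
  -- the final integral
  set A : ℝ := C2 * (10 * C1) with hA
  have hA0 : 0 ≤ A := by positivity
  set G : ℕ → ℝ → ℝ := fun N => (Ioi ((1 : ℝ) / N)).indicator
    (fun t => ((N : ℝ) ^ (1 / 4 : ℝ) * (v N (N * t) + sh (N * t))) / t) with hG
  set sl : ℝ → ℝ := fun t => ((2:ℝ) ^ (3 / 4 : ℝ) - 0) / 2 / √2 * t ^ (-(1 / 4) : ℝ) with hsl
  have hmeas : ∀ N, AEStronglyMeasurable (G N) (volume.restrict (Ioi (0:ℝ))) := by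
    intro N
    have h1 := hm N
    have h2 := sh_meas
    apply Measurable.aestronglyMeasurable
    apply Measurable.indicator _ measurableSet_Ioi
    fun_prop
  have hlim : Tendsto (fun N => ∫ t in Ioi (0:ℝ), G N t) atTop
      (𝓝 (∫ t in Ioi (0:ℝ), (V t + sl t) / t)) := by
    refine tendsto_integral_filter_of_dominated_convergence
      (fun t => 6 * (Real.exp (-1 / t) * t ^ (-1 - (1 / 4) : ℝ)) +
        A * (Real.exp (-1 / t) * t ^ (-1 - (3 / 4) : ℝ)))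
      (Eventually.of_forall hmeas) ?_ ?_ ?_
    · filter_upwards [eventually_gt_atTop 0, eventually_ge_atTop N0] with N hN hN'
      refine (ae_restrict_iff' measurableSet_Ioi).2 (ae_of_all _ fun t ht => ?_)
      have ht0 : 0 < t := ht
      have hN0' : (0 : ℝ) < N := by exact_mod_cast hN
      have hN1 : (1 : ℝ) ≤ N := by exact_mod_cast hN
      simp only [hG, indicator]
      split_ifs with h1
      swap
      · rw [norm_zero]; positivity
      have h2 : 1 < (N : ℝ) * t := by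
        rw [mem_Ioi, div_lt_iff₀ hN0'] at h1
        linarith
      have h3 := hC2' (v N) _ (hm N) (hv N hN') (N * t) h2
      have h4 : ‖Cf (v N) (T2 (N * t))‖ ≤ C2 * (5 * (C1 * √(N + 1))) * (N * t) ^ (-(3 / 4) : ℝ) := by
        refine h3.trans ?_
        have : C2' ≤ C2 := le_abs_self _
        gcongr
      have h5 := u_le (hτ N) h2 (heq N _ h2) h4
      rw [norm_div, norm_mul, Real.norm_of_nonneg ht0.le, Real.norm_eq_abs, Real.norm_eq_abs,
        abs_of_nonneg (by positivity : 0 ≤ (N : ℝ) ^ (1 / 4 : ℝ))]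
      have e1 : (N : ℝ) / (N * t) = 1 / t := by field_simp
      rw [e1] at h5
      have h6 : (N : ℝ) ^ (1 / 4 : ℝ) * (6 * (N * t) ^ (-(1 / 4) : ℝ)) = 6 * t ^ (-(1 / 4) : ℝ) := by
        rw [Real.mul_rpow hN0'.le ht0.le]
        have : (N : ℝ) ^ (1 / 4 : ℝ) * (N : ℝ) ^ (-(1 / 4) : ℝ) = 1 := by
          rw [← Real.rpow_add hN0']; simp
        calc _ = 6 * ((N : ℝ) ^ (1 / 4 : ℝ) * (N : ℝ) ^ (-(1 / 4) : ℝ)) * t ^ (-(1 / 4) : ℝ) := by
              ring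
          _ = _ := by rw [this, mul_one]
      have h7 : √((N : ℝ) + 1) ≤ 2 * (N : ℝ) ^ (1 / 2 : ℝ) := by
        rw [← Real.sqrt_eq_rpow]
        have : 2 * √(N : ℝ) = √(4 * N) := by
          rw [Real.sqrt_mul (by norm_num), show (4:ℝ) = 2 ^ 2 by norm_num,
            Real.sqrt_sq (by norm_num)]
        rw [this]
        exact Real.sqrt_le_sqrt (by linarith)
      have h8 : (N : ℝ) ^ (1 / 4 : ℝ) * (C2 * (5 * (C1 * √(N + 1))) * (N * t) ^ (-(3 / 4) : ℝ))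
          ≤ A * t ^ (-(3 / 4) : ℝ) := by
        calc (N : ℝ) ^ (1 / 4 : ℝ) * (C2 * (5 * (C1 * √(N + 1))) * (N * t) ^ (-(3 / 4) : ℝ))
            ≤ (N : ℝ) ^ (1 / 4 : ℝ) * (C2 * (5 * (C1 * (2 * (N : ℝ) ^ (1 / 2 : ℝ)))) *
              (N * t) ^ (-(3 / 4) : ℝ)) := by gcongr
          _ = A * ((N : ℝ) ^ (1 / 4 : ℝ) * (N : ℝ) ^ (1 / 2 : ℝ) * (N : ℝ) ^ (-(3 / 4) : ℝ)) *
              t ^ (-(3 / 4) : ℝ) := by
            rw [Real.mul_rpow hN0'.le ht0.le, hA]; ring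
          _ = A * t ^ (-(3 / 4) : ℝ) := by
            rw [← Real.rpow_add hN0', ← Real.rpow_add hN0']
            norm_num
      have e2 : t ^ (-1 - (1 / 4) : ℝ) = t ^ (-(1 / 4) : ℝ) / t := by
        rw [← Real.rpow_sub_one ht0.ne']; norm_num
      have e3 : t ^ (-1 - (3 / 4) : ℝ) = t ^ (-(3 / 4) : ℝ) / t := by
        rw [← Real.rpow_sub_one ht0.ne']; norm_num
      have e4 : Real.exp (-1 / t) = Real.exp (-(1 / t)) := by rw [neg_div]
      rw [e2, e3, e4]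
      have h9 : (N : ℝ) ^ (1 / 4 : ℝ) * |v N (N * t) + sh (N * t)| ≤
          Real.exp (-(1 / t)) * (6 * t ^ (-(1 / 4) : ℝ) + A * t ^ (-(3 / 4) : ℝ)) := by
        calc (N : ℝ) ^ (1 / 4 : ℝ) * |v N (N * t) + sh (N * t)|
            ≤ (N : ℝ) ^ (1 / 4 : ℝ) * (Real.exp (-(1 / t)) * (6 * (N * t) ^ (-(1 / 4) : ℝ) +
              C2 * (5 * (C1 * √(N + 1))) * (N * t) ^ (-(3 / 4) : ℝ))) := by gcongr
          _ = Real.exp (-(1 / t)) * ((N : ℝ) ^ (1 / 4 : ℝ) * (6 * (N * t) ^ (-(1 / 4) : ℝ)) +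
              (N : ℝ) ^ (1 / 4 : ℝ) * (C2 * (5 * (C1 * √(N + 1))) * (N * t) ^ (-(3 / 4) : ℝ))) := by
            ring
          _ ≤ _ := by
            rw [h6]
            gcongr
      calc (N : ℝ) ^ (1 / 4 : ℝ) * |v N (N * t) + sh (N * t)| / t
          ≤ Real.exp (-(1 / t)) * (6 * t ^ (-(1 / 4) : ℝ) + A * t ^ (-(3 / 4) : ℝ)) / t := by gcongr
        _ = _ := by ring
    · exact ((integrableOn_exp_rpow (by norm_num) one_pos).const_mul _).add
        ((integrableOn_exp_rpow (by norm_num) one_pos).const_mul _)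
    · refine (ae_restrict_iff' measurableSet_Ioi).2 (ae_of_all _ fun t ht => ?_)
      have ht0 : 0 < t := ht
      have h1 : Tendsto (fun N : ℕ => ((N : ℝ) ^ (1 / 4 : ℝ) * (v N (N * t) + sh (N * t))) / t)
          atTop (𝓝 ((V t + sl t) / t)) := by
        refine Tendsto.div_const ?_ t
        refine ((hV' t ht0).add (sh_lim ht0)).congr fun N => ?_
        ring
      refine h1.congr' ?_
      have h2 : ∀ᶠ N : ℕ in atTop, 1 / (N : ℝ) < t := by
        have : Tendsto (fun N : ℕ => 1 / (N : ℝ)) atTop (𝓝 0) := tendsto_one_div_atTop_nhds_zero_nat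
        exact this.eventually (gt_mem_nhds ht0)
      filter_upwards [h2] with N hN
      simp only [hG, indicator, mem_Ioi, hN, if_true]
  refine ⟨(1 / Real.pi) * ∫ t in Ioi (0:ℝ), (V t + sl t) / t, ?_⟩
  refine (hlim.const_mul _).congr' ?_
  filter_upwards [eventually_gt_atTop 0] with N hN
  have hN0 : (0 : ℝ) < N := by exact_mod_cast hN
  rw [scale_int _ hN, mul_left_comm]
  congr 1
  rw [← integral_const_mul]
  refine integral_congr_ae (ae_of_all _ fun t => ?_)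
  simp only [hG, indicator]
  split_ifs with h1
  · rw [smul_eq_mul]
    have ht : 0 < t := lt_trans (by positivity) h1
    field_simp
  · simp

end EXS
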