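import Pool.Agent.EXS.S3
import Pool.Agent.EXS.S5
import Pool.Agent.EXS.S6

/-! SHARP S7: assembly. -/

set_option autoImplicit false

namespace EXS

open MeasureTheory Filter Topology

theorem cst_pos : 0 < cst :=
  Real.cos_pos_of_mem_Ioo ⟨by linarith [Real.pi_pos], by linarith [Real.pi_pos]⟩

theorem ta_le_cos {N : ℕ} {x : Fin N → ℝ} {s0 : ℝ} {s : Fin N → ℝ} (h : SD x s0 s) (k : Fin N) :
    ta ≤ Real.cos (8 * x k / 3) ∧ Real.cos (8 * x k / 3) ≤ 1 := by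
  refine ⟨?_, Real.cos_le_one _⟩
  have h1 := h.pos k
  have h2 := h.lt k
  rw [ta, ← Real.cos_pi_div_six]
  apply Real.cos_le_cos_of_nonneg_of_le_pi
  · linarith
  · linarith [Real.pi_pos]
  · linarith

/-- residual data of N nodes close to π/16, for every N: |SS cst| N^(1/4) converges -/
theorem sharp_nodes {x : (N : ℕ) → Fin N → ℝ} {s0 : ℕ → ℝ} {s : (N : ℕ) → Fin N → ℝ} (h : ∀ N, SD (x N) (s0 N) (s N))
    (hδ : ∀ ε : ℝ, 0 < ε → ∀ᶠ N in atTop, ∀ k, |x N k - Real.pi / 16| ≤ ε) :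
    ∃ b : ℝ, Tendsto (fun N : ℕ => (N : ℝ) ^ (1 / 4 : ℝ) * |SS (x N) (s0 N) (s N) cst|) atTop (𝓝 b) := by
  choose U hU hn using fun N => exists_UF (h N)
  have hτ : ∀ N k, ta ≤ Real.cos (8 * x N k / 3) ∧ Real.cos (8 * x N k / 3) ≤ 1 :=
    fun N k => ta_le_cos (h N) k
  choose v hm hb heq hv using fun N => integral_eq (hU N)
  have hδ' : ∀ ε : ℝ, 0 < ε → ∀ᶠ N in atTop, ∀ k, |Real.cos (8 * x N k / 3) - ta| ≤ ε := by
    intro ε hε
    filter_upwards [hδ (ε / 3) (by positivity)] with N hN k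
    have h1 := hN k
    have h2 : ta = Real.cos (8 * (Real.pi / 16) / 3) := by
      rw [ta, ← Real.cos_pi_div_six]
      congr 1
      ring
    rw [h2]
    have h3 : |Real.cos (8 * x N k / 3) - Real.cos (8 * (Real.pi / 16) / 3)| ≤
        |8 * x N k / 3 - 8 * (Real.pi / 16) / 3| := by
      have := Real.lipschitzWith_cos.dist_le_mul (8 * x N k / 3) (8 * (Real.pi / 16) / 3)
      simpa [Real.dist_eq] using this
    have h4 : |8 * x N k / 3 - 8 * (Real.pi / 16) / 3| = 8 / 3 * |x N k - Real.pi / 16| := by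
      rw [← abs_of_pos (show (0 : ℝ) < 8 / 3 by norm_num), ← abs_mul]
      congr 1
      ring
    linarith
  obtain ⟨b, hb'⟩ := sharp_lim hτ hδ' hm hb heq
  refine ⟨8 * cst / Real.sqrt 3 * |b|, ?_⟩
  have h3 : 0 < Real.sqrt 3 := Real.sqrt_pos.2 (by norm_num)
  have key : ∀ N : ℕ, (N : ℝ) ^ (1 / 4 : ℝ) * |SS (x N) (s0 N) (s N) cst| = 8 * cst / Real.sqrt 3 *
      |(N : ℝ) ^ (1 / 4 : ℝ) * ((1 / Real.pi) * ∫ X in Set.Ioi (1 : ℝ), (v N X + sh X) / X)| := by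
    intro N
    have e1 : |(1 / Real.pi) * ∫ X in Set.Ioi (1 : ℝ), (v N X + sh X) / X| =
        Real.sqrt 3 / 8 * |SS (x N) (s0 N) (s N) cst| / cst := by
      rw [← hn N, hv N, Complex.norm_real, Real.norm_eq_abs]
    rw [abs_mul, e1, abs_of_nonneg (Real.rpow_nonneg (Nat.cast_nonneg N) _)]
    have := cst_pos
    field_simp
  simp_rw [key]
  exact hb'.abs.const_mul _

theorem rpow_div_lim : Tendsto (fun N : ℕ => (N : ℝ) ^ (1 / 4 : ℝ) * (1 / ((N : ℝ) + 1))) atTop (𝓝 0) := by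
  have h1 : Tendsto (fun N : ℕ => (N : ℝ) ^ (-(3 / 4) : ℝ)) atTop (𝓝 0) :=
    (tendsto_rpow_neg_atTop (by norm_num)).comp tendsto_natCast_atTop_atTop
  refine squeeze_zero' (Eventually.of_forall fun N => by positivity) ?_ h1
  filter_upwards [eventually_ge_atTop 1] with N hN
  have hN' : (0 : ℝ) < N := by exact_mod_cast hN
  have e : (N : ℝ) ^ (-(3 / 4) : ℝ) = (N : ℝ) ^ (1 / 4 : ℝ) * (1 / (N : ℝ)) := by
    rw [show (1 : ℝ) / (N : ℝ) = (N : ℝ) ^ (-1 : ℝ) by rw [Real.rpow_neg_one, one_div], ← Real.rpow_add hN']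
    norm_num
  rw [e]
  apply mul_le_mul_of_nonneg_left _ (Real.rpow_nonneg hN'.le _)
  apply one_div_le_one_div_of_le hN'
  linarith

/-- final form: the numbers B N (bT N) are limits of B(x), x -> (π/16, ..., π/16), with the closing formula
|B(x)| = |SS x s0 s cst| for distinct nodes near π/16; if B N ≥ c N^(-1/4), the limit is positive. -/
theorem sharp {B : ℕ → ℝ} {c : ℝ} (hc : 0 < c) (hB : ∀ N : ℕ, 1 ≤ N → c * (N : ℝ) ^ (-(1 / 4) : ℝ) ≤ B N)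
    (hlim : ∀ N : ℕ, ∀ ε : ℝ, 0 < ε → ∃ (x : Fin N → ℝ) (s0 : ℝ) (s : Fin N → ℝ), SD x s0 s ∧
      (∀ k, |x k - Real.pi / 16| ≤ ε) ∧ abs (B N - abs (SS x s0 s cst)) ≤ ε) :
    ∃ b : ℝ, 0 < b ∧ Tendsto (fun N : ℕ => (N : ℝ) ^ (1 / 4 : ℝ) * B N) atTop (𝓝 b) := by
  have hε : ∀ N : ℕ, (0 : ℝ) < 1 / ((N : ℝ) + 1) := fun N => by positivity
  choose x s0 s h1 h2 h3 using fun N => hlim N _ (hε N)
  have hδ : ∀ ε : ℝ, 0 < ε → ∀ᶠ N in atTop, ∀ k, |x N k - Real.pi / 16| ≤ ε := by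
    intro ε hε'
    have := (tendsto_one_div_add_atTop_nhds_zero_nat (𝕜 := ℝ)).eventually (eventually_le_nhds hε')
    filter_upwards [this] with N hN k
    exact (h2 N k).trans hN
  obtain ⟨b, hb⟩ := sharp_nodes h1 hδ
  have hlim' : Tendsto (fun N : ℕ => (N : ℝ) ^ (1 / 4 : ℝ) * B N) atTop (𝓝 b) := by
    have hd : Tendsto (fun N : ℕ => (N : ℝ) ^ (1 / 4 : ℝ) * (B N - |SS (x N) (s0 N) (s N) cst|)) atTop (𝓝 0) := by
      apply squeeze_zero_norm _ rpow_div_lim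
      intro N
      rw [norm_mul, Real.norm_eq_abs, Real.norm_eq_abs,
        abs_of_nonneg (Real.rpow_nonneg (Nat.cast_nonneg N) _)]
      exact mul_le_mul_of_nonneg_left (h3 N) (Real.rpow_nonneg (Nat.cast_nonneg N) _)
    have := hb.add hd
    rw [add_zero] at this
    refine this.congr fun N => ?_
    ring
  refine ⟨b, lt_of_lt_of_le hc ?_, hlim'⟩
  apply ge_of_tendsto hlim'
  filter_upwards [eventually_ge_atTop 1] with N hN
  have hN' : (0 : ℝ) < N := by exact_mod_cast hN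
  calc c = (N : ℝ) ^ (1 / 4 : ℝ) * (c * (N : ℝ) ^ (-(1 / 4) : ℝ)) := by
        rw [mul_left_comm, ← Real.rpow_add hN']
        norm_num
    _ ≤ _ := mul_le_mul_of_nonneg_left (hB N hN) (Real.rpow_nonneg hN'.le _)

end EXS
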