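import Pool.Agent.EXS.S1
import Pool.Agent.EXS.S7
import Pool.Agent.EXL.GlLim

/-! SHARP, route 59: the glue with the lattice part (same hypothesis as `Glue.relE_of`). -/

set_option autoImplicit false

namespace EXS

open MeasureTheory Filter Topology Pool.Agent.EXL Pool.Agent.EXL.Cl Pool.Agent.EXL.Glue

/-- existence of the coefficients of the residual of sin 4v -/
theorem exists_resE {N : ℕ} {x : Fin N → ℝ} (hx : Nd x) :
    ∃ a' : Fin N → ℂ, ∀ k, resE x 0 a' (ep (x k)) = 0 := by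
  obtain ⟨a', ha'⟩ := solv hx fun k => S2 (ep (x k))
  refine ⟨a', fun k => ?_⟩
  rw [resE, ha' k]
  ring

theorem SD_of_ClOut {N : ℕ} {x : Fin N → ℝ} (hx : Nd x) {B : ℂ} (h : ClOut x B) :
    ∃ (s0 : ℝ) (s : Fin N → ℝ), SD x s0 s ∧ ‖B‖ = |SS x s0 s cst| := by
  obtain ⟨a', ha'⟩ := exists_resE hx
  exact SD_of_closing' hx fun a a'' h1 h3 => h a a' a'' h1 ha' h3

theorem SS_zero : SS (fun _ : Fin 0 => (0 : ℝ)) 1 (fun _ => 0) cst = 1 := by
  have h1 : cst = Real.sin (Real.pi / 8) := by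
    rw [cst, ← Real.sin_pi_div_two_sub]
    congr 1
    ring
  have h2 : 2 * Real.sin (Real.pi / 8) * Real.cos (Real.pi / 8) = Real.sqrt 2 / 2 := by
    rw [← Real.sin_two_mul, ← Real.sin_pi_div_four]
    congr 1
    ring
  have h3 : Real.sqrt 2 * Real.sqrt 2 = 2 := Real.mul_self_sqrt (by norm_num)
  have h4 := Real.sin_sq_add_cos_sq (Real.pi / 8)
  have h5 : HH cst (Real.cos (Real.pi / 8)) = 1 := by
    rw [HH, h1]
    linear_combination h4 + (Real.sqrt 2 / 2) * h2 + (1 / 4) * h3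
  rw [SS, h5]
  simp

/-- **Sharp asymptotics of the bridge weights from the output of the lattice part.** -/
theorem sharp_of_ClOut {B : ℕ → ℝ} {c : ℝ} (hc : 0 < c)
    (hB : ∀ N : ℕ, 1 ≤ N → c * (N : ℝ) ^ (-(1 / 4) : ℝ) ≤ B N)
    (h : ∀ n, 1 ≤ n → ∃ Bx : (Fin n → ℝ) → ℂ, Tendsto Bx (nf n) (𝓝 (B n : ℂ)) ∧
      ∀ᶠ x in nf n, ClOut x (Bx x)) :
    ∃ b : ℝ, 0 < b ∧ Tendsto (fun N : ℕ => (N : ℝ) ^ (1 / 4 : ℝ) * B N) atTop (𝓝 b) := by
  set B' : ℕ → ℝ := fun n => if n = 0 then 1 else B n with hB'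
  have e1 : ∀ n, 1 ≤ n → B' n = B n := fun n hn => by
    rw [hB']
    exact if_neg (by omega)
  obtain ⟨b, hb, hlim⟩ := sharp (B := B') hc (fun N hN => by rw [e1 N hN]; exact hB N hN) (by
    intro n ε hε
    rcases Nat.eq_zero_or_pos n with rfl | hn
    · refine ⟨fun _ => 0, 1, fun _ => 0, ⟨fun a => a.elim0, fun a => a.elim0, fun a => a.elim0,
        fun a => a.elim0, by simp⟩, fun a => a.elim0, ?_⟩
      rw [SS_zero, hB']
      simp [hε.le]
    · obtain ⟨Bx, hlim, hout⟩ := h n hn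
      have h1 : ∀ᶠ x in nf n, ‖Bx x - (B n : ℂ)‖ < ε := by
        have := (tendsto_iff_norm_sub_tendsto_zero.1 hlim)
        exact this.eventually (eventually_lt_nhds hε)
      have h2 : ∀ᶠ x in nf n, ∀ k, |x k - Real.pi / 16| < ε := by
        have h3 : ∀ᶠ x in 𝓝 (fun _ : Fin n => Real.pi / 16), ∀ k, |x k - Real.pi / 16| < ε := by
          have := Metric.ball_mem_nhds (fun _ : Fin n => Real.pi / 16) hε
          filter_upwards [this] with x hx k
          have h4 := dist_le_pi_dist x (fun _ => Real.pi / 16) k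
          rw [Real.dist_eq] at h4
          exact lt_of_le_of_lt h4 (Metric.mem_ball.1 hx)
        exact h3.filter_mono nhdsWithin_le_nhds
      have h3 : ∀ᶠ x in nf n, Nd x := self_mem_nhdsWithin
      obtain ⟨ε', h4⟩ := ((tendsto_zs n).eventually (h1.and (h2.and (h3.and hout)))).exists
      obtain ⟨a1, a2, a3, a4⟩ := h4
      obtain ⟨s0, s, a5, a6⟩ := SD_of_ClOut a3 a4
      refine ⟨_, s0, s, a5, fun k => (a2 k).le, ?_⟩
      rw [e1 n hn, ← a6]
      have hBn : 0 ≤ B n := le_trans (by positivity) (hB n hn)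
      have a7 : B n = ‖(B n : ℂ)‖ := by
        rw [Complex.norm_real, Real.norm_eq_abs, abs_of_nonneg hBn]
      rw [a7]
      refine (abs_norm_sub_norm_le _ _).trans ?_
      rw [norm_sub_rev]
      exact a1.le)
  refine ⟨b, hb, hlim.congr' ?_⟩
  filter_upwards [eventually_ge_atTop 1] with n hn
  rw [e1 n hn]

end EXS
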