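import Pool.Agent.EXS.S6

/-!
SHARP for arbitrary physical rows (UNIV, U1): the same limit for every sequence of rows, in the scale of the
Euclidean height `H = ∑ τ_k`.
-/

set_option autoImplicit false

namespace EXS.Univ

open MeasureTheory Filter Topology Set EXS EXS.A6

/-- products of small factors -/
theorem prod_tendsto {n : ℕ → ℕ} {a : ∀ N : ℕ, Fin (n N) → ℂ} {A : ℂ}
    (h1 : Tendsto (fun N => ∑ k, a N k) atTop (𝓝 A))
    (h2 : Tendsto (fun N => ∑ k, ‖a N k‖ ^ 2) atTop (𝓝 0)) :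
    Tendsto (fun N => ∏ k, (1 + a N k)) atTop (𝓝 (Complex.exp A)) := by
  have hsmall : ∀ᶠ N in atTop, ∀ k, ‖a N k‖ ≤ 1 / 2 := by
    filter_upwards [h2.eventually (gt_mem_nhds (show (0:ℝ) < 1 / 4 by norm_num))] with N hN k
    have h3 : ‖a N k‖ ^ 2 ≤ ∑ k, ‖a N k‖ ^ 2 :=
      Finset.single_le_sum (f := fun k => ‖a N k‖ ^ 2) (fun i _ => sq_nonneg _) (Finset.mem_univ k)
    nlinarith [norm_nonneg (a N k)]
  have key : Tendsto (fun N => ∑ k, Complex.log (1 + a N k)) atTop (𝓝 A) := by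
    have h4 : Tendsto (fun N => ∑ k, (Complex.log (1 + a N k) - a N k)) atTop (𝓝 0) := by
      refine squeeze_zero_norm' ?_ h2
      filter_upwards [hsmall] with N hN
      refine (norm_sum_le _ _).trans (Finset.sum_le_sum fun k _ => ?_)
      have hk := hN k
      have := Complex.norm_log_one_add_sub_self_le (z := a N k) (by linarith)
      have h5 : (1 - ‖a N k‖)⁻¹ ≤ 2 := by
        rw [inv_le_comm₀ (by linarith) (by norm_num)]
        linarith
      calc ‖Complex.log (1 + a N k) - a N k‖ ≤ ‖a N k‖ ^ 2 * (1 - ‖a N k‖)⁻¹ / 2 := this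
        _ ≤ ‖a N k‖ ^ 2 * 2 / 2 := by gcongr
        _ = ‖a N k‖ ^ 2 := by ring
    have h6 := h4.add h1
    rw [zero_add] at h6
    refine h6.congr fun N => ?_
    rw [← Finset.sum_add_distrib]
    refine Finset.sum_congr rfl fun k _ => ?_
    ring
  refine ((Complex.continuous_exp.tendsto A).comp key).congr' ?_
  filter_upwards [hsmall] with N hN
  simp only [Function.comp_apply]
  rw [Complex.exp_sum]
  refine Finset.prod_congr rfl fun k _ => ?_
  rw [Complex.exp_log]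
  intro h5
  have h6 : a N k = -1 := by linear_combination h5
  have h7 := hN k
  rw [h6, norm_neg, norm_one] at h7
  norm_num at h7

/-- the limit exponent -/
noncomputable def Ae (s : ℝ) : ℂ := -(2 / (s : ℂ)) * ((1 + r0) / r0)

theorem phi_lim' {s : ℝ} {ε : ℝ} (hε : 0 < ε) : ∃ d : ℝ, 0 < d ∧ ∀ (p : ℝ) (r : ℂ), |p| < d →
    ‖r - r0‖ < d → ‖-(2 / (s : ℂ)) * ((1 + r) / ((1 + p) * (r + p))) - Ae s‖ ≤ ε := by
  have hcont : ContinuousAt (fun q : ℝ × ℂ => -(2 / (s : ℂ)) * ((1 + q.2) /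
      ((1 + q.1) * (q.2 + q.1)))) (0, r0) := by
    apply ContinuousAt.mul continuousAt_const
    apply ContinuousAt.div
    · fun_prop
    · fun_prop
    · simp [r0_ne]
  have hval : -(2 / (s : ℂ)) * ((1 + r0) / ((1 + (0 : ℝ)) * (r0 + (0 : ℝ)))) = Ae s := by
    unfold Ae
    simp
  rw [Metric.continuousAt_iff] at hcont
  obtain ⟨d, hd, h⟩ := hcont ε hε
  refine ⟨d, hd, fun p r h2 h3 => ?_⟩
  have h4 := h (x := (p, r)) (by
    rw [Prod.dist_eq]
    simp only [max_lt_iff]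
    refine ⟨?_, ?_⟩
    · rw [Real.dist_eq, sub_zero]
      exact h2
    · rw [dist_eq_norm]
      exact h3)
  rw [dist_eq_norm] at h4
  simp only at h4
  rw [hval] at h4
  exact h4.le

section

variable {n : ℕ → ℕ} {τ : (N : ℕ) → Fin (n N) → ℝ} {h : ℕ → ℝ}

theorem hs_lim (hh : Tendsto h atTop atTop) {s : ℝ} (hs : 0 < s) :
    Tendsto (fun N : ℕ => h N * s) atTop atTop := hh.atTop_mul_const hs

/-- one factor minus one -/
theorem factor_eq {X t : ℝ} (hX : 1 < X) (ht : 0 < t) {s H : ℝ} (hs : 0 < s)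
    (e : X = H * s) :
    (H : ℂ) * ((((X : ℂ) - (t : ℂ)) * (T2 X - (t : ℂ)) /
      (((X : ℂ) + (t : ℂ)) * (T2 X + (t : ℂ)))) - 1) =
      (t : ℂ) * (-(2 / (s : ℂ)) * ((1 + T2 X / X) / ((1 + ((t / X : ℝ) : ℂ)) *
        (T2 X / X + ((t / X : ℝ) : ℂ))))) := by
  have hX0 : (X : ℂ) ≠ 0 := by
    have : X ≠ 0 := by linarith
    exact_mod_cast this
  have hs0 : (s : ℂ) ≠ 0 := by exact_mod_cast hs.ne'
  have hXt : (X : ℂ) + (t : ℂ) ≠ 0 := by
    have : X + t ≠ 0 := by linarith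
    exact_mod_cast this
  have hTt : T2 X + (t : ℂ) ≠ 0 := by
    rw [add_comm]
    exact add_T2_ne ht hX
  have e1 : (1 + ((t / X : ℝ) : ℂ)) = (X + t) / X := by
    push_cast
    field_simp
  have e2 : T2 X / X + ((t / X : ℝ) : ℂ) = (T2 X + t) / X := by
    push_cast
    field_simp
  have e3 : 1 + T2 X / X = (X + T2 X) / X := by
    field_simp
  have e4 : (X : ℂ) = H * s := by exact_mod_cast congrArg (fun x : ℝ => (x : ℂ)) e
  rw [e1, e2, e3]
  have e5 : (H : ℂ) = X / s := by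
    rw [e4]
    field_simp
  rw [e5]
  field_simp
  ring

theorem Wf_lim (hτ : ∀ N k, ta ≤ τ N k ∧ τ N k ≤ 1) (hsum : ∀ N, h N = ∑ k, τ N k)
    (hh : Tendsto h atTop atTop) {s : ℝ} (hs : 0 < s) :
    Tendsto (fun N : ℕ => Wf (τ N) (h N * s)) atTop (𝓝 (Complex.exp (Ae s))) := by
  have hXlim := hs_lim hh hs
  have hpos : ∀ N k, 0 < τ N k := fun N k => lt_of_lt_of_le ta_pos (hτ N k).1
  -- uniform estimate
  have huni : ∀ ε : ℝ, 0 < ε → ∀ᶠ N in atTop, ∀ k : Fin (n N), ‖(h N : ℂ) *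
      (((((h N * s : ℝ) : ℂ) - (τ N k : ℂ)) * (T2 (h N * s) - (τ N k : ℂ)) /
      ((((h N * s : ℝ) : ℂ) + (τ N k : ℂ)) * (T2 (h N * s) + (τ N k : ℂ)))) - 1) -
      (τ N k : ℂ) * Ae s‖ ≤ ε * τ N k := by
    intro ε hε
    obtain ⟨d, hd, hphi⟩ := phi_lim' (s := s) hε
    have h1 : ∀ᶠ N : ℕ in atTop, ‖T2 (h N * s) / ((h N * s : ℝ) : ℂ) - r0‖ < d := by
      have := (T2_lim.comp hXlim).eventually (Metric.ball_mem_nhds r0 hd)
      filter_upwards [this] with N hN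
      rw [← dist_eq_norm]
      exact hN
    have h2 : ∀ᶠ N : ℕ in atTop, 1 / (h N * s) < d := by
      have h3 : Tendsto (fun N => 1 / (h N * s)) atTop (𝓝 0) := hXlim.const_div_atTop 1
      exact h3.eventually (gt_mem_nhds hd)
    filter_upwards [h1, h2, hXlim.eventually_gt_atTop 1] with N hN1 hN2 hN4
    intro k
    have ht := hpos N k
    have h3 := hphi (τ N k / (h N * s)) (T2 (h N * s) / ((h N * s : ℝ) : ℂ)) (by
      rw [abs_of_pos (by positivity)]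
      refine lt_of_le_of_lt ?_ hN2
      gcongr
      exact (hτ N k).2) hN1
    rw [factor_eq hN4 ht hs rfl, ← mul_sub, norm_mul, Complex.norm_real, Real.norm_of_nonneg ht.le]
    rw [mul_comm ε]
    exact mul_le_mul_of_nonneg_left h3 ht.le
  have key := prod_tendsto (n := n) (a := fun N k => ((((h N * s : ℝ) : ℂ) - (τ N k : ℂ)) *
    (T2 (h N * s) - (τ N k : ℂ)) /
      ((((h N * s : ℝ) : ℂ) + (τ N k : ℂ)) * (T2 (h N * s) + (τ N k : ℂ)))) - 1) (A := Ae s) ?_ ?_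
  · have h2 := (pre_lim.comp hXlim).mul key
    rw [one_mul] at h2
    refine h2.congr' ?_
    filter_upwards with N
    unfold Wf
    simp only [Function.comp]
    congr 1
    refine Finset.prod_congr rfl fun k _ => ?_
    ring
  · rw [Metric.tendsto_atTop]
    intro ε hε
    obtain ⟨N0, hN0⟩ := ((huni (ε / 2) (by positivity)).and (hh.eventually_gt_atTop 0)).exists_forall_of_atTop
    refine ⟨N0, fun N hN => ?_⟩
    obtain ⟨h1, h2⟩ := hN0 N hN
    have hc : (h N : ℂ) ≠ 0 := by exact_mod_cast h2.ne'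
    rw [dist_eq_norm]
    have e1 : ∀ S : ℂ, S - Ae s = ((h N : ℂ) * S - (h N : ℂ) * Ae s) / (h N : ℂ) := fun S => by
      field_simp
    rw [e1, norm_div, Complex.norm_real, Real.norm_of_nonneg h2.le]
    refine lt_of_le_of_lt ?_ (half_lt_self hε)
    rw [div_le_iff₀ h2]
    have e2 : (h N : ℂ) * Ae s = ∑ k, (τ N k : ℂ) * Ae s := by
      rw [← Finset.sum_mul]
      congr 1
      rw [hsum N]
      push_cast
      rfl
    rw [e2, Finset.mul_sum, ← Finset.sum_sub_distrib]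
    refine (norm_sum_le _ _).trans ((Finset.sum_le_sum fun k _ => h1 k).trans (le_of_eq ?_))
    rw [← Finset.mul_sum, hsum N]
  · have h3 : Tendsto (fun N => (‖Ae s‖ + 1) ^ 2 * (1 / h N)) atTop (𝓝 ((‖Ae s‖ + 1) ^ 2 * 0)) := by
      exact Tendsto.const_mul _ (hh.const_div_atTop 1)
    rw [mul_zero] at h3
    refine squeeze_zero' (Eventually.of_forall fun N => Finset.sum_nonneg fun k _ => sq_nonneg _) ?_ h3
    filter_upwards [huni 1 one_pos, hh.eventually_gt_atTop 0] with N h1 h2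
    have h4 : ∀ k : Fin (n N), ‖((((h N * s : ℝ) : ℂ) - (τ N k : ℂ)) * (T2 (h N * s) - (τ N k : ℂ)) /
      ((((h N * s : ℝ) : ℂ) + (τ N k : ℂ)) * (T2 (h N * s) + (τ N k : ℂ)))) - 1‖ ≤
        (‖Ae s‖ + 1) * τ N k / h N := by
      intro k
      have ht := hpos N k
      rw [le_div_iff₀ h2]
      have h5 := h1 k
      set z := ((((h N * s : ℝ) : ℂ) - (τ N k : ℂ)) * (T2 (h N * s) - (τ N k : ℂ)) /
        ((((h N * s : ℝ) : ℂ) + (τ N k : ℂ)) * (T2 (h N * s) + (τ N k : ℂ)))) - 1 with hz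
      have h6 : ‖(h N : ℂ) * z‖ ≤ (‖Ae s‖ + 1) * τ N k := by
        calc ‖(h N : ℂ) * z‖ = ‖((h N : ℂ) * z - (τ N k : ℂ) * Ae s) + (τ N k : ℂ) * Ae s‖ := by
              rw [sub_add_cancel]
          _ ≤ ‖(h N : ℂ) * z - (τ N k : ℂ) * Ae s‖ + ‖(τ N k : ℂ) * Ae s‖ := norm_add_le _ _
          _ ≤ 1 * τ N k + τ N k * ‖Ae s‖ := by
              rw [norm_mul, Complex.norm_real, Real.norm_of_nonneg ht.le]
              linarith
          _ = _ := by ring
      rw [norm_mul, Complex.norm_real, Real.norm_of_nonneg h2.le] at h6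
      linarith
    calc ∑ k, ‖((((h N * s : ℝ) : ℂ) - (τ N k : ℂ)) * (T2 (h N * s) - (τ N k : ℂ)) /
      ((((h N * s : ℝ) : ℂ) + (τ N k : ℂ)) * (T2 (h N * s) + (τ N k : ℂ)))) - 1‖ ^ 2
        ≤ ∑ k, (‖Ae s‖ + 1) ^ 2 / h N ^ 2 * τ N k := by
          refine Finset.sum_le_sum fun k _ => ?_
          have ht := hpos N k
          refine (pow_le_pow_left₀ (norm_nonneg _) (h4 k) 2).trans ?_
          rw [div_pow, mul_pow, mul_div_assoc, div_mul_eq_mul_div, mul_div_assoc]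
          have : τ N k ^ 2 ≤ τ N k := by nlinarith [(hτ N k).2]
          gcongr
      _ = (‖Ae s‖ + 1) ^ 2 * (1 / h N) := by
          rw [← Finset.mul_sum, ← hsum N]
          field_simp

theorem src_lim (hτ : ∀ N k, ta ≤ τ N k ∧ τ N k ≤ 1) (hsum : ∀ N, h N = ∑ k, τ N k)
    (hh : Tendsto h atTop atTop) :
    ∃ g : ℝ → ℝ, ∀ s : ℝ, 0 < s →
      Tendsto (fun N : ℕ => (h N) ^ (1 / 4 : ℝ) * src (Wf (τ N)) (h N * s)) atTop (𝓝 (g s)) := by
  obtain ⟨κ, hκ⟩ := c2_lim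
  refine ⟨fun s => -(s ^ (-(1 / 4) : ℝ)) * ((Complex.exp (Ae s) - 1) * ((κ : ℂ) * (1 - Complex.I))).im,
    fun s hs => ?_⟩
  have hXlim := hs_lim hh hs
  have hW := Wf_lim hτ hsum hh hs
  -- c_2 - cst, normalised
  have hc : Tendsto (fun N : ℕ => (c2 (h N * s) - (cst : ℂ)) * ((((h N) * s) ^ (-(3 / 4) : ℝ) : ℝ) : ℂ)) atTop
      (𝓝 ((κ : ℂ) * (1 - Complex.I))) := by
    have h1 := hκ.comp hXlim
    have h2 : Tendsto (fun N : ℕ => (cst : ℂ) * ((((h N) * s) ^ (-(3 / 4) : ℝ) : ℝ) : ℂ)) atTop (𝓝 0) := by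
      have h3 : Tendsto (fun X : ℝ => X ^ (-(3 / 4) : ℝ)) atTop (𝓝 0) := tendsto_rpow_neg_atTop (by norm_num)
      have h4 := (Complex.continuous_ofReal.tendsto 0).comp (h3.comp hXlim)
      rw [Complex.ofReal_zero] at h4
      have h5 := h4.const_mul (cst : ℂ)
      rw [mul_zero] at h5
      exact h5
    have h6 := h1.sub h2
    rw [sub_zero] at h6
    refine h6.congr fun N => ?_
    simp only [Function.comp]
    ring
  have h1 := (hW.sub_const 1).mul hc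
  have h2 := ((Complex.continuous_im.tendsto _).comp h1).const_mul (-(s ^ (-(1 / 4) : ℝ)))
  refine h2.congr' ?_
  filter_upwards [hXlim.eventually_gt_atTop 1, hh.eventually_gt_atTop 0] with N hN1 hN0
  rw [src_eq _ hN1.le]
  simp only [Function.comp]
  have e1 : (Wf (τ N) (h N * s) - 1) * ((c2 (h N * s) - (cst : ℂ)) * ((((h N) * s) ^ (-(3 / 4) : ℝ) : ℝ) : ℂ)) =
      ((((h N) * s) ^ (-(3 / 4) : ℝ) : ℝ) : ℂ) * ((Wf (τ N) (h N * s) - 1) * (c2 (h N * s) - (cst : ℂ))) := by ring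
  rw [e1, Complex.im_ofReal_mul]
  have e2 : s ^ (-(1 / 4) : ℝ) * ((h N) * s) ^ (-(3 / 4) : ℝ) = (h N) ^ (1 / 4 : ℝ) * (1 / (h N * s)) := by
    have e6 : 1 / ((h N) * s) = (h N) ^ (-1 : ℝ) * s ^ (-1 : ℝ) := by
      rw [Real.rpow_neg_one, Real.rpow_neg_one, one_div, mul_inv]
    rw [Real.mul_rpow hN0.le hs.le, e6]
    have e3 : s ^ (-(1 / 4) : ℝ) * s ^ (-(3 / 4) : ℝ) = s ^ (-1 : ℝ) := by
      rw [← Real.rpow_add hs]
      norm_num
    have e4 : (h N) ^ (1 / 4 : ℝ) * (h N) ^ (-1 : ℝ) = (h N) ^ (-(3 / 4) : ℝ) := by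
      rw [← Real.rpow_add hN0]
      norm_num
    calc s ^ (-(1 / 4) : ℝ) * ((h N) ^ (-(3 / 4) : ℝ) * s ^ (-(3 / 4) : ℝ)) =
        (s ^ (-(1 / 4) : ℝ) * s ^ (-(3 / 4) : ℝ)) * (h N) ^ (-(3 / 4) : ℝ) := by ring
      _ = s ^ (-1 : ℝ) * ((h N) ^ (1 / 4 : ℝ) * (h N) ^ (-1 : ℝ)) := by rw [e3, e4]
      _ = _ := by ring
  have e5 : -(s ^ (-(1 / 4) : ℝ)) * (((h N) * s) ^ (-(3 / 4) : ℝ) *
      ((Wf (τ N) (h N * s) - 1) * (c2 (h N * s) - (cst : ℂ))).im) = -(s ^ (-(1 / 4) : ℝ) * ((h N) * s) ^ (-(3 / 4) : ℝ)) *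
      ((Wf (τ N) (h N * s) - 1) * (c2 (h N * s) - (cst : ℂ))).im := by ring
  rw [e5, e2]
  ring

/-- scaling of integrals -/
theorem scale_int {E : Type*} [NormedAddCommGroup E] [NormedSpace ℝ E] (F : ℝ → E) {H : ℝ}
    (hH : 0 < H) : ∫ x in Ioi (1 : ℝ), F x =
      ∫ t in Ioi (0 : ℝ), (Ioi ((1 : ℝ) / H)).indicator (fun t => H • F (H * t)) t := by
  rw [setIntegral_indicator measurableSet_Ioi, Ioi_inter_Ioi, sup_eq_right.2 (by positivity),
    integral_smul, integral_comp_mul_left_Ioi _ _ hH, mul_one_div_cancel hH.ne', smul_smul,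
    mul_inv_cancel₀ hH.ne', one_smul]

theorem T2_scale (hh : Tendsto h atTop atTop) (s : ℝ) :
    Tendsto (fun N : ℕ => T2 (h N * s) / (h N : ℂ)) atTop
      (𝓝 (((s / 2 : ℝ) : ℂ) + ((-(ta * √(s ^ 2 - 0)) : ℝ) : ℂ) * Complex.I)) := by
  have h1 : Tendsto (fun N : ℕ => (1:ℝ) / (h N) ^ 2) atTop (𝓝 0) :=
    ((tendsto_pow_atTop (α := ℝ) (n := 2) (by norm_num)).comp hh).const_div_atTop 1
  have h2 : Tendsto (fun N : ℕ => -(ta * √(s ^ 2 - 1 / (h N) ^ 2))) atTop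
      (𝓝 (-(ta * √(s ^ 2 - 0)))) := (((h1.const_sub _).sqrt).const_mul _).neg
  have h3 : Tendsto (fun N : ℕ => ((s / 2 : ℝ) : ℂ) + ((-(ta * √(s ^ 2 - 1 / (h N) ^ 2)) : ℝ) : ℂ)
      * Complex.I) atTop (𝓝 (((s / 2 : ℝ) : ℂ) + ((-(ta * √(s ^ 2 - 0)) : ℝ) : ℂ) * Complex.I)) :=
    ((Complex.continuous_ofReal.tendsto _).comp h2 |>.mul_const _).const_add _
  refine h3.congr' ?_
  filter_upwards [hh.eventually_gt_atTop 0] with N hN0
  have e : √((h N * s) ^ 2 - 1) = h N * √(s ^ 2 - 1 / (h N) ^ 2) := by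
    have : (h N * s) ^ 2 - 1 = (s ^ 2 - 1 / (h N) ^ 2) * (h N) ^ 2 := by
      field_simp
    rw [this, Real.sqrt_mul' _ (sq_nonneg _), Real.sqrt_sq hN0.le, mul_comm]
  have hNc : (h N : ℂ) ≠ 0 := by exact_mod_cast hN0.ne'
  have e2 : T2 (h N * s) = (h N : ℂ) * (((s / 2 : ℝ) : ℂ) +
      ((-(ta * √(s ^ 2 - 1 / (h N) ^ 2)) : ℝ) : ℂ) * Complex.I) := by
    apply Complex.ext
    · simp [T2]; ring
    · simp only [T2, e, Complex.mul_im, Complex.add_im, Complex.ofReal_im, Complex.ofReal_re,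
        Complex.I_im, Complex.I_re, Complex.add_re, Complex.mul_re]
      ring
  rw [e2, mul_div_cancel_left₀ _ hNc]

/-- the denominators in the scaled Cauchy transform -/
theorem norm_den {s t : ℝ} (_hs : 0 < s) (ht : 0 < t) {H : ℝ} (hN0 : 0 < H) :
    s / 2 + t ≤ ‖(t : ℂ) + T2 (H * s) / (H : ℂ)‖ := by
  have h1 := Complex.abs_re_le_norm ((t : ℂ) + T2 (H * s) / (H : ℂ))
  have h2 : ((t : ℂ) + T2 (H * s) / (H : ℂ)).re = t + s / 2 := by
    rw [Complex.add_re, Complex.ofReal_re, Complex.div_ofReal_re]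
    simp only [T2]
    field_simp
  rw [h2] at h1
  linarith [le_abs_self (t + s / 2)]

/-- bound of the scaled function -/
theorem Bd_scale {f : ℝ → ℝ} {C : ℝ} (hC : 0 ≤ C) {H : ℝ} (hN1 : 1 ≤ H)
    (hb : Bd f (C * √(H + 1))) {t : ℝ} (ht : 0 < t) (h1 : 1 / H < t) :
    |H ^ (1 / 4 : ℝ) * f (H * t)| ≤ 2 * C * t ^ (-(3 / 4) : ℝ) := by
  have hN0 : (0 : ℝ) < H := by linarith
  have h2 : 1 < H * t := by
    rw [div_lt_iff₀ hN0] at h1
    linarith
  have h3 := hb _ h2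
  rw [abs_mul, abs_of_nonneg (by positivity)]
  have h4 : √(H + 1) ≤ 2 * H ^ (1 / 2 : ℝ) := by
    rw [← Real.sqrt_eq_rpow]
    have : 2 * √H = √(4 * H) := by
      rw [Real.sqrt_mul (by norm_num), show (4:ℝ) = 2 ^ 2 by norm_num,
        Real.sqrt_sq (by norm_num)]
    rw [this]
    exact Real.sqrt_le_sqrt (by linarith)
  calc H ^ (1 / 4 : ℝ) * |f (H * t)|
      ≤ H ^ (1 / 4 : ℝ) * (C * √(H + 1) * (H * t) ^ (-(3 / 4) : ℝ)) := by gcongr
    _ ≤ H ^ (1 / 4 : ℝ) * (C * (2 * H ^ (1 / 2 : ℝ)) * (H * t) ^ (-(3 / 4) : ℝ)) := by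
        gcongr
    _ = 2 * C * (H ^ (1 / 4 : ℝ) * H ^ (1 / 2 : ℝ) * H ^ (-(3 / 4) : ℝ)) *
        t ^ (-(3 / 4) : ℝ) := by
        rw [Real.mul_rpow hN0.le ht.le]; ring
    _ = 2 * C * t ^ (-(3 / 4) : ℝ) := by
        rw [← Real.rpow_add hN0, ← Real.rpow_add hN0]
        norm_num

theorem inv_lt_ev (hh : Tendsto h atTop atTop) {t : ℝ} (ht : 0 < t) : ∀ᶠ N : ℕ in atTop, 1 / h N < t :=
  (hh.const_div_atTop 1).eventually (gt_mem_nhds ht)

/-- the scaled Cauchy transform converges -/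
theorem Cf_lim (hh : Tendsto h atTop atTop) {f : ℕ → ℝ → ℝ} (hf : ∀ N, Measurable (f N)) {C : ℝ} (hC : 0 ≤ C)
    (hb : ∀ᶠ N in atTop, Bd (f N) (C * √(h N + 1))) {g : ℝ → ℝ}
    (hg : ∀ s : ℝ, 0 < s → Tendsto (fun N : ℕ => (h N) ^ (1 / 4 : ℝ) * f N (h N * s)) atTop
      (𝓝 (g s))) {s : ℝ} (hs : 0 < s) :
    ∃ L : ℂ, Tendsto (fun N : ℕ => (((h N) ^ (1 / 4 : ℝ) : ℝ) : ℂ) * Cf (f N) (T2 (h N * s))) atTop
      (𝓝 L) := by
  set z : ℂ := (((s / 2 : ℝ) : ℂ) + ((-(ta * √(s ^ 2 - 0)) : ℝ) : ℂ) * Complex.I) with hz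
  have hzre : z.re = s / 2 := by simp [hz]
  set F : ℕ → ℝ → ℂ := fun N => (Ioi ((1 : ℝ) / h N)).indicator
    (fun t => (((h N) ^ (1 / 4 : ℝ) * f N (h N * t) : ℝ) : ℂ) / ((t : ℂ) + T2 (h N * s) / (h N : ℂ)))
    with hF
  have hmeas : ∀ N, AEStronglyMeasurable (F N) (volume.restrict (Ioi (0:ℝ))) := by
    intro N
    have := hf N
    apply Measurable.aestronglyMeasurable
    apply Measurable.indicator _ measurableSet_Ioi
    fun_prop
  have hlim : Tendsto (fun N => ∫ t in Ioi (0:ℝ), F N t) atTop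
      (𝓝 (∫ t in Ioi (0:ℝ), (g t : ℂ) / ((t : ℂ) + z))) := by
    refine tendsto_integral_filter_of_dominated_convergence
      (fun t => 2 * C * (t ^ (-(3 / 4) : ℝ) / (s / 2 + t)))
      (Eventually.of_forall hmeas) ?_ ?_ ?_
    · filter_upwards [hb, hh.eventually_ge_atTop 1] with N hbN hN
      refine (ae_restrict_iff' measurableSet_Ioi).2 (ae_of_all _ fun t ht => ?_)
      have ht0 : 0 < t := ht
      have hN0 : 0 < h N := by linarith
      have hden := norm_den hs ht0 hN0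
      have hnn : 0 ≤ 2 * C * (t ^ (-(3 / 4) : ℝ) / (s / 2 + t)) := by positivity
      simp only [hF, indicator]
      split_ifs with h1
      · rw [norm_div, Complex.norm_real, Real.norm_eq_abs]
        have h2 := Bd_scale hC hN hbN ht0 h1
        have h3 : 0 < s / 2 + t := by positivity
        calc _ ≤ (2 * C * t ^ (-(3 / 4) : ℝ)) / (s / 2 + t) :=
              div_le_div₀ (by positivity) h2 h3 hden
          _ = _ := by ring
      · rw [norm_zero]; exact hnn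
    · exact (integrableOn_rpow_div (by norm_num) (by norm_num) (by positivity)).const_mul _
    · refine (ae_restrict_iff' measurableSet_Ioi).2 (ae_of_all _ fun t ht => ?_)
      have ht0 : 0 < t := ht
      have h1 : Tendsto (fun N : ℕ => (((h N) ^ (1 / 4 : ℝ) * f N (h N * t) : ℝ) : ℂ) /
          ((t : ℂ) + T2 (h N * s) / (h N : ℂ))) atTop (𝓝 ((g t : ℂ) / ((t : ℂ) + z))) := by
        refine Tendsto.div ((Complex.continuous_ofReal.tendsto _).comp (hg t ht0))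
          ((T2_scale hh s).const_add _) ?_
        intro h0
        have := congrArg Complex.re h0
        rw [Complex.add_re, Complex.ofReal_re, Complex.zero_re] at this
        rw [hzre] at this
        linarith
      refine h1.congr' ?_
      filter_upwards [inv_lt_ev hh ht0] with N hN
      simp only [hF, indicator, mem_Ioi, hN, if_true]
  refine ⟨((1 / Real.pi : ℝ) : ℂ) * ∫ t in Ioi (0:ℝ), (g t : ℂ) / ((t : ℂ) + z), ?_⟩
  refine (hlim.const_mul _).congr' ?_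
  filter_upwards [hh.eventually_gt_atTop 0] with N hN0
  have hNc : (h N : ℂ) ≠ 0 := by exact_mod_cast hN0.ne'
  unfold Cf
  rw [scale_int _ hN0, mul_left_comm]
  congr 1
  rw [← integral_const_mul]
  refine integral_congr_ae (ae_of_all _ fun t => ?_)
  simp only [hF, indicator]
  split_ifs with h1
  · rw [Complex.real_smul]
    push_cast
    have e : (h N : ℂ) * (t : ℂ) + T2 (h N * s) = h N * ((t : ℂ) + T2 (h N * s) / h N) := by
      field_simp
    have e3 : (h N : ℂ) * ((f N (h N * t) : ℂ) / (h N * ((t : ℂ) + T2 (h N * s) / h N)))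
        = (f N (h N * t) : ℂ) / ((t : ℂ) + T2 (h N * s) / h N) := by
      rw [mul_div_assoc', mul_div_mul_left _ _ hNc]
    rw [e, e3, mul_div_assoc]
  · simp

/-- the multiplier converges -/
theorem Wt_lim (hτ : ∀ N k, ta ≤ τ N k ∧ τ N k ≤ 1) (hsum : ∀ N, h N = ∑ k, τ N k)
    (hh : Tendsto h atTop atTop) {s : ℝ} (hs : 0 < s) :
    ∃ L : ℂ, Tendsto (fun N : ℕ => Wt (Wf (τ N)) (h N * s)) atTop (𝓝 L) := by
  have h1 := Wf_lim hτ hsum hh hs
  have h2 := ((T2_scale hh s).div_const (s : ℂ)).neg.mul h1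
  refine ⟨_, h2.congr' ?_⟩
  filter_upwards [hh.eventually_gt_atTop 0] with N hN0
  have hNc : (h N : ℂ) ≠ 0 := by exact_mod_cast hN0.ne'
  have hsc : (s : ℂ) ≠ 0 := by exact_mod_cast hs.ne'
  unfold Wt
  push_cast
  rw [div_div]

/-- pointwise convergence is preserved by the operator -/
theorem KW_lim (hτ : ∀ N k, ta ≤ τ N k ∧ τ N k ≤ 1) (hsum : ∀ N, h N = ∑ k, τ N k)
    (hh : Tendsto h atTop atTop) {f : ℕ → ℝ → ℝ}
    (hf : ∀ N, Measurable (f N)) {C : ℝ} (hC : 0 ≤ C)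
    (hb : ∀ᶠ N in atTop, Bd (f N) (C * √(h N + 1))) {g : ℝ → ℝ}
    (hg : ∀ s : ℝ, 0 < s → Tendsto (fun N : ℕ => (h N) ^ (1 / 4 : ℝ) * f N (h N * s)) atTop (𝓝 (g s))) :
    ∃ g' : ℝ → ℝ, ∀ s : ℝ, 0 < s →
      Tendsto (fun N : ℕ => (h N) ^ (1 / 4 : ℝ) * KW (Wf (τ N)) (f N) (h N * s)) atTop (𝓝 (g' s)) := by
  have key : ∀ s : ℝ, ∃ L : ℝ, 0 < s →
      Tendsto (fun N : ℕ => (h N) ^ (1 / 4 : ℝ) * KW (Wf (τ N)) (f N) (h N * s)) atTop (𝓝 L) := by
    intro s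
    by_cases hs : 0 < s
    · obtain ⟨L1, h1⟩ := Wt_lim hτ hsum hh hs
      obtain ⟨L2, h2⟩ := Cf_lim hh hf hC hb hg hs
      refine ⟨(L1 * L2).im, fun _ => ?_⟩
      refine ((Complex.continuous_im.tendsto _).comp (h1.mul h2)).congr fun N => ?_
      simp only [Function.comp_apply]
      rw [mul_left_comm, Complex.im_ofReal_mul, KW]
    · exact ⟨0, fun h => absurd h hs⟩
  choose g' hg' using key
  exact ⟨g', hg'⟩

/-- pointwise convergence of the iterates -/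
theorem itv_lim (hτ : ∀ N k, ta ≤ τ N k ∧ τ N k ≤ 1) (hsum : ∀ N, h N = ∑ k, τ N k)
    (hh : Tendsto h atTop atTop) {C : ℝ} (hC : 0 ≤ C)
    (hB : ∀ m : ℕ, ∀ᶠ N in atTop, Bd (itv (Wf (τ N)) m) (C * √(h N + 1))) (m : ℕ) :
    ∃ g : ℝ → ℝ, ∀ s : ℝ, 0 < s →
      Tendsto (fun N : ℕ => (h N) ^ (1 / 4 : ℝ) * itv (Wf (τ N)) m (h N * s)) atTop (𝓝 (g s)) := by
  induction m with
  | zero => exact ⟨fun _ => 0, fun s _ => by simp [itv]⟩
  | succ m ih =>
    obtain ⟨g, hg⟩ := ih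
    obtain ⟨g1, h1⟩ := src_lim hτ hsum hh
    obtain ⟨g2, h2⟩ := KW_lim hτ hsum hh (fun N => itv_meas (Wf_meas (τ N)) m) hC (hB m) hg
    refine ⟨fun s => g1 s + g2 s, fun s hs => ?_⟩
    refine ((h1 s hs).add (h2 s hs)).congr fun N => ?_
    simp only [itv]
    ring

theorem exp_lim (hh : Tendsto h atTop atTop) {s : ℝ} (hs : 0 < s) :
    Tendsto (fun N : ℕ => Real.exp (3 / 4 * Real.arcosh (h N * s)) / (h N * s) ^ (3 / 4 : ℝ)) atTop
      (𝓝 ((2:ℝ) ^ (3 / 4 : ℝ))) := by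
  have hX := hs_lim hh hs
  have h1 : Tendsto (fun X : ℝ => (1 + √(1 - 1 / X ^ 2)) ^ (3 / 4 : ℝ)) atTop
      (𝓝 ((1 + √(1 - 0)) ^ (3 / 4 : ℝ))) := by
    have a1 : Tendsto (fun X : ℝ => 1 / X ^ 2) atTop (𝓝 0) :=
      (tendsto_pow_atTop (α := ℝ) (n := 2) (by norm_num)).const_div_atTop 1
    have a2 : Tendsto (fun X : ℝ => 1 + √(1 - 1 / X ^ 2)) atTop (𝓝 (1 + √(1 - 0))) :=
      ((a1.const_sub 1).sqrt).const_add 1
    exact a2.rpow_const (Or.inr (by norm_num))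
  have h2 : (1 + √(1 - 0) : ℝ) = 2 := by norm_num
  rw [h2] at h1
  refine (h1.comp hX).congr' ?_
  filter_upwards [hX.eventually_ge_atTop 1] with N hN
  have hp : 0 < h N * s := by linarith
  simp only [Function.comp_apply]
  rw [exp_34_arcosh hN, ← Real.div_rpow (by positivity) hp.le]
  congr 1
  rw [add_div, div_self hp.ne']
  congr 1
  have e : (h N * s) ^ 2 - 1 = (1 - 1 / (h N * s) ^ 2) * (h N * s) ^ 2 := by
    have : (h N * s) ^ 2 ≠ 0 := by positivity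
    rw [sub_mul, one_mul, one_div, inv_mul_cancel₀ this]
  rw [e, Real.sqrt_mul' _ (sq_nonneg _), Real.sqrt_sq hp.le, mul_div_assoc, div_self hp.ne', mul_one]

theorem exp_neg_lim (hh : Tendsto h atTop atTop) {s : ℝ} (hs : 0 < s) :
    Tendsto (fun N : ℕ => Real.exp (-(3 / 4 * Real.arcosh (h N * s))) / (h N * s) ^ (3 / 4 : ℝ)) atTop
      (𝓝 0) := by
  have hX := hs_lim hh hs
  have h1 : Tendsto (fun N : ℕ => ((h N * s) ^ (3 / 4 : ℝ))⁻¹) atTop (𝓝 0) :=
    ((tendsto_rpow_atTop (by norm_num)).comp hX).inv_tendsto_atTop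
  refine squeeze_zero' ?_ ?_ h1
  · filter_upwards [hX.eventually_ge_atTop 1] with N hN
    have hp : 0 < h N * s := by linarith
    positivity
  · filter_upwards [hX.eventually_ge_atTop 1] with N hN
    have h0 := Real.arcosh_nonneg hN
    have hp : 0 < h N * s := by linarith
    rw [div_eq_mul_inv]
    have : Real.exp (-(3 / 4 * Real.arcosh (h N * s))) ≤ 1 := by
      rw [Real.exp_le_one_iff]; linarith
    calc _ ≤ 1 * ((h N * s) ^ (3 / 4 : ℝ))⁻¹ := mul_le_mul_of_nonneg_right this (by positivity)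
      _ = _ := one_mul _

theorem sh_lim (hh : Tendsto h atTop atTop) {s : ℝ} (hs : 0 < s) :
    Tendsto (fun N : ℕ => (h N) ^ (1 / 4 : ℝ) * sh (h N * s)) atTop
      (𝓝 (((2:ℝ) ^ (3 / 4 : ℝ) - 0) / 2 / √2 * s ^ (-(1 / 4) : ℝ))) := by
  have hl := ((((exp_lim hh hs).sub (exp_neg_lim hh hs)).div_const 2).div_const (√2)).mul_const
    (s ^ (-(1 / 4) : ℝ))
  refine hl.congr' ?_
  filter_upwards [hh.eventually_gt_atTop 0] with N hN0
  have hp : 0 < h N * s := by positivity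
  rw [sh, Real.sinh_eq]
  have e1 : (h N) ^ (1 / 4 : ℝ) = (h N * s) ^ (1 / 4 : ℝ) * s ^ (-(1 / 4) : ℝ) := by
    rw [Real.mul_rpow hN0.le hs.le, mul_assoc, ← Real.rpow_add hs]
    simp
  have e2 : (h N * s : ℝ) = (h N * s) ^ (1 / 4 : ℝ) * (h N * s) ^ (3 / 4 : ℝ) := by
    rw [← Real.rpow_add hp]
    norm_num
  have e3 : (0:ℝ) < (h N * s) ^ (3 / 4 : ℝ) := by positivity
  have e4 : (0:ℝ) < (h N * s) ^ (1 / 4 : ℝ) := by positivity
  have e5 : √2 ≠ 0 := by positivity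
  set E1 := Real.exp (3 / 4 * Real.arcosh (h N * s)) with hE1
  set E2 := Real.exp (-(3 / 4 * Real.arcosh (h N * s))) with hE2
  set P := (h N * s) ^ (3 / 4 : ℝ) with hP
  set Q := (h N * s) ^ (1 / 4 : ℝ) with hQ
  rw [e1, e2]
  field_simp

/-- the two-sided comparison of the number of rows and the height -/
theorem h_le_n (hτ : ∀ N k, ta ≤ τ N k ∧ τ N k ≤ 1) (hsum : ∀ N, h N = ∑ k, τ N k) (N : ℕ) :
    h N ≤ n N ∧ (n N : ℝ) ≤ 2 * h N := by
  have h1 : ∑ k, τ N k ≤ ∑ _k : Fin (n N), (1 : ℝ) := Finset.sum_le_sum fun k _ => (hτ N k).2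
  have h2 : ∑ _k : Fin (n N), (1 / 2 : ℝ) ≤ ∑ k, τ N k :=
    Finset.sum_le_sum fun k _ => ta_gt_half.le.trans (hτ N k).1
  rw [Finset.sum_const, Finset.card_univ, Fintype.card_fin, nsmul_eq_mul] at h1 h2
  rw [hsum N]
  constructor <;> linarith

/-- **the limit exists for every sequence of physical rows with height tending to infinity** -/
theorem lim_exists (hτ : ∀ N k, ta ≤ τ N k ∧ τ N k ≤ 1) (hsum : ∀ N, h N = ∑ k, τ N k)
    (hh : Tendsto h atTop atTop) {v : ℕ → ℝ → ℝ} (hm : ∀ N, Measurable (v N))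
    (hb : ∀ N, ∃ M : ℝ, Bd (v N) M)
    (heq : ∀ N, ∀ X : ℝ, 1 < X → v N X = src (Wf (τ N)) X + KW (Wf (τ N)) (v N) X) :
    ∃ b : ℝ, Tendsto (fun N : ℕ => (h N) ^ (1 / 4 : ℝ) *
      ((1 / Real.pi) * ∫ X in Set.Ioi (1 : ℝ), (v N X + sh X) / X)) atTop (𝓝 b) := by
  obtain ⟨C1', hC1'⟩ := src_Bd
  set C1 := 2 * |C1'| with hC1def
  have hC10 : 0 ≤ C1 := by positivity
  have hcmp := h_le_n hτ hsum
  have hh0 : ∀ N, 0 ≤ h N := fun N => by
    have := hcmp N
    have h3 : (0:ℝ) ≤ n N := Nat.cast_nonneg _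
    linarith [this.2]
  have hS : ∀ N, Bd (src (Wf (τ N))) (C1 * √(h N + 1)) := fun N => by
    refine Bd_mono (hC1' (n N) (τ N) (hτ N)) ?_
    have h1 : √((n N : ℝ) + 1) ≤ 2 * √(h N + 1) := by
      have : 2 * √(h N + 1) = √(4 * (h N + 1)) := by
        rw [Real.sqrt_mul (by norm_num), show (4:ℝ) = 2 ^ 2 by norm_num,
          Real.sqrt_sq (by norm_num)]
      rw [this]
      refine Real.sqrt_le_sqrt ?_
      have := (hcmp N).2
      have := hh0 N
      linarith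
    calc C1' * √((n N : ℝ) + 1) ≤ |C1'| * √((n N : ℝ) + 1) :=
          mul_le_mul_of_nonneg_right (le_abs_self _) (Real.sqrt_nonneg _)
      _ ≤ |C1'| * (2 * √(h N + 1)) := mul_le_mul_of_nonneg_left h1 (abs_nonneg _)
      _ = C1 * √(h N + 1) := by rw [hC1def]; ring
  have hS0 : ∀ N : ℕ, 0 ≤ C1 * √(h N + 1) := fun N => by positivity
  obtain ⟨N0, hN0⟩ := contraction
  have hev : ∀ᶠ N in atTop, N0 ≤ n N ∧ 1 ≤ h N := by
    filter_upwards [hh.eventually_ge_atTop (N0 : ℝ), hh.eventually_ge_atTop 1] with N h1 h2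
    refine ⟨?_, h2⟩
    have : (N0 : ℝ) ≤ n N := h1.trans (hcmp N).1
    exact_mod_cast this
  obtain ⟨C2', hC2'⟩ := Cf_le
  set C2 := |C2'| with hC2def
  have hC20 : 0 ≤ C2 := abs_nonneg _
  have hK : ∀ N, N0 ≤ n N → ∀ (f : ℝ → ℝ) (M : ℝ), 0 ≤ M → Measurable f → Bd f M →
      Bd (KW (Wf (τ N)) f) (4 / 5 * M) := fun N hN => hN0 (n N) hN (τ N) (hτ N)
  -- a priori bound
  have hv : ∀ N, N0 ≤ n N → Bd (v N) (5 * (C1 * √(h N + 1))) := by
    intro N hN
    obtain ⟨M, hM⟩ := hb N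
    exact sol_Bd (hm N) (hS0 N) (hS N) (hK N hN) hM (heq N)
  -- the iterates
  have hI : ∀ m : ℕ, ∀ᶠ N in atTop, Bd (itv (Wf (τ N)) m) (5 * C1 * √(h N + 1)) := by
    intro m
    filter_upwards [hev] with N hN
    have := itv_Bd (Wf_meas (τ N)) (hS0 N) (hS N) (hK N hN.1) m
    rwa [← mul_assoc] at this
  have hIl := itv_lim hτ hsum hh (C := 5 * C1) (by positivity) hI
  -- pointwise limit of `v`
  have hV : ∀ s : ℝ, ∃ L : ℝ, 0 < s →
      Tendsto (fun N : ℕ => (h N) ^ (1 / 4 : ℝ) * v N (h N * s)) atTop (𝓝 L) := by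
    intro s
    by_cases hs : 0 < s
    swap
    · exact ⟨0, fun h => absurd h hs⟩
    have : ∃ L : ℝ, Tendsto (fun N : ℕ => (h N) ^ (1 / 4 : ℝ) * v N (h N * s)) atTop (𝓝 L) := by
      apply tendsto_of_approx
      intro ε hε
      have h1 : Tendsto (fun m : ℕ => 2 * ((4 / 5 : ℝ) ^ m * (5 * C1)) * s ^ (-(3 / 4) : ℝ)) atTop
          (𝓝 (2 * (0 * (5 * C1)) * s ^ (-(3 / 4) : ℝ))) :=
        (((tendsto_pow_atTop_nhds_zero_of_lt_one (by norm_num) (by norm_num)).mul_const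
          _).const_mul _).mul_const _
      rw [zero_mul, mul_zero, zero_mul] at h1
      obtain ⟨m, hn⟩ := (h1.eventually (gt_mem_nhds hε)).exists
      obtain ⟨g, hg⟩ := hIl m
      refine ⟨_, _, hg s hs, ?_⟩
      filter_upwards [inv_lt_ev hh hs, hev] with N h3 h5
      have h6 := sol_itv (Wf_meas (τ N)) (hm N) (hS0 N) (hS N) (hK N h5.1) (hv N h5.1) (heq N) m
      have h7 : (4 / 5 : ℝ) ^ m * (5 * (C1 * √(h N + 1)))
          = (4 / 5) ^ m * (5 * C1) * √(h N + 1) := by ring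
      rw [h7] at h6
      have h8 := Bd_scale (by positivity) h5.2 h6 hs h3
      rw [mul_sub] at h8
      exact h8.trans hn.le
    obtain ⟨L, hL⟩ := this
    exact ⟨L, fun _ => hL⟩
  choose V hV' using hV
  -- the final integral
  set A : ℝ := C2 * (10 * C1) with hA
  have hA0 : 0 ≤ A := by positivity
  set G : ℕ → ℝ → ℝ := fun N => (Ioi ((1 : ℝ) / h N)).indicator
    (fun t => ((h N) ^ (1 / 4 : ℝ) * (v N (h N * t) + sh (h N * t))) / t) with hG
  set sl : ℝ → ℝ := fun t => ((2:ℝ) ^ (3 / 4 : ℝ) - 0) / 2 / √2 * t ^ (-(1 / 4) : ℝ) with hsl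
  have hmeas : ∀ N, AEStronglyMeasurable (G N) (volume.restrict (Ioi (0:ℝ))) := by
    intro N
    have h1 := hm N
    have h2 := sh_meas
    apply Measurable.aestronglyMeasurable
    apply Measurable.indicator _ measurableSet_Ioi
    fun_prop
  have hlim : Tendsto (fun N => ∫ t in Ioi (0:ℝ), G N t) atTop
      (𝓝 (∫ t in Ioi (0:ℝ), (V t + sl t) / t)) := by
    refine tendsto_integral_filter_of_dominated_convergence
      (fun t => 6 * (Real.exp (-1 / t) * t ^ (-1 - (1 / 4) : ℝ)) +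
        A * (Real.exp (-1 / t) * t ^ (-1 - (3 / 4) : ℝ)))
      (Eventually.of_forall hmeas) ?_ ?_ ?_
    · filter_upwards [hev] with N hN'
      refine (ae_restrict_iff' measurableSet_Ioi).2 (ae_of_all _ fun t ht => ?_)
      have ht0 : 0 < t := ht
      have hN1 : 1 ≤ h N := hN'.2
      have hN0' : 0 < h N := by linarith
      simp only [hG, indicator]
      split_ifs with h1
      swap
      · rw [norm_zero]; positivity
      have h2 : 1 < h N * t := by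
        rw [mem_Ioi, div_lt_iff₀ hN0'] at h1
        linarith
      have h3 := hC2' (v N) _ (hm N) (hv N hN'.1) (h N * t) h2
      have h4 : ‖Cf (v N) (T2 (h N * t))‖ ≤ C2 * (5 * (C1 * √(h N + 1))) * (h N * t) ^ (-(3 / 4) : ℝ) := by
        refine h3.trans ?_
        have : C2' ≤ C2 := le_abs_self _
        gcongr
      have h5 := u_le (hτ N) h2 (heq N _ h2) h4
      rw [norm_div, norm_mul, Real.norm_of_nonneg ht0.le, Real.norm_eq_abs, Real.norm_eq_abs,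
        abs_of_nonneg (by positivity : 0 ≤ (h N) ^ (1 / 4 : ℝ))]
      have e1 : 1 / t ≤ (n N : ℝ) / (h N * t) := by
        rw [div_le_div_iff₀ ht0 (by positivity)]
        nlinarith [(hcmp N).1]
      have e1' : Real.exp (-((n N : ℝ) / (h N * t))) ≤ Real.exp (-(1 / t)) :=
        Real.exp_le_exp.2 (by linarith)
      have h5' : |v N (h N * t) + sh (h N * t)| ≤ Real.exp (-(1 / t)) *
          (6 * (h N * t) ^ (-(1 / 4) : ℝ) +
            C2 * (5 * (C1 * √(h N + 1))) * (h N * t) ^ (-(3 / 4) : ℝ)) := by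
        refine h5.trans (mul_le_mul_of_nonneg_right e1' (by positivity))
      have h6 : (h N) ^ (1 / 4 : ℝ) * (6 * (h N * t) ^ (-(1 / 4) : ℝ)) = 6 * t ^ (-(1 / 4) : ℝ) := by
        rw [Real.mul_rpow hN0'.le ht0.le]
        have : (h N) ^ (1 / 4 : ℝ) * (h N) ^ (-(1 / 4) : ℝ) = 1 := by
          rw [← Real.rpow_add hN0']; simp
        calc _ = 6 * ((h N) ^ (1 / 4 : ℝ) * (h N) ^ (-(1 / 4) : ℝ)) * t ^ (-(1 / 4) : ℝ) := by
              ring
          _ = _ := by rw [this, mul_one]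
      have h7 : √(h N + 1) ≤ 2 * (h N) ^ (1 / 2 : ℝ) := by
        rw [← Real.sqrt_eq_rpow]
        have : 2 * √(h N) = √(4 * h N) := by
          rw [Real.sqrt_mul (by norm_num), show (4:ℝ) = 2 ^ 2 by norm_num,
            Real.sqrt_sq (by norm_num)]
        rw [this]
        exact Real.sqrt_le_sqrt (by linarith)
      have h8 : (h N) ^ (1 / 4 : ℝ) * (C2 * (5 * (C1 * √(h N + 1))) * (h N * t) ^ (-(3 / 4) : ℝ))
          ≤ A * t ^ (-(3 / 4) : ℝ) := by
        calc (h N) ^ (1 / 4 : ℝ) * (C2 * (5 * (C1 * √(h N + 1))) * (h N * t) ^ (-(3 / 4) : ℝ))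
            ≤ (h N) ^ (1 / 4 : ℝ) * (C2 * (5 * (C1 * (2 * (h N) ^ (1 / 2 : ℝ)))) *
              (h N * t) ^ (-(3 / 4) : ℝ)) := by gcongr
          _ = A * ((h N) ^ (1 / 4 : ℝ) * (h N) ^ (1 / 2 : ℝ) * (h N) ^ (-(3 / 4) : ℝ)) *
              t ^ (-(3 / 4) : ℝ) := by
            rw [Real.mul_rpow hN0'.le ht0.le, hA]; ring
          _ = A * t ^ (-(3 / 4) : ℝ) := by
            rw [← Real.rpow_add hN0', ← Real.rpow_add hN0']
            norm_num
      have e2 : t ^ (-1 - (1 / 4) : ℝ) = t ^ (-(1 / 4) : ℝ) / t := by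
        rw [← Real.rpow_sub_one ht0.ne']; norm_num
      have e3 : t ^ (-1 - (3 / 4) : ℝ) = t ^ (-(3 / 4) : ℝ) / t := by
        rw [← Real.rpow_sub_one ht0.ne']; norm_num
      have e4 : Real.exp (-1 / t) = Real.exp (-(1 / t)) := by rw [neg_div]
      rw [e2, e3, e4]
      have h9 : (h N) ^ (1 / 4 : ℝ) * |v N (h N * t) + sh (h N * t)| ≤
          Real.exp (-(1 / t)) * (6 * t ^ (-(1 / 4) : ℝ) + A * t ^ (-(3 / 4) : ℝ)) := by
        calc (h N) ^ (1 / 4 : ℝ) * |v N (h N * t) + sh (h N * t)|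
            ≤ (h N) ^ (1 / 4 : ℝ) * (Real.exp (-(1 / t)) * (6 * (h N * t) ^ (-(1 / 4) : ℝ) +
              C2 * (5 * (C1 * √(h N + 1))) * (h N * t) ^ (-(3 / 4) : ℝ))) := by gcongr
          _ = Real.exp (-(1 / t)) * ((h N) ^ (1 / 4 : ℝ) * (6 * (h N * t) ^ (-(1 / 4) : ℝ)) +
              (h N) ^ (1 / 4 : ℝ) * (C2 * (5 * (C1 * √(h N + 1))) * (h N * t) ^ (-(3 / 4) : ℝ))) := by
            ring
          _ ≤ _ := by
            rw [h6]
            gcongr
      calc (h N) ^ (1 / 4 : ℝ) * |v N (h N * t) + sh (h N * t)| / t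
          ≤ Real.exp (-(1 / t)) * (6 * t ^ (-(1 / 4) : ℝ) + A * t ^ (-(3 / 4) : ℝ)) / t := by gcongr
        _ = _ := by ring
    · exact ((integrableOn_exp_rpow (by norm_num) one_pos).const_mul _).add
        ((integrableOn_exp_rpow (by norm_num) one_pos).const_mul _)
    · refine (ae_restrict_iff' measurableSet_Ioi).2 (ae_of_all _ fun t ht => ?_)
      have ht0 : 0 < t := ht
      have h1 : Tendsto (fun N : ℕ => ((h N) ^ (1 / 4 : ℝ) * (v N (h N * t) + sh (h N * t))) / t)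
          atTop (𝓝 ((V t + sl t) / t)) := by
        refine Tendsto.div_const ?_ t
        refine ((hV' t ht0).add (sh_lim hh ht0)).congr fun N => ?_
        ring
      refine h1.congr' ?_
      filter_upwards [inv_lt_ev hh ht0] with N hN
      simp only [hG, indicator, mem_Ioi, hN, if_true]
  refine ⟨(1 / Real.pi) * ∫ t in Ioi (0:ℝ), (V t + sl t) / t, ?_⟩
  refine (hlim.const_mul _).congr' ?_
  filter_upwards [hh.eventually_gt_atTop 0] with N hN0
  rw [scale_int _ hN0, mul_left_comm]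
  congr 1
  rw [← integral_const_mul]
  refine integral_congr_ae (ae_of_all _ fun t => ?_)
  simp only [hG, indicator]
  split_ifs with h1
  · rw [smul_eq_mul]
    have ht : 0 < t := lt_trans (by positivity) h1
    field_simp
  · simp

end

end EXS.Univ
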