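import Pool.Agent.EXS.S3B

/-! SHARP S3, part J: the jump relation of `1/(c H(c,q))` -/

set_option autoImplicit false

open Real

namespace EXS.S3

noncomputable section

/-- `c` at `π + iη` -/
lemma c_one (η : ℝ) : Complex.cos (3 * ((π : ℂ) + Complex.I * (η : ℂ)) / 4) =
    ⟨-(√2 / 2 * cosh (3 * η / 4)), -(√2 / 2 * sinh (3 * η / 4))⟩ := by
  have h : 3 * ((π : ℂ) + Complex.I * (η : ℂ)) / 4 = ((3 * π / 4 : ℝ) : ℂ) + ((3 * η / 4 : ℝ) : ℂ) * Complex.I := by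
    push_cast; ring
  have e1 : cos (3 * π / 4) = -(√2 / 2) := by
    rw [show 3 * π / 4 = π - π / 4 by ring, Real.cos_pi_sub, Real.cos_pi_div_four]
  have e2 : sin (3 * π / 4) = √2 / 2 := by
    rw [show 3 * π / 4 = π - π / 4 by ring, Real.sin_pi_sub, Real.sin_pi_div_four]
  rw [h, Complex.cos_add_mul_I, ← Complex.ofReal_cos, ← Complex.ofReal_cosh, ← Complex.ofReal_sin,
    ← Complex.ofReal_sinh, e1, e2]
  apply Complex.ext
  · simp only [Complex.sub_re, Complex.mul_re, Complex.mul_im, Complex.ofReal_re, Complex.ofReal_im, Complex.I_re,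
      Complex.I_im]
    ring
  · simp only [Complex.sub_im, Complex.mul_re, Complex.mul_im, Complex.ofReal_re, Complex.ofReal_im, Complex.I_re,
      Complex.I_im]
    ring

/-- `c` at `π/3 + iη` -/
lemma c_two (η : ℝ) : Complex.cos (3 * (((π / 3 : ℝ) : ℂ) + Complex.I * (η : ℂ)) / 4) =
    ⟨√2 / 2 * cosh (3 * η / 4), -(√2 / 2 * sinh (3 * η / 4))⟩ := by
  have h : 3 * (((π / 3 : ℝ) : ℂ) + Complex.I * (η : ℂ)) / 4 = ((π / 4 : ℝ) : ℂ) + ((3 * η / 4 : ℝ) : ℂ) * Complex.I := by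
    push_cast; ring
  rw [h, Complex.cos_add_mul_I, ← Complex.ofReal_cos, ← Complex.ofReal_cosh, ← Complex.ofReal_sin,
    ← Complex.ofReal_sinh, Real.cos_pi_div_four, Real.sin_pi_div_four]
  apply Complex.ext
  · simp only [Complex.sub_re, Complex.mul_re, Complex.mul_im, Complex.ofReal_re, Complex.ofReal_im, Complex.I_re,
      Complex.I_im]
    ring
  · simp only [Complex.sub_im, Complex.mul_re, Complex.mul_im, Complex.ofReal_re, Complex.ofReal_im, Complex.I_re,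
      Complex.I_im]
    ring

/-- `c H(c,q)` at `π + iη`, `a = cosh (3η/4)`, `b = sinh (3η/4)` -/
lemma cH_one {q a b : ℝ} (hab : a ^ 2 = 1 + b ^ 2) :
    (⟨-(√2 / 2 * a), -(√2 / 2 * b)⟩ : ℂ) * HC q ⟨-(√2 / 2 * a), -(√2 / 2 * b)⟩ =
      ⟨√2 / 2 * ((a - q) * (a * q + b ^ 2)), √2 / 2 * -(b * (a - q) ^ 2)⟩ := by
  have h2 : √2 ^ 2 = 2 := Real.sq_sqrt (by norm_num)
  have e : HC q ⟨-(√2 / 2 * a), -(√2 / 2 * b)⟩ = ⟨-((a - q) * q), (a - q) * b⟩ := by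
    unfold HC
    apply Complex.ext
    · simp [pow_two]
      have h3 : √2 * √2 = 2 := by rw [← pow_two, h2]
      linear_combination ((a ^ 2 - b ^ 2) / 4 - q * a / 2) * h3 + (1 / 2) * hab
    · simp [pow_two]
      have h3 : √2 * √2 = 2 := by rw [← pow_two, h2]
      linear_combination (a * b / 2 - q * b / 2) * h3
  rw [e]
  apply Complex.ext
  · simp only [Complex.mul_re]
    ring
  · simp only [Complex.mul_im]
    ring

/-- `c H(c,q)` at `π/3 + iη` -/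
lemma cH_two {q a b : ℝ} (hab : a ^ 2 = 1 + b ^ 2) :
    (⟨√2 / 2 * a, -(√2 / 2 * b)⟩ : ℂ) * HC q ⟨√2 / 2 * a, -(√2 / 2 * b)⟩ =
      ⟨√2 / 2 * ((a + q) * (a * q - b ^ 2)), √2 / 2 * -(b * (a + q) ^ 2)⟩ := by
  have h2 : √2 ^ 2 = 2 := Real.sq_sqrt (by norm_num)
  have e : HC q ⟨√2 / 2 * a, -(√2 / 2 * b)⟩ = ⟨(a + q) * q, -((a + q) * b)⟩ := by
    unfold HC
    apply Complex.ext
    · simp [pow_two]
      have h3 : √2 * √2 = 2 := by rw [← pow_two, h2]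
      linear_combination ((a ^ 2 - b ^ 2) / 4 + q * a / 2) * h3 + (1 / 2) * hab
    · simp [pow_two]
      have h3 : √2 * √2 = 2 := by rw [← pow_two, h2]
      linear_combination (-(a * b / 2) - q * b / 2) * h3
  rw [e]
  apply Complex.ext
  · simp only [Complex.mul_re]
    ring
  · simp only [Complex.mul_im]
    ring

lemma inv_im_one {q a b : ℝ} (hab : a ^ 2 = 1 + b ^ 2) (hq : 0 < q) (hqa : q < a) :
    ((⟨√2 / 2 * ((a - q) * (a * q + b ^ 2)), √2 / 2 * -(b * (a - q) ^ 2)⟩ : ℂ)⁻¹).im =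
      √2 * b / ((a ^ 2 + b ^ 2) * (q ^ 2 + b ^ 2)) := by
  have h2 : √2 ^ 2 = 2 := Real.sq_sqrt (by norm_num)
  have h3 : a - q ≠ 0 := by linarith
  have ha : 0 < a := by linarith
  have h4 : (a ^ 2 + b ^ 2) * (q ^ 2 + b ^ 2) ≠ 0 := by positivity
  have h5 : Complex.normSq (⟨√2 / 2 * ((a - q) * (a * q + b ^ 2)), √2 / 2 * -(b * (a - q) ^ 2)⟩ : ℂ) =
      1 / 2 * (a - q) ^ 2 * ((a ^ 2 + b ^ 2) * (q ^ 2 + b ^ 2)) := by
    simp only [Complex.normSq_mk]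
    linear_combination (((a - q) * (a * q + b ^ 2)) ^ 2 + (b * (a - q) ^ 2) ^ 2) / 4 * h2
  rw [Complex.inv_im, h5]
  field_simp

lemma inv_im_two {q a b : ℝ} (hab : a ^ 2 = 1 + b ^ 2) (hq : 0 < q) (hqa : q < a) :
    ((⟨√2 / 2 * ((a + q) * (a * q - b ^ 2)), √2 / 2 * -(b * (a + q) ^ 2)⟩ : ℂ)⁻¹).im =
      √2 * b / ((a ^ 2 + b ^ 2) * (q ^ 2 + b ^ 2)) := by
  have h2 : √2 ^ 2 = 2 := Real.sq_sqrt (by norm_num)
  have ha : 0 < a := by linarith
  have h3 : a + q ≠ 0 := by linarith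
  have h4 : (a ^ 2 + b ^ 2) * (q ^ 2 + b ^ 2) ≠ 0 := by positivity
  have h5 : Complex.normSq (⟨√2 / 2 * ((a + q) * (a * q - b ^ 2)), √2 / 2 * -(b * (a + q) ^ 2)⟩ : ℂ) =
      1 / 2 * (a + q) ^ 2 * ((a ^ 2 + b ^ 2) * (q ^ 2 + b ^ 2)) := by
    simp only [Complex.normSq_mk]
    linear_combination (((a + q) * (a * q - b ^ 2)) ^ 2 + (b * (a + q) ^ 2) ^ 2) / 4 * h2
  rw [Complex.inv_im, h5]
  field_simp

/-- nonvanishing -/
lemma cH_ne_one {q a b : ℝ} (hab : a ^ 2 = 1 + b ^ 2) (hq : 0 < q) (hqa : q < a) :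
    (⟨√2 / 2 * ((a - q) * (a * q + b ^ 2)), √2 / 2 * -(b * (a - q) ^ 2)⟩ : ℂ) ≠ 0 := by
  intro h
  have h1 := congrArg Complex.re h
  simp only [Complex.zero_re] at h1
  have : 0 < √2 / 2 * ((a - q) * (a * q + b ^ 2)) := by
    have h2 : 0 < a - q := by linarith
    have h3 : 0 < a := by linarith
    positivity
  linarith

lemma cH_ne_two {q a b : ℝ} (hq : 0 < q) (hqa : q < a) (hb : 0 < b) :
    (⟨√2 / 2 * ((a + q) * (a * q - b ^ 2)), √2 / 2 * -(b * (a + q) ^ 2)⟩ : ℂ) ≠ 0 := by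
  intro h
  have h1 := congrArg Complex.im h
  simp only [Complex.zero_im] at h1
  have : 0 < √2 / 2 * (b * (a + q) ^ 2) := by
    have h3 : 0 < a := by linarith
    positivity
  linarith

end

end EXS.S3
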