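import Pool.Agent.EXS.S3E
import Pool.Agent.EXS.S3J

/-! SHARP S3: the analytic function `U` -/

set_option autoImplicit false

open Real

namespace EXS

open Polynomial S3

noncomputable section

variable {N : ℕ} {x : Fin N → ℝ} {s0 : ℝ} {s : Fin N → ℝ}

lemma S3.T2_cosh' {η : ℝ} (hη : 0 ≤ η) :
    Complex.cos (((π / 3 : ℝ) : ℂ) + Complex.I * (η : ℂ)) = T2 (cosh η) := by
  have h1 : √(cosh η ^ 2 - 1) = sinh η := by
    rw [Real.cosh_sq, add_sub_cancel_right, Real.sqrt_sq (Real.sinh_nonneg_iff.2 hη)]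
  rw [mul_comm Complex.I, Complex.cos_add_mul_I, ← Complex.ofReal_cos, ← Complex.ofReal_cosh, ← Complex.ofReal_sin,
    ← Complex.ofReal_sinh]
  unfold T2 ta
  rw [h1, Real.cos_pi_div_three, Real.sin_pi_div_three]
  apply Complex.ext
  · simp only [Complex.sub_re, Complex.mul_re, Complex.mul_im, Complex.ofReal_re, Complex.ofReal_im, Complex.I_re,
      Complex.I_im]
    ring
  · simp only [Complex.sub_im, Complex.mul_re, Complex.mul_im, Complex.ofReal_re, Complex.ofReal_im, Complex.I_re,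
      Complex.I_im]
    ring

lemma S3.cos_pi_add (η : ℝ) : Complex.cos ((π : ℂ) + Complex.I * (η : ℂ)) = -(cosh η : ℝ) := by
  rw [mul_comm Complex.I, Complex.cos_add_mul_I, ← Complex.ofReal_cos, ← Complex.ofReal_cosh, ← Complex.ofReal_sin,
    ← Complex.ofReal_sinh, Real.cos_pi, Real.sin_pi]
  push_cast
  ring

/-- `T₂ (T₂² - 3/4) = - X (X² - 3/4)` -/
lemma S3.T2_cubic {X : ℝ} (hX : 1 ≤ X) :
    T2 X * (T2 X - (ta : ℂ)) * (T2 X + (ta : ℂ)) = -((X : ℂ) * ((X : ℂ) - (ta : ℂ)) * ((X : ℂ) + (ta : ℂ))) := by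
  have h1 : √(X ^ 2 - 1) ^ 2 = X ^ 2 - 1 := Real.sq_sqrt (by nlinarith)
  have h2 : ta ^ 2 = 3 / 4 := by
    unfold ta
    rw [div_pow, Real.sq_sqrt (by norm_num)]; norm_num
  set r := √(X ^ 2 - 1)
  have h3 : (T2 X) = (X : ℂ) / 2 - (ta : ℂ) * (r : ℂ) * Complex.I := by
    unfold T2
    apply Complex.ext
    · simp [r]
    · simp [r]
  have h1' : (r : ℂ) ^ 2 = (X : ℂ) ^ 2 - 1 := by exact_mod_cast h1
  have h2' : (ta : ℂ) ^ 2 = 3 / 4 := by
    have : ((ta ^ 2 : ℝ) : ℂ) = ((3 / 4 : ℝ) : ℂ) := by rw [h2]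
    push_cast at this
    exact this
  have hI : Complex.I ^ 2 = -1 := Complex.I_sq
  have key : ∀ A B : ℂ, A * (A - B) * (A + B) = A ^ 3 - A * B ^ 2 := by intro A B; ring
  rw [key, key, h3]
  have e1 : ((X : ℂ) / 2 - (ta : ℂ) * (r : ℂ) * Complex.I) ^ 3 =
      (X : ℂ) ^ 3 / 8 - 3 * (X : ℂ) ^ 2 / 4 * ((ta : ℂ) * r * Complex.I) +
      3 * (X : ℂ) / 2 * ((ta : ℂ) ^ 2 * (r : ℂ) ^ 2 * Complex.I ^ 2) -
      ((ta : ℂ) ^ 2 * (r : ℂ) ^ 2 * Complex.I ^ 2) * ((ta : ℂ) * r * Complex.I) := by ring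
  rw [e1, h1', h2', hI]
  ring

/-- the simple form of `U` -/
lemma S3.Uc_form (h : SD x s0 s) {Q : ℝ[X]} (hQ : Pp x s0 s = (∏ k, (X - C (cos (2 * x k)))) * Q)
    {w : ℂ} (hw : |w.re| ≤ π) (h1 : ∀ k, Complex.cos w ≠ (cos (8 * x k / 3) : ℝ))
    (h0 : Complex.cos (3 * w / 4) ≠ 0)
    (h2 : ∀ i : Option (Fin N), HC (cos (2 * yO x i)) (Complex.cos (3 * w / 4)) ≠ 0) :
    Uc x Q (Complex.cos (w / 4)) = (Complex.cos w + ta) * ((Complex.cos w + 1 / 2) / 2) *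
      (∏ k, ((Complex.cos w + (cos (8 * x k / 3) : ℝ)) / (Complex.cos w - (cos (8 * x k / 3) : ℝ)))) *
      ∑ i : Option (Fin N), (sO s0 s i : ℂ) *
        (Complex.cos (3 * w / 4) * HC (cos (2 * yO x i)) (Complex.cos (3 * w / 4)))⁻¹ := by
  have hz := cos_mem_DD hw
  rw [cos_three_quarter] at h0 h2 ⊢
  rw [cos_eq_tP w] at h1 ⊢
  rw [Uc_eq h hQ hz h1 h2]
  set z := Complex.cos (w / 4)
  have h6 : z ≠ 0 := nz0 hz
  have h10 : (4 * z ^ 2 - 1) / (4 * z) = (tP z + 1 / 2) / 2 * (cP z)⁻¹ := by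
    rw [← div_eq_mul_inv, div_div, div_eq_div_iff (mul_ne_zero (by norm_num) h6) (mul_ne_zero two_ne_zero h0)]
    unfold tP cP
    ring
  have h11 : ∑ i : Option (Fin N), (sO s0 s i : ℂ) * (cP z * HC (cos (2 * yO x i)) (cP z))⁻¹ =
      (cP z)⁻¹ * SC x s0 s (cP z) := by
    unfold SC
    rw [Finset.mul_sum]
    refine Finset.sum_congr rfl fun i _ => ?_
    rw [mul_inv]
    ring
  rw [h10, h11]
  ring

lemma S3.tau_gt (h : SD x s0 s) (k : Fin N) : 0 < cos (8 * x k / 3) ∧ cos (8 * x k / 3) < 1 := by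
  constructor
  · apply Real.cos_pos_of_mem_Ioo
    constructor <;> linarith [h.pos k, h.lt k, Real.pi_pos]
  · rw [← Real.cos_zero]
    apply Real.cos_lt_cos_of_nonneg_of_le_pi le_rfl
    · linarith [h.lt k, Real.pi_pos]
    · linarith [h.pos k]

lemma S3.q_pos (h : SD x s0 s) (i : Option (Fin N)) : 0 < cos (2 * yO x i) ∧ cos (2 * yO x i) ≤ 1 := by
  refine ⟨?_, Real.cos_le_one _⟩
  have := cos_node_gt (yO_pos h i) (yO_le h i)
  linarith [sqrt2_half_pos]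

lemma S3.Uc_half (h : SD x s0 s) {Q : ℝ[X]} (hQ : Pp x s0 s = (∏ k, (X - C (cos (2 * x k)))) * Q) :
    ‖Uc x Q (Complex.cos (((π / 2 : ℝ) : ℂ) / 4))‖ = √3 / 8 * |SS x s0 s cst| / cst := by
  have hc : Complex.cos ((π / 2 : ℝ) : ℂ) = 0 := by
    rw [← Complex.ofReal_cos, Real.cos_pi_div_two]; simp
  have hc3 : Complex.cos (3 * ((π / 2 : ℝ) : ℂ) / 4) = (cst : ℂ) := by
    unfold cst
    rw [Complex.ofReal_cos]
    congr 1
    push_cast
    ring
  have hcst : 0 < cst := by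
    unfold cst
    apply Real.cos_pos_of_mem_Ioo
    constructor <;> linarith [Real.pi_pos]
  have hHC : ∀ i : Option (Fin N), HC (cos (2 * yO x i)) (cst : ℂ) = (HH cst (cos (2 * yO x i)) : ℝ) := by
    intro i
    unfold HC HH
    push_cast
    ring
  have hHH : ∀ i : Option (Fin N), 0 < HH cst (cos (2 * yO x i)) := by
    intro i
    have h1 := cos_node_gt (yO_pos h i) (yO_le h i)
    have h2 := sqrt2_half
    have h3 := sqrt2_half_pos
    have h4 : 0 < √2 * cst * cos (2 * yO x i) := by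
      have : 0 < cos (2 * yO x i) := by linarith
      positivity
    unfold HH
    nlinarith [sq_nonneg cst]
  have e := Uc_form h hQ (w := ((π / 2 : ℝ) : ℂ)) (by
      rw [Complex.ofReal_re, abs_of_pos (by positivity)]; linarith [Real.pi_pos])
    (fun k => by
      rw [hc]
      have := (tau_gt h k).1
      exact_mod_cast this.ne)
    (by rw [hc3]; exact_mod_cast hcst.ne')
    (fun i => by rw [hc3, hHC]; exact_mod_cast (hHH i).ne')
  rw [e, hc, hc3]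
  have e1 : ∑ i : Option (Fin N), (sO s0 s i : ℂ) * ((cst : ℂ) * HC (cos (2 * yO x i)) (cst : ℂ))⁻¹ =
      (cst : ℂ)⁻¹ * SC x s0 s cst := by
    unfold SC
    rw [Finset.mul_sum]
    refine Finset.sum_congr rfl fun i _ => ?_
    rw [mul_inv]
    ring
  rw [e1, SC_real, norm_mul, norm_mul, norm_mul, norm_prod]
  have e2 : ∏ k, ‖((0 : ℂ) + (cos (8 * x k / 3) : ℝ)) / (0 - (cos (8 * x k / 3) : ℝ))‖ = 1 := by
    apply Finset.prod_eq_one
    intro k _
    have := (tau_gt h k).1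
    rw [zero_add, zero_sub, div_neg, norm_neg, norm_div, div_self]
    rw [norm_ne_zero_iff]
    exact_mod_cast this.ne'
  rw [e2, norm_mul, norm_inv, Complex.norm_real, Complex.norm_real, Real.norm_eq_abs, Real.norm_eq_abs, abs_of_pos hcst]
  have e3 : ‖(0 : ℂ) + (ta : ℂ)‖ = √3 / 2 := by
    rw [zero_add, Complex.norm_real, Real.norm_eq_abs]
    unfold ta
    rw [abs_of_pos (by positivity)]
  have e4 : ‖((0 : ℂ) + 1 / 2) / 2‖ = 1 / 4 := by
    rw [show ((0 : ℂ) + 1 / 2) / 2 = ((1 / 4 : ℝ) : ℂ) by push_cast; ring, Complex.norm_real, Real.norm_eq_abs]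
    rw [abs_of_pos (by norm_num)]
  rw [e3, e4]
  field_simp
  ring

/-- the gauge identity -/
lemma S3.gauge {X : ℝ} (hX : 1 < X) {τ : Fin N → ℝ} (hτ : ∀ k, 0 < τ k ∧ τ k < 1) :
    Wt (Wf τ) X * ((T2 X + ta) * ((T2 X + 1 / 2) / 2) * ∏ k, ((T2 X + (τ k : ℂ)) / (T2 X - (τ k : ℂ)))) =
      (-(X : ℂ) + ta) * ((-(X : ℂ) + 1 / 2) / 2) * ∏ k, ((-(X : ℂ) + (τ k : ℂ)) / (-(X : ℂ) - (τ k : ℂ))) := by
  have hta : 0 < ta := by unfold ta; positivity
  have hr : 0 < √(X ^ 2 - 1) := Real.sqrt_pos.2 (by nlinarith)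
  have him : (T2 X).im ≠ 0 := by
    show -(ta * √(X ^ 2 - 1)) ≠ 0
    have : 0 < ta * √(X ^ 2 - 1) := by positivity
    linarith
  have hne : ∀ a : ℝ, T2 X + (a : ℂ) ≠ 0 := by
    intro a h
    apply him
    have := congrArg Complex.im h
    simpa using this
  have hX0 : (X : ℂ) ≠ 0 := by exact_mod_cast (by linarith : X ≠ 0)
  have hXt : (X : ℂ) + (ta : ℂ) ≠ 0 := by exact_mod_cast (by linarith : X + ta ≠ 0)
  have hT : T2 X + 1 / 2 ≠ 0 := by
    have := hne (1 / 2)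
    push_cast at this
    exact this
  have hprod : (∏ k, (((X : ℂ) - (τ k : ℂ)) * (T2 X - (τ k : ℂ)) / (((X : ℂ) + (τ k : ℂ)) * (T2 X + (τ k : ℂ))))) *
      ∏ k, ((T2 X + (τ k : ℂ)) / (T2 X - (τ k : ℂ))) = ∏ k, ((-(X : ℂ) + (τ k : ℂ)) / (-(X : ℂ) - (τ k : ℂ))) := by
    rw [← Finset.prod_mul_distrib]
    refine Finset.prod_congr rfl fun k _ => ?_
    have h1 := hne (τ k)
    have h2 : T2 X - (τ k : ℂ) ≠ 0 := by
      have := hne (-(τ k))
      push_cast at this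
      rwa [← sub_eq_add_neg] at this
    have h3 : (X : ℂ) + (τ k : ℂ) ≠ 0 := by
      exact_mod_cast (by linarith [(hτ k).1] : X + τ k ≠ 0)
    have h4 : -(X : ℂ) - (τ k : ℂ) ≠ 0 := by
      intro h
      apply h3
      linear_combination -h
    rw [div_mul_div_comm, div_eq_div_iff (mul_ne_zero (mul_ne_zero h3 h1) h2) h4]
    ring
  rw [← hprod]
  have hcub := T2_cubic hX.le
  unfold Wt Wf
  generalize (∏ k, (((X : ℂ) - (τ k : ℂ)) * (T2 X - (τ k : ℂ)) / (((X : ℂ) + (τ k : ℂ)) * (T2 X + (τ k : ℂ))))) = P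
  generalize (∏ k, ((T2 X + (τ k : ℂ)) / (T2 X - (τ k : ℂ)))) = R
  generalize T2 X = T at *
  have e1 : -(T / (X : ℂ)) * (((X : ℂ) - 1 / 2) / ((X : ℂ) + (ta : ℂ)) * ((T - (ta : ℂ)) / (T + 1 / 2)) * P) *
      ((T + (ta : ℂ)) * ((T + 1 / 2) / 2) * R) =
      -(T * (T - ta) * (T + ta)) * ((X : ℂ) - 1 / 2) / (2 * X * (X + ta)) * (P * R) := by
    have hT' : T * 2 + 1 ≠ 0 := by
      intro h0; apply hT; linear_combination h0 / 2
    field_simp
  rw [e1, hcub]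
  field_simp
  ring

lemma S3.Uc_jump (h : SD x s0 s) {Q : ℝ[X]} (hQ : Pp x s0 s = (∏ k, (X - C (cos (2 * x k)))) * Q)
    {η : ℝ} (hη : 0 < η) :
    (Uc x Q (Complex.cos (((π : ℂ) + Complex.I * (η : ℂ)) / 4))).im =
      (Wt (Wf fun k => cos (8 * x k / 3)) (cosh η) *
        Uc x Q (Complex.cos ((((π / 3 : ℝ) : ℂ) + Complex.I * (η : ℂ)) / 4))).im := by
  have hX : 1 < cosh η := Real.one_lt_cosh.2 hη.ne'
  set a := cosh (3 * η / 4)
  set b := sinh (3 * η / 4)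
  have hab : a ^ 2 = 1 + b ^ 2 := by rw [Real.cosh_sq]; ring
  have hb : 0 < b := Real.sinh_pos_iff.2 (by linarith)
  have ha1 : 1 < a := Real.one_lt_cosh.2 (by linarith)
  have hτ := tau_gt h
  have hq := q_pos h
  have hc1 := c_one η
  have hc2 := c_two η
  have hne1 : ∀ i : Option (Fin N), (⟨-(√2 / 2 * a), -(√2 / 2 * b)⟩ : ℂ) *
      HC (cos (2 * yO x i)) ⟨-(√2 / 2 * a), -(√2 / 2 * b)⟩ ≠ 0 := by
    intro i
    rw [cH_one hab]
    exact cH_ne_one hab (hq i).1 (by linarith [(hq i).2])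
  have hne2 : ∀ i : Option (Fin N), (⟨√2 / 2 * a, -(√2 / 2 * b)⟩ : ℂ) *
      HC (cos (2 * yO x i)) ⟨√2 / 2 * a, -(√2 / 2 * b)⟩ ≠ 0 := by
    intro i
    rw [cH_two hab]
    exact cH_ne_two (hq i).1 (by linarith [(hq i).2]) hb
  have e1 := Uc_form h hQ (w := (π : ℂ) + Complex.I * (η : ℂ)) (by simp [abs_of_pos Real.pi_pos])
    (fun k => by
      rw [cos_pi_add]
      intro h1
      have h2 : -(cosh η) = cos (8 * x k / 3) := by exact_mod_cast h1
      linarith [(hτ k).1])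
    (by rw [hc1]; exact left_ne_zero_of_mul (hne1 none))
    (fun i => by rw [hc1]; exact right_ne_zero_of_mul (hne1 i))
  have e2 := Uc_form h hQ (w := ((π / 3 : ℝ) : ℂ) + Complex.I * (η : ℂ)) (by
      have : (((π / 3 : ℝ) : ℂ) + Complex.I * (η : ℂ)).re = π / 3 := by simp
      rw [this, abs_of_pos (by positivity)]; linarith [Real.pi_pos])
    (fun k => by
      rw [T2_cosh' hη.le]
      intro h1
      have h2 := congrArg Complex.im h1
      rw [Complex.ofReal_im] at h2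
      have h3 : 0 < √(cosh η ^ 2 - 1) := Real.sqrt_pos.2 (by nlinarith)
      have h4 : (T2 (cosh η)).im = -(ta * √(cosh η ^ 2 - 1)) := rfl
      have h5 : 0 < ta := by unfold ta; positivity
      have h6 : 0 < ta * √(cosh η ^ 2 - 1) := by positivity
      linarith)
    (by rw [hc2]; exact left_ne_zero_of_mul (hne2 none))
    (fun i => by rw [hc2]; exact right_ne_zero_of_mul (hne2 i))
  rw [e1, e2, hc1, hc2, T2_cosh' hη.le, cos_pi_add, ← mul_assoc]
  have hg := gauge (τ := fun k => cos (8 * x k / 3)) hX hτ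
  rw [hg]
  have hreal : ∃ g : ℝ, (-(cosh η : ℂ) + (ta : ℂ)) * ((-(cosh η : ℂ) + 1 / 2) / 2) *
      ∏ k, ((-(cosh η : ℂ) + ((cos (8 * x k / 3) : ℝ) : ℂ)) / (-(cosh η : ℂ) - ((cos (8 * x k / 3) : ℝ) : ℂ))) = (g : ℂ) := by
    refine ⟨(-(cosh η) + ta) * ((-(cosh η) + 1 / 2) / 2) *
      ∏ k, ((-(cosh η) + cos (8 * x k / 3)) / (-(cosh η) - cos (8 * x k / 3))), ?_⟩
    push_cast
    rfl
  obtain ⟨g, hg2⟩ := hreal
  rw [hg2, Complex.im_ofReal_mul, Complex.im_ofReal_mul, Complex.im_sum, Complex.im_sum]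
  congr 1
  refine Finset.sum_congr rfl fun i _ => ?_
  rw [Complex.im_ofReal_mul, Complex.im_ofReal_mul, cH_one hab, cH_two hab,
    inv_im_one hab (hq i).1 (by linarith [(hq i).2]), inv_im_two hab (hq i).1 (by linarith [(hq i).2])]

/-- S3 -/
theorem exists_UF {N : ℕ} {x : Fin N → ℝ} {s0 : ℝ} {s : Fin N → ℝ} (h : SD x s0 s) :
    ∃ U : ℂ → ℂ, UF (fun k => Real.cos (8 * x k / 3)) U ∧
      ‖U ((Real.pi / 2 : ℝ) : ℂ)‖ = Real.sqrt 3 / 8 * |SS x s0 s cst| / cst := by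
  obtain ⟨Q, hQ⟩ := exists_Q h
  have hUd : ∀ w : ℂ, |w.re| ≤ π → DifferentiableAt ℂ (fun w => Uc x Q (Complex.cos (w / 4))) w := by
    intro w hw
    exact DifferentiableAt.comp w (f := fun w : ℂ => Complex.cos (w / 4)) (g := Uc x Q)
      (Uc_diff h Q (cos_mem_DD hw)) (by fun_prop)
  have hcont : ContinuousOn (Uc x Q) DD := fun z hz => (Uc_diff h Q hz).continuousAt.continuousWithinAt
  have hcontE : ContinuousOn eC DD := fun z hz => (gR_diff hz ks_gt).continuousAt.continuousWithinAt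
  obtain ⟨K1, hK1, hb1⟩ := bound_DD (hcont.sub hcontE) (Uc_asy h hQ)
  obtain ⟨K2, hK2, hb2⟩ := bound_DD hcontE (eC_bigO.mono inf_le_left)
  have hV : ∀ w : ℂ, |w.re| ≤ π → ‖Uc x Q (Complex.cos (w / 4)) - eC (Complex.cos (w / 4))‖ ≤
      K1 * ((√2 / 4) ^ 4)⁻¹ * exp (-|w.im|) := by
    intro w hw
    have h1 := hb1 _ (cos_mem_DD hw)
    have h2 := inv_norm_le hw 4
    refine h1.trans ((mul_le_mul_of_nonneg_left h2 hK1).trans (le_of_eq ?_))
    rw [← mul_assoc]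
    congr 2
    push_cast
    ring
  have hE : ∀ w : ℂ, |w.re| ≤ π → ‖eC (Complex.cos (w / 4))‖ ≤ K2 * ((√2 / 4) ^ 1)⁻¹ * exp (-(|w.im| / 4)) := by
    intro w hw
    have h1 := hb2 _ (cos_mem_DD hw)
    have h2 := inv_norm_le hw 1
    refine h1.trans ((mul_le_mul_of_nonneg_left h2 hK2).trans (le_of_eq ?_))
    rw [← mul_assoc]
    congr 2
    push_cast
    ring
  have hbU : ∀ w : ℂ, |w.re| ≤ π → ‖Uc x Q (Complex.cos (w / 4))‖ ≤
      (K1 * ((√2 / 4) ^ 4)⁻¹ + K2 * ((√2 / 4) ^ 1)⁻¹) * exp (-(|w.im| / 4)) := by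
    intro w hw
    have h1 : ‖Uc x Q (Complex.cos (w / 4))‖ ≤ ‖Uc x Q (Complex.cos (w / 4)) - eC (Complex.cos (w / 4))‖ +
        ‖eC (Complex.cos (w / 4))‖ := by
      have := norm_add_le (Uc x Q (Complex.cos (w / 4)) - eC (Complex.cos (w / 4))) (eC (Complex.cos (w / 4)))
      rwa [sub_add_cancel] at this
    have h2 : exp (-|w.im|) ≤ exp (-(|w.im| / 4)) := by
      apply Real.exp_le_exp.2
      have := abs_nonneg w.im
      linarith
    have h3 : K1 * ((√2 / 4) ^ 4)⁻¹ * exp (-|w.im|) ≤ K1 * ((√2 / 4) ^ 4)⁻¹ * exp (-(|w.im| / 4)) :=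
      mul_le_mul_of_nonneg_left h2 (by positivity)
    rw [add_mul]
    linarith [hV w hw, hE w hw]
  refine ⟨fun w => Uc x Q (Complex.cos (w / 4)), ⟨?_, ?_, ?_, ?_, ?_, ?_, ?_⟩, ?_⟩
  · exact fun w hw => (hUd w hw).continuousAt.continuousWithinAt
  · exact fun w hw => (hUd w (le_of_lt hw)).differentiableWithinAt
  · intro w
    show Uc x Q (Complex.cos (-w / 4)) = Uc x Q (Complex.cos (w / 4))
    rw [neg_div, Complex.cos_neg]
  · intro w
    show Uc x Q (Complex.cos (starRingEnd ℂ w / 4)) = starRingEnd ℂ (Uc x Q (Complex.cos (w / 4)))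
    rw [← Uc_conj, ← Complex.cos_conj]
    congr 2
    simp [map_div₀, map_ofNat]
  · exact ⟨_, hbU⟩
  · refine ⟨K1 * ((√2 / 4) ^ 4)⁻¹ + (K1 * ((√2 / 4) ^ 4)⁻¹ + K2 * ((√2 / 4) ^ 1)⁻¹), fun w hw => ?_⟩
    have e0 := Real.exp_pos (-|w.im|)
    by_cases hT : Complex.cos w = 0
    · have him : w.im = 0 := by
        obtain ⟨k, hk⟩ := Complex.cos_eq_zero_iff.1 hT
        have := congrArg Complex.im hk
        rw [this]
        have e : (2 * (k : ℂ) + 1) * (π : ℂ) / 2 = (((2 * k + 1) * π / 2 : ℝ) : ℂ) := by push_cast; ring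
        rw [e, Complex.ofReal_im]
      rw [hT, div_zero, sub_zero, him]
      have h1 := hbU w hw
      rw [him] at h1
      simp only [abs_zero, zero_div, neg_zero, Real.exp_zero, mul_one] at h1 ⊢
      have : 0 ≤ K1 * ((√2 / 4) ^ 4)⁻¹ := by positivity
      linarith
    · have h1 := hV w hw
      have hT' : tP (Complex.cos (w / 4)) ≠ 0 := by rwa [← cos_eq_tP]
      rw [eC_eq (cos_mem_DD hw) hT', ← cos_eq_tP, ← cos_three_quarter] at h1
      refine h1.trans ?_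
      have : 0 ≤ (K1 * ((√2 / 4) ^ 4)⁻¹ + K2 * ((√2 / 4) ^ 1)⁻¹) * exp (-|w.im|) := by positivity
      rw [add_mul]
      linarith
  · intro η hη
    exact Uc_jump h hQ hη
  · exact Uc_half h hQ

end

end EXS
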