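import Pool.Agent.EXS.WDefs
import Pool.Agent.EXL.ClDefs
import Pool.Agent.EXP.NForm

/-! SHARP S1: residual data from the closing formula (board/EXL, block C, theorem Pool.Agent.EXL.Cl.closing). -/

set_option autoImplicit false

namespace EXS

open MeasureTheory Filter Topology Pool.Agent.EXL.Cl

theorem s1_Dh (v : ℝ) : Dh (ep v) =
    ((-(2 * Real.sqrt 2) / (2 * Real.cos (2 * v) + Real.sqrt 2) : ℝ) : ℂ) := by
  have h0 : ep v ≠ 0 := Complex.exp_ne_zero _
  have hc : (2 : ℂ) * Complex.cos (2 * (v : ℂ)) = ep v + (ep v)⁻¹ := by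
    rw [Complex.cos, ep, ← Complex.exp_neg]
    have e1 : 2 * (v : ℂ) * Complex.I = 2 * Complex.I * (v : ℂ) := by ring
    have e2 : -(2 * (v : ℂ)) * Complex.I = -(2 * Complex.I * (v : ℂ)) := by ring
    rw [e1, e2]
    ring
  have hd : ep v ^ 2 + (Real.sqrt 2 : ℂ) * ep v + 1 =
      ep v * (2 * Complex.cos (2 * (v : ℂ)) + (Real.sqrt 2 : ℂ)) := by
    rw [hc]
    field_simp
    ring
  rw [Dh, hd]
  push_cast
  rw [mul_comm (-(2 * ((Real.sqrt 2 : ℝ) : ℂ))) (ep v), mul_div_mul_left _ _ h0]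

theorem s1_cd (x y : ℝ) : Real.cos (2 * (x - y)) - Real.cos (2 * (x + y)) =
    2 * (Real.sin (2 * x) * Real.sin (2 * y)) := by
  rw [show 2 * (x - y) = 2 * x - 2 * y by ring, show 2 * (x + y) = 2 * x + 2 * y by ring,
    Real.cos_sub, Real.cos_add]
  ring

theorem s1_div (x y : ℝ) : ep x / ep y = ep (x - y) := by
  rw [ep, ep, ep, ← Complex.exp_sub]; congr 1; push_cast; ring

theorem s1_mul (x y : ℝ) : ep x * ep y = ep (x + y) := by
  rw [ep, ep, ep, ← Complex.exp_add]; congr 1; push_cast; ring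

theorem s1_HH (x y : ℝ) : (2 * Real.cos (2 * (x - y)) + Real.sqrt 2) *
    (2 * Real.cos (2 * (x + y)) + Real.sqrt 2) = 4 * HH (Real.cos (2 * x)) (Real.cos (2 * y)) := by
  have h2 : Real.sqrt 2 * Real.sqrt 2 = 2 := Real.mul_self_sqrt (by norm_num)
  have e1 : Real.cos (2 * (x - y)) = Real.cos (2 * x) * Real.cos (2 * y) +
      Real.sin (2 * x) * Real.sin (2 * y) := by
    rw [← Real.cos_sub]; congr 1; ring
  have e2 : Real.cos (2 * (x + y)) = Real.cos (2 * x) * Real.cos (2 * y) -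
      Real.sin (2 * x) * Real.sin (2 * y) := by
    rw [← Real.cos_add]; congr 1; ring
  have f1 := Real.sin_sq_add_cos_sq (2 * x)
  have f2 := Real.sin_sq_add_cos_sq (2 * y)
  rw [e1, e2, HH]
  generalize Real.cos (2 * x) = c at *
  generalize Real.cos (2 * y) = q at *
  generalize Real.sin (2 * x) = u at *
  generalize Real.sin (2 * y) = w at *
  have g1 : u ^ 2 = 1 - c ^ 2 := by linarith
  have g2 : w ^ 2 = 1 - q ^ 2 := by linarith
  have g3 : u ^ 2 * w ^ 2 = (1 - c ^ 2) * (1 - q ^ 2) := by rw [g1, g2]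
  nlinarith [g3, h2]

/-- the kernel at real angles -/
theorem s1_KK {x y : ℝ} (h1 : 0 < 2 * Real.cos (2 * (x - y)) + Real.sqrt 2)
    (h2 : 0 < 2 * Real.cos (2 * (x + y)) + Real.sqrt 2) :
    KK (ep x) (ep y) = ((2 * Real.sqrt 2 * Real.sin (2 * x) * Real.sin (2 * y) /
      HH (Real.cos (2 * x)) (Real.cos (2 * y)) : ℝ) : ℂ) := by
  rw [KK, s1_div, s1_mul, s1_Dh, s1_Dh, ← Complex.ofReal_sub]
  congr 1
  have hH := s1_HH x y
  have h3 := h1.ne'
  have h4 := h2.ne'
  have hH0 : HH (Real.cos (2 * x)) (Real.cos (2 * y)) ≠ 0 := by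
    intro h
    exact (mul_pos h1 h2).ne' (by rw [hH, h, mul_zero])
  have e1 := s1_cd x y
  rw [div_sub_div _ _ h3 h4, div_eq_div_iff (mul_ne_zero h3 h4) hH0, hH]
  linear_combination (2 * Real.sqrt 2 * HH (Real.cos (2 * x)) (Real.cos (2 * y)) * 2) * e1

theorem s1_pos {x y : ℝ} (hx : 0 < x) (hx' : x ≤ 3 * Real.pi / 16) (hy : 0 < y) (hy' : y ≤ Real.pi / 16) :
    0 < 2 * Real.cos (2 * (x - y)) + Real.sqrt 2 ∧ 0 < 2 * Real.cos (2 * (x + y)) + Real.sqrt 2 := by
  have hp := Real.pi_pos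
  have hs : 0 < Real.sqrt 2 := Real.sqrt_pos.2 (by norm_num)
  constructor
  · have : 0 ≤ Real.cos (2 * (x - y)) := Real.cos_nonneg_of_mem_Icc ⟨by linarith, by linarith⟩
    linarith
  · have : 0 ≤ Real.cos (2 * (x + y)) := Real.cos_nonneg_of_mem_Icc ⟨by linarith, by linarith⟩
    linarith

theorem s1_KK' {x y : ℝ} (hx : 0 < x) (hx' : x ≤ 3 * Real.pi / 16) (hy : 0 < y)
    (hy' : y ≤ Real.pi / 16) :
    KK (ep x) (ep y) = ((2 * Real.sqrt 2 * Real.sin (2 * x) * Real.sin (2 * y) /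
      HH (Real.cos (2 * x)) (Real.cos (2 * y)) : ℝ) : ℂ) :=
  s1_KK (s1_pos hx hx' hy hy').1 (s1_pos hx hx' hy hy').2

/-- KK (e^{2ix}) (e^{2iy}) = 2 √2 sin 2x sin 2y / H(cos 2x, cos 2y) -/
theorem KK_ep {x y : ℝ} (hx : 0 < x) (hx' : x < 3 * Real.pi / 16) (hy : 0 < y) (hy' : y ≤ Real.pi / 16) :
    KK (ep x) (ep y) = ((2 * Real.sqrt 2 * Real.sin (2 * x) * Real.sin (2 * y) /
      HH (Real.cos (2 * x)) (Real.cos (2 * y)) : ℝ) : ℂ) :=
  s1_KK' hx hx'.le hy hy'

/-- the real kernel -/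
noncomputable def kR (x y : ℝ) : ℝ := 2 * Real.sqrt 2 * Real.sin (2 * x) * Real.sin (2 * y) /
  HH (Real.cos (2 * x)) (Real.cos (2 * y))

theorem kR_symm (x y : ℝ) : kR x y = kR y x := by
  unfold kR HH
  congr 1 <;> ring

theorem kR_NN {x y : ℝ} (hx : 0 < x) (hx' : x ≤ 3 * Real.pi / 16) (hy : 0 < y)
    (hy' : y ≤ Real.pi / 16) : kR x y = Real.sqrt 2 * P2W.NN x y := by
  obtain ⟨h1, h2⟩ := s1_pos hx hx' hy hy'
  have hH := s1_HH x y
  have hH0 : HH (Real.cos (2 * x)) (Real.cos (2 * y)) ≠ 0 := by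
    intro h
    exact (mul_pos h1 h2).ne' (by rw [hH, h, mul_zero])
  have e1 := s1_cd x y
  unfold kR P2W.NN P2W.E
  rw [Real.cos_pi_div_four]
  have h3 : Real.cos (2 * (x + y)) + Real.sqrt 2 / 2 ≠ 0 := by
    have : 0 < Real.cos (2 * (x + y)) + Real.sqrt 2 / 2 := by linarith
    exact this.ne'
  have h4 : Real.cos (2 * (x - y)) + Real.sqrt 2 / 2 ≠ 0 := by
    have : 0 < Real.cos (2 * (x - y)) + Real.sqrt 2 / 2 := by linarith
    exact this.ne'
  have hH' : (Real.cos (2 * (x + y)) + Real.sqrt 2 / 2) * (Real.cos (2 * (x - y)) + Real.sqrt 2 / 2) =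
      HH (Real.cos (2 * x)) (Real.cos (2 * y)) := by linarith
  rw [div_sub_div _ _ h3 h4, hH']
  field_simp
  linarith

/-- hyperbolic sines of distinct positive frequencies are independent -/
theorem s1_indep {N : ℕ} {x : Fin N → ℝ} (hinj : Function.Injective x) (hpos : ∀ k, 0 < x k)
    {a : Fin N → ℝ} (h : ∀ t : ℝ, ∑ i, a i * Real.sinh (2 * t * x i) = 0) : a = 0 := by
  classical
  let χ : Fin N × Bool → (Multiplicative ℝ →* ℝ) := fun u =>
    { toFun := fun t => Real.exp ((if u.2 then 2 * x u.1 else -(2 * x u.1)) * Multiplicative.toAdd t)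
      map_one' := by simp
      map_mul' := by
        intro s t
        rw [toAdd_mul, mul_add, Real.exp_add] }
  have hχ : Function.Injective χ := by
    rintro ⟨i, b⟩ ⟨j, c⟩ hij
    have h1 := DFunLike.congr_fun hij (Multiplicative.ofAdd 1)
    simp only [χ, MonoidHom.coe_mk, OneHom.coe_mk, toAdd_ofAdd, mul_one, Real.exp_eq_exp] at h1
    have hi := hpos i
    have hj := hpos j
    cases b <;> cases c <;> simp only [if_true, Bool.false_eq_true, if_false] at h1
    · have : x i = x j := by linarith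
      rw [hinj this]
    · linarith
    · linarith
    · have : x i = x j := by linarith
      rw [hinj this]
  have hli := (linearIndependent_monoidHom (Multiplicative ℝ) ℝ).comp χ hχ
  rw [Fintype.linearIndependent_iff] at hli
  have hz := hli (fun u => if u.2 then a u.1 else -a u.1) ?_
  · funext i
    have := hz (i, true)
    simpa using this
  · funext t
    rw [Finset.sum_apply, Fintype.sum_prod_type]
    have h1 := h (Multiplicative.toAdd t)
    have : ∀ i, ∑ b : Bool, ((if (i, b).2 then a (i, b).1 else -a (i, b).1) •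
        ((fun f : Multiplicative ℝ →* ℝ => (f : Multiplicative ℝ → ℝ)) ∘ χ) (i, b)) t =
        2 * (a i * Real.sinh (2 * (Multiplicative.toAdd t) * x i)) := by
      intro i
      rw [Fintype.sum_bool, Real.sinh_eq]
      simp only [if_true, Bool.false_eq_true, if_false, Function.comp, Pi.smul_apply, smul_eq_mul, χ,
        MonoidHom.coe_mk, OneHom.coe_mk]
      have e1 : 2 * x i * Multiplicative.toAdd t = 2 * (Multiplicative.toAdd t) * x i := by ring
      have e2 : -(2 * x i) * Multiplicative.toAdd t = -(2 * (Multiplicative.toAdd t) * x i) := by ring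
      rw [e1, e2]
      ring
    rw [Finset.sum_congr rfl fun i _ => this i, ← Finset.mul_sum, h1, mul_zero]
    rfl

theorem s1_inj {N : ℕ} {x : Fin N → ℝ} (hx : Nd x) {a : Fin N → ℝ}
    (ha : ∀ j, ∑ k, a k * kR (x j) (x k) = 0) : a = 0 := by
  have hp := Real.pi_pos
  have hs : 0 < Real.sqrt 2 := Real.sqrt_pos.2 (by norm_num)
  have hb : ∀ i ∈ (Finset.univ : Finset (Fin N)), |x i| < 3 * Real.pi / 16 := fun i _ => by
    rw [abs_of_pos (hx.pos i)]; linarith [hx.lt i]
  have hf := P2W.NN_form Finset.univ a x hb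
  have h0 : ∑ i, ∑ j, a i * a j * P2W.NN (x i) (x j) = 0 := by
    refine Finset.sum_eq_zero fun i _ => ?_
    have h1 := ha i
    have : ∑ k, a k * kR (x i) (x k) = Real.sqrt 2 * ∑ j, a j * P2W.NN (x i) (x j) := by
      rw [Finset.mul_sum]
      refine Finset.sum_congr rfl fun j _ => ?_
      rw [kR_NN (hx.pos i) (by linarith [hx.lt i]) (hx.pos j) (hx.lt j).le]
      ring
    rw [this] at h1
    have h2 := (mul_eq_zero.1 h1).resolve_left hs.ne'
    rw [Finset.sum_congr rfl fun j _ => mul_assoc (a i) (a j) (P2W.NN (x i) (x j)), ← Finset.mul_sum,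
      h2, mul_zero]
  rw [h0] at hf
  have hnn : 0 ≤ fun k : ℝ => (∑ i, a i * Real.sinh (2 * k * x i)) ^ 2 * (2 * P2W.w k) :=
    fun k => mul_nonneg (sq_nonneg _) (mul_nonneg zero_le_two (P2W.w_pos k).le)
  have hint := P2W.isW_w.sq_integrable Finset.univ a x hb
  have hae := (integral_eq_zero_iff_of_nonneg hnn hint).1 hf.symm
  have hcont : Continuous (fun k : ℝ => (∑ i, a i * Real.sinh (2 * k * x i)) ^ 2 * (2 * P2W.w k)) := by
    refine Continuous.mul ?_ (continuous_const.mul P2W.w_continuous)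
    refine Continuous.pow (continuous_finsetSum _ fun i _ => ?_) 2
    exact continuous_const.mul (Real.continuous_sinh.comp (by fun_prop))
  have heq := (Continuous.ae_eq_iff_eq (μ := (volume : Measure ℝ)) hcont continuous_zero).1 hae
  refine s1_indep hx.inj hx.pos fun t => ?_
  have h1 := congrFun heq t
  have h2 : (∑ i, a i * Real.sinh (2 * t * x i)) ^ 2 * (2 * P2W.w t) = 0 := h1
  have h3 := (mul_eq_zero.1 h2).resolve_right (by have := P2W.w_pos t; positivity)
  exact pow_eq_zero_iff two_ne_zero |>.1 h3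

/-- real solution -/
theorem s1_solvR {N : ℕ} {x : Fin N → ℝ} (hx : Nd x) (v : Fin N → ℝ) :
    ∃ a : Fin N → ℝ, ∀ j, ∑ k, a k * kR (x j) (x k) = v j := by
  let L : (Fin N → ℝ) →ₗ[ℝ] (Fin N → ℝ) :=
    { toFun := fun a i => ∑ j, a j * kR (x i) (x j)
      map_add' := by
        intro a b
        funext i
        simp only [Pi.add_apply, add_mul, Finset.sum_add_distrib]
      map_smul' := by
        intro r a
        funext i
        simp only [Pi.smul_apply, smul_eq_mul, RingHom.id_apply, Finset.mul_sum, mul_assoc] }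
  have hL : Function.Injective L := by
    rw [← LinearMap.ker_eq_bot, LinearMap.ker_eq_bot']
    intro a ha
    exact s1_inj hx fun i => congrFun ha i
  obtain ⟨a, ha⟩ := (LinearMap.injective_iff_surjective.1 hL) v
  exact ⟨a, fun i => congrFun ha i⟩

theorem s1_KKs (x y : ℝ) : KK (ep x) (ep y) = KK (ep y) (ep x) := by
  rw [KK, KK, s1_div, s1_mul, s1_div, s1_mul, s1_Dh (x - y), s1_Dh (y - x), add_comm y x,
    show 2 * (y - x) = -(2 * (x - y)) by ring, Real.cos_neg]

theorem s1_KKn {N : ℕ} {x : Fin N → ℝ} (hx : Nd x) (j k : Fin N) :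
    KK (ep (x j)) (ep (x k)) = (kR (x j) (x k) : ℂ) :=
  s1_KK' (hx.pos j) (by have := hx.lt j; have := Real.pi_pos; linarith) (hx.pos k) (hx.lt k).le

/-- the kernel matrix of distinct nodes is invertible (positive definite, compare Pool/Agent/EXP) -/
theorem solv {N : ℕ} {x : Fin N → ℝ} (hx : Nd x) (v : Fin N → ℂ) :
    ∃ a : Fin N → ℂ, ∀ j, ∑ k, a k * KK (ep (x j)) (ep (x k)) = v j := by
  obtain ⟨a, ha⟩ := s1_solvR hx fun j => (v j).re
  obtain ⟨b, hb⟩ := s1_solvR hx fun j => (v j).im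
  refine ⟨fun k => (a k : ℂ) + (b k : ℂ) * Complex.I, fun j => ?_⟩
  have h1 : ∀ k, ((a k : ℂ) + (b k : ℂ) * Complex.I) * KK (ep (x j)) (ep (x k)) =
      ((a k * kR (x j) (x k) : ℝ) : ℂ) + ((b k * kR (x j) (x k) : ℝ) : ℂ) * Complex.I := by
    intro k
    rw [s1_KKn hx]
    push_cast
    ring
  rw [Finset.sum_congr rfl fun k _ => h1 k, Finset.sum_add_distrib, ← Finset.sum_mul,
    ← Complex.ofReal_sum, ← Complex.ofReal_sum, ha j, hb j]
  exact Complex.re_add_im _

theorem s1_th : th = ep (Real.pi / 16) := by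
  rw [th, ep]; congr 1; push_cast; ring

theorem s1_th3 : th ^ 3 = ep (3 * Real.pi / 16) := by
  rw [th, ep, ← Complex.exp_nat_mul]; congr 1; push_cast; ring

theorem s1_S1 (v : ℝ) : S1 (ep v) = (Real.sin (2 * v) : ℂ) := by
  rw [S1, Complex.ofReal_sin, Complex.sin, ep, ← Complex.exp_neg]
  have e1 : ((2 * v : ℝ) : ℂ) * Complex.I = 2 * Complex.I * (v : ℂ) := by push_cast; ring
  have e2 : -((2 * v : ℝ) : ℂ) * Complex.I = -(2 * Complex.I * (v : ℂ)) := by push_cast; ring
  rw [e1, e2]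
  have : (2 * Complex.I) ≠ 0 := by simp
  field_simp
  linear_combination (Complex.exp (2 * Complex.I * ↑v) - Complex.exp (-(2 * Complex.I * ↑v))) *
    Complex.I_sq

theorem s1_sum_swap {N : ℕ} {K : Fin N → Fin N → ℝ} (hK : ∀ i j, K i j = K j i) {a b u v : Fin N → ℝ}
    (ha : ∀ j, ∑ k, a k * K j k = u j) (hb : ∀ j, ∑ k, b k * K j k = v j) :
    ∑ k, a k * v k = ∑ k, b k * u k := by
  have h1 : ∑ k, a k * v k = ∑ k, ∑ j, a k * (b j * K k j) := by
    refine Finset.sum_congr rfl fun k _ => ?_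
    rw [← hb k, Finset.mul_sum]
  have h2 : ∑ k, b k * u k = ∑ k, ∑ j, b k * (a j * K k j) := by
    refine Finset.sum_congr rfl fun k _ => ?_
    rw [← ha k, Finset.mul_sum]
  rw [h1, h2, Finset.sum_comm]
  refine Finset.sum_congr rfl fun k _ => Finset.sum_congr rfl fun j _ => ?_
  rw [hK j k]
  ring

theorem s1_trig : 2 * Real.sqrt 2 * Real.sin (Real.pi / 8) * Real.sin (3 * Real.pi / 8) = 1 := by
  have h1 : Real.sin (3 * Real.pi / 8) = Real.cos (Real.pi / 8) := by
    rw [← Real.cos_pi_div_two_sub]; congr 1; ring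
  have h2 : 2 * Real.sin (Real.pi / 8) * Real.cos (Real.pi / 8) = Real.sqrt 2 / 2 := by
    rw [← Real.sin_two_mul, ← Real.sin_pi_div_four]; congr 1; ring
  have h3 : Real.sqrt 2 * Real.sqrt 2 = 2 := Real.mul_self_sqrt (by norm_num)
  rw [h1]
  linear_combination (Real.sqrt 2) * h2 + (1 / 2) * h3

/-- D_t(p) = D_p(t) by the symmetry of the kernel; s_0 = sin 2p / e_1(p), s_k = - b_k sin 2x_k / e_1(p), b the
coefficients of the interpolation of KK(., p); 2 √2 sin(π/8) sin(3π/8) = 1. -/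
theorem SD_of_closing' {N : ℕ} {x : Fin N → ℝ} (hx : Nd x) {B : ℂ}
    (h : ∀ a a'' : Fin N → ℂ, (∀ k, res1 x a (ep (x k)) = 0) → (∀ k, resD x a'' (ep (x k)) = 0) →
      res1 x a th ≠ 0 ∧ ∃ σ : ℂ, (σ = 1 ∨ σ = -1) ∧
        (Real.sin (Real.pi / 8) : ℝ) * resD x a'' th = σ * B * res1 x a th) :
    ∃ (s0 : ℝ) (s : Fin N → ℝ), SD x s0 s ∧ ‖B‖ = |SS x s0 s cst| := by
  have hp := Real.pi_pos
  have hlt : ∀ k, x k < 3 * Real.pi / 16 := fun k => by linarith [hx.lt k]
  obtain ⟨a, ha⟩ := s1_solvR hx fun j => Real.sin (2 * x j)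
  obtain ⟨d, hd⟩ := s1_solvR hx fun j => kR (x j) (3 * Real.pi / 16)
  obtain ⟨b, hb⟩ := s1_solvR hx fun j => kR (x j) (Real.pi / 16)
  -- kernel values
  have k1 : ∀ k, KK th (ep (x k)) = (kR (Real.pi / 16) (x k) : ℂ) := fun k => by
    rw [s1_th]; exact s1_KK' (by positivity) (by linarith) (hx.pos k) (hx.lt k).le
  have k2 : ∀ k, KK (ep (x k)) (th ^ 3) = (kR (x k) (3 * Real.pi / 16) : ℂ) := fun k => by
    rw [s1_th3, s1_KKs, kR_symm]
    exact s1_KK' (by positivity) le_rfl (hx.pos k) (hx.lt k).le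
  have k3 : KK th (th ^ 3) = (kR (Real.pi / 16) (3 * Real.pi / 16) : ℂ) := by
    rw [s1_th3, s1_th, s1_KKs, kR_symm]
    exact s1_KK' (by positivity) le_rfl (by positivity) le_rfl
  obtain ⟨hne, σ, hσ, heq⟩ := h (fun k => (a k : ℂ)) (fun k => (d k : ℂ))
    (fun j => by
      rw [res1, s1_S1, sub_eq_zero, ← ha j, Complex.ofReal_sum]
      refine Finset.sum_congr rfl fun k _ => ?_
      rw [s1_KKn hx, Complex.ofReal_mul])
    (fun j => by
      rw [resD, k2 j, sub_eq_zero, ← hd j, Complex.ofReal_sum]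
      refine Finset.sum_congr rfl fun k _ => ?_
      rw [s1_KKn hx, Complex.ofReal_mul])
  -- the value e_1(p)
  set e : ℝ := Real.sin (Real.pi / 8) - ∑ k, b k * Real.sin (2 * x k) with he
  have hsa : ∑ k, a k * kR (Real.pi / 16) (x k) = ∑ k, b k * Real.sin (2 * x k) := by
    have := s1_sum_swap (K := fun i j => kR (x i) (x j)) (fun i j => kR_symm _ _) ha hb
    rw [← this]
    exact Finset.sum_congr rfl fun k _ => by rw [kR_symm]
  have hsd : ∑ k, d k * kR (Real.pi / 16) (x k) = ∑ k, b k * kR (x k) (3 * Real.pi / 16) := by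
    have := s1_sum_swap (K := fun i j => kR (x i) (x j)) (fun i j => kR_symm _ _) hd hb
    rw [← this]
    exact Finset.sum_congr rfl fun k _ => by rw [kR_symm]
  have hr1 : res1 x (fun k => (a k : ℂ)) th = (e : ℂ) := by
    have h1 : ∑ k, (a k : ℂ) * KK th (ep (x k)) = ((∑ k, a k * kR (Real.pi / 16) (x k) : ℝ) : ℂ) := by
      rw [Complex.ofReal_sum]
      exact Finset.sum_congr rfl fun k _ => by rw [k1 k, Complex.ofReal_mul]
    rw [res1, h1, hsa, s1_th, s1_S1, he, show 2 * (Real.pi / 16) = Real.pi / 8 by ring,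
      Complex.ofReal_sub]
  have hrD : resD x (fun k => (d k : ℂ)) th = ((kR (Real.pi / 16) (3 * Real.pi / 16) -
      ∑ k, b k * kR (x k) (3 * Real.pi / 16) : ℝ) : ℂ) := by
    have h1 : ∑ k, (d k : ℂ) * KK th (ep (x k)) = ((∑ k, d k * kR (Real.pi / 16) (x k) : ℝ) : ℂ) := by
      rw [Complex.ofReal_sum]
      exact Finset.sum_congr rfl fun k _ => by rw [k1 k, Complex.ofReal_mul]
    rw [resD, h1, hsd, k3, Complex.ofReal_sub]
  have he0 : e ≠ 0 := by
    intro h0
    rw [hr1, h0] at hne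
    exact hne Complex.ofReal_zero
  have hSS : ∀ v : ℝ, kR v (Real.pi / 16) - ∑ k, b k * kR v (x k) =
      2 * Real.sqrt 2 * Real.sin (2 * v) * e * SS x (Real.sin (Real.pi / 8) / e)
        (fun k => -(b k * Real.sin (2 * x k)) / e) (Real.cos (2 * v)) := by
    intro v
    rw [SS, mul_add, Finset.mul_sum, sub_eq_add_neg, ← Finset.sum_neg_distrib]
    congr 1
    · rw [kR, show 2 * (Real.pi / 16) = Real.pi / 8 by ring]
      field_simp
    · refine Finset.sum_congr rfl fun k _ => ?_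
      rw [kR]
      field_simp
  refine ⟨Real.sin (Real.pi / 8) / e, fun k => -(b k * Real.sin (2 * x k)) / e,
    ⟨hx.inj, hx.pos, hx.lt, fun j => ?_, ?_⟩, ?_⟩
  · have h1 := hSS (x j)
    rw [hb j, sub_self] at h1
    have hs : 0 < Real.sqrt 2 := Real.sqrt_pos.2 (by norm_num)
    have hsin : 0 < Real.sin (2 * x j) :=
      Real.sin_pos_of_pos_of_lt_pi (by linarith [hx.pos j]) (by linarith [hx.lt j])
    have h2 : 2 * Real.sqrt 2 * Real.sin (2 * x j) * e ≠ 0 :=
      mul_ne_zero (by positivity) he0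
    exact (mul_eq_zero.1 h1.symm).resolve_left h2
  · rw [← Finset.sum_div, Finset.sum_neg_distrib, ← add_div, ← sub_eq_add_neg, ← he, div_self he0]
  · have h1 := hSS (3 * Real.pi / 16)
    rw [show 2 * (3 * Real.pi / 16) = 3 * Real.pi / 8 by ring] at h1
    have h2 : kR (Real.pi / 16) (3 * Real.pi / 16) - ∑ k, b k * kR (x k) (3 * Real.pi / 16) =
        kR (3 * Real.pi / 16) (Real.pi / 16) - ∑ k, b k * kR (3 * Real.pi / 16) (x k) := by
      rw [kR_symm (Real.pi / 16) (3 * Real.pi / 16)]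
      congr 1
      exact Finset.sum_congr rfl fun k _ => by rw [kR_symm (x k) _]
    rw [hr1, hrD, h2, h1] at heq
    have h3 : σ * B * (e : ℂ) = ((SS x (Real.sin (Real.pi / 8) / e)
        (fun k => -(b k * Real.sin (2 * x k)) / e) cst : ℝ) : ℂ) * (e : ℂ) := by
      rw [← heq, ← Complex.ofReal_mul, ← Complex.ofReal_mul]
      congr 1
      rw [cst]
      linear_combination (e * SS x (Real.sin (Real.pi / 8) / e)
        (fun k => -(b k * Real.sin (2 * x k)) / e) (Real.cos (3 * Real.pi / 8))) * s1_trig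
    have h4 := mul_right_cancel₀ (Complex.ofReal_ne_zero.2 he0) h3
    have h5 : ‖σ * B‖ = ‖B‖ := by
      rcases hσ with h | h <;> rw [h] <;> simp
    rw [← h5, h4, Complex.norm_real, Real.norm_eq_abs]

theorem SD_of_closing {N : ℕ} {x : Fin N → ℝ} (hx : Nd x) {B : ℝ}
    (h : ∀ a a'' : Fin N → ℂ, (∀ k, res1 x a (ep (x k)) = 0) → (∀ k, resD x a'' (ep (x k)) = 0) →
      res1 x a th ≠ 0 ∧ ∃ σ : ℂ, (σ = 1 ∨ σ = -1) ∧
        (Real.sin (Real.pi / 8) : ℝ) * resD x a'' th = σ * (B : ℂ) * res1 x a th) :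
    ∃ (s0 : ℝ) (s : Fin N → ℝ), SD x s0 s ∧ |B| = |SS x s0 s cst| := by
  obtain ⟨s0, s, h1, h2⟩ := SD_of_closing' hx h
  refine ⟨s0, s, h1, ?_⟩
  rw [← h2, Complex.norm_real, Real.norm_eq_abs]

end EXS
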