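import Mathlib

/-!
# Dispersion relation in a vertical strip

`f` analytic in `|Re z| < a`, continuous on the closed strip, exponentially decaying: then
`4 a f(x0) = ∫ (f(a+iy) - f(-a+iy)) tan(κ (x0 - i y)) dy`, `κ = π/(2a)`; for even real `f` this is
`f(x0) = (1/a) ∫_0^∞ Im f(a+iy) sinh(2κy)/(cosh(2κy) + cos(2κ x0)) dy`.
-/

open Complex Set MeasureTheory Filter Topology

namespace EXS

noncomputable section

/-- `sin (κ u) / u`, continuously extended at `0`. -/
def sg (κ : ℝ) (u : ℂ) : ℂ := dslope (fun u : ℂ => Complex.sin (κ * u)) 0 u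

lemma sg_of_ne {κ : ℝ} {u : ℂ} (hu : u ≠ 0) : sg κ u = Complex.sin (κ * u) / u := by
  unfold sg
  rw [dslope_of_ne _ hu, slope_def_field]
  simp

lemma sin_diff (κ : ℝ) (z : ℂ) : DifferentiableAt ℂ (fun u : ℂ => Complex.sin (κ * u)) z := by
  fun_prop

lemma sg_zero (κ : ℝ) : sg κ 0 = κ := by
  unfold sg
  rw [dslope_same]
  have h : HasDerivAt (fun u : ℂ => Complex.sin (κ * u)) (Complex.cos (κ * (0:ℂ)) * (κ * 1)) 0 := by
    exact ((hasDerivAt_id (0:ℂ)).const_mul (κ : ℂ)).csin
  rw [h.deriv]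
  simp

lemma sg_cont (κ : ℝ) (u : ℂ) : ContinuousAt (sg κ) u := by
  unfold sg
  by_cases h : u = 0
  · subst h
    exact continuousAt_dslope_same.2 (sin_diff κ 0)
  · exact (continuousAt_dslope_of_ne h).2 (sin_diff κ u).continuousAt

lemma sg_diff (κ : ℝ) {u : ℂ} (h : u ≠ 0) : DifferentiableAt ℂ (sg κ) u := by
  unfold sg
  exact (differentiableAt_dslope_of_ne h).2 (sin_diff κ u)

lemma sg_ne {κ a : ℝ} (ha : 0 < a) (hκ : κ = Real.pi / (2 * a)) {u : ℂ} (hu : |u.re| < 2 * a) :
    sg κ u ≠ 0 := by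
  have hpi := Real.pi_pos
  have hκ0 : 0 < κ := by rw [hκ]; positivity
  by_cases h : u = 0
  · subst h
    rw [sg_zero]
    exact_mod_cast hκ0.ne'
  · rw [sg_of_ne h]
    refine div_ne_zero ?_ h
    intro hs
    rw [Complex.sin_eq_zero_iff] at hs
    obtain ⟨k, hk⟩ := hs
    have hre := congrArg Complex.re hk
    have him := congrArg Complex.im hk
    simp at hre him
    have h1 : |κ * u.re| < Real.pi := by
      rw [abs_mul, abs_of_pos hκ0]
      calc κ * |u.re| < κ * (2 * a) := by
            exact mul_lt_mul_of_pos_left hu hκ0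
        _ = Real.pi := by rw [hκ]; field_simp
    rw [hre, abs_mul, abs_of_pos hpi] at h1
    have h2 : |(k:ℝ)| < 1 := by
      by_contra hcon
      rw [not_lt] at hcon
      nlinarith
    have h3 : k = 0 := by
      have : |k| < 1 := by exact_mod_cast h2
      exact Int.abs_lt_one_iff.1 this
    subst h3
    simp at hre
    apply h
    apply Complex.ext
    · simp
      rcases hre with h5 | h5
      · exact absurd h5 hκ0.ne'
      · exact h5
    · simp
      rcases him with h5 | h5
      · exact absurd h5 hκ0.ne'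
      · exact h5

/-- the regularised integrand `(f - f x0) cot (κ (x - x0))` -/
def kk (κ : ℝ) (f : ℂ → ℂ) (x0 x : ℂ) : ℂ :=
  dslope f x0 x * (Complex.cos (κ * (x - x0)) / sg κ (x - x0))

lemma kk_of_ne {κ : ℝ} {f : ℂ → ℂ} {x0 x : ℂ} (h : x ≠ x0) :
    kk κ f x0 x = (f x - f x0) * (Complex.cos (κ * (x - x0)) / Complex.sin (κ * (x - x0))) := by
  unfold kk
  have h' : x - x0 ≠ 0 := sub_ne_zero.2 h
  rw [dslope_of_ne _ h, slope_def_field, sg_of_ne h']
  by_cases hs : Complex.sin (κ * (x - x0)) = 0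
  · rw [hs]; simp
  · field_simp

/-- `|cot w + i| ≤ e^{-Im w}/sinh (Im w)` for `Im w > 0`. -/
lemma norm_sin_ge (w : ℂ) : |Real.sinh w.im| ≤ ‖Complex.sin w‖ := by
  have h : ‖Complex.sin w‖ ^ 2 = Real.sin w.re ^ 2 + Real.sinh w.im ^ 2 := by
    rw [Complex.sq_norm, Complex.normSq_apply]
    have h1 : (Complex.sin w).re = Real.sin w.re * Real.cosh w.im := by
      conv_lhs => rw [← Complex.re_add_im w, Complex.sin_add_mul_I]
      simp [Complex.sin_ofReal_re, Complex.cosh_ofReal_re, Complex.cos_ofReal_re, Complex.sinh_ofReal_re]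
    have h2 : (Complex.sin w).im = Real.cos w.re * Real.sinh w.im := by
      conv_lhs => rw [← Complex.re_add_im w, Complex.sin_add_mul_I]
      simp [Complex.sin_ofReal_re, Complex.cosh_ofReal_re, Complex.cos_ofReal_re, Complex.sinh_ofReal_re]
    rw [h1, h2]
    have h3 := Real.cosh_sq w.im
    have h4 := Real.sin_sq_add_cos_sq w.re
    nlinarith
  have h5 : Real.sinh w.im ^ 2 ≤ ‖Complex.sin w‖ ^ 2 := by
    rw [h]; nlinarith [sq_nonneg (Real.sin w.re)]
  exact abs_le_of_sq_le_sq h5 (norm_nonneg _)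

lemma norm_cos_ge (w : ℂ) : |Real.cos w.re| * Real.cosh w.im ≤ ‖Complex.cos w‖ := by
  have h : ‖Complex.cos w‖ ^ 2 = Real.cos w.re ^ 2 + Real.sinh w.im ^ 2 := by
    rw [Complex.sq_norm, Complex.normSq_apply]
    have h1 : (Complex.cos w).re = Real.cos w.re * Real.cosh w.im := by
      conv_lhs => rw [← Complex.re_add_im w, Complex.cos_add_mul_I]
      simp [Complex.sin_ofReal_re, Complex.cosh_ofReal_re, Complex.cos_ofReal_re, Complex.sinh_ofReal_re]
    have h2 : (Complex.cos w).im = - (Real.sin w.re * Real.sinh w.im) := by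
      conv_lhs => rw [← Complex.re_add_im w, Complex.cos_add_mul_I]
      simp [Complex.sin_ofReal_re, Complex.cosh_ofReal_re, Complex.cos_ofReal_re, Complex.sinh_ofReal_re]
    rw [h1, h2]
    have h3 := Real.cosh_sq w.im
    have h4 := Real.sin_sq_add_cos_sq w.re
    nlinarith
  have h5 : (|Real.cos w.re| * Real.cosh w.im) ^ 2 ≤ ‖Complex.cos w‖ ^ 2 := by
    rw [h, mul_pow, sq_abs, Real.cosh_sq]
    have h4 := Real.cos_sq_le_one w.re
    nlinarith [sq_nonneg (Real.sinh w.im)]
  exact le_of_sq_le_sq h5 (norm_nonneg _)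

lemma norm_sin_le (w : ℂ) : ‖Complex.sin w‖ ≤ Real.cosh w.im := by
  have h : ‖Complex.sin w‖ ^ 2 = Real.sin w.re ^ 2 + Real.sinh w.im ^ 2 := by
    rw [Complex.sq_norm, Complex.normSq_apply]
    have h1 : (Complex.sin w).re = Real.sin w.re * Real.cosh w.im := by
      conv_lhs => rw [← Complex.re_add_im w, Complex.sin_add_mul_I]
      simp [Complex.sin_ofReal_re, Complex.cosh_ofReal_re, Complex.cos_ofReal_re, Complex.sinh_ofReal_re]
    have h2 : (Complex.sin w).im = Real.cos w.re * Real.sinh w.im := by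
      conv_lhs => rw [← Complex.re_add_im w, Complex.sin_add_mul_I]
      simp [Complex.sin_ofReal_re, Complex.cosh_ofReal_re, Complex.cos_ofReal_re, Complex.sinh_ofReal_re]
    rw [h1, h2]
    have h3 := Real.cosh_sq w.im
    have h4 := Real.sin_sq_add_cos_sq w.re
    nlinarith
  have h5 : ‖Complex.sin w‖ ^ 2 ≤ Real.cosh w.im ^ 2 := by
    rw [h, Real.cosh_sq]
    have h4 := Real.sin_sq_le_one w.re
    linarith
  exact le_of_sq_le_sq h5 (Real.cosh_pos _).le

/-- `|tan w| ≤ 1/|cos (Re w)|`. -/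
lemma norm_tan_le {w : ℂ} (h : Real.cos w.re ≠ 0) : ‖Complex.tan w‖ ≤ 1 / |Real.cos w.re| := by
  have hc := norm_cos_ge w
  have hs := norm_sin_le w
  have hcp : 0 < |Real.cos w.re| := abs_pos.2 h
  have hch := Real.cosh_pos w.im
  have h1 : 0 < ‖Complex.cos w‖ := lt_of_lt_of_le (by positivity) hc
  rw [Complex.tan_eq_sin_div_cos, norm_div, div_le_div_iff₀ h1 hcp, one_mul]
  calc ‖Complex.sin w‖ * |Real.cos w.re| ≤ Real.cosh w.im * |Real.cos w.re| := by gcongr
    _ = |Real.cos w.re| * Real.cosh w.im := mul_comm _ _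
    _ ≤ _ := hc

lemma cot_add_I (w : ℂ) (h : Complex.sin w ≠ 0) :
    Complex.cos w / Complex.sin w + I = Complex.exp (w * I) / Complex.sin w := by
  rw [Complex.exp_mul_I]
  field_simp

lemma cot_sub_I (w : ℂ) (h : Complex.sin w ≠ 0) :
    Complex.cos w / Complex.sin w - I = Complex.exp (-(w * I)) / Complex.sin w := by
  have : Complex.exp (-(w * I)) = Complex.cos w - Complex.sin w * I := by
    have := Complex.exp_mul_I (-w)
    rw [Complex.cos_neg, Complex.sin_neg] at this
    rw [show -(w * I) = -w * I by ring, this]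
    ring
  rw [this]
  field_simp

lemma kk_contOn {κ a : ℝ} (ha : 0 < a) (hκ : κ = Real.pi / (2 * a)) {f : ℂ → ℂ}
    (hc : ContinuousOn f {z : ℂ | |z.re| ≤ a}) {x0 : ℂ} (hx : |x0.re| < a)
    (hd0 : DifferentiableAt ℂ f x0) : ContinuousOn (kk κ f x0) {z : ℂ | |z.re| ≤ a} := by
  unfold kk
  have hmem : {z : ℂ | |z.re| ≤ a} ∈ 𝓝 x0 := by
    have hop : IsOpen {z : ℂ | |z.re| < a} :=
      isOpen_lt (continuous_abs.comp Complex.continuous_re) continuous_const
    exact Filter.mem_of_superset (hop.mem_nhds hx) fun z (hz : |z.re| < a) => (le_of_lt hz : |z.re| ≤ a)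
  refine ContinuousOn.mul ((continuousOn_dslope hmem).2 ⟨hc, hd0⟩) ?_
  refine ContinuousOn.div ?_ ?_ ?_
  · fun_prop
  · intro z _
    apply ContinuousAt.continuousWithinAt
    exact ContinuousAt.comp (g := sg κ) (f := fun z => z - x0) (sg_cont κ _) (by fun_prop)
  · intro z hz
    apply sg_ne ha hκ
    have h1 : |z.re| ≤ a := hz
    rw [Complex.sub_re]
    calc |z.re - x0.re| ≤ |z.re| + |x0.re| := abs_sub _ _
      _ < 2 * a := by linarith

lemma kk_diff {κ a : ℝ} (ha : 0 < a) (hκ : κ = Real.pi / (2 * a)) {f : ℂ → ℂ}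
    {x0 z : ℂ} (hx : |x0.re| < a) (hz : |z.re| < a) (hne : z ≠ x0)
    (hd : DifferentiableAt ℂ f z) : DifferentiableAt ℂ (kk κ f x0) z := by
  unfold kk
  refine DifferentiableAt.mul ((differentiableAt_dslope_of_ne hne).2 hd) ?_
  refine DifferentiableAt.div ?_ ?_ ?_
  · fun_prop
  · exact DifferentiableAt.comp (g := sg κ) (f := fun z => z - x0) z
      (sg_diff κ (sub_ne_zero.2 hne)) (by fun_prop)
  · apply sg_ne ha hκ
    rw [Complex.sub_re]
    calc |z.re - x0.re| ≤ |z.re| + |x0.re| := abs_sub _ _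
      _ < 2 * a := by linarith

/-- top side: `‖kk - i f0‖`. -/
lemma kk_top {κ : ℝ} {f : ℂ → ℂ} {x0 z : ℂ} {M F : ℝ}
    (hκ0 : 0 < κ) (hy : x0.im < z.im) (hf : ‖f z‖ ≤ M) (hf0 : ‖f x0‖ ≤ F) :
    ‖kk κ f x0 z - I * f x0‖ ≤
      (M + F) * (Real.exp (-(κ * (z.im - x0.im))) / Real.sinh (κ * (z.im - x0.im))) + M := by
  have hne : z ≠ x0 := by
    intro h; rw [h] at hy; exact lt_irrefl _ hy
  have hw : (κ * (z - x0) : ℂ).im = κ * (z.im - x0.im) := by simp
  have hpos : 0 < κ * (z.im - x0.im) := mul_pos hκ0 (by linarith)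
  have hsh : 0 < Real.sinh (κ * (z.im - x0.im)) := Real.sinh_pos_iff.2 hpos
  have hsin : Real.sinh (κ * (z.im - x0.im)) ≤ ‖Complex.sin (κ * (z - x0))‖ := by
    have := norm_sin_ge (κ * (z - x0) : ℂ)
    rw [hw, abs_of_pos hsh] at this
    exact this
  have hs0 : Complex.sin (κ * (z - x0)) ≠ 0 := by
    intro h; rw [h, norm_zero] at hsin; linarith
  rw [kk_of_ne hne]
  have e : (f z - f x0) * (Complex.cos (κ * (z - x0)) / Complex.sin (κ * (z - x0))) - I * f x0 =
      (f z - f x0) * (Complex.cos (κ * (z - x0)) / Complex.sin (κ * (z - x0)) + I) - I * f z := by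
    ring
  rw [e, cot_add_I _ hs0]
  have h1 : ‖Complex.exp (κ * (z - x0) * I)‖ = Real.exp (-(κ * (z.im - x0.im))) := by
    rw [Complex.norm_exp]; congr 1; simp
  have h2 : ‖Complex.exp (κ * (z - x0) * I) / Complex.sin (κ * (z - x0))‖ ≤
      Real.exp (-(κ * (z.im - x0.im))) / Real.sinh (κ * (z.im - x0.im)) := by
    rw [norm_div, h1]
    gcongr
  have hM : 0 ≤ M := le_trans (norm_nonneg _) hf
  have hF : 0 ≤ F := le_trans (norm_nonneg _) hf0
  calc ‖(f z - f x0) * (Complex.exp (κ * (z - x0) * I) / Complex.sin (κ * (z - x0))) - I * f z‖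
      ≤ ‖(f z - f x0) * (Complex.exp (κ * (z - x0) * I) / Complex.sin (κ * (z - x0)))‖
        + ‖I * f z‖ := norm_sub_le _ _
    _ ≤ (M + F) * (Real.exp (-(κ * (z.im - x0.im))) / Real.sinh (κ * (z.im - x0.im))) + M := by
        rw [norm_mul, norm_mul, Complex.norm_I, one_mul]
        gcongr
        exact (norm_sub_le _ _).trans (add_le_add hf hf0)

/-- bottom side: `‖kk + i f0‖`. -/
lemma kk_bot {κ : ℝ} {f : ℂ → ℂ} {x0 z : ℂ} {M F : ℝ}
    (hκ0 : 0 < κ) (hy : z.im < x0.im) (hf : ‖f z‖ ≤ M) (hf0 : ‖f x0‖ ≤ F) :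
    ‖kk κ f x0 z + I * f x0‖ ≤
      (M + F) * (Real.exp (-(κ * (x0.im - z.im))) / Real.sinh (κ * (x0.im - z.im))) + M := by
  have hne : z ≠ x0 := by
    intro h; rw [h] at hy; exact lt_irrefl _ hy
  have hw : (κ * (z - x0) : ℂ).im = -(κ * (x0.im - z.im)) := by simp; ring
  have hpos : 0 < κ * (x0.im - z.im) := mul_pos hκ0 (by linarith)
  have hsh : 0 < Real.sinh (κ * (x0.im - z.im)) := Real.sinh_pos_iff.2 hpos
  have hsin : Real.sinh (κ * (x0.im - z.im)) ≤ ‖Complex.sin (κ * (z - x0))‖ := by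
    have := norm_sin_ge (κ * (z - x0) : ℂ)
    rw [hw, Real.sinh_neg, abs_neg, abs_of_pos hsh] at this
    exact this
  have hs0 : Complex.sin (κ * (z - x0)) ≠ 0 := by
    intro h; rw [h, norm_zero] at hsin; linarith
  rw [kk_of_ne hne]
  have e : (f z - f x0) * (Complex.cos (κ * (z - x0)) / Complex.sin (κ * (z - x0))) + I * f x0 =
      (f z - f x0) * (Complex.cos (κ * (z - x0)) / Complex.sin (κ * (z - x0)) - I) + I * f z := by
    ring
  rw [e, cot_sub_I _ hs0]
  have h1 : ‖Complex.exp (-(κ * (z - x0) * I))‖ = Real.exp (-(κ * (x0.im - z.im))) := by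
    rw [Complex.norm_exp]; congr 1; simp; ring
  have h2 : ‖Complex.exp (-(κ * (z - x0) * I)) / Complex.sin (κ * (z - x0))‖ ≤
      Real.exp (-(κ * (x0.im - z.im))) / Real.sinh (κ * (x0.im - z.im)) := by
    rw [norm_div, h1]
    gcongr
  have hM : 0 ≤ M := le_trans (norm_nonneg _) hf
  have hF : 0 ≤ F := le_trans (norm_nonneg _) hf0
  calc ‖(f z - f x0) * (Complex.exp (-(κ * (z - x0) * I)) / Complex.sin (κ * (z - x0))) + I * f z‖
      ≤ ‖(f z - f x0) * (Complex.exp (-(κ * (z - x0) * I)) / Complex.sin (κ * (z - x0)))‖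
        + ‖I * f z‖ := norm_add_le _ _
    _ ≤ (M + F) * (Real.exp (-(κ * (x0.im - z.im))) / Real.sinh (κ * (x0.im - z.im))) + M := by
        rw [norm_mul, norm_mul, Complex.norm_I, one_mul]
        gcongr
        exact (norm_sub_le _ _).trans (add_le_add hf hf0)

/-- the error function tends to `0`. -/
lemma err_tendsto {κ b C F v : ℝ} (hκ0 : 0 < κ) (hb : 0 < b) :
    Tendsto (fun Y : ℝ => (C * Real.exp (-b * Y) + F) *
      (Real.exp (-(κ * (Y + v))) / Real.sinh (κ * (Y + v))) + C * Real.exp (-b * Y))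
      atTop (𝓝 0) := by
  have h1 : Tendsto (fun Y : ℝ => C * Real.exp (-b * Y)) atTop (𝓝 0) := by
    have : Tendsto (fun Y : ℝ => -b * Y) atTop atBot :=
      tendsto_id.const_mul_atTop_of_neg (by linarith)
    have h := (Real.tendsto_exp_atBot.comp this).const_mul C
    simpa using h
  have h2 : Tendsto (fun Y : ℝ => κ * (Y + v)) atTop atTop :=
    Tendsto.const_mul_atTop hκ0 (tendsto_atTop_add_const_right _ _ tendsto_id)
  have h3 : Tendsto (fun Y : ℝ => Real.exp (-(κ * (Y + v)))) atTop (𝓝 0) :=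
    Real.tendsto_exp_neg_atTop_nhds_zero.comp h2
  have hsh : Tendsto Real.sinh atTop atTop := by
    refine tendsto_atTop_mono' atTop ?_ tendsto_id
    filter_upwards [eventually_ge_atTop (0:ℝ)] with y hy
    exact Real.self_le_sinh_iff.2 hy
  have h4 : Tendsto (fun Y : ℝ => (Real.sinh (κ * (Y + v)))⁻¹) atTop (𝓝 0) :=
    tendsto_inv_atTop_zero.comp (hsh.comp h2)
  have h5 := ((h1.add_const F).mul (h3.mul h4)).add h1
  simpa [div_eq_mul_inv] using h5

lemma cot_tan {κ a : ℝ} (ha : 0 < a) (hκ : κ = Real.pi / (2 * a)) (x0 : ℂ) (y : ℝ) :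
    Complex.cos (κ * ((a:ℂ) + y * I - x0)) / Complex.sin (κ * ((a:ℂ) + y * I - x0)) =
      Complex.tan (κ * (x0 - y * I)) := by
  have hka : (κ:ℂ) * a = Real.pi / 2 := by
    rw [hκ]; push_cast
    have : (a:ℂ) ≠ 0 := by exact_mod_cast ha.ne'
    field_simp
  have e : (κ:ℂ) * ((a:ℂ) + y * I - x0) = Real.pi / 2 - κ * (x0 - y * I) := by
    rw [← hka]; ring
  rw [e, Complex.cos_pi_div_two_sub, Complex.sin_pi_div_two_sub, Complex.tan_eq_sin_div_cos]

lemma cot_tan' {κ a : ℝ} (ha : 0 < a) (hκ : κ = Real.pi / (2 * a)) (x0 : ℂ) (y : ℝ) :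
    Complex.cos (κ * (-(a:ℂ) + y * I - x0)) / Complex.sin (κ * (-(a:ℂ) + y * I - x0)) =
      Complex.tan (κ * (x0 - y * I)) := by
  have hka : (κ:ℂ) * a = Real.pi / 2 := by
    rw [hκ]; push_cast
    have : (a:ℂ) ≠ 0 := by exact_mod_cast ha.ne'
    field_simp
  have e : (κ:ℂ) * (-(a:ℂ) + y * I - x0) = -(Real.pi / 2 + κ * (x0 - y * I)) := by
    rw [← hka]; ring
  rw [e, Complex.cos_neg, Complex.sin_neg, add_comm, Complex.cos_add_pi_div_two,
    Complex.sin_add_pi_div_two, Complex.tan_eq_sin_div_cos, neg_div_neg_eq]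

lemma int_exp_abs {b : ℝ} (hb : 0 < b) : Integrable fun y : ℝ => Real.exp (-b * |y|) := by
  have h1 : IntegrableOn (fun y : ℝ => Real.exp (-b * |y|)) (Ioi 0) := by
    refine (integrableOn_exp_mul_Ioi (a := -b) (by linarith) 0).congr_fun ?_ measurableSet_Ioi
    intro y hy
    simp only
    rw [abs_of_pos hy]
  have h2 : IntegrableOn (fun y : ℝ => Real.exp (-b * |y|)) (Iic 0) := by
    refine (integrableOn_exp_mul_Iic (a := b) hb 0).congr_fun ?_ measurableSet_Iic
    intro y hy
    simp only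
    rw [abs_of_nonpos hy]
    congr 1; ring
  have h3 := h2.union h1
  rwa [Iic_union_Ioi, integrableOn_univ] at h3

/-- **The dispersion relation.** -/
theorem disp_cot {a b C κ : ℝ} (ha : 0 < a) (hb : 0 < b) (hκ : κ = Real.pi / (2 * a))
    {f : ℂ → ℂ} (hc : ContinuousOn f {z : ℂ | |z.re| ≤ a}) {S : Set ℂ} (hS : S.Countable)
    (hd : ∀ z : ℂ, |z.re| < a → z ∉ S → DifferentiableAt ℂ f z) {x0 : ℂ} (hx : |x0.re| < a)
    (hd0 : DifferentiableAt ℂ f x0)
    (hf : ∀ z : ℂ, |z.re| ≤ a → ‖f z‖ ≤ C * Real.exp (-b * |z.im|)) :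
    Integrable (fun y : ℝ => (f (a + y * I) - f (-a + y * I)) * Complex.tan (κ * (x0 - y * I))) ∧
    ∫ y : ℝ, (f (a + y * I) - f (-a + y * I)) * Complex.tan (κ * (x0 - y * I)) =
      4 * (a:ℂ) * f x0 := by
  have hpi := Real.pi_pos
  have hκ0 : 0 < κ := by rw [hκ]; positivity
  have hC : 0 ≤ C := by
    have := (norm_nonneg _).trans (hf 0 (by simpa using ha.le))
    simpa using this
  set h : ℝ → ℂ := fun y => (f (a + y * I) - f (-a + y * I)) * Complex.tan (κ * (x0 - y * I))
    with hh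
  have hcosne : Real.cos (κ * x0.re) ≠ 0 := by
    apply ne_of_gt
    apply Real.cos_pos_of_mem_Ioo
    have hxx := abs_lt.1 hx
    have e : κ * a = Real.pi / 2 := by rw [hκ]; field_simp
    constructor <;> nlinarith [hxx.1, hxx.2]
  have hre : ∀ y : ℝ, ((κ * (x0 - y * I) : ℂ)).re = κ * x0.re := by intro y; simp
  have htan : ∀ y : ℝ, ‖Complex.tan (κ * (x0 - y * I))‖ ≤ 1 / |Real.cos (κ * x0.re)| := by
    intro y
    have := norm_tan_le (w := (κ * (x0 - y * I) : ℂ)) (by rw [hre]; exact hcosne)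
    rwa [hre] at this
  have hcosC : ∀ y : ℝ, Complex.cos (κ * (x0 - y * I)) ≠ 0 := by
    intro y h0
    have := norm_cos_ge (κ * (x0 - y * I) : ℂ)
    rw [h0, norm_zero, hre] at this
    have h1 : 0 < |Real.cos (κ * x0.re)| * Real.cosh ((κ * (x0 - y * I) : ℂ)).im :=
      mul_pos (abs_pos.2 hcosne) (Real.cosh_pos _)
    linarith
  -- continuity of the vertical functions
  have hra : Continuous fun y : ℝ => ((a:ℂ) + y * I) := by fun_prop
  have hla : Continuous fun y : ℝ => (-(a:ℂ) + y * I) := by fun_prop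
  have hfa : Continuous fun y : ℝ => f (a + y * I) := by
    refine hc.comp_continuous hra ?_
    intro y; simp [abs_of_pos ha]
  have hfl : Continuous fun y : ℝ => f (-a + y * I) := by
    refine hc.comp_continuous hla ?_
    intro y; simp [abs_of_pos ha]
  have htc : Continuous fun y : ℝ => Complex.tan (κ * (x0 - y * I)) := by
    have : (fun y : ℝ => Complex.tan (κ * (x0 - y * I))) = fun y : ℝ =>
        Complex.sin (κ * (x0 - y * I)) / Complex.cos (κ * (x0 - y * I)) := by
      funext y; rw [Complex.tan_eq_sin_div_cos]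
    rw [this]
    exact Continuous.div (by fun_prop) (by fun_prop) hcosC
  have hhc : Continuous h := (hfa.sub hfl).mul htc
  have hexp : Integrable fun y : ℝ => Real.exp (-b * |y|) := int_exp_abs hb
  have hint : Integrable h := by
    refine (hexp.const_mul (2 * C * (1 / |Real.cos (κ * x0.re)|))).mono'
      hhc.aestronglyMeasurable (Eventually.of_forall fun y => ?_)
    rw [hh]
    simp only
    rw [norm_mul]
    have h1 : ‖f (a + y * I)‖ ≤ C * Real.exp (-b * |y|) := by
      have := hf (a + y * I) (by simp [abs_of_pos ha])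
      simpa using this
    have h2 : ‖f (-a + y * I)‖ ≤ C * Real.exp (-b * |y|) := by
      have := hf (-a + y * I) (by simp [abs_of_pos ha])
      simpa using this
    have h3 : ‖f (a + y * I) - f (-a + y * I)‖ ≤ 2 * (C * Real.exp (-b * |y|)) :=
      (norm_sub_le _ _).trans (by linarith)
    calc ‖f (a + y * I) - f (-a + y * I)‖ * ‖Complex.tan (κ * (x0 - y * I))‖
        ≤ (2 * (C * Real.exp (-b * |y|))) * (1 / |Real.cos (κ * x0.re)|) := by
          gcongr
          exact htan y
      _ = 2 * C * (1 / |Real.cos (κ * x0.re)|) * Real.exp (-b * |y|) := by ring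
  refine ⟨hint, ?_⟩
  have hkc := kk_contOn ha hκ hc hx hd0
  -- the rectangle
  have hrect : ∀ Y : ℝ, 0 < Y →
      (∫ x in (-a)..a, kk κ f x0 (x + (-Y : ℝ) * I)) - (∫ x in (-a)..a, kk κ f x0 (x + Y * I)) +
        I * (∫ y in (-Y)..Y, kk κ f x0 (a + y * I)) -
        I * (∫ y in (-Y)..Y, kk κ f x0 (-a + y * I)) = 0 := by
    intro Y hY
    have h1 := Complex.integral_boundary_rect_eq_zero_of_differentiable_on_off_countable
      (kk κ f x0) (-(a:ℂ) + (-Y : ℝ) * I) ((a:ℂ) + Y * I) (S ∪ {x0})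
      (hS.union (countable_singleton x0)) ?_ ?_
    · simpa using h1
    · refine hkc.mono ?_
      intro z hz
      have hz1 := hz.1
      simp only [mem_preimage] at hz1
      have : z.re ∈ Set.uIcc (-a) a := by simpa using hz1
      rw [uIcc_of_le (by linarith : -a ≤ a)] at this
      exact abs_le.2 this
    · intro z hz
      obtain ⟨hz1, hz2⟩ := hz
      have hz3 : z.re ∈ Ioo (-a) a := by
        have := hz1.1
        simp only [mem_preimage] at this
        simpa [min_eq_left (by linarith : -a ≤ a), max_eq_right (by linarith : -a ≤ a)] using this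
      have hz4 : |z.re| < a := abs_lt.2 hz3
      simp only [mem_union, mem_singleton_iff, not_or] at hz2
      exact kk_diff ha hκ hx hz4 hz2.2 (hd z hz4 hz2.1)
  -- vertical sides
  have hvert : ∀ Y : ℝ, 0 < Y → I * (∫ y in (-Y)..Y, kk κ f x0 (a + y * I)) -
        I * (∫ y in (-Y)..Y, kk κ f x0 (-a + y * I)) = I * ∫ y in (-Y)..Y, h y := by
    intro Y _
    have c1 : Continuous fun y : ℝ => kk κ f x0 (a + y * I) := by
      refine hkc.comp_continuous hra ?_
      intro y; simp [abs_of_pos ha]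
    have c2 : Continuous fun y : ℝ => kk κ f x0 (-a + y * I) := by
      refine hkc.comp_continuous hla ?_
      intro y; simp [abs_of_pos ha]
    rw [← mul_sub, ← intervalIntegral.integral_sub (c1.intervalIntegrable _ _)
      (c2.intervalIntegrable _ _)]
    congr 1
    apply intervalIntegral.integral_congr
    intro y _
    have n1 : (a:ℂ) + y * I ≠ x0 := by
      intro e
      have := congrArg Complex.re e
      simp at this
      rw [← this, abs_of_pos ha] at hx
      exact lt_irrefl _ hx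
    have n2 : -(a:ℂ) + y * I ≠ x0 := by
      intro e
      have := congrArg Complex.re e
      simp at this
      rw [← this, abs_neg, abs_of_pos ha] at hx
      exact lt_irrefl _ hx
    simp only
    rw [kk_of_ne n1, kk_of_ne n2, cot_tan ha hκ, cot_tan' ha hκ, hh]
    ring
  -- limits of the horizontal sides
  have hF : ‖f x0‖ ≤ ‖f x0‖ := le_rfl
  have htop : Tendsto (fun Y : ℝ => ∫ x in (-a)..a, kk κ f x0 (x + Y * I)) atTop
      (𝓝 ((2 * a : ℝ) * (I * f x0))) := by
    rw [tendsto_iff_norm_sub_tendsto_zero]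
    have he := (err_tendsto (κ := κ) (b := b) (C := C) (F := ‖f x0‖) (v := -x0.im) hκ0 hb).mul_const
      |a - -a|
    rw [zero_mul] at he
    refine squeeze_zero' (Eventually.of_forall fun _ => norm_nonneg _) ?_ he
    filter_upwards [eventually_gt_atTop (max 0 x0.im)] with Y hY
    have hY0 : 0 < Y := lt_of_le_of_lt (le_max_left _ _) hY
    have hY1 : x0.im < Y := lt_of_le_of_lt (le_max_right _ _) hY
    have cY : Continuous fun x : ℝ => ((x:ℂ) + Y * I) := by fun_prop
    have cI : IntervalIntegrable (fun x : ℝ => kk κ f x0 (x + Y * I)) volume (-a) a := by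
      apply ContinuousOn.intervalIntegrable
      refine hkc.comp cY.continuousOn ?_
      intro x hx'
      rw [uIcc_of_le (by linarith)] at hx'
      simpa using abs_le.2 hx'
    have e1 : (∫ x in (-a)..a, kk κ f x0 (x + Y * I)) - (2 * a : ℝ) * (I * f x0) =
        ∫ x in (-a)..a, (kk κ f x0 (x + Y * I) - I * f x0) := by
      rw [intervalIntegral.integral_sub cI (continuous_const.intervalIntegrable _ _),
        intervalIntegral.integral_const]
      congr 1
      rw [Complex.real_smul]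
      congr 2
      ring
    rw [e1]
    refine intervalIntegral.norm_integral_le_of_norm_le_const ?_
    intro x hx'
    rw [uIoc_of_le (by linarith)] at hx'
    have hxa : |((x:ℂ) + Y * I).re| ≤ a := by
      simpa using abs_le.2 ⟨hx'.1.le, hx'.2⟩
    have hm := hf _ hxa
    have him : ((x:ℂ) + Y * I).im = Y := by simp
    rw [him, abs_of_pos hY0] at hm
    have := kk_top (κ := κ) hκ0 (by rw [him]; exact hY1) hm hF
    rw [him, sub_eq_add_neg Y] at this
    exact this
  have hbot : Tendsto (fun Y : ℝ => ∫ x in (-a)..a, kk κ f x0 (x + (-Y : ℝ) * I)) atTop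
      (𝓝 (-((2 * a : ℝ) * (I * f x0)))) := by
    rw [tendsto_iff_norm_sub_tendsto_zero]
    have he := (err_tendsto (κ := κ) (b := b) (C := C) (F := ‖f x0‖) (v := x0.im) hκ0 hb).mul_const
      |a - -a|
    rw [zero_mul] at he
    refine squeeze_zero' (Eventually.of_forall fun _ => norm_nonneg _) ?_ he
    filter_upwards [eventually_gt_atTop (max 0 (-x0.im))] with Y hY
    have hY0 : 0 < Y := lt_of_le_of_lt (le_max_left _ _) hY
    have hY1 : -x0.im < Y := lt_of_le_of_lt (le_max_right _ _) hY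
    have cY : Continuous fun x : ℝ => ((x:ℂ) + (-Y : ℝ) * I) := by fun_prop
    have cI : IntervalIntegrable (fun x : ℝ => kk κ f x0 (x + (-Y : ℝ) * I)) volume (-a) a := by
      apply ContinuousOn.intervalIntegrable
      refine hkc.comp cY.continuousOn ?_
      intro x hx'
      rw [uIcc_of_le (by linarith)] at hx'
      simpa using abs_le.2 hx'
    have e1 : (∫ x in (-a)..a, kk κ f x0 (x + (-Y : ℝ) * I)) - -((2 * a : ℝ) * (I * f x0)) =
        ∫ x in (-a)..a, (kk κ f x0 (x + (-Y : ℝ) * I) + I * f x0) := by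
      rw [intervalIntegral.integral_add cI (continuous_const.intervalIntegrable _ _),
        intervalIntegral.integral_const, sub_neg_eq_add]
      congr 1
      rw [Complex.real_smul]
      congr 2
      ring
    rw [e1]
    refine intervalIntegral.norm_integral_le_of_norm_le_const ?_
    intro x hx'
    rw [uIoc_of_le (by linarith)] at hx'
    have hxa : |((x:ℂ) + (-Y : ℝ) * I).re| ≤ a := by
      simpa using abs_le.2 ⟨hx'.1.le, hx'.2⟩
    have hm := hf _ hxa
    have him : ((x:ℂ) + (-Y : ℝ) * I).im = -Y := by simp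
    rw [him, abs_neg, abs_of_pos hY0] at hm
    have := kk_bot (κ := κ) hκ0 (by rw [him]; linarith) hm hF
    rw [him, show x0.im - -Y = Y + x0.im by ring] at this
    exact this
  have hver : Tendsto (fun Y : ℝ => ∫ y in (-Y)..Y, h y) atTop (𝓝 (∫ y, h y)) :=
    intervalIntegral_tendsto_integral hint tendsto_neg_atTop_atBot tendsto_id
  have hlim := (hbot.sub htop).add (hver.const_mul I)
  have hzero : Tendsto (fun Y : ℝ => (∫ x in (-a)..a, kk κ f x0 (x + (-Y : ℝ) * I)) -
      (∫ x in (-a)..a, kk κ f x0 (x + Y * I)) + I * ∫ y in (-Y)..Y, h y) atTop (𝓝 0) := by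
    refine Tendsto.congr' ?_ tendsto_const_nhds
    filter_upwards [eventually_gt_atTop 0] with Y hY
    have h1 := hrect Y hY
    rw [add_sub_assoc, hvert Y hY] at h1
    exact h1.symm
  have key := tendsto_nhds_unique hlim hzero
  have hI : I * (∫ y, h y) = I * (4 * (a:ℂ) * f x0) := by
    push_cast at key
    linear_combination key
  exact mul_left_cancel₀ Complex.I_ne_zero hI

lemma tan_diff {A B : ℂ} (h1 : Complex.cos (A - B) ≠ 0) (h2 : Complex.cos (A + B) ≠ 0) :
    Complex.tan (A - B) - Complex.tan (A + B) =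
      -2 * Complex.sin (2 * B) / (Complex.cos (2 * B) + Complex.cos (2 * A)) := by
  have e1 : Complex.cos (2 * B) + Complex.cos (2 * A) =
      2 * (Complex.cos (A - B) * Complex.cos (A + B)) := by
    rw [show 2 * B = (A + B) - (A - B) by ring, show 2 * A = (A + B) + (A - B) by ring,
      Complex.cos_sub (A + B), Complex.cos_add (A + B)]
    ring
  have e2 : Complex.sin (2 * B) = Complex.sin (A + B) * Complex.cos (A - B) -
      Complex.cos (A + B) * Complex.sin (A - B) := by
    rw [show 2 * B = (A + B) - (A - B) by ring, Complex.sin_sub]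
  rw [e1, e2, Complex.tan_eq_sin_div_cos, Complex.tan_eq_sin_div_cos]
  field_simp
  ring

/-- **The dispersion relation for even real functions.** -/
theorem disp_even {a b C κ : ℝ} (ha : 0 < a) (hb : 0 < b) (hκ : κ = Real.pi / (2 * a))
    {f : ℂ → ℂ} (hc : ContinuousOn f {z : ℂ | |z.re| ≤ a}) {S : Set ℂ} (hS : S.Countable)
    (hd : ∀ z : ℂ, |z.re| < a → z ∉ S → DifferentiableAt ℂ f z) {x0 : ℂ} (hx : |x0.re| < a)
    (hd0 : DifferentiableAt ℂ f x0)
    (hf : ∀ z : ℂ, |z.re| ≤ a → ‖f z‖ ≤ C * Real.exp (-b * |z.im|))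
    (heven : ∀ z : ℂ, |z.re| = a → f (-z) = f z)
    (hreal : ∀ z : ℂ, |z.re| = a → f (starRingEnd ℂ z) = starRingEnd ℂ (f z)) :
    IntegrableOn (fun y : ℝ => ((f (a + y * I)).im : ℂ) * (Complex.sinh (2 * κ * y) /
      (Complex.cosh (2 * κ * y) + Complex.cos (2 * κ * x0)))) (Ioi 0) ∧
    ∫ y in Ioi (0:ℝ), ((f (a + y * I)).im : ℂ) * (Complex.sinh (2 * κ * y) /
      (Complex.cosh (2 * κ * y) + Complex.cos (2 * κ * x0))) = (a:ℂ) * f x0 := by
  obtain ⟨hint, hI⟩ := disp_cot ha hb hκ hc hS hd hx hd0 hf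
  have hpi := Real.pi_pos
  have hκ0 : 0 < κ := by rw [hκ]; positivity
  have hcosne : Real.cos (κ * x0.re) ≠ 0 := by
    apply ne_of_gt
    apply Real.cos_pos_of_mem_Ioo
    have hxx := abs_lt.1 hx
    have e : κ * a = Real.pi / 2 := by rw [hκ]; field_simp
    constructor <;> nlinarith [hxx.1, hxx.2]
  have hcosC : ∀ y : ℝ, Complex.cos (κ * (x0 - y * I)) ≠ 0 := by
    intro y h0
    have := norm_cos_ge (κ * (x0 - y * I) : ℂ)
    have hre : ((κ * (x0 - y * I) : ℂ)).re = κ * x0.re := by simp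
    rw [h0, norm_zero, hre] at this
    have h1 : 0 < |Real.cos (κ * x0.re)| * Real.cosh ((κ * (x0 - y * I) : ℂ)).im :=
      mul_pos (abs_pos.2 hcosne) (Real.cosh_pos _)
    linarith
  set h : ℝ → ℂ := fun y => (f (a + y * I) - f (-a + y * I)) * Complex.tan (κ * (x0 - y * I))
    with hh
  -- the jump
  have hre' : ∀ y : ℝ, |((a:ℂ) + y * I).re| = a := by intro y; simp [abs_of_pos ha]
  have hconj : ∀ y : ℝ, (a:ℂ) + (-y : ℝ) * I = starRingEnd ℂ ((a:ℂ) + y * I) := by
    intro y
    simp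
  have hleft : ∀ y : ℝ, f (-(a:ℂ) + y * I) = starRingEnd ℂ (f (a + y * I)) := by
    intro y
    rw [← hreal _ (hre' y), ← hconj, ← heven _ (hre' (-y))]
    congr 1
    push_cast
    ring
  have hodd : ∀ y : ℝ, (f (a + (-y : ℝ) * I)).im = -(f (a + y * I)).im := by
    intro y
    rw [hconj, hreal _ (hre' y), Complex.conj_im]
  have hval : ∀ y : ℝ, h y = 2 * I * ((f (a + y * I)).im : ℂ) * Complex.tan (κ * (x0 - y * I)) := by
    intro y
    rw [hh]
    simp only
    rw [hleft, Complex.sub_conj]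
    push_cast
    ring
  have hsum : ∀ y : ℝ, h y + h (-y) = 4 * (((f (a + y * I)).im : ℂ) *
      (Complex.sinh (2 * κ * y) / (Complex.cosh (2 * κ * y) + Complex.cos (2 * κ * x0)))) := by
    intro y
    rw [hval, hval, hodd]
    have c1 : Complex.cos (κ * x0 - κ * y * I) ≠ 0 := by
      have := hcosC y
      rwa [mul_sub, ← mul_assoc] at this
    have c2 : Complex.cos (κ * x0 + κ * y * I) ≠ 0 := by
      have := hcosC (-y)
      push_cast at this
      rwa [mul_sub, show (κ:ℂ) * x0 - κ * (-(y:ℂ) * I) = κ * x0 + κ * y * I by ring] at this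
    have t := tan_diff (A := κ * x0) (B := κ * y * I) c1 c2
    have s1 : Complex.sin (2 * (κ * y * I)) = Complex.sinh (2 * κ * y) * I := by
      rw [← Complex.sin_mul_I]; congr 1; ring
    have s2 : Complex.cos (2 * (κ * y * I)) = Complex.cosh (2 * κ * y) := by
      rw [← Complex.cos_mul_I]; congr 1; ring
    rw [s1, s2, show 2 * ((κ:ℂ) * x0) = 2 * κ * x0 by ring] at t
    have e1 : (κ:ℂ) * (x0 - y * I) = κ * x0 - κ * y * I := by ring
    have e2 : (κ:ℂ) * (x0 - (-y : ℝ) * I) = κ * x0 + κ * y * I := by push_cast; ring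
    rw [e1, e2]
    calc 2 * I * ((f (a + y * I)).im : ℂ) * Complex.tan (κ * x0 - κ * y * I) +
          2 * I * ((-(f (a + y * I)).im : ℝ) : ℂ) * Complex.tan (κ * x0 + κ * y * I)
        = 2 * I * ((f (a + y * I)).im : ℂ) *
          (Complex.tan (κ * x0 - κ * y * I) - Complex.tan (κ * x0 + κ * y * I)) := by
          push_cast; ring
      _ = _ := by
          rw [t]
          have : I * I = -1 := Complex.I_mul_I
          linear_combination (-4 * ((f (a + y * I)).im : ℂ) * (Complex.sinh (2 * κ * y) /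
            (Complex.cosh (2 * κ * y) + Complex.cos (2 * κ * x0)))) * this
  -- split the integral
  have hneg : Integrable fun y : ℝ => h (-y) := hint.comp_neg
  have hsplit : ∫ y, h y = ∫ y in Ioi (0:ℝ), (h y + h (-y)) := by
    rw [integral_add hint.integrableOn hneg.integrableOn]
    rw [integral_comp_neg_Ioi 0 h, neg_zero, add_comm]
    rw [← setIntegral_union (Iic_disjoint_Ioi le_rfl) measurableSet_Ioi hint.integrableOn
      hint.integrableOn, Iic_union_Ioi, Measure.restrict_univ]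
  have hfun : (fun y : ℝ => h y + h (-y)) = fun y : ℝ => 4 * (((f (a + y * I)).im : ℂ) *
      (Complex.sinh (2 * κ * y) / (Complex.cosh (2 * κ * y) + Complex.cos (2 * κ * x0)))) := by
    funext y; exact hsum y
  have hintS : IntegrableOn (fun y : ℝ => h y + h (-y)) (Ioi 0) :=
    hint.integrableOn.add hneg.integrableOn
  rw [hfun] at hintS hsplit
  constructor
  · have h5 : IntegrableOn (fun y : ℝ => (1/4 : ℂ) * (4 * (((f (a + y * I)).im : ℂ) *
      (Complex.sinh (2 * κ * y) / (Complex.cosh (2 * κ * y) + Complex.cos (2 * κ * x0))))))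
      (Ioi 0) := hintS.const_mul (1/4 : ℂ)
    refine IntegrableOn.congr_fun h5 ?_ measurableSet_Ioi
    intro y _
    simp only
    ring
  · rw [integral_const_mul] at hsplit
    have h4 : (4:ℂ) * (∫ y in Ioi (0:ℝ), ((f (a + y * I)).im : ℂ) * (Complex.sinh (2 * κ * y) /
      (Complex.cosh (2 * κ * y) + Complex.cos (2 * κ * x0)))) = 4 * ((a:ℂ) * f x0) := by
      rw [← hsplit, hI]; ring
    exact mul_left_cancel₀ (by norm_num) h4

end

end EXS
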