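import Pool.Agent.EXS.WDefs

/-!
# The contraction estimate for the jump kernel
-/

open MeasureTheory Set Filter Topology

namespace EXS.Num

open EXS

theorem T2_re (X : ℝ) : (T2 X).re = X / 2 := rfl

theorem T2_im (X : ℝ) : (T2 X).im = -(√3 / 2) * √(X ^ 2 - 1) := by
  show -(√3 / 2 * √(X ^ 2 - 1)) = _
  ring

/-- `|T_2|` -/
noncomputable def nT (X : ℝ) : ℝ := √(X ^ 2 - 3 / 4)

theorem nT_sq {X : ℝ} (hX : 1 ≤ X) : nT X ^ 2 = X ^ 2 - 3 / 4 :=
  Real.sq_sqrt (by nlinarith)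

theorem nT_pos {X : ℝ} (hX : 1 ≤ X) : 0 < nT X :=
  Real.sqrt_pos.2 (by nlinarith)

theorem nT_le {X : ℝ} (hX : 1 ≤ X) : nT X ≤ X := by
  have h1 := nT_sq hX
  have h2 := nT_pos hX
  nlinarith

theorem le_nT {X : ℝ} (hX : 1 ≤ X) : X ≤ 2 * nT X := by
  have h1 := nT_sq hX
  have h2 := nT_pos hX
  nlinarith

theorem T2_normSq {X : ℝ} (hX : 1 ≤ X) : (T2 X).re ^ 2 + (T2 X).im ^ 2 = nT X ^ 2 := by
  have h1 : √(X ^ 2 - 1) ^ 2 = X ^ 2 - 1 := Real.sq_sqrt (by nlinarith)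
  have h2 : √3 ^ 2 = (3 : ℝ) := Real.sq_sqrt (by norm_num)
  rw [nT_sq hX, T2_re, T2_im, mul_pow, neg_sq, h1, div_pow √3, h2]
  ring

/-- the imaginary part of the kernel -/
theorem ker_im {W : ℂ} {X x : ℝ} (hX : 1 ≤ X) (hx : 0 < x) :
    (W * (-(T2 X) / X) / (x + T2 X)).im =
      (W.re * (x * (√3 / 2 * √(X ^ 2 - 1))) - W.im * (x * X / 2 + nT X ^ 2)) /
        (X * (x ^ 2 + x * X + nT X ^ 2)) := by
  have hn := T2_normSq hX
  have h0 : (0:ℝ) < x ^ 2 + x * X + nT X ^ 2 := by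
    have := nT_pos hX
    positivity
  have h1 : Complex.normSq ((x : ℂ) + T2 X) = x ^ 2 + x * X + nT X ^ 2 := by
    rw [Complex.normSq_apply, ← hn]
    simp only [Complex.add_re, Complex.ofReal_re, Complex.add_im, Complex.ofReal_im, zero_add, T2_re]
    ring
  have h2 : W * (-(T2 X) / X) / (x + T2 X) = (W * (-(T2 X))) / ((x : ℂ) + T2 X) / X := by
    ring
  rw [h2, Complex.div_ofReal_im, Complex.div_im, h1]
  simp only [Complex.add_re, Complex.ofReal_re, Complex.add_im, Complex.ofReal_im, zero_add,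
    Complex.mul_im, Complex.mul_re, Complex.neg_re, Complex.neg_im]
  rw [← hn, T2_re, T2_im]
  rw [← hn, T2_re, T2_im] at h0
  field_simp
  ring

/-- the majorant near `0` -/
noncomputable def G1 (t x : ℝ) : ℝ :=
  1 / 4 * x ^ (-(3 / 4) : ℝ) + (√3 / 2 - 1 / 24) / t * x ^ (1 / 4 : ℝ) -
    (√3 / 3 + 1 / 12) / t ^ 2 * x ^ (5 / 4 : ℝ)

/-- the majorant near infinity -/
noncomputable def G2 (t x : ℝ) : ℝ :=
  (√3 / 2 + 1 / 4) * t * x ^ (-(7 / 4) : ℝ) - (√3 / 3 + 1 / 8) * t ^ 2 * x ^ (-(11 / 4) : ℝ)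

theorem s3_lo : (1.732 : ℝ) < √3 := by
  rw [Real.lt_sqrt (by norm_num)]
  norm_num

theorem s3_hi : √3 < (1.7321 : ℝ) := by
  rw [Real.sqrt_lt' (by norm_num)]
  norm_num

theorem int_rpow {t a : ℝ} (ht : 0 < t) (ha : -1 < a) :
    IntegrableOn (fun x : ℝ => x ^ a) (Ioc 0 t) ∧ ∫ x in Ioc 0 t, x ^ a = t ^ (a + 1) / (a + 1) := by
  constructor
  · rw [← intervalIntegrable_iff_integrableOn_Ioc_of_le ht.le]
    exact intervalIntegral.intervalIntegrable_rpow' ha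
  · rw [← intervalIntegral.integral_of_le ht.le, integral_rpow (Or.inl ha),
      Real.zero_rpow (by linarith), sub_zero]

theorem G1_int {t : ℝ} (ht : 0 < t) : IntegrableOn (G1 t) (Ioc 0 t) ∧ ∫ x in Ioc 0 t, G1 t x =
    t ^ (1 / 4 : ℝ) * (1 + (√3 / 2 - 1 / 24) * (4 / 5) - (√3 / 3 + 1 / 12) * (4 / 9)) := by
  obtain ⟨i1, e1⟩ := int_rpow ht (a := -(3 / 4)) (by norm_num)
  obtain ⟨i2, e2⟩ := int_rpow ht (a := 1 / 4) (by norm_num)
  obtain ⟨i3, e3⟩ := int_rpow ht (a := 5 / 4) (by norm_num)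
  have j1 := i1.const_mul (1 / 4)
  have j2 := i2.const_mul ((√3 / 2 - 1 / 24) / t)
  have j3 := i3.const_mul ((√3 / 3 + 1 / 12) / t ^ 2)
  refine ⟨(j1.add j2).sub j3, ?_⟩
  unfold G1
  have h := integral_sub (j1.add j2) j3
  have h' := integral_add j1 j2
  simp only [Pi.add_apply] at h h'
  rw [h, h', integral_const_mul, integral_const_mul, integral_const_mul, e1, e2, e3]
  have h2 : t ^ ((1 / 4 : ℝ) + 1) = t ^ (1 / 4 : ℝ) * t := by rw [Real.rpow_add_one ht.ne']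
  have h3 : t ^ ((5 / 4 : ℝ) + 1) = t ^ (1 / 4 : ℝ) * t ^ 2 := by
    rw [show ((5 / 4 : ℝ) + 1) = 1 / 4 + 2 by norm_num, Real.rpow_add ht, Real.rpow_two]
  have h1 : t ^ (-(3 / 4 : ℝ) + 1) = t ^ (1 / 4 : ℝ) := by norm_num
  rw [h1, h2, h3]
  field_simp
  ring

theorem G2_int {t : ℝ} (ht : 0 < t) : IntegrableOn (G2 t) (Ioi t) ∧ ∫ x in Ioi t, G2 t x =
    t ^ (1 / 4 : ℝ) * ((√3 / 2 + 1 / 4) * (4 / 3) - (√3 / 3 + 1 / 8) * (4 / 7)) := by
  have i1 := integrableOn_Ioi_rpow_of_lt (a := -(7 / 4)) (by norm_num) ht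
  have i2 := integrableOn_Ioi_rpow_of_lt (a := -(11 / 4)) (by norm_num) ht
  have e1 := integral_Ioi_rpow_of_lt (a := -(7 / 4)) (by norm_num) ht
  have e2 := integral_Ioi_rpow_of_lt (a := -(11 / 4)) (by norm_num) ht
  have j1 := i1.const_mul ((√3 / 2 + 1 / 4) * t)
  have j2 := i2.const_mul ((√3 / 3 + 1 / 8) * t ^ 2)
  refine ⟨j1.sub j2, ?_⟩
  unfold G2
  have h := integral_sub j1 j2
  rw [h, integral_const_mul, integral_const_mul, e1, e2]
  have h1 : t ^ (-(7 / 4 : ℝ) + 1) = t ^ (1 / 4 : ℝ) / t := by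
    rw [show (-(7 / 4 : ℝ) + 1) = 1 / 4 - 1 by norm_num, Real.rpow_sub_one ht.ne']
  have h2 : t ^ (-(11 / 4 : ℝ) + 1) = t ^ (1 / 4 : ℝ) / t ^ 2 := by
    rw [show (-(11 / 4 : ℝ) + 1) = 1 / 4 - 2 by norm_num, Real.rpow_sub ht, Real.rpow_two]
  rw [h1, h2]
  field_simp
  ring

/-- the pointwise kernel bound without the power -/
noncomputable def kb (X x : ℝ) : ℝ :=
  (x * (√3 / 2 * √(X ^ 2 - 1)) + 1 / 4 * (x * X / 2 + nT X ^ 2)) / (x ^ 2 + x * X + nT X ^ 2)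

theorem b_le {X : ℝ} : √3 / 2 * √(X ^ 2 - 1) ≤ √3 / 2 * nT X := by
  refine mul_le_mul_of_nonneg_left (Real.sqrt_le_sqrt (by linarith)) (by positivity)

theorem kb_le1 {X x : ℝ} (hX : 1 ≤ X) (hx : 0 < x) (hxt : x ≤ nT X) :
    kb X x ≤ √3 / 2 * (x / nT X) * (1 - 2 / 3 * (x / nT X)) +
      1 / 4 * (1 - 1 / 6 * (x / nT X) - 1 / 3 * (x / nT X) ^ 2) := by
  set t := nT X with ht
  have ht0 : 0 < t := nT_pos hX
  have hb := b_le (X := X)
  rw [← ht] at hb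
  have htX : t ≤ X := nT_le hX
  set u := x / t with hu
  have hu0 : 0 < u := by positivity
  have hu1 : u ≤ 1 := by rw [hu, div_le_one ht0]; exact hxt
  have hxu : x = u * t := by rw [hu]; field_simp
  have hD : 0 < x ^ 2 + x * X + t ^ 2 := by positivity
  have hs3 : 0 < √3 := by positivity
  unfold kb
  rw [← ht, div_le_iff₀ hD]
  have h1 : x * (√3 / 2 * √(X ^ 2 - 1)) ≤ √3 / 2 * u * (1 - 2 / 3 * u) * (x ^ 2 + x * X + t ^ 2) := by
    have h2 : x * (√3 / 2 * √(X ^ 2 - 1)) ≤ x * (√3 / 2 * t) := mul_le_mul_of_nonneg_left hb hx.le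
    have h3 : u ^ 2 * t ^ 2 + u * t ^ 2 + t ^ 2 ≤ x ^ 2 + x * X + t ^ 2 := by
      rw [hxu]
      nlinarith [mul_le_mul_of_nonneg_left htX (mul_nonneg hu0.le ht0.le)]
    have h4 : 0 ≤ √3 / 2 * u * (1 - 2 / 3 * u) := by
      have : 0 ≤ 1 - 2 / 3 * u := by linarith
      positivity
    have h5 := mul_le_mul_of_nonneg_left h3 h4
    have h6 : x * (√3 / 2 * t) ≤ √3 / 2 * u * (1 - 2 / 3 * u) * (u ^ 2 * t ^ 2 + u * t ^ 2 + t ^ 2) := by
      have h7 : 1 ≤ (1 - 2 / 3 * u) * (u ^ 2 + u + 1) := by nlinarith [mul_nonneg hu0.le (mul_nonneg (sub_nonneg.2 hu1) (by linarith : 0 ≤ 1 + 2 * u))]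
      have h8 : 0 ≤ √3 / 2 * u * t ^ 2 := by positivity
      have h9 := mul_le_mul_of_nonneg_left h7 h8
      rw [hxu]
      nlinarith
    linarith
  have h2 : x * X / 2 + t ^ 2 ≤ (1 - 1 / 6 * u - 1 / 3 * u ^ 2) * (x ^ 2 + x * X + t ^ 2) := by
    have h3 : 1 - 1 / 6 * u - 1 / 3 * u ^ 2 = (1 + u / 2) * (1 - 2 / 3 * u) := by ring
    have hw : 1 ≤ (1 - 2 / 3 * u) * (u ^ 2 + u + 1) := by
      nlinarith [mul_nonneg hu0.le (mul_nonneg (sub_nonneg.2 hu1) (by linarith : 0 ≤ 1 + 2 * u))]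
    -- with r = X / t ≥ 1
    have hr : (x * X / 2 + t ^ 2) * (u ^ 2 + u + 1) ≤ (1 + u / 2) * (x ^ 2 + x * X + t ^ 2) := by
      rw [hxu]
      have h5 : 0 ≤ (X - t) * (t * u * (1 - u ^ 2)) := by
        have : 0 ≤ 1 - u ^ 2 := by nlinarith
        have := sub_nonneg.2 htX
        positivity
      nlinarith
    have hA : 0 ≤ x * X / 2 + t ^ 2 := by positivity
    have h6 : 0 ≤ 1 - 2 / 3 * u := by linarith
    calc x * X / 2 + t ^ 2 ≤ (x * X / 2 + t ^ 2) * ((1 - 2 / 3 * u) * (u ^ 2 + u + 1)) := by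
          nlinarith
      _ = (1 - 2 / 3 * u) * ((x * X / 2 + t ^ 2) * (u ^ 2 + u + 1)) := by ring
      _ ≤ (1 - 2 / 3 * u) * ((1 + u / 2) * (x ^ 2 + x * X + t ^ 2)) :=
          mul_le_mul_of_nonneg_left hr h6
      _ = _ := by ring
  nlinarith

theorem kb_le2 {X x : ℝ} (hX : 1 ≤ X) (hxt : nT X < x) :
    kb X x ≤ √3 / 2 * (nT X / x) * (1 - 2 / 3 * (nT X / x)) +
      1 / 4 * (nT X / x - 1 / 2 * (nT X / x) ^ 2) := by
  set t := nT X with ht
  have ht0 : 0 < t := nT_pos hX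
  have hx : 0 < x := ht0.trans hxt
  have hb := b_le (X := X)
  rw [← ht] at hb
  have htX : t ≤ X := nT_le hX
  have hXt : X ≤ 2 * t := le_nT hX
  set v := t / x with hv
  have hv0 : 0 < v := by positivity
  have hv1 : v ≤ 1 := by rw [hv, div_le_one hx]; exact hxt.le
  have htv : t = v * x := by rw [hv]; field_simp
  have hD : 0 < x ^ 2 + x * X + t ^ 2 := by positivity
  have hs3 : 0 < √3 := by positivity
  unfold kb
  rw [← ht, div_le_iff₀ hD]
  have h1 : x * (√3 / 2 * √(X ^ 2 - 1)) ≤ √3 / 2 * v * (1 - 2 / 3 * v) * (x ^ 2 + x * X + t ^ 2) := by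
    have h2 : x * (√3 / 2 * √(X ^ 2 - 1)) ≤ x * (√3 / 2 * t) := mul_le_mul_of_nonneg_left hb hx.le
    have h3 : x ^ 2 + v * x ^ 2 + v ^ 2 * x ^ 2 ≤ x ^ 2 + x * X + t ^ 2 := by
      have : v * x ≤ X := by rw [← htv]; exact htX
      have := mul_le_mul_of_nonneg_left this hx.le
      rw [htv]
      nlinarith
    have h4 : 0 ≤ √3 / 2 * v * (1 - 2 / 3 * v) := by
      have : 0 ≤ 1 - 2 / 3 * v := by linarith
      positivity
    have h5 := mul_le_mul_of_nonneg_left h3 h4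
    have h6 : x * (√3 / 2 * t) ≤ √3 / 2 * v * (1 - 2 / 3 * v) * (x ^ 2 + v * x ^ 2 + v ^ 2 * x ^ 2) := by
      have h7 : 1 ≤ (1 - 2 / 3 * v) * (v ^ 2 + v + 1) := by nlinarith [mul_nonneg hv0.le (mul_nonneg (sub_nonneg.2 hv1) (by linarith : 0 ≤ 1 + 2 * v))]
      have h8 : 0 ≤ √3 / 2 * v * x ^ 2 := by positivity
      have h9 := mul_le_mul_of_nonneg_left h7 h8
      rw [htv]
      nlinarith
    linarith
  have h2 : x * X / 2 + t ^ 2 ≤ (v - 1 / 2 * v ^ 2) * (x ^ 2 + x * X + t ^ 2) := by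
    have hw : 1 ≤ (1 - 1 / 2 * v) * (1 + v) := by nlinarith
    have hr : (x * X / 2 + t ^ 2) * (1 + v) ≤ v * (x ^ 2 + x * X + t ^ 2) := by
      have h5 : 0 ≤ (2 * t - X) * (x * (1 - v)) := by
        have := sub_nonneg.2 hXt
        have := sub_nonneg.2 hv1
        positivity
      have e : v * x = t := htv.symm
      have h6 : (x * X / 2 + t ^ 2) * (1 + v) = x * X / 2 + t ^ 2 + X * t / 2 + t ^ 2 * v := by
        rw [← e]; ring
      have h7 : v * (x ^ 2 + x * X + t ^ 2) = t * x + t * X + t ^ 2 * v := by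
        rw [← e]; ring
      have h8 : (2 * t - X) * (x * (1 - v)) = 2 * t * x - 2 * t ^ 2 - X * x + X * t := by
        rw [← e]; ring
      rw [h6, h7]
      linarith
    have hA : 0 ≤ x * X / 2 + t ^ 2 := by positivity
    have h6 : 0 ≤ 1 - 1 / 2 * v := by linarith
    calc x * X / 2 + t ^ 2 ≤ (x * X / 2 + t ^ 2) * ((1 - 1 / 2 * v) * (1 + v)) := by
          nlinarith
      _ = (1 - 1 / 2 * v) * ((x * X / 2 + t ^ 2) * (1 + v)) := by ring
      _ ≤ (1 - 1 / 2 * v) * (v * (x ^ 2 + x * X + t ^ 2)) :=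
          mul_le_mul_of_nonneg_left hr h6
      _ = _ := by ring
  nlinarith

/-- the majorant -/
noncomputable def G (t x : ℝ) : ℝ := if x ≤ t then G1 t x else G2 t x

theorem kb_nonneg {X x : ℝ} (hX : 1 ≤ X) (hx : 0 < x) : 0 ≤ kb X x := by
  have := nT_pos hX
  unfold kb
  positivity

theorem kb_G {X x : ℝ} (hX : 1 ≤ X) (hx : 0 < x) :
    x ^ (-(3 / 4) : ℝ) * kb X x ≤ G (nT X) x := by
  have ht := nT_pos hX
  have hp : 0 ≤ x ^ (-(3 / 4) : ℝ) := Real.rpow_nonneg hx.le _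
  unfold G
  split_ifs with h
  · refine (mul_le_mul_of_nonneg_left (kb_le1 hX hx h) hp).trans (le_of_eq ?_)
    have h1 : x ^ (1 / 4 : ℝ) = x ^ (-(3 / 4) : ℝ) * x := by
      rw [← Real.rpow_add_one hx.ne']
      norm_num
    have h2 : x ^ (5 / 4 : ℝ) = x ^ (-(3 / 4) : ℝ) * x ^ 2 := by
      rw [← Real.rpow_two, ← Real.rpow_add hx]
      norm_num
    unfold G1
    rw [h1, h2]
    field_simp
    ring
  · have h' : nT X < x := not_le.1 h
    refine (mul_le_mul_of_nonneg_left (kb_le2 hX h') hp).trans (le_of_eq ?_)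
    have h1 : x ^ (-(7 / 4) : ℝ) = x ^ (-(3 / 4) : ℝ) / x := by
      rw [← Real.rpow_sub_one hx.ne']
      norm_num
    have h2 : x ^ (-(11 / 4) : ℝ) = x ^ (-(3 / 4) : ℝ) / x ^ 2 := by
      rw [← Real.rpow_two, ← Real.rpow_sub hx]
      norm_num
    unfold G2
    rw [h1, h2]
    field_simp
    ring

theorem G_nonneg {X x : ℝ} (hX : 1 ≤ X) (hx : 0 < x) : 0 ≤ G (nT X) x :=
  (mul_nonneg (Real.rpow_nonneg hx.le _) (kb_nonneg hX hx)).trans (kb_G hX hx)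

theorem G_int {t : ℝ} (ht : 0 < t) : IntegrableOn (G t) (Ioi 0) ∧
    ∫ x in Ioi 0, G t x ≤ 2.46 * t ^ (1 / 4 : ℝ) := by
  obtain ⟨i1, e1⟩ := G1_int ht
  obtain ⟨i2, e2⟩ := G2_int ht
  have c1 : EqOn (G1 t) (G t) (Ioc 0 t) := fun x hx => by
    unfold G
    rw [if_pos hx.2]
  have c2 : EqOn (G2 t) (G t) (Ioi t) := fun x hx => by
    unfold G
    rw [if_neg (not_le.2 hx)]
  have j1 : IntegrableOn (G t) (Ioc 0 t) := (integrableOn_congr_fun c1 measurableSet_Ioc).1 i1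
  have j2 : IntegrableOn (G t) (Ioi t) := (integrableOn_congr_fun c2 measurableSet_Ioi).1 i2
  have hd : Disjoint (Ioc 0 t) (Ioi t) := by
    rw [Set.disjoint_left]
    intro x hx hx'
    exact absurd hx.2 (not_le.2 hx')
  rw [← Ioc_union_Ioi_eq_Ioi ht.le]
  refine ⟨j1.union j2, ?_⟩
  rw [setIntegral_union hd measurableSet_Ioi j1 j2, ← setIntegral_congr_fun measurableSet_Ioc c1,
    ← setIntegral_congr_fun measurableSet_Ioi c2, e1, e2]
  have hp : 0 ≤ t ^ (1 / 4 : ℝ) := Real.rpow_nonneg ht.le _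
  have := s3_hi
  nlinarith

theorem nonneg_of_bound {f : ℝ → ℝ} {M : ℝ}
    (hM : ∀ x, 1 < x → |f x| ≤ M * x ^ (-(3 / 4) : ℝ)) : 0 ≤ M := by
  have h := (abs_nonneg _).trans (hM 2 (by norm_num))
  exact nonneg_of_mul_nonneg_left h (Real.rpow_pos_of_pos (by norm_num) _)

/-- integrability of the Cauchy kernel against a function bounded by `x ^ (-3/4)` -/
theorem intg {X : ℝ} (hX : 1 ≤ X) {f : ℝ → ℝ} {M : ℝ}
    (hf : AEStronglyMeasurable f (volume.restrict (Ioi 1)))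
    (hM : ∀ x, 1 < x → |f x| ≤ M * x ^ (-(3 / 4) : ℝ)) :
    IntegrableOn (fun x : ℝ => (f x : ℂ) / (x + T2 X)) (Ioi 1) := by
  have h1 := (integrableOn_Ioi_rpow_of_lt (a := -(7 / 4)) (by norm_num) (zero_lt_one' ℝ)).const_mul M
  refine Integrable.mono' h1 ?_ ?_
  · refine (Complex.continuous_ofReal.comp_aestronglyMeasurable hf).mul ?_
    refine ContinuousOn.aestronglyMeasurable ?_ measurableSet_Ioi
    refine ContinuousOn.inv₀ (by fun_prop) ?_
    intro x hx h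
    have h' := congrArg Complex.re h
    rw [Complex.add_re, Complex.ofReal_re, T2_re, Complex.zero_re] at h'
    have : (1:ℝ) < x := hx
    linarith
  · refine (ae_restrict_iff' measurableSet_Ioi).2 (Filter.Eventually.of_forall fun x hx => ?_)
    have hx1 : (1:ℝ) < x := hx
    have hx0 : (0:ℝ) < x := by linarith
    have hn : x ≤ ‖(x : ℂ) + T2 X‖ := by
      refine le_trans ?_ (Complex.abs_re_le_norm _)
      rw [Complex.add_re, Complex.ofReal_re, T2_re]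
      refine le_trans ?_ (le_abs_self _)
      linarith
    rw [norm_div, Complex.norm_real, Real.norm_eq_abs]
    calc |f x| / ‖(x : ℂ) + T2 X‖ ≤ |f x| / x := by gcongr
      _ ≤ M * x ^ (-(3 / 4) : ℝ) / x := by
          gcongr
          exact hM x hx1
      _ = M * x ^ (-(7 / 4) : ℝ) := by
          rw [mul_div_assoc, ← Real.rpow_sub_one hx0.ne']
          norm_num

/-- **the contraction estimate** -/
theorem contr {W : ℂ} (hW : |W.re| ≤ 1) (hI : |W.im| ≤ 1 / 4) {X : ℝ} (hX : 1 ≤ X) {f : ℝ → ℝ}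
    {M : ℝ} (hf : AEStronglyMeasurable f (volume.restrict (Ioi 1)))
    (hM : ∀ x, 1 < x → |f x| ≤ M * x ^ (-(3 / 4) : ℝ)) :
    |(W * (-(T2 X) / X) * (((1 / Real.pi : ℝ) : ℂ) *
      ∫ x in Ioi (1:ℝ), (f x : ℂ) / (x + T2 X))).im| ≤ 4 / 5 * M * X ^ (-(3 / 4) : ℝ) := by
  have hM0 := nonneg_of_bound hM
  have hi := intg hX hf hM
  have hX0 : 0 < X := by linarith
  have hi2 := hi.const_mul (W * (-(T2 X) / X))
  have h1 : (W * (-(T2 X) / X) * (((1 / Real.pi : ℝ) : ℂ) *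
      ∫ x in Ioi (1:ℝ), (f x : ℂ) / (x + T2 X))).im =
      1 / Real.pi * ∫ x in Ioi (1:ℝ), (W * (-(T2 X) / X) * ((f x : ℂ) / (x + T2 X))).im := by
    have h2 := integral_im (𝕜 := ℂ) hi2
    simp only [RCLike.im_eq_complex_im] at h2
    rw [h2, integral_const_mul]
    rw [mul_left_comm, Complex.im_ofReal_mul]
  have hker : ∀ x : ℝ, 1 < x → |(W * (-(T2 X) / X) * ((f x : ℂ) / (x + T2 X))).im| ≤
      M / X * G (nT X) x := by
    intro x hx
    have hx0 : 0 < x := by linarith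
    have e : W * (-(T2 X) / X) * ((f x : ℂ) / (x + T2 X)) =
        ((f x : ℝ) : ℂ) * (W * (-(T2 X) / X) / (x + T2 X)) := by ring
    rw [e, Complex.im_ofReal_mul, abs_mul, ker_im hX hx0]
    have hD : 0 < x ^ 2 + x * X + nT X ^ 2 := by
      have := nT_pos hX
      positivity
    have hb : 0 ≤ x * (√3 / 2 * √(X ^ 2 - 1)) := by positivity
    have hc : 0 ≤ x * X / 2 + nT X ^ 2 := by positivity
    have h2 : |(W.re * (x * (√3 / 2 * √(X ^ 2 - 1))) - W.im * (x * X / 2 + nT X ^ 2)) /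
        (X * (x ^ 2 + x * X + nT X ^ 2))| ≤ kb X x / X := by
      unfold kb
      rw [abs_div, abs_of_pos (by positivity : 0 < X * (x ^ 2 + x * X + nT X ^ 2)), div_div,
        mul_comm (x ^ 2 + x * X + nT X ^ 2) X]
      refine div_le_div_of_nonneg_right ?_ (by positivity)
      refine (abs_sub _ _).trans ?_
      rw [abs_mul W.re, abs_mul W.im, abs_of_nonneg hb, abs_of_nonneg hc]
      nlinarith [mul_le_mul_of_nonneg_right hW hb, mul_le_mul_of_nonneg_right hI hc]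
    have h3 := mul_le_mul (hM x hx) h2 (abs_nonneg _) (mul_nonneg hM0 (Real.rpow_nonneg hx0.le _))
    refine h3.trans ?_
    have h4 := mul_le_mul_of_nonneg_left (kb_G hX hx0) (div_nonneg hM0 hX0.le)
    refine le_trans (le_of_eq ?_) h4
    ring
  obtain ⟨gi, ge⟩ := G_int (nT_pos hX)
  have gi1 : IntegrableOn (fun x => M / X * G (nT X) x) (Ioi 1) :=
    (gi.mono_set (Ioi_subset_Ioi zero_le_one)).const_mul _
  have h4 : |∫ x in Ioi (1:ℝ), (W * (-(T2 X) / X) * ((f x : ℂ) / (x + T2 X))).im| ≤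
      ∫ x in Ioi (1:ℝ), M / X * G (nT X) x := by
    rw [← Real.norm_eq_abs]
    refine norm_integral_le_of_norm_le gi1 ?_
    refine (ae_restrict_iff' measurableSet_Ioi).2 (Filter.Eventually.of_forall fun x hx => ?_)
    rw [Real.norm_eq_abs]
    exact hker x hx
  have h5 : ∫ x in Ioi (1:ℝ), M / X * G (nT X) x ≤ M / X * (2.46 * nT X ^ (1 / 4 : ℝ)) := by
    rw [integral_const_mul]
    refine mul_le_mul_of_nonneg_left (le_trans ?_ ge) (div_nonneg hM0 hX0.le)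
    refine setIntegral_mono_set gi ?_ (Ioi_subset_Ioi zero_le_one).eventuallyLE
    exact (ae_restrict_iff' measurableSet_Ioi).2
      (Filter.Eventually.of_forall fun x hx => G_nonneg hX hx)
  have h6 : nT X ^ (1 / 4 : ℝ) ≤ X ^ (1 / 4 : ℝ) :=
    Real.rpow_le_rpow (nT_pos hX).le (nT_le hX) (by norm_num)
  have h7 : X ^ (1 / 4 : ℝ) / X = X ^ (-(3 / 4) : ℝ) := by
    rw [← Real.rpow_sub_one hX0.ne']
    norm_num
  rw [h1, abs_mul, abs_of_pos (by positivity : 0 < 1 / Real.pi)]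
  have hpi := Real.pi_gt_d2
  have h8 : 1 / Real.pi ≤ 1 / 3.14 := one_div_le_one_div_of_le (by norm_num) hpi.le
  calc 1 / Real.pi * |∫ x in Ioi (1:ℝ), (W * (-(T2 X) / X) * ((f x : ℂ) / (x + T2 X))).im|
      ≤ 1 / 3.14 * (M / X * (2.46 * X ^ (1 / 4 : ℝ))) := by
        refine mul_le_mul h8 ((h4.trans h5).trans ?_) (abs_nonneg _) (by norm_num)
        gcongr
    _ = (2.46 / 3.14) * M * (X ^ (1 / 4 : ℝ) / X) := by ring
    _ ≤ 4 / 5 * M * X ^ (-(3 / 4) : ℝ) := by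
        rw [h7]
        have h9 : 0 ≤ X ^ (-(3 / 4) : ℝ) := Real.rpow_nonneg hX0.le _
        exact mul_le_mul_of_nonneg_right (mul_le_mul_of_nonneg_right (by norm_num) hM0) h9

end EXS.Num
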