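import Mathlib

/-! Limit of a product of `N` factors `1 + a/N + o(1/N)` (module S6). -/

open Filter Topology

namespace EXS

/-- Triangular arrays: if `N a_{N,k} → A` uniformly in `k`, then `∏ (1 + a_{N,k}) → exp A`. -/
theorem prod_tendsto_exp {a : ∀ N : ℕ, Fin N → ℂ} {A : ℂ}
    (h : ∀ ε > 0, ∀ᶠ N : ℕ in atTop, ∀ k : Fin N, ‖(N : ℂ) * a N k - A‖ ≤ ε) :
    Tendsto (fun N => ∏ k : Fin N, (1 + a N k)) atTop (𝓝 (Complex.exp A)) := by
  -- the sum of logarithms converges to `A`
  have key : Tendsto (fun N => ∑ k : Fin N, Complex.log (1 + a N k)) atTop (𝓝 A) := by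
    rw [Metric.tendsto_atTop']
    intro ε hε
    set B : ℝ := ‖A‖ + 1 with hB
    have hB0 : 0 < B := by positivity
    have e1 := h (min 1 (ε / 2)) (by positivity)
    have e2 : ∀ᶠ N : ℕ in atTop, 2 * B ^ 2 / ε + 2 * B + 1 < (N : ℝ) :=
      (tendsto_natCast_atTop_atTop (R := ℝ)).eventually_gt_atTop _
    obtain ⟨N0, hN0⟩ := (e1.and e2).exists_forall_of_atTop
    refine ⟨N0, fun N hN => ?_⟩
    obtain ⟨h1, h2⟩ := hN0 N hN.le
    have hNpos : (0 : ℝ) < N := by
      have : 0 < 2 * B ^ 2 / ε := by positivity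
      linarith
    have hNne : (N : ℂ) ≠ 0 := by
      exact_mod_cast hNpos.ne'
    -- each `a` is small
    have h3 : ∀ k : Fin N, ‖a N k‖ ≤ B / N := by
      intro k
      rw [le_div_iff₀ hNpos]
      have : ‖(N : ℂ) * a N k‖ ≤ B := by
        calc ‖(N : ℂ) * a N k‖ = ‖((N : ℂ) * a N k - A) + A‖ := by ring_nf
          _ ≤ ‖(N : ℂ) * a N k - A‖ + ‖A‖ := norm_add_le _ _
          _ ≤ 1 + ‖A‖ := by linarith [h1 k, min_le_left 1 (ε / 2)]
          _ = B := by rw [hB]; ring
      rw [norm_mul, Complex.norm_natCast] at this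
      linarith
    have hBN : B / N ≤ 1 / 2 := by
      rw [div_le_iff₀ hNpos]
      have : 0 < 2 * B ^ 2 / ε := by positivity
      linarith
    have h4 : ∀ k : Fin N, ‖Complex.log (1 + a N k) - a N k‖ ≤ (B / N) ^ 2 := by
      intro k
      have hk1 : ‖a N k‖ ≤ 1 / 2 := (h3 k).trans hBN
      have := Complex.norm_log_one_add_sub_self_le (z := a N k) (by linarith)
      have h5 : (1 - ‖a N k‖)⁻¹ ≤ 2 := by
        rw [inv_le_comm₀ (by linarith) (by norm_num)]
        linarith
      calc ‖Complex.log (1 + a N k) - a N k‖ ≤ ‖a N k‖ ^ 2 * (1 - ‖a N k‖)⁻¹ / 2 := this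
        _ ≤ ‖a N k‖ ^ 2 * 2 / 2 := by gcongr
        _ = ‖a N k‖ ^ 2 := by ring
        _ ≤ (B / N) ^ 2 := by
          exact pow_le_pow_left₀ (norm_nonneg _) (h3 k) 2
    have h6 : ∀ k : Fin N, ‖Complex.log (1 + a N k) - A / N‖ ≤ (B / N) ^ 2 + ε / 2 / N := by
      intro k
      have h7 : ‖a N k - A / N‖ ≤ ε / 2 / N := by
        rw [le_div_iff₀ hNpos]
        have h8 : ‖a N k - A / N‖ * N = ‖(N : ℂ) * a N k - A‖ := by
          rw [← Complex.norm_natCast N, ← norm_mul]
          congr 1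
          field_simp
        rw [h8]
        exact (h1 k).trans (min_le_right _ _)
      calc ‖Complex.log (1 + a N k) - A / N‖
          = ‖(Complex.log (1 + a N k) - a N k) + (a N k - A / N)‖ := by ring_nf
        _ ≤ _ := (norm_add_le _ _).trans (add_le_add (h4 k) h7)
    have h9 : ∑ k : Fin N, Complex.log (1 + a N k) - A
        = ∑ k : Fin N, (Complex.log (1 + a N k) - A / N) := by
      rw [Finset.sum_sub_distrib, Finset.sum_const, Finset.card_univ, Fintype.card_fin,
        nsmul_eq_mul, mul_div_cancel₀ _ hNne]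
    rw [dist_eq_norm, h9]
    calc ‖∑ k : Fin N, (Complex.log (1 + a N k) - A / N)‖
        ≤ ∑ k : Fin N, ((B / N) ^ 2 + ε / 2 / N) :=
          (norm_sum_le _ _).trans (Finset.sum_le_sum fun k _ => h6 k)
      _ = B ^ 2 / N + ε / 2 := by
        rw [Finset.sum_const, Finset.card_univ, Fintype.card_fin, nsmul_eq_mul]
        field_simp
      _ < ε := by
        have : B ^ 2 / N < ε / 2 := by
          rw [div_lt_iff₀ hNpos]
          have h10 : 2 * B ^ 2 / ε < N := by linarith
          rw [div_lt_iff₀ hε] at h10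
          linarith
        linarith
  have e3 : ∀ᶠ N : ℕ in atTop, ∏ k : Fin N, (1 + a N k)
      = Complex.exp (∑ k : Fin N, Complex.log (1 + a N k)) := by
    have e1 := h 1 one_pos
    have e2 : ∀ᶠ N : ℕ in atTop, 2 * (‖A‖ + 1) < (N : ℝ) :=
      (tendsto_natCast_atTop_atTop (R := ℝ)).eventually_gt_atTop _
    filter_upwards [e1, e2] with N h1 h2
    rw [Complex.exp_sum]
    refine Finset.prod_congr rfl fun k _ => ?_
    have hNpos : (0 : ℝ) < N := by
      have : 0 ≤ ‖A‖ := norm_nonneg _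
      linarith
    have h3 : ‖a N k‖ < 1 := by
      have h4 : ‖(N : ℂ) * a N k‖ ≤ ‖A‖ + 1 := by
        calc ‖(N : ℂ) * a N k‖ = ‖((N : ℂ) * a N k - A) + A‖ := by ring_nf
          _ ≤ ‖(N : ℂ) * a N k - A‖ + ‖A‖ := norm_add_le _ _
          _ ≤ ‖A‖ + 1 := by linarith [h1 k]
      rw [norm_mul, Complex.norm_natCast] at h4
      by_contra hc
      push Not at hc
      nlinarith [norm_nonneg A]
    rw [Complex.exp_log]
    intro h5
    have h6 : a N k = -1 := by linear_combination h5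
    rw [h6, norm_neg, norm_one] at h3
    exact lt_irrefl _ h3
  exact ((Complex.continuous_exp.tendsto A).comp key).congr' (e3.mono fun N hN => hN.symm)

end EXS
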