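import Pool.Agent.EXS.WDefs

/-! SHARP S3, part A: rational functions of `C = cos (w/4)` -/

set_option autoImplicit false

open Real

namespace EXS.S3

noncomputable section

/-- `c` as a polynomial in `C` -/
def cP (C : ℂ) : ℂ := 4 * C ^ 3 - 3 * C

/-- `T` as a polynomial in `C` -/
def tP (C : ℂ) : ℂ := 8 * C ^ 4 - 8 * C ^ 2 + 1

/-- `(c - c_k) / (T - T_k)` -/
def gR (k : ℝ) (C : ℂ) : ℂ := (C ^ 2 + C * k + k ^ 2 - 3 / 4) / (2 * (C + k) * (C ^ 2 + k ^ 2 - 1))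

/-- `(T - T_k) / ((c - c_k) (c - c_κ))` -/
def gA (k κ : ℝ) (C : ℂ) : ℂ := 2 * (C + k) * (C ^ 2 + k ^ 2 - 1) /
  ((C ^ 2 + C * k + k ^ 2 - 3 / 4) * (4 * (C - κ) * (C ^ 2 + C * κ + κ ^ 2 - 3 / 4)))

/-- the region -/
def DD : Set ℂ := {C | √2 / 2 ≤ C.re}

lemma sqrt2_half : (√2 / 2) ^ 2 = (1 / 2 : ℝ) := by
  rw [div_pow, Real.sq_sqrt (by norm_num)]; norm_num

lemma sqrt2_half_pos : (0 : ℝ) < √2 / 2 := by positivity

lemma sqrt2_half_gt : (7 / 10 : ℝ) < √2 / 2 := by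
  have := sqrt2_half
  have := sqrt2_half_pos
  nlinarith

lemma nz1 {C : ℂ} (hC : C ∈ DD) {k : ℝ} (hk : 0 ≤ k) : C + (k : ℂ) ≠ 0 := by
  intro h
  have h1 := congrArg Complex.re h
  simp at h1
  have h2 : √2 / 2 ≤ C.re := hC
  have := sqrt2_half_pos
  linarith

lemma nz0 {C : ℂ} (hC : C ∈ DD) : C ≠ 0 := by
  have := nz1 hC (k := 0) le_rfl
  simpa using this

lemma nz4 {C : ℂ} (hC : C ∈ DD) {k : ℝ} (hk : k < √2 / 2) : C - (k : ℂ) ≠ 0 := by
  intro h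
  have h1 := congrArg Complex.re h
  simp at h1
  have h2 : √2 / 2 ≤ C.re := hC
  linarith

lemma nz2 {C : ℂ} (hC : C ∈ DD) {k : ℝ} (hk : √2 / 2 < k) : C ^ 2 + (k : ℂ) ^ 2 - 1 ≠ 0 := by
  intro h
  have h1 := congrArg Complex.re h
  have h2 := congrArg Complex.im h
  have h3 : √2 / 2 ≤ C.re := hC
  simp [pow_two] at h1 h2
  have h4 : C.im = 0 := by
    have h5 : C.re * C.im = 0 := by linarith
    rcases mul_eq_zero.1 h5 with h6 | h6
    · have := sqrt2_half_pos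
      linarith
    · exact h6
  rw [h4] at h1
  have h5 := sqrt2_half
  have h6 := sqrt2_half_pos
  nlinarith

lemma nz3 {C : ℂ} (hC : C ∈ DD) {k : ℝ} (hk : 1 / 2 ≤ k) : C ^ 2 + C * k + (k : ℂ) ^ 2 - 3 / 4 ≠ 0 := by
  intro h
  have h1 := congrArg Complex.re h
  have h2 := congrArg Complex.im h
  have h3 : √2 / 2 ≤ C.re := hC
  have e1 : ((3 : ℂ) / 4).re = 3 / 4 := by
    rw [show (3 : ℂ) / 4 = ((3 / 4 : ℝ) : ℂ) by push_cast; ring, Complex.ofReal_re]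
  have e2 : ((3 : ℂ) / 4).im = 0 := by
    rw [show (3 : ℂ) / 4 = ((3 / 4 : ℝ) : ℂ) by push_cast; ring, Complex.ofReal_im]
  simp [pow_two, e1, e2] at h1 h2
  have h6 := sqrt2_half_gt
  have h4 : C.im = 0 := by
    have h5 : C.im * (2 * C.re + k) = 0 := by linarith
    rcases mul_eq_zero.1 h5 with h6 | h6
    · exact h6
    · linarith
  rw [h4] at h1
  nlinarith

lemma cP_sub (C : ℂ) (k : ℝ) : cP C - cP k = 4 * (C - k) * (C ^ 2 + C * k + k ^ 2 - 3 / 4) := by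
  unfold cP; ring

lemma tP_sub (C : ℂ) (k : ℝ) : tP C - tP k = 8 * (C - k) * (C + k) * (C ^ 2 + k ^ 2 - 1) := by
  unfold tP; ring

lemma gR_mul {C : ℂ} (hC : C ∈ DD) {k : ℝ} (hk : √2 / 2 < k) :
    gR k C * (tP C - tP k) = cP C - cP k := by
  have h1 := nz1 hC (k := k) (by linarith [sqrt2_half_pos])
  have h2 := nz2 hC hk
  rw [cP_sub, tP_sub, gR]
  field_simp
  ring

lemma gA_mul {C : ℂ} (hC : C ∈ DD) {k κ : ℝ} (hk : 1 / 2 ≤ k) (hκ : 1 / 2 ≤ κ) (hκ' : κ < √2 / 2) :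
    gA k κ C * ((cP C - cP k) * (cP C - cP κ)) = tP C - tP k := by
  have h1 := nz3 hC hk
  have h2 := nz3 hC hκ
  have h3 := nz4 hC hκ'
  rw [cP_sub, cP_sub, tP_sub, gA, div_mul_eq_mul_div, div_eq_iff (mul_ne_zero h1
    (mul_ne_zero (mul_ne_zero (by norm_num) h3) h2))]
  ring

lemma gR_diff {C : ℂ} (hC : C ∈ DD) {k : ℝ} (hk : √2 / 2 < k) : DifferentiableAt ℂ (gR k) C := by
  have h1 := nz1 hC (k := k) (by linarith [sqrt2_half_pos])
  have h2 := nz2 hC hk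
  unfold gR
  refine DifferentiableAt.div (by fun_prop) (by fun_prop) ?_
  exact mul_ne_zero (mul_ne_zero two_ne_zero h1) h2

lemma gA_diff {C : ℂ} (hC : C ∈ DD) {k κ : ℝ} (hk : 1 / 2 ≤ k) (hκ : 1 / 2 ≤ κ) (hκ' : κ < √2 / 2) :
    DifferentiableAt ℂ (gA k κ) C := by
  have h1 := nz3 hC hk
  have h2 := nz3 hC hκ
  have h3 := nz4 hC hκ'
  unfold gA
  refine DifferentiableAt.div (by fun_prop) (by fun_prop) ?_
  exact mul_ne_zero h1 (mul_ne_zero (mul_ne_zero (by norm_num) h3) h2)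

lemma gR_conj (k : ℝ) (C : ℂ) : gR k (starRingEnd ℂ C) = starRingEnd ℂ (gR k C) := by
  unfold gR
  simp [map_div₀, map_ofNat]

lemma gA_conj (k κ : ℝ) (C : ℂ) : gA k κ (starRingEnd ℂ C) = starRingEnd ℂ (gA k κ C) := by
  unfold gA
  simp [map_div₀, map_ofNat]

/-- `C = cos (w/4)` lies in the region -/
lemma cos_mem_DD {w : ℂ} (hw : |w.re| ≤ π) : Complex.cos (w / 4) ∈ DD := by
  have h1 : (Complex.cos (w / 4)).re = cos (w.re / 4) * cosh (w.im / 4) := by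
    have e1 : (w / 4).re = w.re / 4 := by
      rw [show w / 4 = w / ((4 : ℝ) : ℂ) by push_cast; ring, Complex.div_ofReal_re]
    have e2 : (w / 4).im = w.im / 4 := by
      rw [show w / 4 = w / ((4 : ℝ) : ℂ) by push_cast; ring, Complex.div_ofReal_im]
    have e3 : Complex.cos (w / 4) = ((cos (w.re / 4) * cosh (w.im / 4) : ℝ) : ℂ) -
        ((sin (w.re / 4) * sinh (w.im / 4) : ℝ) : ℂ) * Complex.I := by
      rw [Complex.cos_eq, e1, e2]
      push_cast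
      ring
    rw [e3, Complex.sub_re, Complex.re_ofReal_mul, Complex.I_re, Complex.ofReal_re]
    ring
  show √2 / 2 ≤ (Complex.cos (w / 4)).re
  rw [h1]
  have h2 : √2 / 2 ≤ cos (w.re / 4) := by
    rw [← Real.cos_pi_div_four, ← Real.cos_abs (w.re / 4)]
    apply Real.cos_le_cos_of_nonneg_of_le_pi (abs_nonneg _) (by linarith [Real.pi_pos])
    rw [abs_div, abs_of_pos (by norm_num : (0:ℝ) < 4)]
    linarith
  have h3 := Real.one_le_cosh (w.im / 4)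
  have h4 := sqrt2_half_pos
  nlinarith

lemma cos_three_quarter (w : ℂ) : Complex.cos (3 * w / 4) = cP (Complex.cos (w / 4)) := by
  unfold cP
  rw [show 3 * w / 4 = 3 * (w / 4) by ring, Complex.cos_three_mul]

lemma cos_eq_tP (w : ℂ) : Complex.cos w = tP (Complex.cos (w / 4)) := by
  unfold tP
  have h1 : Complex.cos w = 2 * Complex.cos (w / 2) ^ 2 - 1 := by
    rw [← Complex.cos_two_mul]; congr 1; ring
  have h2 : Complex.cos (w / 2) = 2 * Complex.cos (w / 4) ^ 2 - 1 := by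
    rw [← Complex.cos_two_mul]; congr 1; ring
  rw [h1, h2]; ring

lemma cP_cos (y : ℝ) : cP (cos y : ℝ) = (cos (3 * y) : ℝ) := by
  unfold cP
  rw [Real.cos_three_mul]; push_cast; ring

lemma tP_cos (y : ℝ) : tP (cos y : ℝ) = (cos (4 * y) : ℝ) := by
  have h := cos_eq_tP ((4 * y : ℝ) : ℂ)
  rw [Complex.ofReal_cos (4 * y), h]
  congr 1
  push_cast
  congr 1
  ring

end

end EXS.S3
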