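import Pool.Agent.EXS.S3A

/-! SHARP S3, part B: the numerator polynomial -/

set_option autoImplicit false

open Real Polynomial

namespace EXS.S3

noncomputable section

variable {N : ℕ}

/-- all nodes: `none` is the last node `π/16` -/
def yO (x : Fin N → ℝ) : Option (Fin N) → ℝ := fun o => o.elim (π / 16) x

/-- all coefficients -/
def sO (s0 : ℝ) (s : Fin N → ℝ) : Option (Fin N) → ℝ := fun o => o.elim s0 s

/-- `H` with complex first argument -/
def HC (q : ℝ) (c : ℂ) : ℂ := c ^ 2 + q ^ 2 + (√2 : ℝ) * c * q - 1 / 2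

/-- `H` as a real polynomial -/
def Hp (q : ℝ) : ℝ[X] := X ^ 2 + C (√2 * q) * X + C (q ^ 2 - 1 / 2)

lemma aeval_Hp (q : ℝ) (c : ℂ) : aeval c (Hp q) = HC q c := by
  unfold Hp HC
  simp only [map_add, map_mul, map_pow, aeval_X, aeval_C, Complex.coe_algebraMap]
  push_cast
  ring

lemma eval_Hp (q c : ℝ) : eval c (Hp q) = HH c q := by
  unfold Hp HH
  simp only [eval_add, eval_mul, eval_pow, eval_X, eval_C]
  ring

/-- numerator polynomial -/
def Pp (x : Fin N → ℝ) (s0 : ℝ) (s : Fin N → ℝ) : ℝ[X] :=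
  ∑ i : Option (Fin N), C (sO s0 s i) * ∏ j ∈ Finset.univ.erase i, Hp (cos (2 * yO x j))

/-- complex form of `SS` -/
def SC (x : Fin N → ℝ) (s0 : ℝ) (s : Fin N → ℝ) (c : ℂ) : ℂ :=
  ∑ i : Option (Fin N), (sO s0 s i : ℂ) / HC (cos (2 * yO x i)) c

lemma SC_real (x : Fin N → ℝ) (s0 : ℝ) (s : Fin N → ℝ) (c : ℝ) : SC x s0 s c = (SS x s0 s c : ℝ) := by
  unfold SC SS
  rw [Fintype.sum_option]
  have h : ∀ q : ℝ, HC q c = (HH c q : ℝ) := by
    intro q
    unfold HC HH
    push_cast
    ring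
  simp only [h, sO, yO, Option.elim]
  push_cast
  rw [show 2 * (π / 16) = π / 8 by ring]

lemma SC_eq (x : Fin N → ℝ) (s0 : ℝ) (s : Fin N → ℝ) (c : ℂ)
    (h : ∀ i : Option (Fin N), HC (cos (2 * yO x i)) c ≠ 0) :
    SC x s0 s c * ∏ i : Option (Fin N), HC (cos (2 * yO x i)) c = aeval c (Pp x s0 s) := by
  unfold SC Pp
  rw [Finset.sum_mul, map_sum]
  refine Finset.sum_congr rfl fun i _ => ?_
  rw [map_mul, map_prod, aeval_C]
  simp only [aeval_Hp]
  rw [← Finset.mul_prod_erase Finset.univ _ (Finset.mem_univ i), ← mul_assoc, div_mul_cancel₀ _ (h i)]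
  rfl

lemma HH_pos {c q : ℝ} (hc : √2 / 2 < c) (hq : √2 / 2 < q) : 0 < HH c q := by
  have h1 := sqrt2_half
  have h2 := sqrt2_half_pos
  have h3 : 0 < √2 * c * q := by
    have : 0 < √2 := by positivity
    have : 0 < c := by linarith
    have : 0 < q := by linarith
    positivity
  unfold HH
  nlinarith

lemma cos_node_gt {y : ℝ} (h0 : 0 < y) (h1 : y ≤ π / 16) : √2 / 2 < cos (2 * y) := by
  rw [← Real.cos_pi_div_four]
  apply Real.cos_lt_cos_of_nonneg_of_le_pi (by linarith) (by linarith [Real.pi_pos])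
  linarith [Real.pi_pos]

variable {x : Fin N → ℝ} {s0 : ℝ} {s : Fin N → ℝ}

lemma yO_pos (h : SD x s0 s) (i : Option (Fin N)) : 0 < yO x i := by
  cases i with
  | none => show 0 < π / 16; positivity
  | some k => exact h.pos k

lemma yO_le (h : SD x s0 s) (i : Option (Fin N)) : yO x i ≤ π / 16 := by
  cases i with
  | none => exact le_refl (π / 16)
  | some k => exact (h.lt k).le

/-- divisibility -/
theorem exists_Q (h : SD x s0 s) : ∃ Q : ℝ[X],
    Pp x s0 s = (∏ k, (X - C (cos (2 * x k)))) * Q := by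
  have h1 : (∏ k, (X - C (cos (2 * x k)))) ∣ Pp x s0 s := by
    apply Finset.prod_dvd_of_coprime
    · intro i _ j _ hij
      apply Polynomial.pairwise_coprime_X_sub_C (s := fun k => cos (2 * x k)) _ hij
      intro a b hab
      have hab' : cos (2 * x a) = cos (2 * x b) := hab
      have := Real.injOn_cos (x₁ := 2 * x a) (x₂ := 2 * x b)
        ⟨by linarith [h.pos a], by linarith [h.lt a, Real.pi_pos]⟩
        ⟨by linarith [h.pos b], by linarith [h.lt b, Real.pi_pos]⟩ hab'
      exact h.inj (by linarith)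
    · intro k _
      rw [Polynomial.dvd_iff_isRoot, Polynomial.IsRoot.def]
      have e1 := SC_eq x s0 s ((cos (2 * x k) : ℝ) : ℂ) (fun i => by
        have h2 := HH_pos (cos_node_gt (h.pos k) (h.lt k).le) (cos_node_gt (yO_pos h i) (yO_le h i))
        have h3 : HC (cos (2 * yO x i)) ((cos (2 * x k) : ℝ) : ℂ) = (HH (cos (2 * x k)) (cos (2 * yO x i)) : ℝ) := by
          unfold HC HH
          push_cast
          ring
        rw [h3]
        exact_mod_cast h2.ne')
      rw [SC_real, h.zero k, Complex.ofReal_zero, zero_mul] at e1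
      have e2 : aeval ((cos (2 * x k) : ℝ) : ℂ) (Pp x s0 s) = ((eval (cos (2 * x k)) (Pp x s0 s) : ℝ) : ℂ) := by
        rw [show ((cos (2 * x k) : ℝ) : ℂ) = algebraMap ℝ ℂ (cos (2 * x k)) from rfl,
          Polynomial.aeval_algebraMap_apply, Polynomial.coe_aeval_eq_eval]
        rfl
      rw [e2] at e1
      exact_mod_cast e1.symm
  exact h1

end

end EXS.S3
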