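import Pool.Agent.EXS.S3B

/-! SHARP S3, part C: the function `U` as a function of `C` -/

set_option autoImplicit false

open Real Polynomial

namespace EXS.S3

noncomputable section

variable {N : ℕ}

/-- the parameters -/
def ka (y : ℝ) : ℝ := cos (2 * y / 3)
def kb (y : ℝ) : ℝ := cos (π / 4 - 2 * y / 3)
def kc (y : ℝ) : ℝ := cos (π / 4 + 2 * y / 3)

lemma ka_gt {y : ℝ} (h0 : 0 < y) (h1 : y ≤ π / 16) : √2 / 2 < ka y := by
  rw [← Real.cos_pi_div_four]
  apply Real.cos_lt_cos_of_nonneg_of_le_pi (by positivity) (by linarith [Real.pi_pos])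
  linarith [Real.pi_pos]

lemma kb_gt {y : ℝ} (h0 : 0 < y) (h1 : y ≤ π / 16) : √2 / 2 < kb y := by
  rw [← Real.cos_pi_div_four]
  apply Real.cos_lt_cos_of_nonneg_of_le_pi _ (by linarith [Real.pi_pos])
  · linarith [Real.pi_pos]
  · linarith [Real.pi_pos]

lemma kc_lt {y : ℝ} (h0 : 0 < y) (h1 : y ≤ π / 16) : kc y < √2 / 2 := by
  rw [← Real.cos_pi_div_four]
  apply Real.cos_lt_cos_of_nonneg_of_le_pi (by positivity)
  · linarith [Real.pi_pos]
  · linarith [Real.pi_pos]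

lemma kc_ge {y : ℝ} (h0 : 0 < y) (h1 : y ≤ π / 16) : 1 / 2 ≤ kc y := by
  rw [← Real.cos_pi_div_three]
  apply Real.cos_le_cos_of_nonneg_of_le_pi
  · linarith [Real.pi_pos]
  · linarith [Real.pi_pos]
  · linarith [Real.pi_pos]

lemma cP_ka (y : ℝ) : cP (ka y) = (cos (2 * y) : ℝ) := by
  unfold ka
  rw [cP_cos]; congr 2; ring

lemma tP_ka (y : ℝ) : tP (ka y) = (cos (8 * y / 3) : ℝ) := by
  unfold ka
  rw [tP_cos]; congr 2; ring

lemma tP_kb (y : ℝ) : tP (kb y) = -(cos (8 * y / 3) : ℝ) := by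
  unfold kb
  rw [tP_cos, ← Complex.ofReal_neg, ← Real.cos_pi_sub]; congr 2; ring

lemma HC_eq (y : ℝ) (c : ℂ) : HC (cos (2 * y)) c = (c - cP (kb y)) * (c - cP (kc y)) := by
  unfold kb kc
  rw [cP_cos, cP_cos]
  have e1 : cos (3 * (π / 4 - 2 * y / 3)) = -(√2 / 2) * cos (2 * y) + √2 / 2 * sin (2 * y) := by
    rw [show 3 * (π / 4 - 2 * y / 3) = π - (π / 4 + 2 * y) by ring, Real.cos_pi_sub, Real.cos_add,
      Real.cos_pi_div_four, Real.sin_pi_div_four]
    ring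
  have e2 : cos (3 * (π / 4 + 2 * y / 3)) = -(√2 / 2) * cos (2 * y) - √2 / 2 * sin (2 * y) := by
    rw [show 3 * (π / 4 + 2 * y / 3) = π - (π / 4 - 2 * y) by ring, Real.cos_pi_sub, Real.cos_sub,
      Real.cos_pi_div_four, Real.sin_pi_div_four]
    ring
  rw [e1, e2]
  have h1 : ((√2 : ℝ) : ℂ) ^ 2 = 2 := by
    rw [← Complex.ofReal_pow, Real.sq_sqrt (by norm_num)]; norm_num
  have h2 : ((sin (2 * y) : ℝ) : ℂ) ^ 2 = 1 - ((cos (2 * y) : ℝ) : ℂ) ^ 2 := by
    rw [← Complex.ofReal_pow, Real.sin_sq]; push_cast; ring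
  unfold HC
  push_cast at h1 h2 ⊢
  linear_combination (-(1/4) * (Complex.cos (2 * y) ^ 2 - Complex.sin (2 * y) ^ 2)) * h1 + (1 / 2 : ℂ) * h2

/-- `U` as a function of `C` -/
def Uc (x : Fin N → ℝ) (Q : ℝ[X]) (z : ℂ) : ℂ :=
  (4 * z ^ 2 - 1) / (4 * z) * aeval (cP z) Q *
    (∏ i : Option (Fin N), gA (kb (yO x i)) (kc (yO x i)) z) * ∏ k : Fin N, gR (ka (x k)) z

variable {x : Fin N → ℝ} {s0 : ℝ} {s : Fin N → ℝ}

lemma Uc_diff (h : SD x s0 s) (Q : ℝ[X]) {z : ℂ} (hz : z ∈ DD) : DifferentiableAt ℂ (Uc x Q) z := by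
  unfold Uc
  have h0 := nz0 hz
  have h1 : DifferentiableAt ℂ (fun z : ℂ => (4 * z ^ 2 - 1) / (4 * z)) z :=
    DifferentiableAt.div (by fun_prop) (by fun_prop) (mul_ne_zero (by norm_num) h0)
  have h2 : DifferentiableAt ℂ (fun z : ℂ => aeval (cP z) Q) z := by
    have := (Polynomial.differentiable_aeval (𝕜 := ℂ) Q).differentiableAt (x := cP z)
    exact this.comp z (by unfold cP; fun_prop)
  have h3 : DifferentiableAt ℂ (fun z : ℂ => ∏ i : Option (Fin N), gA (kb (yO x i)) (kc (yO x i)) z) z := by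
    apply DifferentiableAt.fun_finsetProd
    intro i _
    exact gA_diff hz (by linarith [kb_gt (yO_pos h i) (yO_le h i), sqrt2_half_gt])
      (kc_ge (yO_pos h i) (yO_le h i)) (kc_lt (yO_pos h i) (yO_le h i))
  have h4 : DifferentiableAt ℂ (fun z : ℂ => ∏ k : Fin N, gR (ka (x k)) z) z := by
    apply DifferentiableAt.fun_finsetProd
    intro k _
    exact gR_diff hz (ka_gt (h.pos k) (h.lt k).le)
  exact ((h1.mul h2).mul h3).mul h4

lemma Uc_conj (x : Fin N → ℝ) (Q : ℝ[X]) (z : ℂ) :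
    Uc x Q (starRingEnd ℂ z) = starRingEnd ℂ (Uc x Q z) := by
  unfold Uc
  have h1 : cP (starRingEnd ℂ z) = starRingEnd ℂ (cP z) := by
    unfold cP; simp [map_ofNat]
  rw [h1, Polynomial.aeval_conj, map_mul, map_mul, map_mul, map_prod, map_prod]
  simp only [gA_conj, gR_conj]
  congr 3
  simp [map_div₀, map_ofNat]

lemma Uc_alg {a q t P H R D S : ℂ} (hH : H ≠ 0) (hD : D ≠ 0) (e : S * H = R * q) :
    a * q * (t * P / H) * (R / D) = t * a * S * (P / D) := by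
  have h : S = R * q / H := by rw [eq_div_iff hH, e]
  rw [h]
  field_simp

/-- the formula off the nodes -/
lemma Uc_eq (h : SD x s0 s) {Q : ℝ[X]} (hQ : Pp x s0 s = (∏ k, (X - C (cos (2 * x k)))) * Q)
    {z : ℂ} (hz : z ∈ DD) (h1 : ∀ k, tP z ≠ (cos (8 * x k / 3) : ℝ))
    (h2 : ∀ i : Option (Fin N), HC (cos (2 * yO x i)) (cP z) ≠ 0) :
    Uc x Q z = (tP z + ta) * ((4 * z ^ 2 - 1) / (4 * z)) * SC x s0 s (cP z) *
      ∏ k, ((tP z + (cos (8 * x k / 3) : ℝ)) / (tP z - (cos (8 * x k / 3) : ℝ))) := by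
  have e1 : ∏ i : Option (Fin N), gA (kb (yO x i)) (kc (yO x i)) z =
      (∏ i : Option (Fin N), (tP z - tP (kb (yO x i)))) / ∏ i : Option (Fin N), HC (cos (2 * yO x i)) (cP z) := by
    rw [← Finset.prod_div_distrib]
    refine Finset.prod_congr rfl fun i _ => ?_
    rw [eq_div_iff (h2 i), HC_eq]
    exact gA_mul hz (by linarith [kb_gt (yO_pos h i) (yO_le h i), sqrt2_half_gt])
      (kc_ge (yO_pos h i) (yO_le h i)) (kc_lt (yO_pos h i) (yO_le h i))
  have e2 : ∏ k : Fin N, gR (ka (x k)) z = (∏ k : Fin N, (cP z - (cos (2 * x k) : ℝ))) /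
      ∏ k : Fin N, (tP z - (cos (8 * x k / 3) : ℝ)) := by
    rw [← Finset.prod_div_distrib]
    refine Finset.prod_congr rfl fun k _ => ?_
    rw [eq_div_iff (sub_ne_zero.2 (h1 k)), ← cP_ka, ← tP_ka]
    exact gR_mul hz (ka_gt (h.pos k) (h.lt k).le)
  have e3 : (∏ i : Option (Fin N), (tP z - tP (kb (yO x i)))) =
      (tP z + ta) * ∏ k : Fin N, (tP z + (cos (8 * x k / 3) : ℝ)) := by
    rw [Fintype.prod_option]
    congr 1
    · rw [tP_kb]
      have : cos (8 * yO x none / 3) = ta := by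
        show cos (8 * (π / 16) / 3) = ta
        rw [show 8 * (π / 16) / 3 = π / 6 by ring, Real.cos_pi_div_six]
        rfl
      rw [this]; ring
    · refine Finset.prod_congr rfl fun k _ => ?_
      rw [tP_kb]
      show _ - -((cos (8 * x k / 3) : ℝ) : ℂ) = _
      ring
  have e4 := SC_eq x s0 s (cP z) h2
  rw [hQ, map_mul, map_prod] at e4
  simp only [map_sub, aeval_X, aeval_C, Complex.coe_algebraMap] at e4
  have h3 : ∏ i : Option (Fin N), HC (cos (2 * yO x i)) (cP z) ≠ 0 := Finset.prod_ne_zero_iff.2 fun i _ => h2 i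
  have h4 : ∏ k : Fin N, (tP z - (cos (8 * x k / 3) : ℝ)) ≠ 0 :=
    Finset.prod_ne_zero_iff.2 fun k _ => sub_ne_zero.2 (h1 k)
  unfold Uc
  rw [e1, e2, e3, Finset.prod_div_distrib]
  exact Uc_alg h3 h4 e4

end

end EXS.S3
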