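import Pool.Agent.EXS.S3C

/-! SHARP S3, part D: asymptotics of `U` -/

set_option autoImplicit false

open Real Polynomial Filter Asymptotics Bornology Topology

namespace EXS.S3

noncomputable section

/-- `f = 1 + O(z^-3)` at infinity -/
def E3 (f : ℂ → ℂ) : Prop := (fun z => f z - 1) =O[cobounded ℂ] fun z => (z ^ 3)⁻¹

lemma inv_small : Tendsto (fun z : ℂ => z⁻¹) (cobounded ℂ) (𝓝 0) := tendsto_inv₀_cobounded

lemma pow_small {n : ℕ} (hn : n ≠ 0) : Tendsto (fun z : ℂ => (z ^ n)⁻¹) (cobounded ℂ) (𝓝 0) := by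
  have := inv_small.pow n
  simpa [inv_pow, hn] using this

lemma ev_ne : ∀ᶠ z in cobounded ℂ, z ≠ (0 : ℂ) := by
  have := (tendsto_norm_cobounded_atTop (E := ℂ)).eventually (eventually_gt_atTop 0)
  filter_upwards [this] with z hz
  exact norm_pos_iff.1 hz

lemma inv_pow_mono {m n : ℕ} (h : m ≤ n) :
    (fun z : ℂ => (z ^ n)⁻¹) =O[cobounded ℂ] fun z => (z ^ m)⁻¹ := by
  obtain ⟨k, rfl⟩ := Nat.exists_eq_add_of_le h
  have h1 : (fun z : ℂ => (z ^ k)⁻¹) =O[cobounded ℂ] fun _ => (1 : ℂ) := by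
    rcases Nat.eq_zero_or_pos k with rfl | hk
    · simpa using isBigO_refl (fun _ : ℂ => (1 : ℂ)) (cobounded ℂ)
    · exact (pow_small hk.ne').isBigO_one ℂ
  have h2 := (isBigO_refl (fun z : ℂ => (z ^ m)⁻¹) (cobounded ℂ)).mul h1
  refine h2.congr (fun z => ?_) (fun z => by simp)
  rw [pow_add, mul_inv]

lemma E3.tendsto {f : ℂ → ℂ} (h : E3 f) : Tendsto f (cobounded ℂ) (𝓝 1) := by
  have h1 := h.trans_tendsto (pow_small (n := 3) (by norm_num))
  simpa using h1.add_const 1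

lemma E3.isBigO {f : ℂ → ℂ} (h : E3 f) : f =O[cobounded ℂ] fun _ => (1 : ℂ) := h.tendsto.isBigO_one ℂ

lemma E3.mul {f g : ℂ → ℂ} (hf : E3 f) (hg : E3 g) : E3 fun z => f z * g z := by
  have h0 : (fun z => g z - 1) =O[cobounded ℂ] fun z : ℂ => (z ^ 3)⁻¹ * 1 := by
    simp only [mul_one]
    exact hg
  have h1 := (IsBigO.mul hf hg.isBigO).add h0
  refine h1.congr (fun z => by ring) (fun z => by simp)

lemma E3.inv {f : ℂ → ℂ} (hf : E3 f) : E3 fun z => (f z)⁻¹ := by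
  have h1 : (fun z => (f z)⁻¹) =O[cobounded ℂ] fun _ => (1 : ℂ) := by
    have := hf.tendsto.inv₀ one_ne_zero
    exact this.isBigO_one ℂ
  have h2 := (IsBigO.mul hf h1).neg_left
  refine h2.congr' ?_ (Eventually.of_forall fun z => by simp)
  have h3 : ∀ᶠ z in cobounded ℂ, f z ≠ 0 := hf.tendsto.eventually_ne one_ne_zero
  filter_upwards [h3] with z hz
  field_simp
  ring

lemma E3.one : E3 fun _ => 1 := by
  unfold E3
  simpa using isBigO_zero _ _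

lemma E3.prod {ι : Type*} (t : Finset ι) {f : ι → ℂ → ℂ} (hf : ∀ i ∈ t, E3 (f i)) :
    E3 fun z => ∏ i ∈ t, f i z := by
  classical
  induction t using Finset.induction_on with
  | empty => simpa using E3.one
  | insert a t ha ih =>
    have h1 := (hf a (Finset.mem_insert_self _ _)).mul (ih fun i hi => hf i (Finset.mem_insert_of_mem hi))
    simpa [Finset.prod_insert ha] using h1

/-- a function with `f / z^n → a ≠ 0` -/
lemma inv_bigO {f : ℂ → ℂ} {n : ℕ} {a : ℂ} (ha : a ≠ 0)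
    (h : Tendsto (fun z => f z * (z ^ n)⁻¹) (cobounded ℂ) (𝓝 a)) :
    (fun z => (f z)⁻¹) =O[cobounded ℂ] fun z => (z ^ n)⁻¹ := by
  have h1 := (h.inv₀ ha).isBigO_one ℂ
  have h2 := h1.mul (isBigO_refl (fun z : ℂ => (z ^ n)⁻¹) (cobounded ℂ))
  refine h2.congr' ?_ (Eventually.of_forall fun z => by simp)
  filter_upwards [ev_ne] with z hz
  have : z ^ n ≠ 0 := pow_ne_zero _ hz
  rw [mul_inv, inv_inv]
  field_simp

lemma bigO_pow {f : ℂ → ℂ} {n : ℕ} {a : ℂ}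
    (h : Tendsto (fun z => f z * (z ^ n)⁻¹) (cobounded ℂ) (𝓝 a)) :
    f =O[cobounded ℂ] fun z => z ^ n := by
  have h2 := (h.isBigO_one ℂ).mul (isBigO_refl (fun z : ℂ => z ^ n) (cobounded ℂ))
  refine h2.congr' ?_ (Eventually.of_forall fun z => by simp)
  filter_upwards [ev_ne] with z hz
  have : z ^ n ≠ 0 := pow_ne_zero _ hz
  field_simp

lemma tP_lim : Tendsto (fun z => tP z * (z ^ 4)⁻¹) (cobounded ℂ) (𝓝 8) := by
  have h1 : Tendsto (fun z : ℂ => 8 - 8 * (z ^ 2)⁻¹ + (z ^ 4)⁻¹) (cobounded ℂ) (𝓝 (8 - 8 * 0 + 0)) :=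
    (((pow_small (n := 2) (by norm_num)).const_mul 8).const_sub 8).add (pow_small (n := 4) (by norm_num))
  rw [show (8 : ℂ) - 8 * 0 + 0 = 8 by ring] at h1
  refine h1.congr' ?_
  filter_upwards [ev_ne] with z hz
  unfold tP
  field_simp

lemma cP_lim : Tendsto (fun z => cP z * (z ^ 3)⁻¹) (cobounded ℂ) (𝓝 4) := by
  have h1 : Tendsto (fun z : ℂ => 4 - 3 * (z ^ 2)⁻¹) (cobounded ℂ) (𝓝 (4 - 3 * 0)) :=
    ((pow_small (n := 2) (by norm_num)).const_mul 3).const_sub 4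
  rw [show (4 : ℂ) - 3 * 0 = 4 by ring] at h1
  refine h1.congr' ?_
  filter_upwards [ev_ne] with z hz
  unfold cP
  field_simp

lemma HC_lim (q : ℝ) : Tendsto (fun z => HC q (cP z) * (z ^ 6)⁻¹) (cobounded ℂ) (𝓝 16) := by
  have h1 : Tendsto (fun z : ℂ => (cP z * (z ^ 3)⁻¹) ^ 2 + ((√2 : ℝ) * q : ℂ) * (cP z * (z ^ 3)⁻¹) * (z ^ 3)⁻¹ +
      ((q : ℂ) ^ 2 - 1 / 2) * (z ^ 6)⁻¹) (cobounded ℂ)
      (𝓝 (4 ^ 2 + ((√2 : ℝ) * q : ℂ) * 4 * 0 + ((q : ℂ) ^ 2 - 1 / 2) * 0)) :=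
    ((cP_lim.pow 2).add ((cP_lim.const_mul _).mul (pow_small (n := 3) (by norm_num)))).add
      ((pow_small (n := 6) (by norm_num)).const_mul _)
  rw [show (4 : ℂ) ^ 2 + ((√2 : ℝ) * q : ℂ) * 4 * 0 + ((q : ℂ) ^ 2 - 1 / 2) * 0 = 16 by ring] at h1
  refine h1.congr' ?_
  filter_upwards [ev_ne] with z hz
  unfold HC
  field_simp
  ring

lemma tP_inv : (fun z => (tP z)⁻¹) =O[cobounded ℂ] fun z => (z ^ 4)⁻¹ := inv_bigO (by norm_num) tP_lim
lemma cP_inv : (fun z => (cP z)⁻¹) =O[cobounded ℂ] fun z => (z ^ 3)⁻¹ := inv_bigO (by norm_num) cP_lim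
lemma HC_inv (q : ℝ) : (fun z => (HC q (cP z))⁻¹) =O[cobounded ℂ] fun z => (z ^ 6)⁻¹ :=
  inv_bigO (by norm_num) (HC_lim q)

lemma tP_ev (a : ℂ) : ∀ᶠ z in cobounded ℂ, tP z ≠ a := by
  have h1 : Tendsto (fun z => (tP z - a) * (z ^ 4)⁻¹) (cobounded ℂ) (𝓝 (8 - a * 0)) := by
    have := tP_lim.sub ((pow_small (n := 4) (by norm_num)).const_mul a)
    exact this.congr fun z => by ring
  have h2 := h1.eventually_ne (show (8 - a * 0 : ℂ) ≠ 0 by simp)
  filter_upwards [h2] with z hz h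
  exact hz (by rw [h]; simp)

lemma cP_ev (a : ℂ) : ∀ᶠ z in cobounded ℂ, cP z ≠ a := by
  have h1 : Tendsto (fun z => (cP z - a) * (z ^ 3)⁻¹) (cobounded ℂ) (𝓝 (4 - a * 0)) := by
    have := cP_lim.sub ((pow_small (n := 3) (by norm_num)).const_mul a)
    exact this.congr fun z => by ring
  have h2 := h1.eventually_ne (show (4 - a * 0 : ℂ) ≠ 0 by simp)
  filter_upwards [h2] with z hz h
  exact hz (by rw [h]; simp)

lemma HC_ev (q : ℝ) : ∀ᶠ z in cobounded ℂ, HC q (cP z) ≠ 0 := by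
  have h2 := (HC_lim q).eventually_ne (show (16 : ℂ) ≠ 0 by norm_num)
  filter_upwards [h2] with z hz h
  exact hz (by rw [h]; simp)

/-- `(T + a)/T` -/
lemma E3_T (a : ℂ) : E3 fun z => (tP z + a) / tP z := by
  have h1 := (tP_inv.const_mul_left a).trans (inv_pow_mono (show 3 ≤ 4 by norm_num))
  refine h1.congr' ?_ (Eventually.of_forall fun z => rfl)
  filter_upwards [tP_ev 0] with z hz
  field_simp
  ring

/-- `(c + a)/c` -/
lemma E3_c (a : ℂ) : E3 fun z => (cP z + a) / cP z := by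
  have h1 := cP_inv.const_mul_left a
  refine h1.congr' ?_ (Eventually.of_forall fun z => rfl)
  filter_upwards [cP_ev 0] with z hz
  field_simp
  ring

lemma E3_Tc : E3 fun z => tP z ^ 3 / (2 * cP z ^ 4) := by
  have h1 : (fun z => -2 * cP z ^ 2 + 3 / 4 * tP z + 1 / 4) =O[cobounded ℂ] fun z => z ^ 6 := by
    have : Tendsto (fun z : ℂ => (-2 * cP z ^ 2 + 3 / 4 * tP z + 1 / 4) * (z ^ 6)⁻¹) (cobounded ℂ)
        (𝓝 (-2 * 4 ^ 2 + 3 / 4 * 8 * 0 + 1 / 4 * 0)) := by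
      have h2 : Tendsto (fun z : ℂ => -2 * (cP z * (z ^ 3)⁻¹) ^ 2 + 3 / 4 * (tP z * (z ^ 4)⁻¹) * (z ^ 2)⁻¹ +
          1 / 4 * (z ^ 6)⁻¹) (cobounded ℂ) (𝓝 (-2 * 4 ^ 2 + 3 / 4 * 8 * 0 + 1 / 4 * 0)) :=
        (((cP_lim.pow 2).const_mul _).add ((tP_lim.const_mul _).mul (pow_small (n := 2) (by norm_num)))).add
          ((pow_small (n := 6) (by norm_num)).const_mul _)
      refine h2.congr' ?_
      filter_upwards [ev_ne] with z hz
      field_simp
    exact bigO_pow this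
  have h2 := h1.mul ((cP_inv.pow 4).const_mul_left (1 / 2))
  refine (h2.congr' (g₂ := fun z => (z ^ 6)⁻¹) ?_ ?_).trans (inv_pow_mono (show 3 ≤ 6 by norm_num))
  · filter_upwards [cP_ev 0] with z hz
    have h3 : tP z ^ 3 = 2 * cP z ^ 4 + (-2 * cP z ^ 2 + 3 / 4 * tP z + 1 / 4) := by
      unfold tP cP; ring
    rw [h3]
    field_simp
    ring
  · filter_upwards [ev_ne] with z hz
    field_simp

variable {N : ℕ} {x : Fin N → ℝ} {s0 : ℝ} {s : Fin N → ℝ}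

lemma E3_S (h : SD x s0 s) : E3 fun z => cP z ^ 2 * SC x s0 s (cP z) := by
  have h1 : ∀ i : Option (Fin N), (fun z => (sO s0 s i : ℂ) * (cP z ^ 2 / HC (cos (2 * yO x i)) (cP z) - 1))
      =O[cobounded ℂ] fun z => (z ^ 3)⁻¹ := by
    intro i
    apply IsBigO.const_mul_left
    set q := cos (2 * yO x i)
    have h2 : (fun z => -((√2 : ℝ) * cP z * q + (q ^ 2 - 1 / 2) : ℂ)) =O[cobounded ℂ] fun z => z ^ 3 := by
      have : Tendsto (fun z : ℂ => -((√2 : ℝ) * cP z * q + (q ^ 2 - 1 / 2) : ℂ) * (z ^ 3)⁻¹) (cobounded ℂ)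
          (𝓝 (-(((√2 : ℝ) : ℂ) * 4 * (q : ℂ) + ((q : ℂ) ^ 2 - 1 / 2) * 0))) := by
        have h2 : Tendsto (fun z : ℂ => -((√2 : ℝ) * (cP z * (z ^ 3)⁻¹) * q + ((q : ℂ) ^ 2 - 1 / 2) * (z ^ 3)⁻¹))
            (cobounded ℂ) (𝓝 (-(((√2 : ℝ) : ℂ) * 4 * (q : ℂ) + ((q : ℂ) ^ 2 - 1 / 2) * 0))) :=
          (((cP_lim.const_mul _).mul_const _).add ((pow_small (n := 3) (by norm_num)).const_mul _)).neg
        exact h2.congr fun z => by ring
      exact bigO_pow this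
    have h3 := h2.mul (HC_inv q)
    refine h3.congr' ?_ ?_
    · filter_upwards [HC_ev q] with z hz
      have h4 : cP z ^ 2 = HC q (cP z) - ((√2 : ℝ) * cP z * q + (q ^ 2 - 1 / 2)) := by
        unfold HC; ring
      rw [h4]
      field_simp
      ring
    · filter_upwards [ev_ne] with z hz
      field_simp
  have h2 := IsBigO.sum (s := Finset.univ) fun i _ => h1 i
  unfold E3
  refine h2.congr (fun z => ?_) fun z => rfl
  have h3 : ∑ i : Option (Fin N), (sO s0 s i : ℂ) = 1 := by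
    rw [Fintype.sum_option]
    have := h.sum
    show (s0 : ℂ) + ∑ k, (s k : ℂ) = 1
    exact_mod_cast this
  show (∑ i : Option (Fin N), fun z => (sO s0 s i : ℂ) * (cP z ^ 2 / HC (cos (2 * yO x i)) (cP z) - 1)) z =
    cP z ^ 2 * SC x s0 s (cP z) - 1
  unfold SC
  rw [Finset.sum_apply]
  simp only [mul_sub, mul_one, Finset.sum_sub_distrib, h3]
  rw [Finset.mul_sum]
  congr 1
  refine Finset.sum_congr rfl fun i _ => ?_
  ring

end

end EXS.S3
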