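import Pool.Agent.EXS.S3D
import Pool.Agent.EXS.Disp

/-! SHARP S3, part E: bounds for `U` -/

set_option autoImplicit false

open Real Polynomial Filter Asymptotics Bornology Topology

namespace EXS.S3

noncomputable section

variable {N : ℕ} {x : Fin N → ℝ} {s0 : ℝ} {s : Fin N → ℝ}

/-- `k` for the point `w = π/2` -/
def ks : ℝ := cos (π / 8)

lemma ks_gt : √2 / 2 < ks := by
  unfold ks
  rw [← Real.cos_pi_div_four]
  apply Real.cos_lt_cos_of_nonneg_of_le_pi (by positivity) (by linarith [Real.pi_pos])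
  linarith [Real.pi_pos]

lemma cP_ks : cP ks = (cst : ℂ) := by
  unfold ks cst
  rw [cP_cos]; congr 2; ring

lemma tP_ks : tP ks = 0 := by
  unfold ks
  rw [tP_cos, show 4 * (π / 8) = π / 2 by ring, Real.cos_pi_div_two]; simp

/-- `e` -/
def eC (z : ℂ) : ℂ := gR ks z

lemma eC_mul {z : ℂ} (hz : z ∈ DD) : eC z * tP z = cP z - (cst : ℂ) := by
  have := gR_mul hz ks_gt
  rwa [tP_ks, sub_zero, cP_ks] at this

lemma eC_eq {z : ℂ} (hz : z ∈ DD) (h : tP z ≠ 0) : eC z = (cP z - (cst : ℂ)) / tP z := by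
  rw [eq_div_iff h, eC_mul hz]

/-- the same without the region, far away -/
lemma eC_ev : ∀ᶠ z in cobounded ℂ, eC z = (cP z - (cst : ℂ)) / tP z := by
  filter_upwards [tP_ev 0] with z hz
  have e0 : tP z = 8 * (z - ks) * (z + ks) * (z ^ 2 + ks ^ 2 - 1) := by
    have := tP_sub z ks
    rwa [tP_ks, sub_zero] at this
  have h1 : z + ks ≠ 0 := by
    intro h; apply hz; rw [e0, h]; ring
  have h2 : z ^ 2 + (ks : ℂ) ^ 2 - 1 ≠ 0 := by
    intro h; apply hz; rw [e0, h]; ring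
  have h3 : z - ks ≠ 0 := by
    intro h; apply hz; rw [e0, h]; ring
  rw [← cP_ks, cP_sub, e0, eC, gR]
  field_simp
  ring

lemma eC_bigO : eC =O[cobounded ℂ] fun z => (z ^ 1)⁻¹ := by
  have h1 : (fun z => cP z - (cst : ℂ)) =O[cobounded ℂ] fun z => z ^ 3 := by
    have : Tendsto (fun z : ℂ => (cP z - (cst : ℂ)) * (z ^ 3)⁻¹) (cobounded ℂ) (𝓝 (4 - (cst : ℂ) * 0)) := by
      have := cP_lim.sub ((pow_small (n := 3) (by norm_num)).const_mul (cst : ℂ))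
      exact this.congr fun z => by ring
    exact bigO_pow this
  have h2 := h1.mul tP_inv
  refine h2.congr' ?_ ?_
  · filter_upwards [eC_ev] with z hz
    rw [hz, div_eq_mul_inv]
  · filter_upwards [ev_ne] with z hz
    field_simp

/-- `U / e` -/
def GC (x : Fin N → ℝ) (s0 : ℝ) (s : Fin N → ℝ) (z : ℂ) : ℂ :=
  (tP z + ta) / tP z * ((tP z + 1 / 2) / tP z) * (tP z ^ 3 / (2 * cP z ^ 4)) *
    (cP z ^ 2 * SC x s0 s (cP z)) * ((cP z + (-(cst : ℂ))) / cP z)⁻¹ *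
    ∏ k, ((tP z + (cos (8 * x k / 3) : ℝ)) / tP z * ((tP z + (-(cos (8 * x k / 3) : ℝ) : ℂ)) / tP z)⁻¹)

lemma E3_G (h : SD x s0 s) : E3 (GC x s0 s) :=
  (((((E3_T _).mul (E3_T _)).mul E3_Tc).mul (E3_S h)).mul (E3_c _).inv).mul
    (E3.prod _ fun _ _ => (E3_T _).mul (E3_T _).inv)

lemma Uc_eG (h : SD x s0 s) {Q : ℝ[X]} (hQ : Pp x s0 s = (∏ k, (X - C (cos (2 * x k)))) * Q) :
    ∀ᶠ z in cobounded ℂ, z ∈ DD → Uc x Q z = eC z * GC x s0 s z := by
  have h1 : ∀ᶠ z in cobounded ℂ, ∀ k : Fin N, tP z ≠ (cos (8 * x k / 3) : ℝ) :=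
    (eventually_all (l := cobounded ℂ)).2 fun k => tP_ev _
  have h2 : ∀ᶠ z in cobounded ℂ, ∀ i : Option (Fin N), HC (cos (2 * yO x i)) (cP z) ≠ 0 :=
    (eventually_all (l := cobounded ℂ)).2 fun i => HC_ev _
  filter_upwards [h1, h2, tP_ev 0, cP_ev 0, cP_ev (cst : ℂ), ev_ne] with z h1 h2 h3 h4 h5 h6 hz
  rw [Uc_eq h hQ hz h1 h2, eC_eq hz h3, GC]
  have h7 : ∀ k : Fin N, (tP z + (cos (8 * x k / 3) : ℝ)) / tP z * ((tP z + (-(cos (8 * x k / 3) : ℝ) : ℂ)) / tP z)⁻¹ =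
      (tP z + (cos (8 * x k / 3) : ℝ)) / (tP z - (cos (8 * x k / 3) : ℝ)) := by
    intro k
    have := sub_ne_zero.2 (h1 k)
    rw [← sub_eq_add_neg]
    field_simp
  rw [Finset.prod_congr rfl fun k _ => h7 k]
  have h8 : cP z - (cst : ℂ) ≠ 0 := sub_ne_zero.2 h5
  have h9 : 4 * z ^ 2 - 3 ≠ 0 := by
    intro h
    apply h4
    unfold cP
    linear_combination z * h
  have h10 : (4 * z ^ 2 - 1) / (4 * z) = (tP z + 1 / 2) / (2 * cP z) := by
    rw [div_eq_div_iff (mul_ne_zero (by norm_num) h6) (mul_ne_zero two_ne_zero h4)]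
    unfold tP cP
    ring
  rw [h10, ← sub_eq_add_neg]
  generalize (∏ k, ((tP z + (cos (8 * x k / 3) : ℝ)) / (tP z - (cos (8 * x k / 3) : ℝ)))) = P
  generalize SC x s0 s (cP z) = S
  field_simp

lemma Uc_asy (h : SD x s0 s) {Q : ℝ[X]} (hQ : Pp x s0 s = (∏ k, (X - C (cos (2 * x k)))) * Q) :
    (fun z => Uc x Q z - eC z) =O[cobounded ℂ ⊓ 𝓟 DD] fun z => (z ^ 4)⁻¹ := by
  have h1 : (fun z => eC z * (GC x s0 s z - 1)) =O[cobounded ℂ] fun z => (z ^ 4)⁻¹ := by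
    refine (eC_bigO.mul (E3_G h)).congr' (Eventually.of_forall fun z => rfl) ?_
    filter_upwards [ev_ne] with z hz
    field_simp
  refine (h1.mono inf_le_left).congr' ?_ (Eventually.of_forall fun z => rfl)
  rw [EventuallyEq, eventually_inf_principal]
  filter_upwards [Uc_eG h hQ] with z hz hzD
  rw [hz hzD]
  ring

/-- from infinity to the region -/
lemma bound_DD {f : ℂ → ℂ} {n : ℕ} (hf : ContinuousOn f DD)
    (ho : f =O[cobounded ℂ ⊓ 𝓟 DD] fun z => (z ^ n)⁻¹) : ∃ K : ℝ, 0 ≤ K ∧ ∀ z ∈ DD, ‖f z‖ ≤ K * (‖z‖ ^ n)⁻¹ := by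
  obtain ⟨c, hc⟩ := ho.bound
  rw [eventually_inf_principal] at hc
  obtain ⟨R, hR⟩ := (Metric.hasBasis_cobounded_compl_closedBall (0 : ℂ)).eventually_iff.1 hc
  have hR2 : ∀ z : ℂ, R < ‖z‖ → z ∈ DD → ‖f z‖ ≤ c * ‖(z ^ n)⁻¹‖ := by
    intro z hz
    exact hR.2 (by simpa using hz)
  have hcl : IsClosed DD := isClosed_le continuous_const Complex.continuous_re
  have hcomp : IsCompact (DD ∩ Metric.closedBall (0 : ℂ) R) :=
    (isCompact_closedBall (0 : ℂ) R).inter_left hcl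
  obtain ⟨M, hM⟩ := hcomp.exists_bound_of_continuousOn (hf.mono Set.inter_subset_left)
  refine ⟨max |c| (|M| * (|R|) ^ n), le_max_of_le_left (abs_nonneg c), fun z hz => ?_⟩
  have hz0 : 0 < ‖z‖ := norm_pos_iff.2 (nz0 hz)
  have hzn : 0 < (‖z‖ ^ n)⁻¹ := by positivity
  rcases lt_or_ge R ‖z‖ with h1 | h1
  · have h2 := hR2 z h1 hz
    rw [norm_inv, norm_pow] at h2
    refine h2.trans (mul_le_mul_of_nonneg_right ?_ hzn.le)
    exact (le_abs_self c).trans (le_max_left _ _)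
  · have h2 := hM z ⟨hz, by simpa using h1⟩
    have h3 : ‖z‖ ^ n ≤ |R| ^ n := pow_le_pow_left₀ hz0.le (h1.trans (le_abs_self R)) n
    have h4 : |M| ≤ |M| * |R| ^ n * (‖z‖ ^ n)⁻¹ := by
      rw [mul_assoc]
      refine le_mul_of_one_le_right (abs_nonneg M) ?_
      rw [← div_eq_mul_inv, one_le_div (by positivity)]
      exact h3
    refine (h2.trans (le_abs_self M)).trans (h4.trans (mul_le_mul_of_nonneg_right (le_max_right _ _) hzn.le))

/-- `|cos (w/4)| ≥ (√2/4) e^{|Im w|/4}` -/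
lemma norm_cos_ge' {w : ℂ} (hw : |w.re| ≤ π) : √2 / 4 * exp (|w.im| / 4) ≤ ‖Complex.cos (w / 4)‖ := by
  have h1 := norm_cos_ge (w / 4)
  have e1 : (w / 4).re = w.re / 4 := by
    rw [show w / 4 = w / ((4 : ℝ) : ℂ) by push_cast; ring, Complex.div_ofReal_re]
  have e2 : (w / 4).im = w.im / 4 := by
    rw [show w / 4 = w / ((4 : ℝ) : ℂ) by push_cast; ring, Complex.div_ofReal_im]
  rw [e1, e2] at h1
  have h2 : √2 / 2 ≤ cos (w.re / 4) := by
    rw [← Real.cos_pi_div_four, ← Real.cos_abs (w.re / 4)]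
    apply Real.cos_le_cos_of_nonneg_of_le_pi (abs_nonneg _) (by linarith [Real.pi_pos])
    rw [abs_div, abs_of_pos (by norm_num : (0:ℝ) < 4)]
    linarith
  have h3 : exp (|w.im| / 4) / 2 ≤ cosh (w.im / 4) := by
    rw [← Real.cosh_abs, abs_div, abs_of_pos (by norm_num : (0:ℝ) < 4), Real.cosh_eq]
    have := Real.exp_pos (-(|w.im| / 4))
    linarith
  have h4 := sqrt2_half_pos
  have h5 : √2 / 2 * (exp (|w.im| / 4) / 2) ≤ |cos (w.re / 4)| * cosh (w.im / 4) :=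
    mul_le_mul (h2.trans (le_abs_self _)) h3 (by positivity) (abs_nonneg _)
  calc √2 / 4 * exp (|w.im| / 4) = √2 / 2 * (exp (|w.im| / 4) / 2) := by ring
    _ ≤ _ := h5.trans h1

lemma inv_norm_le {w : ℂ} (hw : |w.re| ≤ π) (n : ℕ) :
    (‖Complex.cos (w / 4)‖ ^ n)⁻¹ ≤ ((√2 / 4) ^ n)⁻¹ * exp (-((n : ℝ) * |w.im| / 4)) := by
  have h1 := norm_cos_ge' hw
  have h0 : 0 < √2 / 4 * exp (|w.im| / 4) := by positivity
  have h2 : (√2 / 4 * exp (|w.im| / 4)) ^ n ≤ ‖Complex.cos (w / 4)‖ ^ n := pow_le_pow_left₀ h0.le h1 n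
  calc (‖Complex.cos (w / 4)‖ ^ n)⁻¹ ≤ ((√2 / 4 * exp (|w.im| / 4)) ^ n)⁻¹ :=
        inv_anti₀ (by positivity) h2
    _ = _ := by
      rw [mul_pow, mul_inv, ← Real.exp_nat_mul, ← Real.exp_neg]
      congr 2
      ring

end

end EXS.S3
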