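import Pool.Agent.EXS.S4a
import Pool.Agent.EXS.NumW

/-! SHARP S4: the contraction estimates. -/

set_option autoImplicit false

namespace EXS

open MeasureTheory Filter Topology

/-- the contraction: `Num.contraction`, with `N0 = 20` -/
theorem contraction : ∃ N0 : ℕ, ∀ N : ℕ, N0 ≤ N → ∀ τ : Fin N → ℝ, (∀ k, ta ≤ τ k ∧ τ k ≤ 1) →
    ∀ (f : ℝ → ℝ) (M : ℝ), 0 ≤ M → Measurable f → Bd f M → Bd (KW (Wf τ) f) (4 / 5 * M) :=
  Num.contraction

end EXS
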