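import Pool.Agent.EXS.WDefs

/-! SHARP S4, first part: the points `T2`, the norm of the weight, the Cauchy transform. -/

set_option autoImplicit false

namespace EXS

open MeasureTheory Filter Topology

theorem T2_re (X : ℝ) : (T2 X).re = X / 2 := rfl

theorem T2_im (X : ℝ) : (T2 X).im = -(ta * Real.sqrt (X ^ 2 - 1)) := rfl

theorem ta_pos : 0 < ta := by
  unfold ta
  positivity

theorem ta_sq : ta ^ 2 = 3 / 4 := by
  unfold ta
  rw [div_pow, Real.sq_sqrt (by norm_num)]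
  norm_num

theorem ta_lt_one : ta < 1 := by
  have h := ta_sq
  nlinarith [ta_pos]

theorem ta_gt_half : 1 / 2 < ta := by
  have h := ta_sq
  nlinarith [ta_pos]

theorem T2_normSq_add {X : ℝ} (hX : 1 ≤ X) (a : ℝ) :
    Complex.normSq (T2 X + (a : ℂ)) = X ^ 2 - 3 / 4 + a * X + a ^ 2 := by
  have h1 : 0 ≤ X ^ 2 - 1 := by nlinarith
  rw [Complex.normSq_apply, Complex.add_re, Complex.add_im, T2_re, T2_im, Complex.ofReal_re,
    Complex.ofReal_im]
  have h2 := Real.sq_sqrt h1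
  have h3 := ta_sq
  have h4 : (-(ta * Real.sqrt (X ^ 2 - 1)) + 0) * (-(ta * Real.sqrt (X ^ 2 - 1)) + 0) =
      ta ^ 2 * Real.sqrt (X ^ 2 - 1) ^ 2 := by ring
  rw [h4, h2, h3]
  ring

theorem T2_normSq {X : ℝ} (hX : 1 ≤ X) : Complex.normSq (T2 X) = X ^ 2 - 3 / 4 := by
  have h := T2_normSq_add hX 0
  simpa using h

theorem T2_cosh {η : ℝ} (hη : 0 ≤ η) :
    Complex.cos (((Real.pi / 3 : ℝ) : ℂ) + Complex.I * (η : ℂ)) = T2 (Real.cosh η) := by
  have hs : Real.sqrt (Real.cosh η ^ 2 - 1) = Real.sinh η := by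
    have h := Real.cosh_sq η
    rw [h, add_sub_cancel_right]
    exact Real.sqrt_sq (Real.sinh_nonneg_iff.mpr hη)
  rw [Complex.cos_add, mul_comm Complex.I, Complex.cos_mul_I, Complex.sin_mul_I]
  apply Complex.ext
  · rw [T2_re]
    rw [← Complex.ofReal_cos, ← Complex.ofReal_sin, ← Complex.ofReal_cosh, ← Complex.ofReal_sinh]
    simp
    ring
  · rw [T2_im, hs]
    rw [← Complex.ofReal_cos, ← Complex.ofReal_sin, ← Complex.ofReal_cosh, ← Complex.ofReal_sinh]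
    simp [ta]
    exact Complex.sinh_ofReal_re η

theorem T2_re_pos {X : ℝ} (hX : 1 < X) : 0 < (T2 X).re := by
  rw [T2_re]
  linarith

theorem add_T2_ne {x X : ℝ} (hx : 0 < x) (hX : 1 < X) : (x : ℂ) + T2 X ≠ 0 := by
  intro h
  have h1 := congrArg Complex.re h
  rw [Complex.add_re, T2_re, Complex.ofReal_re, Complex.zero_re] at h1
  linarith

theorem T2_add_ne {x X : ℝ} (hx : 0 ≤ x) (hX : 1 < X) : T2 X + (x : ℂ) ≠ 0 := by
  intro h
  have h1 := congrArg Complex.re h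
  rw [Complex.add_re, T2_re, Complex.ofReal_re, Complex.zero_re] at h1
  linarith

theorem norm_le_of_normSq {z w : ℂ} (h : Complex.normSq z ≤ Complex.normSq w) : ‖z‖ ≤ ‖w‖ := by
  rw [Complex.normSq_eq_norm_sq, Complex.normSq_eq_norm_sq] at h
  exact le_of_sq_le_sq h (norm_nonneg _)

theorem ratio_exp {u : ℝ} (h0 : 0 < u) (h1 : u < 1) : (1 - u) / (1 + u) ≤ Real.exp (-(2 * u)) := by
  have hs := Real.hasSum_log_sub_log_of_abs_lt_one (x := u) (by rw [abs_of_pos h0]; exact h1)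
  have h2 : 2 * u ≤ Real.log (1 + u) - Real.log (1 - u) := by
    have h3 := le_hasSum hs 0 (fun j _ => by positivity)
    simpa using h3
  have h4 : (1 - u) / (1 + u) = Real.exp (Real.log ((1 - u) / (1 + u))) := by
    rw [Real.exp_log]
    exact div_pos (by linarith) (by linarith)
  rw [h4, Real.exp_le_exp, Real.log_div (by linarith) (by linarith)]
  linarith

/-- the factor of one row on the real axis -/
theorem row_le {t X : ℝ} (ht : ta ≤ t) (ht1 : t ≤ 1) (hX : 1 < X) :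
    ‖((X : ℂ) - (t : ℂ)) / ((X : ℂ) + (t : ℂ))‖ ≤ Real.exp (-(1 / X)) := by
  have h0 := ta_gt_half
  have h1 : ((X : ℂ) - (t : ℂ)) / ((X : ℂ) + (t : ℂ)) = (((X - t) / (X + t) : ℝ) : ℂ) := by
    push_cast
    rfl
  rw [h1, Complex.norm_real, Real.norm_eq_abs, abs_of_nonneg (div_nonneg (by linarith) (by linarith))]
  have h2 : (X - t) / (X + t) = (1 - t / X) / (1 + t / X) := by
    have hX0 : X ≠ 0 := by linarith
    field_simp
  rw [h2]
  have h3 : t / X < 1 := by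
    rw [div_lt_one (by linarith)]
    linarith
  have h4 : 0 < t / X := div_pos (by linarith) (by linarith)
  refine le_trans (ratio_exp h4 h3) ?_
  rw [Real.exp_le_exp, neg_le_neg_iff]
  rw [div_le_iff₀ (by linarith)]
  have h5 : 2 * (t / X) * X = 2 * t := by
    have hX0 : X ≠ 0 := by linarith
    field_simp
  rw [h5]
  linarith

/-- the factor of one row at `T2` -/
theorem row2_le {t X : ℝ} (ht : ta ≤ t) (hX : 1 < X) :
    ‖(T2 X - (t : ℂ)) / (T2 X + (t : ℂ))‖ ≤ 1 := by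
  have h0 := ta_gt_half
  rw [norm_div]
  refine div_le_one_of_le₀ ?_ (norm_nonneg _)
  apply norm_le_of_normSq
  have e1 := T2_normSq_add hX.le t
  have e2 := T2_normSq_add hX.le (-t)
  rw [Complex.ofReal_neg, ← sub_eq_add_neg] at e2
  rw [e1, e2]
  nlinarith

theorem fst_le {X : ℝ} (hX : 1 < X) : ‖((X : ℂ) - 1 / 2) / ((X : ℂ) + (ta : ℂ))‖ ≤ 1 := by
  have h0 := ta_gt_half
  have h1 : ((X : ℂ) - 1 / 2) / ((X : ℂ) + (ta : ℂ)) = (((X - 1 / 2) / (X + ta) : ℝ) : ℂ) := by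
    push_cast
    rfl
  rw [h1, Complex.norm_real, Real.norm_eq_abs, abs_of_nonneg (div_nonneg (by linarith) (by linarith))]
  exact div_le_one_of_le₀ (by linarith) (by linarith)

theorem snd_le {X : ℝ} (hX : 1 < X) : ‖(T2 X - (ta : ℂ)) / (T2 X + 1 / 2)‖ ≤ 1 := by
  have h0 := ta_gt_half
  rw [norm_div]
  refine div_le_one_of_le₀ ?_ (norm_nonneg _)
  apply norm_le_of_normSq
  have e1 := T2_normSq_add hX.le (1 / 2)
  have e2 := T2_normSq_add hX.le (-ta)
  rw [Complex.ofReal_neg, ← sub_eq_add_neg] at e2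
  have e3 : T2 X + 1 / 2 = T2 X + ((1 / 2 : ℝ) : ℂ) := by
    push_cast
    rfl
  rw [e3, e1, e2]
  have := ta_sq
  nlinarith

/-- (X-1/2) X (X-ta) / ((X+ta)^2 (X+1)) ≤ 1 for the square of the first factors, (X-τ)/(X+τ) ≤ exp(-2τ/X) -/
theorem Wf_norm {N : ℕ} {τ : Fin N → ℝ} (hτ : ∀ k, ta ≤ τ k ∧ τ k ≤ 1) {X : ℝ} (hX : 1 < X) :
    ‖Wf τ X‖ ≤ Real.exp (-((N : ℝ) / X)) := by
  unfold Wf
  rw [norm_mul, norm_mul]
  have h1 : ‖∏ k, (((X : ℂ) - (τ k : ℂ)) * (T2 X - (τ k : ℂ)) /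
      (((X : ℂ) + (τ k : ℂ)) * (T2 X + (τ k : ℂ))))‖ ≤ ∏ _k : Fin N, Real.exp (-(1 / X)) := by
    rw [norm_prod]
    apply Finset.prod_le_prod
    · intro k _
      exact norm_nonneg _
    · intro k _
      rw [mul_div_mul_comm, norm_mul]
      calc _ ≤ Real.exp (-(1 / X)) * 1 :=
            mul_le_mul (row_le (hτ k).1 (hτ k).2 hX) (row2_le (hτ k).1 hX) (norm_nonneg _)
              (Real.exp_pos _).le
        _ = _ := mul_one _
  have h2 : ∏ _k : Fin N, Real.exp (-(1 / X)) = Real.exp (-((N : ℝ) / X)) := by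
    rw [Finset.prod_const, Finset.card_univ, Fintype.card_fin, ← Real.exp_nat_mul]
    congr 1
    ring
  rw [h2] at h1
  have h3 := mul_le_mul (fst_le hX) (snd_le hX) (norm_nonneg _) zero_le_one
  rw [one_mul] at h3
  calc _ ≤ 1 * Real.exp (-((N : ℝ) / X)) := mul_le_mul h3 h1 (norm_nonneg _) zero_le_one
    _ = _ := one_mul _

theorem T2_cont : Continuous T2 := by
  have h : T2 = fun X : ℝ => ((X / 2 : ℝ) : ℂ) + ((-(ta * Real.sqrt (X ^ 2 - 1)) : ℝ) : ℂ) * Complex.I := by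
    funext X
    apply Complex.ext
    · rw [T2_re]
      simp
    · rw [T2_im]
      simp
  rw [h]
  fun_prop

theorem Wf_cont {N : ℕ} {τ : Fin N → ℝ} (hτ : ∀ k, ta ≤ τ k ∧ τ k ≤ 1) : ContinuousOn (Wf τ) (Set.Ioi 1) := by
  have h0 := ta_gt_half
  have hT := T2_cont.continuousOn (s := Set.Ioi (1 : ℝ))
  have hX : ContinuousOn (fun X : ℝ => (X : ℂ)) (Set.Ioi (1 : ℝ)) :=
    Complex.continuous_ofReal.continuousOn
  have hne : ∀ t : ℝ, 0 ≤ t → ∀ X ∈ Set.Ioi (1 : ℝ), (X : ℂ) + (t : ℂ) ≠ 0 := by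
    intro t ht X hX1 h
    have h1 := congrArg Complex.re h
    rw [Complex.add_re, Complex.ofReal_re, Complex.ofReal_re, Complex.zero_re] at h1
    rw [Set.mem_Ioi] at hX1
    linarith
  unfold Wf
  refine ContinuousOn.mul (ContinuousOn.mul ?_ ?_) ?_
  · refine ContinuousOn.div (hX.sub continuousOn_const) (hX.add continuousOn_const) ?_
    exact hne ta (by linarith)
  · refine ContinuousOn.div (hT.sub continuousOn_const) (hT.add continuousOn_const) ?_
    intro X hX1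
    have h := T2_add_ne (x := 1 / 2) (by norm_num) (Set.mem_Ioi.mp hX1)
    push_cast at h
    exact h
  · refine continuousOn_finsetProd _ ?_
    intro k _
    have hk : 0 ≤ τ k := by linarith [(hτ k).1]
    refine ContinuousOn.div ((hX.sub continuousOn_const).mul (hT.sub continuousOn_const))
      ((hX.add continuousOn_const).mul (hT.add continuousOn_const)) ?_
    intro X hX1
    exact mul_ne_zero (hne _ hk X hX1) (T2_add_ne hk (Set.mem_Ioi.mp hX1))

theorem norm_mul_sub_one {z w : ℂ} (hz : ‖z‖ ≤ 1) : ‖z * w - 1‖ ≤ ‖z - 1‖ + ‖w - 1‖ := by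
  have h : z * w - 1 = z * (w - 1) + (z - 1) := by ring
  rw [h]
  refine le_trans (norm_add_le _ _) ?_
  rw [norm_mul]
  nlinarith [norm_nonneg (w - 1)]

theorem norm_prod_sub_one {ι : Type*} (s : Finset ι) (f : ι → ℂ) (hf : ∀ i ∈ s, ‖f i‖ ≤ 1) :
    ‖∏ i ∈ s, f i - 1‖ ≤ ∑ i ∈ s, ‖f i - 1‖ := by
  classical
  induction s using Finset.induction_on with
  | empty => simp
  | insert a s ha ih =>
    rw [Finset.prod_insert ha, Finset.sum_insert ha]
    refine le_trans (norm_mul_sub_one (hf a (Finset.mem_insert_self a s))) ?_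
    have := ih (fun i hi => hf i (Finset.mem_insert_of_mem hi))
    linarith

theorem div_sub_one_le {a b : ℂ} {c X : ℝ} (hX : 0 < X) (hb : X ≤ ‖b‖) (hab : ‖a - b‖ ≤ c) :
    ‖a / b - 1‖ ≤ c / X := by
  have hb0 : b ≠ 0 := by
    intro h
    rw [h, norm_zero] at hb
    linarith
  have h : a / b - 1 = (a - b) / b := by
    field_simp
  rw [h, norm_div]
  have hc : 0 ≤ c := le_trans (norm_nonneg _) hab
  exact div_le_div₀ hc hab hX hb

theorem X_le_norm_add {t X : ℝ} (ht : 0 ≤ t) (_hX : 1 < X) : X ≤ ‖(X : ℂ) + (t : ℂ)‖ := by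
  have h : (X : ℂ) + (t : ℂ) = ((X + t : ℝ) : ℂ) := by
    push_cast
    rfl
  rw [h, Complex.norm_real, Real.norm_eq_abs]
  exact le_trans (by linarith) (le_abs_self _)

theorem X_le_norm_T2_add {t X : ℝ} (ht : 1 / 2 ≤ t) (hX : 1 < X) : X ≤ ‖T2 X + (t : ℂ)‖ := by
  have h1 : Complex.normSq (X : ℂ) ≤ Complex.normSq (T2 X + (t : ℂ)) := by
    rw [T2_normSq_add hX.le, Complex.normSq_ofReal]
    nlinarith
  have h2 := norm_le_of_normSq h1
  rw [Complex.norm_real, Real.norm_eq_abs] at h2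
  exact le_trans (le_abs_self _) h2

/-- |W - 1| ≤ C (N + 1) / X -/
theorem Wf_sub_one : ∃ C : ℝ, ∀ (N : ℕ) (τ : Fin N → ℝ), (∀ k, ta ≤ τ k ∧ τ k ≤ 1) → ∀ X : ℝ, 1 < X →
    ‖Wf τ X - 1‖ ≤ C * ((N + 1) / X) := by
  refine ⟨4, fun N τ hτ X hX => ?_⟩
  have h0 := ta_gt_half
  have h0' := ta_lt_one
  have hX0 : (0 : ℝ) < X := by linarith
  have a1 : ‖((X : ℂ) - 1 / 2) / ((X : ℂ) + (ta : ℂ)) - 1‖ ≤ 2 / X := by
    refine div_sub_one_le hX0 (X_le_norm_add (by linarith) hX) ?_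
    have e : (X : ℂ) - 1 / 2 - ((X : ℂ) + (ta : ℂ)) = ((-(1 / 2 + ta) : ℝ) : ℂ) := by
      push_cast
      ring
    rw [e, Complex.norm_real, Real.norm_eq_abs, abs_neg, abs_of_nonneg (by linarith)]
    linarith
  have a2 : ‖(T2 X - (ta : ℂ)) / (T2 X + 1 / 2) - 1‖ ≤ 2 / X := by
    have hh := X_le_norm_T2_add (t := 1 / 2) le_rfl hX
    push_cast at hh
    refine div_sub_one_le hX0 hh ?_
    have e : T2 X - (ta : ℂ) - (T2 X + 1 / 2) = ((-(1 / 2 + ta) : ℝ) : ℂ) := by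
      push_cast
      ring
    rw [e, Complex.norm_real, Real.norm_eq_abs, abs_neg, abs_of_nonneg (by linarith)]
    linarith
  have a3 : ∀ k, ‖((X : ℂ) - (τ k : ℂ)) / ((X : ℂ) + (τ k : ℂ)) - 1‖ ≤ 2 / X := by
    intro k
    have hk := hτ k
    refine div_sub_one_le hX0 (X_le_norm_add (by linarith) hX) ?_
    have e : (X : ℂ) - (τ k : ℂ) - ((X : ℂ) + (τ k : ℂ)) = ((-(2 * τ k) : ℝ) : ℂ) := by
      push_cast
      ring
    rw [e, Complex.norm_real, Real.norm_eq_abs, abs_neg, abs_of_nonneg (by linarith)]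
    linarith
  have a4 : ∀ k, ‖(T2 X - (τ k : ℂ)) / (T2 X + (τ k : ℂ)) - 1‖ ≤ 2 / X := by
    intro k
    have hk := hτ k
    refine div_sub_one_le hX0 (X_le_norm_T2_add (by linarith) hX) ?_
    have e : T2 X - (τ k : ℂ) - (T2 X + (τ k : ℂ)) = ((-(2 * τ k) : ℝ) : ℂ) := by
      push_cast
      ring
    rw [e, Complex.norm_real, Real.norm_eq_abs, abs_neg, abs_of_nonneg (by linarith)]
    linarith
  have b1 : ∀ k, ‖((X : ℂ) - (τ k : ℂ)) * (T2 X - (τ k : ℂ)) /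
      (((X : ℂ) + (τ k : ℂ)) * (T2 X + (τ k : ℂ)))‖ ≤ 1 := by
    intro k
    rw [mul_div_mul_comm, norm_mul]
    have h5 : Real.exp (-(1 / X)) ≤ 1 := by
      rw [Real.exp_le_one_iff]
      have : 0 < 1 / X := by positivity
      linarith
    have h6 := mul_le_mul (le_trans (row_le (hτ k).1 (hτ k).2 hX) h5) (row2_le (hτ k).1 hX)
      (norm_nonneg _) zero_le_one
    rw [one_mul] at h6
    exact h6
  have b2 : ∀ k, ‖((X : ℂ) - (τ k : ℂ)) * (T2 X - (τ k : ℂ)) /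
      (((X : ℂ) + (τ k : ℂ)) * (T2 X + (τ k : ℂ))) - 1‖ ≤ 4 / X := by
    intro k
    rw [mul_div_mul_comm]
    have h5 : Real.exp (-(1 / X)) ≤ 1 := by
      rw [Real.exp_le_one_iff]
      have : 0 < 1 / X := by positivity
      linarith
    refine le_trans (norm_mul_sub_one (le_trans (row_le (hτ k).1 (hτ k).2 hX) h5)) ?_
    have e : 4 / X = 2 / X + 2 / X := by ring
    rw [e]
    exact add_le_add (a3 k) (a4 k)
  have c1 := norm_prod_sub_one Finset.univ (fun k => ((X : ℂ) - (τ k : ℂ)) * (T2 X - (τ k : ℂ)) /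
      (((X : ℂ) + (τ k : ℂ)) * (T2 X + (τ k : ℂ)))) (fun k _ => b1 k)
  have c2 : ∑ k : Fin N, ‖((X : ℂ) - (τ k : ℂ)) * (T2 X - (τ k : ℂ)) /
      (((X : ℂ) + (τ k : ℂ)) * (T2 X + (τ k : ℂ))) - 1‖ ≤ ∑ _k : Fin N, 4 / X :=
    Finset.sum_le_sum (fun k _ => b2 k)
  rw [Finset.sum_const, Finset.card_univ, Fintype.card_fin, nsmul_eq_mul] at c2
  have c3 := norm_mul_sub_one (w := (T2 X - (ta : ℂ)) / (T2 X + 1 / 2)) (fst_le hX)
  have hn : ‖((X : ℂ) - 1 / 2) / ((X : ℂ) + (ta : ℂ)) * ((T2 X - (ta : ℂ)) / (T2 X + 1 / 2))‖ ≤ 1 := by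
    rw [norm_mul]
    have h3 := mul_le_mul (fst_le hX) (snd_le hX) (norm_nonneg _) zero_le_one
    rw [one_mul] at h3
    exact h3
  unfold Wf
  refine le_trans (norm_mul_sub_one hn) ?_
  have e : 4 * ((N + 1) / X) = (2 / X + 2 / X) + (N : ℝ) * (4 / X) := by ring
  rw [e]
  exact add_le_add (le_trans c3 (add_le_add a1 a2)) (le_trans c1 c2)

theorem norm_add_T2_ge {x X : ℝ} (_hx : 0 ≤ x) (_hX : 1 < X) : x + X / 2 ≤ ‖(x : ℂ) + T2 X‖ := by
  have h := Complex.re_le_norm ((x : ℂ) + T2 X)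
  rw [Complex.add_re, T2_re, Complex.ofReal_re] at h
  exact h

theorem Cf_integrand_meas {f : ℝ → ℝ} (hf : Measurable f) (X : ℝ) :
    Measurable (fun x : ℝ => (f x : ℂ) / ((x : ℂ) + T2 X)) := by
  fun_prop

/-- pointwise bounds of the integrand of the Cauchy transform -/
theorem Cf_pt {f : ℝ → ℝ} {M : ℝ} (hM : Bd f M) {X x : ℝ} (hX : 1 < X) (hx : 1 < x) :
    ‖(f x : ℂ) / ((x : ℂ) + T2 X)‖ ≤ M * x ^ (-(3 / 4) : ℝ) / (x + X / 2) := by
  rw [norm_div, Complex.norm_real, Real.norm_eq_abs]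
  have h1 := norm_add_T2_ge (x := x) (by linarith) hX
  have h2 := hM x hx
  exact div_le_div₀ (le_trans (abs_nonneg _) h2) h2 (by linarith) h1

theorem M_nonneg {f : ℝ → ℝ} {M : ℝ} (hM : Bd f M) : 0 ≤ M := by
  have h := hM 2 (by norm_num)
  have h1 : (0 : ℝ) < 2 ^ (-(3 / 4) : ℝ) := by positivity
  by_contra hc
  rw [not_le] at hc
  have h2 : M * 2 ^ (-(3 / 4) : ℝ) < 0 := mul_neg_of_neg_of_pos hc h1
  linarith [abs_nonneg (f 2)]

theorem rpow_div_self {x : ℝ} (hx : 0 < x) : x ^ (-(3 / 4) : ℝ) / x = x ^ (-(7 / 4) : ℝ) := by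
  have h : (-(7 / 4) : ℝ) = -(3 / 4) - 1 := by norm_num
  rw [h, Real.rpow_sub hx, Real.rpow_one]

theorem Cf_int {f : ℝ → ℝ} {M : ℝ} (hf : Measurable f) (hM : Bd f M) {X : ℝ} (hX : 1 < X) :
    IntegrableOn (fun x : ℝ => (f x : ℂ) / ((x : ℂ) + T2 X)) (Set.Ioi 1) := by
  have hM0 := M_nonneg hM
  have h1 : IntegrableOn (fun x : ℝ => M * x ^ (-(7 / 4) : ℝ)) (Set.Ioi 1) :=
    (integrableOn_Ioi_rpow_of_lt (by norm_num) zero_lt_one).const_mul M
  refine Integrable.mono' h1 (Cf_integrand_meas hf X).aestronglyMeasurable ?_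
  refine (ae_restrict_iff' measurableSet_Ioi).mpr (Filter.Eventually.of_forall ?_)
  intro x hx
  have hx1 : (1 : ℝ) < x := hx
  refine le_trans (Cf_pt hM hX hx1) ?_
  rw [← rpow_div_self (by linarith : (0 : ℝ) < x), ← mul_div_assoc]
  exact div_le_div_of_nonneg_left (by positivity) (by linarith) (by linarith)

theorem Cf_le : ∃ C : ℝ, ∀ (f : ℝ → ℝ) (M : ℝ), Measurable f → Bd f M → ∀ X : ℝ, 1 < X →
    ‖Cf f (T2 X)‖ ≤ C * M * X ^ (-(3 / 4) : ℝ) := by
  refine ⟨1 / Real.pi * (8 + 4 / 3), fun f M hf hM X hX => ?_⟩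
  have hM0 := M_nonneg hM
  have hX0 : (0 : ℝ) < X := by linarith
  have hpi := Real.pi_pos
  have hI := Cf_int hf hM hX
  unfold Cf
  rw [norm_mul, Complex.norm_real, Real.norm_eq_abs, abs_of_nonneg (by positivity)]
  rw [mul_assoc, mul_assoc (1 / Real.pi)]
  refine mul_le_mul_of_nonneg_left ?_ (by positivity)
  refine le_trans (norm_integral_le_integral_norm _) ?_
  have hsplit : Set.Ioi (1 : ℝ) = Set.Ioc 1 X ∪ Set.Ioi X := (Set.Ioc_union_Ioi_eq_Ioi hX.le).symm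
  have hd : Disjoint (Set.Ioc 1 X) (Set.Ioi X) := Set.Ioc_disjoint_Ioi le_rfl
  rw [hsplit]
  rw [hsplit] at hI
  have hI1 := (hI.mono_set Set.subset_union_left).norm
  have hI2 := (hI.mono_set Set.subset_union_right).norm
  rw [setIntegral_union hd measurableSet_Ioi hI1 hI2]
  have hA : ∫ x in Set.Ioc 1 X, ‖(f x : ℂ) / ((x : ℂ) + T2 X)‖ ≤
      8 * (M * X ^ (-(3 / 4) : ℝ)) := by
    have hg : IntegrableOn (fun x : ℝ => M * (2 / X) * x ^ (-(3 / 4) : ℝ)) (Set.Ioc 1 X) := by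
      have h := (intervalIntegral.intervalIntegrable_rpow (a := 1) (b := X) (r := (-(3 / 4) : ℝ))
        (μ := volume) (Or.inr (by
          rw [Set.uIcc_of_le hX.le]
          intro h
          exact absurd h.1 (by norm_num))))
      rw [intervalIntegrable_iff_integrableOn_Ioc_of_le hX.le] at h
      exact h.const_mul _
    have hmono : ∫ x in Set.Ioc 1 X, ‖(f x : ℂ) / ((x : ℂ) + T2 X)‖ ≤
        ∫ x in Set.Ioc 1 X, M * (2 / X) * x ^ (-(3 / 4) : ℝ) := by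
      refine setIntegral_mono_on hI1 hg measurableSet_Ioc ?_
      intro x hx
      have hx1 : (1 : ℝ) < x := hx.1
      refine le_trans (Cf_pt hM hX hx1) ?_
      have e : M * (2 / X) * x ^ (-(3 / 4) : ℝ) = M * x ^ (-(3 / 4) : ℝ) / (X / 2) := by
        field_simp
      rw [e]
      exact div_le_div_of_nonneg_left (by positivity) (by linarith) (by linarith)
    refine le_trans hmono ?_
    rw [integral_const_mul, ← intervalIntegral.integral_of_le hX.le,
      integral_rpow (Or.inl (by norm_num))]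
    have e1 : (-(3 / 4) : ℝ) + 1 = 1 / 4 := by norm_num
    rw [e1, Real.one_rpow]
    have e2 : X ^ (-(3 / 4) : ℝ) = X ^ (1 / 4 : ℝ) / X := by
      have h : (-(3 / 4) : ℝ) = 1 / 4 - 1 := by norm_num
      rw [h, Real.rpow_sub hX0, Real.rpow_one]
    rw [e2]
    have e3 : M * (2 / X) * ((X ^ (1 / 4 : ℝ) - 1) / (1 / 4)) =
        8 * (M * (X ^ (1 / 4 : ℝ) / X)) - 8 * (M / X) := by
      field_simp
      ring
    rw [e3]
    have : 0 ≤ M / X := by positivity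
    linarith
  have hB : ∫ x in Set.Ioi X, ‖(f x : ℂ) / ((x : ℂ) + T2 X)‖ ≤
      4 / 3 * (M * X ^ (-(3 / 4) : ℝ)) := by
    have hg : IntegrableOn (fun x : ℝ => M * x ^ (-(7 / 4) : ℝ)) (Set.Ioi X) :=
      (integrableOn_Ioi_rpow_of_lt (by norm_num) hX0).const_mul M
    have hmono : ∫ x in Set.Ioi X, ‖(f x : ℂ) / ((x : ℂ) + T2 X)‖ ≤
        ∫ x in Set.Ioi X, M * x ^ (-(7 / 4) : ℝ) := by
      refine setIntegral_mono_on hI2 hg measurableSet_Ioi ?_
      intro x hx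
      have hx1 : (1 : ℝ) < x := lt_trans hX hx
      refine le_trans (Cf_pt hM hX hx1) ?_
      rw [← rpow_div_self (by linarith : (0 : ℝ) < x), ← mul_div_assoc]
      exact div_le_div_of_nonneg_left (by positivity) (by linarith) (by linarith)
    refine le_trans hmono ?_
    rw [integral_const_mul, integral_Ioi_rpow_of_lt (by norm_num) hX0]
    have e1 : (-(7 / 4) : ℝ) + 1 = -(3 / 4) := by norm_num
    rw [e1]
    have e2 : M * (-X ^ (-(3 / 4) : ℝ) / (-(3 / 4) : ℝ)) = 4 / 3 * (M * X ^ (-(3 / 4) : ℝ)) := by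
      ring
    rw [e2]
  calc _ ≤ 8 * (M * X ^ (-(3 / 4) : ℝ)) + 4 / 3 * (M * X ^ (-(3 / 4) : ℝ)) := add_le_add hA hB
    _ = _ := by ring

end EXS
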