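import Pool.Agent.EXS.S4
import Pool.Agent.EXS.ProdExp

/-!
SHARP S6, first part: bounds and limits of the source and of the multiplier.
-/

set_option autoImplicit false

namespace EXS

open MeasureTheory Filter Topology

namespace A6

lemma ta_sq : ta ^ 2 = 3 / 4 := by
  unfold ta
  rw [div_pow, Real.sq_sqrt (by norm_num)]
  norm_num

lemma ta_pos : 0 < ta := by
  unfold ta
  positivity

lemma ta_lt : ta < 1 := by
  nlinarith [ta_sq, ta_pos]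

lemma cst_mem : 0 ≤ cst ∧ cst ≤ 1 := by
  unfold cst
  refine ⟨Real.cos_nonneg_of_mem_Icc ⟨by linarith [Real.pi_pos], by linarith [Real.pi_pos]⟩, Real.cos_le_one _⟩

/-- e^η for X = cosh η -/
noncomputable def ee (X : ℝ) : ℝ := X + Real.sqrt (X ^ 2 - 1)

lemma le_ee (X : ℝ) : X ≤ ee X := by
  unfold ee
  have := Real.sqrt_nonneg (X ^ 2 - 1)
  linarith

lemma ee_le {X : ℝ} (hX : 1 ≤ X) : ee X ≤ 2 * X := by
  unfold ee
  have h : Real.sqrt (X ^ 2 - 1) ≤ X := by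
    rw [Real.sqrt_le_left (by linarith)]
    linarith
  linarith

lemma ee_pos {X : ℝ} (hX : 1 ≤ X) : 0 < ee X := lt_of_lt_of_le (by linarith) (le_ee X)

lemma ee_exp {X : ℝ} (hX : 1 ≤ X) (a : ℝ) : Real.exp (a * Real.arcosh X) = ee X ^ a := by
  unfold ee
  rw [← Real.exp_arcosh hX, ← Real.exp_mul, mul_comm]

lemma cosh_val {X : ℝ} (hX : 1 ≤ X) :
    Real.cosh (3 / 4 * Real.arcosh X) = (ee X ^ (3 / 4 : ℝ) + ee X ^ (-(3 / 4) : ℝ)) / 2 := by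
  rw [Real.cosh_eq, ← ee_exp hX, ← ee_exp hX, neg_mul]

lemma sinh_val {X : ℝ} (hX : 1 ≤ X) :
    Real.sinh (3 / 4 * Real.arcosh X) = (ee X ^ (3 / 4 : ℝ) - ee X ^ (-(3 / 4) : ℝ)) / 2 := by
  rw [Real.sinh_eq, ← ee_exp hX, ← ee_exp hX, neg_mul]

lemma c2_eq (X : ℝ) : c2 X = ((Real.sqrt 2 / 2 * Real.cosh (3 / 4 * Real.arcosh X) : ℝ) : ℂ) -
    ((Real.sqrt 2 / 2 * Real.sinh (3 / 4 * Real.arcosh X) : ℝ) : ℂ) * Complex.I := by
  unfold c2
  rw [mul_comm Complex.I, Complex.cos_add_mul_I]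
  have h1 : Complex.cos ((Real.pi : ℂ) / 4) = ((Real.sqrt 2 / 2 : ℝ) : ℂ) := by
    rw [← Real.cos_pi_div_four]
    push_cast
    rfl
  have h2 : Complex.sin ((Real.pi : ℂ) / 4) = ((Real.sqrt 2 / 2 : ℝ) : ℂ) := by
    rw [← Real.sin_pi_div_four]
    push_cast
    rfl
  rw [h1, h2, ← Complex.ofReal_cosh, ← Complex.ofReal_sinh]
  push_cast
  ring

lemma c2_im (X : ℝ) : (c2 X).im = -(Real.sqrt 2 / 2 * Real.sinh (3 / 4 * Real.arcosh X)) := by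
  rw [c2_eq]
  simp only [Complex.sub_im, Complex.ofReal_im, Complex.mul_im, Complex.ofReal_re, Complex.I_im, Complex.I_re]
  ring

lemma c2_im' {X : ℝ} (hX : 1 ≤ X) : (c2 X).im = -(X * sh X) := by
  rw [c2_im]
  unfold sh
  have h2 : Real.sqrt 2 ^ 2 = 2 := Real.sq_sqrt (by norm_num)
  have h3 : Real.sqrt 2 ≠ 0 := by positivity
  have hX0 : X ≠ 0 := by linarith
  field_simp
  rw [h2]

lemma norm_c2 {X : ℝ} (hX : 1 ≤ X) : ‖c2 X‖ ≤ 2 * X ^ (3 / 4 : ℝ) := by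
  have hs2 : Real.sqrt 2 / 2 ≤ 1 := by
    have : Real.sqrt 2 ≤ 2 := by
      rw [Real.sqrt_le_left (by norm_num)]
      norm_num
    linarith
  have hE := ee_pos hX
  have h1 : ee X ^ (3 / 4 : ℝ) ≤ (2 * X) ^ (3 / 4 : ℝ) := Real.rpow_le_rpow hE.le (ee_le hX) (by norm_num)
  have h2 : (2 * X) ^ (3 / 4 : ℝ) ≤ 2 * X ^ (3 / 4 : ℝ) := by
    rw [Real.mul_rpow (by norm_num) (by linarith)]
    have : (2 : ℝ) ^ (3 / 4 : ℝ) ≤ 2 ^ (1 : ℝ) := Real.rpow_le_rpow_of_exponent_le (by norm_num) (by norm_num)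
    rw [Real.rpow_one] at this
    have h0 : 0 ≤ X ^ (3 / 4 : ℝ) := by positivity
    nlinarith
  have hcs : 0 ≤ Real.cosh (3 / 4 * Real.arcosh X) := (Real.cosh_pos _).le
  have hsn : 0 ≤ Real.sinh (3 / 4 * Real.arcosh X) := by
    rw [Real.sinh_nonneg_iff]
    have := Real.arcosh_nonneg hX
    positivity
  have h3 : ‖c2 X‖ ≤ Real.cosh (3 / 4 * Real.arcosh X) + Real.sinh (3 / 4 * Real.arcosh X) := by
    rw [c2_eq]
    refine (norm_sub_le _ _).trans ?_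
    rw [norm_mul, Complex.norm_I, mul_one, Complex.norm_real, Complex.norm_real,
      Real.norm_of_nonneg (by positivity), Real.norm_of_nonneg (by positivity)]
    nlinarith
  have h4 : Real.cosh (3 / 4 * Real.arcosh X) + Real.sinh (3 / 4 * Real.arcosh X) = ee X ^ (3 / 4 : ℝ) := by
    rw [cosh_val hX, sinh_val hX]
    ring
  rw [h4] at h3
  linarith

lemma T2_ne {X : ℝ} (hX : 1 ≤ X) : T2 X ≠ 0 := by
  intro h
  have := congrArg Complex.re h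
  simp only [T2, Complex.zero_re] at this
  linarith

/-- the source -/
lemma src_eq (W : ℝ → ℂ) {X : ℝ} (hX : 1 ≤ X) :
    src W X = -(1 / X) * ((W X - 1) * (c2 X - (cst : ℂ))).im := by
  unfold src Wt
  have hT := T2_ne hX
  have hX0 : (X : ℂ) ≠ 0 := by
    have : X ≠ 0 := by linarith
    exact_mod_cast this
  have h1 : -(T2 X / (X : ℂ)) * W X * ((c2 X - (cst : ℂ)) / T2 X) =
      ((-(1 / X) : ℝ) : ℂ) * (W X * (c2 X - (cst : ℂ))) := by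
    push_cast
    field_simp
  rw [h1, Complex.im_ofReal_mul]
  have h2 : (W X * (c2 X - (cst : ℂ))).im = ((W X - 1) * (c2 X - (cst : ℂ))).im + (c2 X).im := by
    have : W X * (c2 X - (cst : ℂ)) = (W X - 1) * (c2 X - (cst : ℂ)) + (c2 X - (cst : ℂ)) := by ring
    rw [this, Complex.add_im, Complex.sub_im, Complex.ofReal_im, sub_zero]
  rw [h2, c2_im' hX]
  have hX0' : X ≠ 0 := by linarith
  field_simp
  ring

end A6

open A6

/-- |src| ≤ C min(1, N/X) X^(-1/4) + C |W| / X -/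
theorem src_le : ∃ C : ℝ, ∀ (N : ℕ) (τ : Fin N → ℝ), (∀ k, ta ≤ τ k ∧ τ k ≤ 1) → ∀ X : ℝ, 1 < X →
    |src (Wf τ) X| ≤ C * (min 1 (((N : ℝ) + 1) / X) * X ^ (-(1 / 4) : ℝ) + 1 / X) := by
  obtain ⟨C, hC⟩ := Wf_sub_one
  refine ⟨2 * max 2 C, fun N τ hτ X hX => ?_⟩
  have hX0 : 0 < X := by linarith
  have hN : (0 : ℝ) ≤ N := Nat.cast_nonneg N
  obtain ⟨m, hm⟩ : ∃ m, m = min 1 (((N : ℝ) + 1) / X) := ⟨_, rfl⟩
  have hm0 : 0 ≤ m := by
    rw [hm]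
    positivity
  have hm1 : m ≤ 1 := by
    rw [hm]
    exact min_le_left _ _
  have hM2 : (2 : ℝ) ≤ max 2 C := le_max_left _ _
  have hW : ‖Wf τ X - 1‖ ≤ max 2 C * m := by
    rw [hm]
    rcases min_cases (1 : ℝ) (((N : ℝ) + 1) / X) with ⟨h1, -⟩ | ⟨h1, -⟩
    · rw [h1, mul_one]
      refine le_trans ?_ hM2
      have h2 := Wf_norm hτ hX
      have h3 : Real.exp (-((N : ℝ) / X)) ≤ 1 := by
        rw [Real.exp_le_one_iff, neg_nonpos]
        positivity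
      calc ‖Wf τ X - 1‖ ≤ ‖Wf τ X‖ + ‖(1 : ℂ)‖ := norm_sub_le _ _
        _ ≤ 1 + 1 := by
          rw [norm_one]
          linarith
        _ = 2 := by norm_num
    · rw [h1]
      refine (hC N τ hτ X hX).trans ?_
      exact mul_le_mul_of_nonneg_right (le_max_right _ _) (by positivity)
  have hc : ‖c2 X - (cst : ℂ)‖ ≤ 2 * X ^ (3 / 4 : ℝ) + 1 := by
    refine (norm_sub_le _ _).trans ?_
    rw [Complex.norm_real, Real.norm_of_nonneg cst_mem.1]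
    have := norm_c2 hX.le
    linarith [cst_mem.2]
  rw [src_eq _ hX.le, abs_mul, abs_neg, abs_of_pos (by positivity : 0 < 1 / X), ← hm]
  have h1 : |((Wf τ X - 1) * (c2 X - (cst : ℂ))).im| ≤ max 2 C * m * (2 * X ^ (3 / 4 : ℝ) + 1) := by
    refine (Complex.abs_im_le_norm _).trans ?_
    rw [norm_mul]
    exact mul_le_mul hW hc (norm_nonneg _) (by positivity)
  have h2 : 1 / X * X ^ (3 / 4 : ℝ) = X ^ (-(1 / 4) : ℝ) := by
    rw [one_div, ← Real.rpow_neg_one, ← Real.rpow_add hX0]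
    norm_num
  calc 1 / X * |((Wf τ X - 1) * (c2 X - (cst : ℂ))).im| ≤ 1 / X * (max 2 C * m * (2 * X ^ (3 / 4 : ℝ) + 1)) := by gcongr
    _ = 2 * max 2 C * (m * (1 / X * X ^ (3 / 4 : ℝ)) + m * (1 / X) / 2) := by ring
    _ ≤ 2 * max 2 C * (m * (1 / X * X ^ (3 / 4 : ℝ)) + 1 / X) := by
        have h3 : 0 ≤ 1 / X := by positivity
        have h4 : m * (1 / X) / 2 ≤ 1 / X := by nlinarith
        exact mul_le_mul_of_nonneg_left (by linarith) (by positivity)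
    _ = _ := by rw [h2]

theorem src_Bd : ∃ C : ℝ, ∀ (N : ℕ) (τ : Fin N → ℝ), (∀ k, ta ≤ τ k ∧ τ k ≤ 1) → Bd (src (Wf τ)) (C * Real.sqrt (N + 1)) := by
  obtain ⟨C, hC⟩ := src_le
  refine ⟨2 * |C|, fun N τ hτ X hX => ?_⟩
  have hX0 : 0 < X := by linarith
  have hN : (0 : ℝ) ≤ N := Nat.cast_nonneg N
  have hS1 : 1 ≤ Real.sqrt ((N : ℝ) + 1) := by
    rw [Real.one_le_sqrt]
    linarith
  have h1 := hC N τ hτ X hX
  have hmin : min 1 (((N : ℝ) + 1) / X) ≤ Real.sqrt ((N : ℝ) + 1) * X ^ (-(1 / 2) : ℝ) := by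
    have e1 : Real.sqrt ((N : ℝ) + 1) * X ^ (-(1 / 2) : ℝ) = Real.sqrt (((N : ℝ) + 1) / X) := by
      rw [Real.sqrt_div (by positivity), Real.rpow_neg hX0.le, Real.sqrt_eq_rpow X]
      rfl
    rw [e1]
    apply Real.le_sqrt_of_sq_le
    rcases min_cases (1 : ℝ) (((N : ℝ) + 1) / X) with ⟨h2, h3⟩ | ⟨h2, h3⟩
    · rw [h2]
      linarith
    · rw [h2, sq]
      have : 0 ≤ ((N : ℝ) + 1) / X := by positivity
      nlinarith
  have h2 : X ^ (-(1 / 2) : ℝ) * X ^ (-(1 / 4) : ℝ) = X ^ (-(3 / 4) : ℝ) := by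
    rw [← Real.rpow_add hX0]
    norm_num
  have h3 : 1 / X ≤ X ^ (-(3 / 4) : ℝ) := by
    rw [one_div, ← Real.rpow_neg_one]
    exact Real.rpow_le_rpow_of_exponent_le hX.le (by norm_num)
  have hp4 : 0 ≤ X ^ (-(1 / 4) : ℝ) := by positivity
  have hp3 : 0 ≤ X ^ (-(3 / 4) : ℝ) := by positivity
  calc |src (Wf τ) X| ≤ C * (min 1 (((N : ℝ) + 1) / X) * X ^ (-(1 / 4) : ℝ) + 1 / X) := h1
    _ ≤ |C| * (min 1 (((N : ℝ) + 1) / X) * X ^ (-(1 / 4) : ℝ) + 1 / X) :=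
        mul_le_mul_of_nonneg_right (le_abs_self C) (by positivity)
    _ ≤ |C| * (Real.sqrt ((N : ℝ) + 1) * X ^ (-(1 / 2) : ℝ) * X ^ (-(1 / 4) : ℝ) + X ^ (-(3 / 4) : ℝ)) := by gcongr
    _ = |C| * (Real.sqrt ((N : ℝ) + 1) * X ^ (-(3 / 4) : ℝ) + 1 * X ^ (-(3 / 4) : ℝ)) := by rw [mul_assoc, h2, one_mul]
    _ ≤ |C| * (Real.sqrt ((N : ℝ) + 1) * X ^ (-(3 / 4) : ℝ) + Real.sqrt ((N : ℝ) + 1) * X ^ (-(3 / 4) : ℝ)) := by gcongr
    _ = 2 * |C| * Real.sqrt (N + 1) * X ^ (-(3 / 4) : ℝ) := by ring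

namespace A6

/-- limit of T_2(X)/X -/
noncomputable def r0 : ℂ := ⟨1 / 2, -ta⟩

lemma r0_eq : r0 = Complex.exp (-(Complex.I * (Real.pi / 3 : ℝ))) := by
  have : -(Complex.I * ((Real.pi / 3 : ℝ) : ℂ)) = ((-(Real.pi / 3) : ℝ) : ℂ) * Complex.I := by
    push_cast
    ring
  rw [this, Complex.exp_mul_I, ← Complex.ofReal_cos, ← Complex.ofReal_sin, Real.cos_neg, Real.sin_neg,
    Real.cos_pi_div_three, Real.sin_pi_div_three]
  apply Complex.ext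
  · simp [r0]
  · simp [r0, ta]

lemma r0_ne : r0 ≠ 0 := by
  rw [r0_eq]
  exact Complex.exp_ne_zero _

lemma sqrt_lim : Tendsto (fun X : ℝ => Real.sqrt (X ^ 2 - 1) / X) atTop (𝓝 1) := by
  have h1 : Tendsto (fun X : ℝ => Real.sqrt (1 - 1 / X ^ 2)) atTop (𝓝 (Real.sqrt (1 - 0))) := by
    apply Tendsto.comp Real.continuous_sqrt.continuousAt
    apply Tendsto.sub tendsto_const_nhds
    exact tendsto_const_nhds.div_atTop (tendsto_pow_atTop (by norm_num))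
  rw [sub_zero, Real.sqrt_one] at h1
  refine h1.congr' ?_
  filter_upwards [eventually_gt_atTop (1 : ℝ)] with X hX
  have hX0 : 0 < X := by linarith
  have e1 : (1 : ℝ) - 1 / X ^ 2 = (X ^ 2 - 1) / X ^ 2 := by field_simp
  rw [e1, Real.sqrt_div (by nlinarith), Real.sqrt_sq hX0.le]

lemma T2_lim : Tendsto (fun X : ℝ => T2 X / (X : ℂ)) atTop (𝓝 r0) := by
  have h1 : Tendsto (fun X : ℝ => ((1 / 2 : ℝ) : ℂ) + ((-(ta * (Real.sqrt (X ^ 2 - 1) / X)) : ℝ) : ℂ) * Complex.I) atTop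
      (𝓝 (((1 / 2 : ℝ) : ℂ) + ((-(ta * 1) : ℝ) : ℂ) * Complex.I)) := by
    apply Tendsto.add tendsto_const_nhds
    apply Tendsto.mul_const
    exact (Complex.continuous_ofReal.tendsto _).comp ((sqrt_lim.const_mul ta).neg)
  have e2 : ((1 / 2 : ℝ) : ℂ) + ((-(ta * 1) : ℝ) : ℂ) * Complex.I = r0 := by
    apply Complex.ext <;> simp [r0]
  rw [e2] at h1
  refine h1.congr' ?_
  filter_upwards [eventually_gt_atTop (1 : ℝ)] with X hX
  have hX0 : (X : ℂ) ≠ 0 := by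
    have : X ≠ 0 := by linarith
    exact_mod_cast this
  rw [eq_div_iff hX0]
  have hX1 : X ≠ 0 := by linarith
  apply Complex.ext
  · simp [T2]
    ring
  · simp [T2]
    field_simp

lemma Ns_lim {s : ℝ} (hs : 0 < s) : Tendsto (fun N : ℕ => (N : ℝ) * s) atTop atTop :=
  Tendsto.atTop_mul_const hs tendsto_natCast_atTop_atTop

lemma inv_lim : Tendsto (fun N : ℕ => 1 / (N : ℝ)) atTop (𝓝 0) := tendsto_one_div_atTop_nhds_zero_nat

/-- the uniform limit of the factors -/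
lemma phi_lim {s : ℝ} (hs : 0 < s) {ε : ℝ} (hε : 0 < ε) : ∃ d : ℝ, 0 < d ∧ ∀ (t u : ℝ) (r : ℂ), |t - ta| < d → |u| < d →
    ‖r - r0‖ < d → ‖-2 * (t : ℂ) * (1 + r) / (((s : ℂ) + t * u) * (r + t * u / s)) -
      -((2 * ta / s : ℝ) : ℂ) * (1 + Complex.exp (Complex.I * (Real.pi / 3 : ℝ)))‖ ≤ ε := by
  have hs0 : (s : ℂ) ≠ 0 := by exact_mod_cast hs.ne'
  have hcont : ContinuousAt (fun p : ℝ × ℝ × ℂ => -2 * (p.1 : ℂ) * (1 + p.2.2) /
      (((s : ℂ) + p.1 * p.2.1) * (p.2.2 + p.1 * p.2.1 / s))) (ta, 0, r0) := by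
    apply ContinuousAt.div
    · fun_prop
    · fun_prop
    · simp [hs0, r0_ne]
  have hval : -2 * (ta : ℂ) * (1 + r0) / (((s : ℂ) + ta * (0 : ℝ)) * (r0 + ta * (0 : ℝ) / s)) =
      -((2 * ta / s : ℝ) : ℂ) * (1 + Complex.exp (Complex.I * (Real.pi / 3 : ℝ))) := by
    have e1 : Complex.exp (Complex.I * (Real.pi / 3 : ℝ)) = 1 / r0 := by
      rw [r0_eq, Complex.exp_neg, one_div, inv_inv]
    rw [e1, Complex.ofReal_zero, mul_zero, zero_div, add_zero, add_zero]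
    have := r0_ne
    push_cast
    field_simp
    ring
  rw [Metric.continuousAt_iff] at hcont
  obtain ⟨d, hd, h⟩ := hcont ε hε
  refine ⟨d, hd, fun t u r h1 h2 h3 => ?_⟩
  have h4 := h (x := (t, u, r)) (by
    rw [Prod.dist_eq, Prod.dist_eq]
    simp only [max_lt_iff]
    refine ⟨?_, ?_, ?_⟩
    · rw [Real.dist_eq]
      exact h1
    · rw [Real.dist_eq, sub_zero]
      exact h2
    · rw [dist_eq_norm]
      exact h3)
  rw [dist_eq_norm] at h4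
  simp only at h4
  rw [hval] at h4
  exact h4.le

/-- limit of the first factors of the multiplier -/
lemma pre_lim : Tendsto (fun X : ℝ => (((X : ℂ) - 1 / 2) / ((X : ℂ) + (ta : ℂ))) *
    ((T2 X - (ta : ℂ)) / (T2 X + 1 / 2))) atTop (𝓝 1) := by
  have hinv : Tendsto (fun X : ℝ => (((1 / X : ℝ)) : ℂ)) atTop (𝓝 0) := by
    have h1 : Tendsto (fun X : ℝ => 1 / X) atTop (𝓝 0) := by
      simpa [one_div] using tendsto_inv_atTop_zero (𝕜 := ℝ)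
    have := (Complex.continuous_ofReal.tendsto 0).comp h1
    rw [Complex.ofReal_zero] at this
    exact this
  have h1 : Tendsto (fun X : ℝ => ((1 - (((1 / X : ℝ)) : ℂ) * (1 / 2)) / (1 + (((1 / X : ℝ)) : ℂ) * (ta : ℂ))) *
      ((T2 X / (X : ℂ) - (((1 / X : ℝ)) : ℂ) * (ta : ℂ)) / (T2 X / (X : ℂ) + (((1 / X : ℝ)) : ℂ) * (1 / 2)))) atTop
      (𝓝 (((1 - 0 * (1 / 2)) / (1 + 0 * (ta : ℂ))) * ((r0 - 0 * (ta : ℂ)) / (r0 + 0 * (1 / 2))))) := by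
    apply Tendsto.mul
    · apply Tendsto.div
      · exact tendsto_const_nhds.sub (hinv.mul_const _)
      · exact tendsto_const_nhds.add (hinv.mul_const _)
      · simp
    · apply Tendsto.div
      · exact T2_lim.sub (hinv.mul_const _)
      · exact T2_lim.add (hinv.mul_const _)
      · simpa using r0_ne
  have e1 : ((1 - 0 * (1 / 2)) / (1 + 0 * (ta : ℂ))) * ((r0 - 0 * (ta : ℂ)) / (r0 + 0 * (1 / 2))) = 1 := by
    simp [r0_ne]
  rw [e1] at h1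
  refine h1.congr' ?_
  filter_upwards [eventually_gt_atTop (1 : ℝ)] with X hX
  have hX0 : (X : ℂ) ≠ 0 := by
    have : X ≠ 0 := by linarith
    exact_mod_cast this
  have a1 : (1 - (((1 / X : ℝ)) : ℂ) * (1 / 2)) = ((X : ℂ) - 1 / 2) / X := by
    push_cast
    field_simp
  have a2 : (1 + (((1 / X : ℝ)) : ℂ) * (ta : ℂ)) = ((X : ℂ) + ta) / X := by
    push_cast
    field_simp
  have a3 : (T2 X / (X : ℂ) - (((1 / X : ℝ)) : ℂ) * (ta : ℂ)) = (T2 X - ta) / X := by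
    push_cast
    field_simp
  have a4 : (T2 X / (X : ℂ) + (((1 / X : ℝ)) : ℂ) * (1 / 2)) = (T2 X + 1 / 2) / X := by
    push_cast
    field_simp
  rw [a1, a2, a3, a4, div_div_div_cancel_right₀ hX0, div_div_div_cancel_right₀ hX0]

end A6

theorem Wf_lim {τ : (N : ℕ) → Fin N → ℝ} (hτ : ∀ N k, ta ≤ τ N k ∧ τ N k ≤ 1)
    (hδ : ∀ ε : ℝ, 0 < ε → ∀ᶠ N in atTop, ∀ k, |τ N k - ta| ≤ ε) {s : ℝ} (hs : 0 < s) :
    Tendsto (fun N : ℕ => Wf (τ N) (N * s)) atTop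
      (𝓝 (Complex.exp (-((2 * ta / s : ℝ) : ℂ) * (1 + Complex.exp (Complex.I * (Real.pi / 3 : ℝ)))))) := by
  have hXlim := Ns_lim hs
  -- the factors
  have key : Tendsto (fun N : ℕ => ∏ k : Fin N, (1 + (((((N * s : ℝ) : ℂ) - (τ N k : ℂ)) * (T2 (N * s) - (τ N k : ℂ)) /
      ((((N * s : ℝ) : ℂ) + (τ N k : ℂ)) * (T2 (N * s) + (τ N k : ℂ)))) - 1))) atTop
      (𝓝 (Complex.exp (-((2 * ta / s : ℝ) : ℂ) * (1 + Complex.exp (Complex.I * (Real.pi / 3 : ℝ)))))) := by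
    apply prod_tendsto_exp
    intro ε hε
    obtain ⟨d, hd, h⟩ := phi_lim hs hε
    have h1 : ∀ᶠ N : ℕ in atTop, ‖T2 (N * s) / ((N * s : ℝ) : ℂ) - r0‖ < d := by
      have := (T2_lim.comp hXlim).eventually (Metric.ball_mem_nhds r0 hd)
      filter_upwards [this] with N hN
      rw [← dist_eq_norm]
      exact hN
    have h2 : ∀ᶠ N : ℕ in atTop, |1 / (N : ℝ)| < d := by
      have := inv_lim.eventually (Metric.ball_mem_nhds 0 hd)
      filter_upwards [this] with N hN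
      rw [← Real.norm_eq_abs, ← sub_zero (1 / (N : ℝ)), ← dist_eq_norm]
      exact hN
    filter_upwards [h1, h2, hδ (d / 2) (by linarith), hXlim.eventually_gt_atTop 1, eventually_ge_atTop 1]
      with N hN1 hN2 hN3 hN4 hN5
    intro k
    have h3 := h (τ N k) (1 / (N : ℝ)) (T2 (N * s) / ((N * s : ℝ) : ℂ)) (by
      have := hN3 k
      linarith) hN2 hN1
    refine le_trans (le_of_eq ?_) h3
    congr 2
    have hN0 : (N : ℂ) ≠ 0 := by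
      have : N ≠ 0 := by omega
      exact_mod_cast this
    have hs0 : (s : ℂ) ≠ 0 := by exact_mod_cast hs.ne'
    have ht0 : 0 < τ N k := lt_of_lt_of_le ta_pos (hτ N k).1
    have hX0 : ((N * s : ℝ) : ℂ) ≠ 0 := by
      have : (N : ℝ) * s ≠ 0 := by linarith
      exact_mod_cast this
    have hXt : ((N * s : ℝ) : ℂ) + (τ N k : ℂ) ≠ 0 := by
      have : (N : ℝ) * s + τ N k ≠ 0 := by linarith
      exact_mod_cast this
    have hTt : T2 (N * s) + (τ N k : ℂ) ≠ 0 := by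
      rw [add_comm]
      exact add_T2_ne ht0 hN4
    have a1 : (s : ℂ) + (τ N k : ℂ) * ((1 / (N : ℝ) : ℝ) : ℂ) = (((N * s : ℝ) : ℂ) + (τ N k : ℂ)) / N := by
      push_cast
      field_simp
    have a2 : T2 (N * s) / ((N * s : ℝ) : ℂ) + (τ N k : ℂ) * ((1 / (N : ℝ) : ℝ) : ℂ) / s =
        (T2 (N * s) + (τ N k : ℂ)) / ((N * s : ℝ) : ℂ) := by
      push_cast
      push_cast at hX0
      field_simp
    have a3 : 1 + T2 (N * s) / ((N * s : ℝ) : ℂ) = (((N * s : ℝ) : ℂ) + T2 (N * s)) / ((N * s : ℝ) : ℂ) := by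
      field_simp
    rw [a1, a2, a3]
    field_simp
    ring
  have h2 := (pre_lim.comp hXlim).mul key
  rw [one_mul] at h2
  refine h2.congr' ?_
  filter_upwards with N
  unfold Wf
  simp only [Function.comp]
  congr 1
  refine Finset.prod_congr rfl fun k _ => ?_
  ring

namespace A6

lemma ee_lim : Tendsto (fun X : ℝ => ee X / X) atTop (𝓝 2) := by
  have h1 : Tendsto (fun X : ℝ => 1 + Real.sqrt (X ^ 2 - 1) / X) atTop (𝓝 (1 + 1)) := tendsto_const_nhds.add sqrt_lim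
  have e : (1 : ℝ) + 1 = 2 := by norm_num
  rw [e] at h1
  refine h1.congr' ?_
  filter_upwards [eventually_gt_atTop (0 : ℝ)] with X hX
  unfold ee
  field_simp

/-- limit of c_2 X^(-3/4) -/
lemma c2_lim : ∃ κ : ℝ, Tendsto (fun X : ℝ => c2 X * ((X ^ (-(3 / 4) : ℝ) : ℝ) : ℂ)) atTop
    (𝓝 ((κ : ℂ) * (1 - Complex.I))) := by
  refine ⟨Real.sqrt 2 / 4 * 2 ^ (3 / 4 : ℝ), ?_⟩
  have hA : Tendsto (fun X : ℝ => (ee X / X) ^ (3 / 4 : ℝ)) atTop (𝓝 (2 ^ (3 / 4 : ℝ))) :=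
    ee_lim.rpow_const (Or.inl (by norm_num))
  have hB : Tendsto (fun X : ℝ => ee X ^ (-(3 / 4) : ℝ) * X ^ (-(3 / 4) : ℝ)) atTop (𝓝 0) := by
    have h1 : Tendsto (fun X : ℝ => X ^ (-(3 / 4) : ℝ)) atTop (𝓝 0) := tendsto_rpow_neg_atTop (by norm_num)
    refine tendsto_of_tendsto_of_tendsto_of_le_of_le' tendsto_const_nhds h1 ?_ ?_
    · filter_upwards [eventually_ge_atTop (1 : ℝ)] with X hX
      have := ee_pos hX
      positivity
    · filter_upwards [eventually_ge_atTop (1 : ℝ)] with X hX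
      have h2 : ee X ^ (-(3 / 4) : ℝ) ≤ 1 :=
        Real.rpow_le_one_of_one_le_of_nonpos (hX.trans (le_ee X)) (by norm_num)
      have h3 : 0 ≤ X ^ (-(3 / 4) : ℝ) := by positivity
      nlinarith
  have h1 : Tendsto (fun X : ℝ => ((Real.sqrt 2 / 4 * ((ee X / X) ^ (3 / 4 : ℝ) +
      ee X ^ (-(3 / 4) : ℝ) * X ^ (-(3 / 4) : ℝ)) : ℝ) : ℂ) - ((Real.sqrt 2 / 4 * ((ee X / X) ^ (3 / 4 : ℝ) -
      ee X ^ (-(3 / 4) : ℝ) * X ^ (-(3 / 4) : ℝ)) : ℝ) : ℂ) * Complex.I) atTop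
      (𝓝 (((Real.sqrt 2 / 4 * (2 ^ (3 / 4 : ℝ) + 0) : ℝ) : ℂ) -
        ((Real.sqrt 2 / 4 * (2 ^ (3 / 4 : ℝ) - 0) : ℝ) : ℂ) * Complex.I)) := by
    apply Tendsto.sub
    · exact (Complex.continuous_ofReal.tendsto _).comp ((hA.add hB).const_mul _)
    · exact ((Complex.continuous_ofReal.tendsto _).comp ((hA.sub hB).const_mul _)).mul_const _
  have e1 : ((Real.sqrt 2 / 4 * (2 ^ (3 / 4 : ℝ) + 0) : ℝ) : ℂ) -
        ((Real.sqrt 2 / 4 * (2 ^ (3 / 4 : ℝ) - 0) : ℝ) : ℂ) * Complex.I =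
      ((Real.sqrt 2 / 4 * 2 ^ (3 / 4 : ℝ) : ℝ) : ℂ) * (1 - Complex.I) := by
    rw [add_zero, sub_zero]
    ring
  rw [e1] at h1
  refine h1.congr' ?_
  filter_upwards [eventually_ge_atTop (1 : ℝ)] with X hX
  have hX0 : 0 < X := by linarith
  have hE := ee_pos hX
  have e2 : (ee X / X) ^ (3 / 4 : ℝ) = ee X ^ (3 / 4 : ℝ) * X ^ (-(3 / 4) : ℝ) := by
    rw [Real.div_rpow hE.le hX0.le, Real.rpow_neg hX0.le, div_eq_mul_inv]
  rw [c2_eq, cosh_val hX, sinh_val hX, e2]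
  push_cast
  ring

end A6

theorem src_lim {τ : (N : ℕ) → Fin N → ℝ} (hτ : ∀ N k, ta ≤ τ N k ∧ τ N k ≤ 1)
    (hδ : ∀ ε : ℝ, 0 < ε → ∀ᶠ N in atTop, ∀ k, |τ N k - ta| ≤ ε) :
    ∃ g : ℝ → ℝ, ∀ s : ℝ, 0 < s →
      Tendsto (fun N : ℕ => (N : ℝ) ^ (1 / 4 : ℝ) * src (Wf (τ N)) (N * s)) atTop (𝓝 (g s)) := by
  obtain ⟨κ, hκ⟩ := c2_lim
  refine ⟨fun s => -(s ^ (-(1 / 4) : ℝ)) * ((Complex.exp (-((2 * ta / s : ℝ) : ℂ) *
    (1 + Complex.exp (Complex.I * (Real.pi / 3 : ℝ)))) - 1) * ((κ : ℂ) * (1 - Complex.I))).im, fun s hs => ?_⟩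
  have hXlim := Ns_lim hs
  have hW := Wf_lim hτ hδ hs
  -- c_2 - cst, normalised
  have hc : Tendsto (fun N : ℕ => (c2 (N * s) - (cst : ℂ)) * ((((N : ℝ) * s) ^ (-(3 / 4) : ℝ) : ℝ) : ℂ)) atTop
      (𝓝 ((κ : ℂ) * (1 - Complex.I))) := by
    have h1 := hκ.comp hXlim
    have h2 : Tendsto (fun N : ℕ => (cst : ℂ) * ((((N : ℝ) * s) ^ (-(3 / 4) : ℝ) : ℝ) : ℂ)) atTop (𝓝 0) := by
      have h3 : Tendsto (fun X : ℝ => X ^ (-(3 / 4) : ℝ)) atTop (𝓝 0) := tendsto_rpow_neg_atTop (by norm_num)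
      have h4 := (Complex.continuous_ofReal.tendsto 0).comp (h3.comp hXlim)
      rw [Complex.ofReal_zero] at h4
      have h5 := h4.const_mul (cst : ℂ)
      rw [mul_zero] at h5
      exact h5
    have h6 := h1.sub h2
    rw [sub_zero] at h6
    refine h6.congr fun N => ?_
    simp only [Function.comp]
    ring
  have h1 := (hW.sub_const 1).mul hc
  have h2 := ((Complex.continuous_im.tendsto _).comp h1).const_mul (-(s ^ (-(1 / 4) : ℝ)))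
  refine h2.congr' ?_
  filter_upwards [hXlim.eventually_gt_atTop 1, eventually_ge_atTop 1] with N hN1 hN2
  have hN0 : (0 : ℝ) < N := by
    have : 0 < N := by omega
    exact_mod_cast this
  rw [src_eq _ hN1.le]
  simp only [Function.comp]
  have e1 : (Wf (τ N) (N * s) - 1) * ((c2 (N * s) - (cst : ℂ)) * ((((N : ℝ) * s) ^ (-(3 / 4) : ℝ) : ℝ) : ℂ)) =
      ((((N : ℝ) * s) ^ (-(3 / 4) : ℝ) : ℝ) : ℂ) * ((Wf (τ N) (N * s) - 1) * (c2 (N * s) - (cst : ℂ))) := by ring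
  rw [e1, Complex.im_ofReal_mul]
  have e2 : s ^ (-(1 / 4) : ℝ) * ((N : ℝ) * s) ^ (-(3 / 4) : ℝ) = (N : ℝ) ^ (1 / 4 : ℝ) * (1 / (N * s)) := by
    have e6 : 1 / ((N : ℝ) * s) = (N : ℝ) ^ (-1 : ℝ) * s ^ (-1 : ℝ) := by
      rw [Real.rpow_neg_one, Real.rpow_neg_one, one_div, mul_inv]
    rw [Real.mul_rpow hN0.le hs.le, e6]
    have e3 : s ^ (-(1 / 4) : ℝ) * s ^ (-(3 / 4) : ℝ) = s ^ (-1 : ℝ) := by
      rw [← Real.rpow_add hs]
      norm_num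
    have e4 : (N : ℝ) ^ (1 / 4 : ℝ) * (N : ℝ) ^ (-1 : ℝ) = (N : ℝ) ^ (-(3 / 4) : ℝ) := by
      rw [← Real.rpow_add hN0]
      norm_num
    calc s ^ (-(1 / 4) : ℝ) * ((N : ℝ) ^ (-(3 / 4) : ℝ) * s ^ (-(3 / 4) : ℝ)) =
        (s ^ (-(1 / 4) : ℝ) * s ^ (-(3 / 4) : ℝ)) * (N : ℝ) ^ (-(3 / 4) : ℝ) := by ring
      _ = s ^ (-1 : ℝ) * ((N : ℝ) ^ (1 / 4 : ℝ) * (N : ℝ) ^ (-1 : ℝ)) := by rw [e3, e4]
      _ = _ := by ring
  have e5 : -(s ^ (-(1 / 4) : ℝ)) * (((N : ℝ) * s) ^ (-(3 / 4) : ℝ) *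
      ((Wf (τ N) (N * s) - 1) * (c2 (N * s) - (cst : ℂ))).im) = -(s ^ (-(1 / 4) : ℝ) * ((N : ℝ) * s) ^ (-(3 / 4) : ℝ)) *
      ((Wf (τ N) (N * s) - 1) * (c2 (N * s) - (cst : ℂ))).im := by ring
  rw [e5, e2]
  ring

end EXS
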