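import Pool.Agent.EXS.S1
import Pool.Agent.EXS.S7
import Pool.Agent.EXL.Closing
import Pool.Agent.EXL.GlLim

/-! SHARP S8: from the lattice side to the sharp asymptotics. -/

set_option autoImplicit false

namespace EXS

open Filter Topology Pool.Agent.EXL

theorem SD_of_bf {N : ℕ} {x : Fin N → ℝ} (hx : Cl.Nd x) {b : ℂ → ℂ} {B ρ : ℂ} (hb : Cl.BF x b B ρ)
    {β : ℝ} (hβ : (β : ℂ) ^ 2 = B ^ 2) :
    ∃ (s0 : ℝ) (s : Fin N → ℝ), SD x s0 s ∧ |β| = |SS x s0 s cst| := by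
  refine SD_of_closing hx fun a a'' h1 h3 => ?_
  obtain ⟨a', ha'⟩ := solv hx fun j => Cl.S2 (Cl.ep (x j))
  have h2 : ∀ k, Cl.resE x 0 a' (Cl.ep (x k)) = 0 := by
    intro k
    unfold Cl.resE
    rw [ha' k]
    ring
  obtain ⟨hne, σ, hσ, h⟩ := Cl.closing hx hb h1 h2 h3
  refine ⟨hne, ?_⟩
  rcases sq_eq_sq_iff_eq_or_eq_neg.1 hβ with h4 | h4
  · exact ⟨σ, hσ, by rw [h, h4]⟩
  · refine ⟨-σ, ?_, ?_⟩
    · rcases hσ with h5 | h5
      · right; rw [h5]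
      · left; rw [h5, neg_neg]
    · rw [h, h4]; ring

/-- the sharp asymptotics from the lattice side -/
theorem sharp_lat {B : ℕ → ℝ} (hB0 : B 0 = 1) (hnn : ∀ N, 0 ≤ B N)
    (hL : ∀ n, 1 ≤ n → ∃ Bx : (Fin n → ℝ) → ℂ,
      Tendsto Bx (𝓝[{x | Cl.Nd x}] fun _ => Real.pi / 16) (𝓝 (B n : ℂ)) ∧
      ∀ᶠ x in 𝓝[{x | Cl.Nd x}] (fun _ : Fin n => Real.pi / 16),
        ∃ (b : ℂ → ℂ) (ρ : ℂ), Cl.BF x b (Bx x) ρ)
    {c : ℝ} (hc : 0 < c) (hB : ∀ N : ℕ, 1 ≤ N → c * (N : ℝ) ^ (-(1 / 4) : ℝ) ≤ B N) :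
    ∃ b : ℝ, 0 < b ∧ Tendsto (fun N : ℕ => (N : ℝ) ^ (1 / 4 : ℝ) * B N) atTop (𝓝 b) := by
  refine sharp hc hB fun n ε hε => ?_
  rcases Nat.eq_zero_or_pos n with rfl | hn
  · refine ⟨fun _ => 0, 1, fun _ => 0, ⟨fun i => i.elim0, fun i => i.elim0, fun i => i.elim0,
      fun i => i.elim0, by simp⟩, fun i => i.elim0, ?_⟩
    have h1 : HH cst (Real.cos (Real.pi / 8)) = 1 := by
      unfold HH cst
      have e1 : Real.cos (3 * Real.pi / 8) = Real.sin (Real.pi / 8) := by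
        rw [show 3 * Real.pi / 8 = Real.pi / 2 - Real.pi / 8 by ring, Real.cos_pi_div_two_sub]
      have e2 := Real.sin_two_mul (Real.pi / 8)
      rw [show 2 * (Real.pi / 8) = Real.pi / 4 by ring, Real.sin_pi_div_four] at e2
      have e3 : √2 * √2 = 2 := Real.mul_self_sqrt (by norm_num)
      rw [e1]
      linear_combination Real.sin_sq_add_cos_sq (Real.pi / 8) - √2 / 2 * e2 + 1 / 4 * e3
    have h2 : SS (fun _ : Fin 0 => (0 : ℝ)) 1 (fun _ => 0) cst = 1 := by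
      unfold SS
      rw [h1]
      simp
    rw [h2, hB0]
    simpa using hε.le
  · obtain ⟨Bx, hlim, hbf⟩ := hL n hn
    have ht := Glue.tendsto_zs n
    have e1 : ∀ᶠ t in 𝓝[>] (0 : ℝ),
        ‖Bx (fun i => P2F.xx (Glue.zs n t i)) - (B n : ℂ)‖ < ε := by
      have := (hlim.comp ht)
      have h3 := Metric.tendsto_nhds.1 this ε hε
      filter_upwards [h3] with t h4
      rw [← dist_eq_norm]
      exact h4
    have e2 : ∀ᶠ t in 𝓝[>] (0 : ℝ), ∀ k : Fin n, |P2F.xx (Glue.zs n t k) - Real.pi / 16| < ε := by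
      have h3 : Tendsto (fun t : ℝ => fun i : Fin n => P2F.xx (Glue.zs n t i)) (𝓝[>] 0)
          (𝓝 fun _ => Real.pi / 16) := ht.mono_right nhdsWithin_le_nhds
      rw [eventually_all]
      intro k
      have h4 := (tendsto_pi_nhds.1 h3 k)
      have h5 := Metric.tendsto_nhds.1 h4 ε hε
      filter_upwards [h5] with t h6
      rw [← Real.dist_eq]
      exact h6
    obtain ⟨t, h1, h2, ⟨b, ρ, h3⟩, h4, h5⟩ :=
      (e1.and (e2.and ((ht.eventually hbf).and ((Glue.small_ev n).and self_mem_nhdsWithin)))).exists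
    have h5' : (0 : ℝ) < t := h5
    have hs := fun i => Glue.zs_small h5' h4 i
    have hs' : ∀ i, |Glue.zs n t i| < 1 / 20 := fun i => by
      rw [abs_of_pos (hs i).1]; exact (hs i).2
    have hnd := Glue.nd_zs h5' h4
    obtain ⟨β, hβ, -⟩ := Glue.rel hs' (Glue.zs_inj h5') hnd
      (fun a a' a'' g1 g2 g3 => Cl.closing hnd h3 g1 g2 g3)
    obtain ⟨s0, s, hSD, hS⟩ := SD_of_bf hnd h3 hβ
    refine ⟨_, s0, s, hSD, fun k => (h2 k).le, ?_⟩
    rw [← hS]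
    have h6 : |β| = ‖Bx (fun i => P2F.xx (Glue.zs n t i))‖ := by
      have h7 : ‖(β : ℂ) ^ 2‖ = ‖Bx (fun i => P2F.xx (Glue.zs n t i)) ^ 2‖ := by rw [hβ]
      rw [norm_pow, norm_pow, Complex.norm_real, Real.norm_eq_abs] at h7
      exact (pow_left_inj₀ (abs_nonneg _) (norm_nonneg _) two_ne_zero).1 h7
    have h8 : B n = ‖(B n : ℂ)‖ := by
      rw [Complex.norm_real, Real.norm_eq_abs, abs_of_nonneg (hnn n)]
    rw [h6, h8, abs_sub_comm]
    exact (abs_norm_sub_norm_le _ _).trans h1.le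

end EXS
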