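import Pool.Agent.EXS.U6
import Pool.Agent.EXS.S3
import Pool.Agent.EXS.S5

/-!
SHARP for arbitrary physical rows (UNIV, U1): one constant for all rows.
-/

set_option autoImplicit false

namespace EXS.Univ

open MeasureTheory Filter Topology Set EXS

/-- rows with a solution of the integral equation -/
structure Dat where
  /-- the number of rows -/
  n : ℕ
  /-- the heights of the rows -/
  τ : Fin n → ℝ
  /-- the solution -/
  v : ℝ → ℝ
  hτ : ∀ k, ta ≤ τ k ∧ τ k ≤ 1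
  hm : Measurable v
  hb : ∃ M : ℝ, Bd v M
  heq : ∀ X : ℝ, 1 < X → v X = src (Wf τ) X + KW (Wf τ) v X

/-- the total height -/
noncomputable def Dat.H (D : Dat) : ℝ := ∑ k, D.τ k

/-- the rescaled value -/
noncomputable def Dat.val (D : Dat) : ℝ := D.H ^ (1 / 4 : ℝ) *
  ((1 / Real.pi) * ∫ X in Set.Ioi (1 : ℝ), (D.v X + sh X) / X)

theorem Dat.lim (D : ℕ → Dat) (h : Tendsto (fun j => (D j).H) atTop atTop) :
    ∃ b : ℝ, Tendsto (fun j => (D j).val) atTop (𝓝 b) :=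
  lim_exists (n := fun j => (D j).n) (τ := fun j => (D j).τ) (h := fun j => (D j).H)
    (fun j => (D j).hτ) (fun _ => rfl) h (v := fun j => (D j).v) (fun j => (D j).hm)
    (fun j => (D j).hb) (fun j => (D j).heq)

/-- **one constant for all rows** -/
theorem Dat.univ : ∃ b : ℝ, ∀ ε : ℝ, 0 < ε → ∃ R : ℝ, ∀ D : Dat, R ≤ D.H → |D.val - b| ≤ ε := by
  by_cases hex : ∀ R : ℝ, ∃ D : Dat, R ≤ D.H
  swap
  · push Not at hex
    obtain ⟨R, hR⟩ := hex
    exact ⟨0, fun ε _ => ⟨R, fun D hD => absurd hD (not_le.2 (hR D))⟩⟩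
  choose D1 hD1 using fun j : ℕ => hex j
  have hl1 : Tendsto (fun j => (D1 j).H) atTop atTop :=
    tendsto_atTop_mono hD1 tendsto_natCast_atTop_atTop
  obtain ⟨b, hb⟩ := Dat.lim D1 hl1
  refine ⟨b, fun ε hε => ?_⟩
  by_contra hcon
  push Not at hcon
  choose D2 hD2 hD2' using fun j : ℕ => hcon j
  have hl2 : Tendsto (fun j => (D2 j).H) atTop atTop :=
    tendsto_atTop_mono hD2 tendsto_natCast_atTop_atTop
  -- interleave
  set D : ℕ → Dat := fun i => if Even i then D1 (i / 2) else D2 (i / 2) with hD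
  have hDl : Tendsto (fun j => (D j).H) atTop atTop := by
    refine tendsto_atTop.2 fun R => ?_
    have h1 := hl1.eventually_ge_atTop R
    have h2 := hl2.eventually_ge_atTop R
    obtain ⟨N1, h1⟩ := h1.exists_forall_of_atTop
    obtain ⟨N2, h2⟩ := h2.exists_forall_of_atTop
    filter_upwards [eventually_ge_atTop (2 * (N1 + N2))] with i hi
    simp only [hD]
    split_ifs
    · exact h1 _ (by omega)
    · exact h2 _ (by omega)
  obtain ⟨L, hL⟩ := Dat.lim D hDl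
  have e1 : Tendsto (fun j : ℕ => 2 * j) atTop atTop :=
    tendsto_atTop_mono (fun j => show j ≤ 2 * j by omega) tendsto_id
  have e2 : Tendsto (fun j : ℕ => 2 * j + 1) atTop atTop :=
    tendsto_atTop_mono (fun j => show j ≤ 2 * j + 1 by omega) tendsto_id
  have hLb : L = b := by
    refine tendsto_nhds_unique (hL.comp e1) (hb.congr fun j => ?_)
    simp [hD]
  have h3 : Tendsto (fun j => |(D2 j).val - b|) atTop (𝓝 0) := by
    have h4 : Tendsto (fun j => (D2 j).val) atTop (𝓝 b) := by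
      rw [← hLb]
      refine (hL.comp e2).congr fun j => ?_
      have h5 : ¬ Even (2 * j + 1) := by
        rw [Nat.not_even_iff_odd]
        exact odd_two_mul_add_one j
      have h6 : (2 * j + 1) / 2 = j := by omega
      simp [hD, h5, h6]
    have h5 := (h4.sub_const b).abs
    rwa [sub_self, abs_zero] at h5
  have h4 : ε ≤ 0 := ge_of_tendsto' h3 fun j => (hD2' j).le
  linarith

theorem cst_pos : 0 < cst :=
  Real.cos_pos_of_mem_Ioo ⟨by linarith [Real.pi_pos], by linarith [Real.pi_pos]⟩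

theorem ta_le_cos {y : ℝ} (h1 : 0 ≤ y) (h2 : y ≤ Real.pi / 16) :
    ta ≤ Real.cos (8 * y / 3) ∧ Real.cos (8 * y / 3) ≤ 1 := by
  refine ⟨?_, Real.cos_le_one _⟩
  rw [ta, ← Real.cos_pi_div_six]
  apply Real.cos_le_cos_of_nonneg_of_le_pi
  · linarith
  · linarith [Real.pi_pos]
  · linarith

/-- the height of the rows `x` -/
noncomputable def hgt {N : ℕ} (x : Fin N → ℝ) : ℝ := ∑ k, Real.cos (8 * x k / 3)

/-- **all distinct nodes in `(0, π/16)`**: `|SS cst|` times the fourth root of the height tends to one constant,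
uniformly in the nodes. -/
theorem nodes_univ : ∃ b : ℝ, 0 ≤ b ∧ ∀ ε : ℝ, 0 < ε → ∃ R : ℝ, ∀ (N : ℕ) (x : Fin N → ℝ) (s0 : ℝ)
    (s : Fin N → ℝ), SD x s0 s → R ≤ hgt x → |hgt x ^ (1 / 4 : ℝ) * |SS x s0 s cst| - b| ≤ ε := by
  obtain ⟨b, hb⟩ := Dat.univ
  have h3 : 0 < Real.sqrt 3 := Real.sqrt_pos.2 (by norm_num)
  have hc := cst_pos
  refine ⟨8 * cst / Real.sqrt 3 * |b|, by positivity, fun ε hε => ?_⟩
  obtain ⟨R, hR⟩ := hb (ε * (Real.sqrt 3 / (8 * cst))) (by positivity)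
  refine ⟨max R 0, fun N x s0 s hS hx => ?_⟩
  obtain ⟨U, hU, hn⟩ := exists_UF hS
  obtain ⟨v, hm, hbd, heq, hv⟩ := integral_eq hU
  have h1 := hR ⟨N, fun k => Real.cos (8 * x k / 3), v, fun k => ta_le_cos (hS.pos k).le (hS.lt k).le,
    hm, hbd, heq⟩ ((le_max_left _ _).trans hx)
  have h2 : hgt x ^ (1 / 4 : ℝ) * |SS x s0 s cst| = 8 * cst / Real.sqrt 3 *
      |Dat.val ⟨N, fun k => Real.cos (8 * x k / 3), v, fun k => ta_le_cos (hS.pos k).le (hS.lt k).le,
    hm, hbd, heq⟩| := by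
    unfold Dat.val Dat.H hgt
    have e1 : |(1 / Real.pi) * ∫ X in Set.Ioi (1 : ℝ), (v X + sh X) / X| =
        Real.sqrt 3 / 8 * |SS x s0 s cst| / cst := by
      rw [← hn, hv, Complex.norm_real, Real.norm_eq_abs]
    have h0 : 0 ≤ ∑ k, Real.cos (8 * x k / 3) := (le_max_right _ _).trans hx
    rw [abs_mul, e1, abs_of_nonneg (Real.rpow_nonneg h0 _)]
    field_simp
  rw [h2, ← mul_sub, abs_mul, abs_of_pos (by positivity : 0 < 8 * cst / Real.sqrt 3)]
  calc _ ≤ 8 * cst / Real.sqrt 3 * (ε * (Real.sqrt 3 / (8 * cst))) := by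
        gcongr
        exact (abs_abs_sub_abs_le _ _).trans h1
    _ = ε := by field_simp

theorem hgt_dist {N : ℕ} {x y : Fin N → ℝ} {δ : ℝ} (h : ∀ k, |x k - y k| ≤ δ) :
    |hgt x - hgt y| ≤ N * (3 * δ) := by
  unfold hgt
  rw [← Finset.sum_sub_distrib]
  refine (Finset.abs_sum_le_sum_abs _ _).trans ?_
  have h1 : ∀ k ∈ (Finset.univ : Finset (Fin N)),
      |Real.cos (8 * x k / 3) - Real.cos (8 * y k / 3)| ≤ 3 * δ := by
    intro k _
    have h2 : |Real.cos (8 * x k / 3) - Real.cos (8 * y k / 3)| ≤ |8 * x k / 3 - 8 * y k / 3| := by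
      have := Real.lipschitzWith_cos.dist_le_mul (8 * x k / 3) (8 * y k / 3)
      simpa [Real.dist_eq] using this
    have h3 : |8 * x k / 3 - 8 * y k / 3| = 8 / 3 * |x k - y k| := by
      have e : 8 * x k / 3 - 8 * y k / 3 = 8 / 3 * (x k - y k) := by ring
      rw [e, abs_mul, abs_of_pos (show (0 : ℝ) < 8 / 3 by norm_num)]
    have := h k
    have h0 := abs_nonneg (x k - y k)
    linarith
  refine (Finset.sum_le_sum h1).trans ?_
  rw [Finset.sum_const, Finset.card_univ, Fintype.card_fin, nsmul_eq_mul]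

/-- fourth roots are 1-Lipschitz on `[1, ∞)` -/
theorem root_lip {a b : ℝ} (ha : 1 ≤ a) (hb : 1 ≤ b) : |a ^ (1 / 4 : ℝ) - b ^ (1 / 4 : ℝ)| ≤ |a - b| := by
  have key : ∀ {a b : ℝ}, 1 ≤ b → b ≤ a → a ^ (1 / 4 : ℝ) - b ^ (1 / 4 : ℝ) ≤ a - b := by
    intro a b hb hab
    have hb0 : 0 < b := by linarith
    -- `a ^ (1/4) ≤ b ^ (1/4) * (a / b)`
    have h1 : a ^ (1 / 4 : ℝ) = b ^ (1 / 4 : ℝ) * (a / b) ^ (1 / 4 : ℝ) := by
      have ha0 : 0 ≤ a / b := div_nonneg (by linarith) hb0.le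
      rw [← Real.mul_rpow hb0.le ha0]
      congr 1
      field_simp
    have h2 : (a / b) ^ (1 / 4 : ℝ) ≤ a / b := by
      have h3 : 1 ≤ a / b := by
        rw [le_div_iff₀ hb0]
        linarith
      calc (a / b) ^ (1 / 4 : ℝ) ≤ (a / b) ^ (1 : ℝ) :=
            Real.rpow_le_rpow_of_exponent_le h3 (by norm_num)
        _ = a / b := Real.rpow_one _
    have h4 : b ^ (1 / 4 : ℝ) ≤ b := by
      calc b ^ (1 / 4 : ℝ) ≤ b ^ (1 : ℝ) := Real.rpow_le_rpow_of_exponent_le hb (by norm_num)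
        _ = b := Real.rpow_one _
    have h5 : 0 ≤ b ^ (1 / 4 : ℝ) := Real.rpow_nonneg hb0.le _
    have h6 : a / b - 1 = (a - b) / b := by field_simp
    have h7 : 0 ≤ a / b - 1 := by
      rw [h6]
      exact div_nonneg (by linarith) hb0.le
    calc a ^ (1 / 4 : ℝ) - b ^ (1 / 4 : ℝ) ≤ b ^ (1 / 4 : ℝ) * (a / b) - b ^ (1 / 4 : ℝ) := by
          rw [h1]
          nlinarith
      _ = b ^ (1 / 4 : ℝ) * (a / b - 1) := by ring
      _ ≤ b * (a / b - 1) := mul_le_mul_of_nonneg_right h4 h7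
      _ = a - b := by field_simp
  rcases le_total b a with h | h
  · rw [abs_of_nonneg (sub_nonneg.2 (Real.rpow_le_rpow (by linarith) h (by norm_num))),
      abs_of_nonneg (sub_nonneg.2 h)]
    exact key hb h
  · rw [abs_sub_comm, abs_sub_comm a b,
      abs_of_nonneg (sub_nonneg.2 (Real.rpow_le_rpow (by linarith) h (by norm_num))),
      abs_of_nonneg (sub_nonneg.2 h)]
    exact key ha h

/-- **UNIV, U1**. `B x` = the bridge weight of the strip with the rows `x k` (`u = x + 3π/16`,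
`|x k| ≤ π/16`), a limit of the closing values at distinct nodes. Then `B x` times the fourth root of the
height tends to one constant, uniformly in the rows. -/
theorem sharp_univ {B : (N : ℕ) → (Fin N → ℝ) → ℝ}
    (hlim : ∀ (N : ℕ) (x : Fin N → ℝ), (∀ k, |x k| ≤ Real.pi / 16) → ∀ ε : ℝ, 0 < ε →
      ∃ (y : Fin N → ℝ) (s0 : ℝ) (s : Fin N → ℝ), SD y s0 s ∧ (∀ k, |abs (x k) - y k| ≤ ε) ∧
        abs (B N x - abs (SS y s0 s cst)) ≤ ε) :
    ∃ b : ℝ, 0 ≤ b ∧ ∀ ε : ℝ, 0 < ε → ∃ R : ℝ, ∀ (N : ℕ) (x : Fin N → ℝ),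
      (∀ k, |x k| ≤ Real.pi / 16) → R ≤ hgt x → |hgt x ^ (1 / 4 : ℝ) * B N x - b| ≤ ε := by
  obtain ⟨b, hb0, hb⟩ := nodes_univ
  refine ⟨b, hb0, fun ε hε => ?_⟩
  obtain ⟨R, hR⟩ := hb (ε / 4) (by positivity)
  refine ⟨max (R + 1) 2, fun N x hx hH => ?_⟩
  have hH1 : R + 1 ≤ hgt x := (le_max_left _ _).trans hH
  have hH2 : 2 ≤ hgt x := (le_max_right _ _).trans hH
  set δ : ℝ := min (1 / (3 * ((N : ℝ) + 1))) (ε / (12 * ((N : ℝ) + 1) * (b + ε + 1))) with hδ
  have hN0 : (0 : ℝ) ≤ N := Nat.cast_nonneg N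
  have hδ0 : 0 < δ := by
    rw [hδ]
    positivity
  obtain ⟨y, s0, s, hS, hxy, hB⟩ := hlim N x hx δ hδ0
  have habs : hgt x = hgt (fun k => |x k|) := by
    unfold hgt
    refine Finset.sum_congr rfl fun k _ => ?_
    show Real.cos (8 * x k / 3) = Real.cos (8 * |x k| / 3)
    rcases abs_cases (x k) with ⟨h, _⟩ | ⟨h, _⟩
    · rw [h]
    · rw [h, show 8 * -x k / 3 = -(8 * x k / 3) by ring, Real.cos_neg]
  have h1 : |hgt x - hgt y| ≤ N * (3 * δ) := by
    rw [habs]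
    exact hgt_dist hxy
  have hd1 : (N : ℝ) * (3 * δ) ≤ 1 := by
    have h2 : δ ≤ 1 / (3 * ((N : ℝ) + 1)) := min_le_left _ _
    calc (N : ℝ) * (3 * δ) ≤ ((N : ℝ) + 1) * (3 * (1 / (3 * ((N : ℝ) + 1)))) := by
          gcongr
          linarith
      _ = 1 := by field_simp
  have hy : hgt x - 1 ≤ hgt y := by
    have := (abs_le.1 (h1.trans hd1)).2
    linarith
  have hy1 : 1 ≤ hgt y := by linarith
  have h2 := hR N y s0 s hS (by linarith)
  set P := hgt x ^ (1 / 4 : ℝ) with hP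
  set Q := hgt y ^ (1 / 4 : ℝ) with hQ
  set V := |SS y s0 s cst| with hV
  have hV0 : 0 ≤ V := abs_nonneg _
  have hPQ : |P - Q| ≤ N * (3 * δ) := (root_lip (by linarith) hy1).trans h1
  have hQ1 : 1 ≤ Q := Real.one_le_rpow hy1 (by norm_num)
  have hVb : V ≤ b + ε := by
    have h3 : Q * V ≤ b + ε / 4 := by linarith [(abs_le.1 h2).2]
    nlinarith
  have hPN : P ≤ (N : ℝ) + 1 := by
    have h3 : hgt x ≤ N := by
      unfold hgt
      calc _ ≤ ∑ _k : Fin N, (1 : ℝ) := Finset.sum_le_sum fun k _ => Real.cos_le_one _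
        _ = N := by simp
    calc P ≤ hgt x ^ (1 : ℝ) :=
          Real.rpow_le_rpow_of_exponent_le (by linarith) (by norm_num)
      _ = hgt x := Real.rpow_one _
      _ ≤ _ := by linarith
  have hP0 : 0 ≤ P := Real.rpow_nonneg (by linarith) _
  have hδ2 : δ ≤ ε / (12 * ((N : ℝ) + 1) * (b + ε + 1)) := min_le_right _ _
  have e : P * B N x - b = P * (B N x - V) + (P - Q) * V + (Q * V - b) := by ring
  rw [e]
  have hbe : 0 < b + ε + 1 := by positivity
  have t1 : |P * (B N x - V)| ≤ ε / 4 := by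
    rw [abs_mul, abs_of_nonneg hP0]
    calc P * |B N x - V| ≤ ((N : ℝ) + 1) * (ε / (12 * ((N : ℝ) + 1) * (b + ε + 1))) := by
          gcongr
          exact hB.trans hδ2
      _ = ε / (12 * (b + ε + 1)) := by field_simp
      _ ≤ ε / 4 := by
          gcongr
          linarith
  have t2 : |(P - Q) * V| ≤ ε / 4 := by
    rw [abs_mul, abs_of_nonneg hV0]
    calc |P - Q| * V ≤ (((N : ℝ) + 1) * (3 * (ε / (12 * ((N : ℝ) + 1) * (b + ε + 1))))) * (b + ε + 1) := by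
          refine mul_le_mul (hPQ.trans ?_) (by linarith) hV0 (by positivity)
          gcongr
          linarith
      _ = ε / 4 := by
          field_simp
          norm_num
  calc |P * (B N x - V) + (P - Q) * V + (Q * V - b)| ≤
        |P * (B N x - V)| + |(P - Q) * V| + |Q * V - b| := by
          refine (abs_add_le _ _).trans ?_
          gcongr
          exact abs_add_le _ _
    _ ≤ ε / 4 + ε / 4 + ε / 4 := by gcongr
    _ ≤ ε := by linarith

/-- the constant is positive as soon as one sequence of rows has the lower bound `c H^(-1/4)` -/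
theorem pos_of {B : (N : ℕ) → (Fin N → ℝ) → ℝ} {b c : ℝ} (hc : 0 < c)
    (hb : ∀ ε : ℝ, 0 < ε → ∃ R : ℝ, ∀ (N : ℕ) (x : Fin N → ℝ),
      (∀ k, |x k| ≤ Real.pi / 16) → R ≤ hgt x → |hgt x ^ (1 / 4 : ℝ) * B N x - b| ≤ ε)
    (hB : ∀ N : ℕ, 1 ≤ N → c * (N : ℝ) ^ (-(1 / 4) : ℝ) ≤ B N (fun _ => Real.pi / 16)) : 0 < b := by
  obtain ⟨R, hR⟩ := hb (c * (1 / 4)) (by positivity)
  obtain ⟨N, hN⟩ := exists_nat_ge (max R 1 * 2)
  have hN1 : (1 : ℝ) ≤ N := by
    have := le_max_right R 1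
    linarith
  have hN0 : (0 : ℝ) < N := by linarith
  have hta : Real.cos (8 * (Real.pi / 16) / 3) = ta := by
    rw [ta, ← Real.cos_pi_div_six]
    congr 1
    ring
  have hg : hgt (fun _ : Fin N => Real.pi / 16) = N * ta := by
    unfold hgt
    rw [Finset.sum_const, Finset.card_univ, Fintype.card_fin, nsmul_eq_mul, hta]
  have h2 := ta_gt_half
  have h3 := hR N (fun _ => Real.pi / 16) (fun _ => (abs_of_pos (by positivity)).le) (by
    rw [hg]
    have := le_max_left R 1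
    nlinarith)
  have h4 := hB N (by exact_mod_cast hN1)
  rw [hg] at h3
  have h5 : (1 / 2 : ℝ) ≤ ta ^ (1 / 4 : ℝ) := by
    have h6 : ta ^ (1 : ℝ) ≤ ta ^ (1 / 4 : ℝ) :=
      Real.rpow_le_rpow_of_exponent_ge ta_pos ta_lt_one.le (by norm_num)
    rw [Real.rpow_one] at h6
    linarith
  have h6 : c * (1 / 2) ≤ ((N : ℝ) * ta) ^ (1 / 4 : ℝ) * B N (fun _ => Real.pi / 16) := by
    rw [Real.mul_rpow hN0.le ta_pos.le]
    have e : (N : ℝ) ^ (1 / 4 : ℝ) * (N : ℝ) ^ (-(1 / 4) : ℝ) = 1 := by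
      rw [← Real.rpow_add hN0]
      simp
    calc c * (1 / 2) ≤ c * ta ^ (1 / 4 : ℝ) := by gcongr
      _ = (N : ℝ) ^ (1 / 4 : ℝ) * ta ^ (1 / 4 : ℝ) * (c * (N : ℝ) ^ (-(1 / 4) : ℝ)) := by
          rw [show (N : ℝ) ^ (1 / 4 : ℝ) * ta ^ (1 / 4 : ℝ) * (c * (N : ℝ) ^ (-(1 / 4) : ℝ)) =
            c * ta ^ (1 / 4 : ℝ) * ((N : ℝ) ^ (1 / 4 : ℝ) * (N : ℝ) ^ (-(1 / 4) : ℝ)) by ring, e, mul_one]
      _ ≤ _ := by
          have := ta_pos
          gcongr
  have h7 := (abs_le.1 h3).2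
  linarith

end EXS.Univ
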