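import Mathlib

/-!
SHARP (board/SHARP, doc proof/EXACT_P2sharp_h59, U-form): definitions.
-/

set_option autoImplicit false

namespace EXS

open MeasureTheory Filter Topology

/-- √3/2 -/
noncomputable def ta : ℝ := Real.sqrt 3 / 2

/-- cos(3π/8) -/
noncomputable def cst : ℝ := Real.cos (3 * Real.pi / 8)

/-- T_2(X) = cos (π/3 + i η), X = cosh η -/
noncomputable def T2 (X : ℝ) : ℂ := ⟨X / 2, -(ta * Real.sqrt (X ^ 2 - 1))⟩

/-- c at T_2(X): cos (π/4 + i (3/4) η), X = cosh η -/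
noncomputable def c2 (X : ℝ) : ℂ := Complex.cos (Real.pi / 4 + Complex.I * ((3 / 4 * Real.arcosh X : ℝ) : ℂ))

/-- minus the imaginary part of c at -X, divided by X -/
noncomputable def sh (X : ℝ) : ℝ := Real.sinh (3 / 4 * Real.arcosh X) / (Real.sqrt 2 * X)

/-- Cauchy transform -/
noncomputable def Cf (f : ℝ → ℝ) (T : ℂ) : ℂ :=
  ((1 / Real.pi : ℝ) : ℂ) * ∫ x in Set.Ioi (1 : ℝ), (f x : ℂ) / ((x : ℂ) + T)

/-- the weight of the rows τ -/
noncomputable def Wf {N : ℕ} (τ : Fin N → ℝ) (X : ℝ) : ℂ :=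
  (((X : ℂ) - 1 / 2) / ((X : ℂ) + (ta : ℂ))) * ((T2 X - (ta : ℂ)) / (T2 X + 1 / 2)) *
    ∏ k, (((X : ℂ) - (τ k : ℂ)) * (T2 X - (τ k : ℂ)) / (((X : ℂ) + (τ k : ℂ)) * (T2 X + (τ k : ℂ))))

/-- the multiplier in the jump relation -/
noncomputable def Wt (W : ℝ → ℂ) (X : ℝ) : ℂ := -(T2 X / (X : ℂ)) * W X

/-- the operator of the integral equation -/
noncomputable def KW (W : ℝ → ℂ) (f : ℝ → ℝ) (X : ℝ) : ℝ := (Wt W X * Cf f (T2 X)).im

/-- the source of the integral equation -/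
noncomputable def src (W : ℝ → ℂ) (X : ℝ) : ℝ := (Wt W X * ((c2 X - (cst : ℂ)) / T2 X)).im - sh X

/-- the norm -/
def Bd (f : ℝ → ℝ) (M : ℝ) : Prop := ∀ X : ℝ, 1 < X → |f X| ≤ M * X ^ (-(3 / 4) : ℝ)

/-- the quadratic form H(c, q) = c^2 + q^2 + √2 c q - 1/2 -/
noncomputable def HH (c q : ℝ) : ℝ := c ^ 2 + q ^ 2 + Real.sqrt 2 * c * q - 1 / 2

/-- the residual function in the variable c, last node cos(π/8) -/
noncomputable def SS {N : ℕ} (x : Fin N → ℝ) (s0 : ℝ) (s : Fin N → ℝ) (c : ℝ) : ℝ :=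
  s0 / HH c (Real.cos (Real.pi / 8)) + ∑ k, s k / HH c (Real.cos (2 * x k))

/-- residual data: nodes x_k, SS vanishes at the nodes, the coefficients have the sum 1 -/
structure SD {N : ℕ} (x : Fin N → ℝ) (s0 : ℝ) (s : Fin N → ℝ) : Prop where
  inj : Function.Injective x
  pos : ∀ k, 0 < x k
  lt : ∀ k, x k < Real.pi / 16
  zero : ∀ k, SS x s0 s (Real.cos (2 * x k)) = 0
  sum : s0 + ∑ k, s k = 1

/-- the analytic function of the strip |Re w| ≤ π: all that is used of it -/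
structure UF {N : ℕ} (τ : Fin N → ℝ) (U : ℂ → ℂ) : Prop where
  cont : ContinuousOn U {w | |w.re| ≤ Real.pi}
  diff : DifferentiableOn ℂ U {w | |w.re| < Real.pi}
  even : ∀ w, U (-w) = U w
  real : ∀ w, U (starRingEnd ℂ w) = starRingEnd ℂ (U w)
  bd : ∃ C : ℝ, ∀ w : ℂ, |w.re| ≤ Real.pi → ‖U w‖ ≤ C * Real.exp (-(|w.im| / 4))
  asy : ∃ C : ℝ, ∀ w : ℂ, |w.re| ≤ Real.pi →
    ‖U w - (Complex.cos (3 * w / 4) - (cst : ℂ)) / Complex.cos w‖ ≤ C * Real.exp (-|w.im|)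
  jump : ∀ η : ℝ, 0 < η → (U ((Real.pi : ℂ) + Complex.I * (η : ℂ))).im =
    (Wt (Wf τ) (Real.cosh η) * U (((Real.pi / 3 : ℝ) : ℂ) + Complex.I * (η : ℂ))).im

end EXS
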